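import Pool.Agent.Helper71.KH.Alg

/-!
# Project KH, piece ABS: the abstract vanishing principle

PROOF. For `x : Fin (m + k + 1) → G` write `x₁ = (x 0, .., x m)`, `x₂ = (x m, .., x (m + k))` and put
`B x = ∫ z, c z x₂ • v (Fin.cons (σ z) x₁) ∂μ`.
Measurability in `z`: `s ↦ v (Fin.cons s x₁)` is continuous from a second countable space, hence strongly
measurable for the Borel structure (`borel G`, `Continuous.stronglyMeasurable`), and `σ` is Borel by `hσ`
(`measurable_of_isOpen`).
Integrability and bound: `hcd` (with `x' = x`, `Filter.Eventually.self_of_nhds`) and `hcm` give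
`Integrable (c · x)`; with `‖v‖ ≤ Cv`, `‖B x‖ ≤ Cv * C`.
Continuity: `MeasureTheory.continuousAt_of_dominated` with the bound `Cv * bound z`, `hcc`, continuity of `v` and of
`x ↦ x₁, x₂`.
Equivariance: `B (γ x) = ∫ z, c z (γ x₂) • v (σ z, γ x₁) = ∫ z, c (τ γ z) (γ x₂) • v (σ (τ γ z), γ x₁)`
(`MeasurePreserving`, `integral_map` or `MeasurePreserving.integral_comp` needs an embedding; use
`integral_map` with `(hτ γ).map_eq` and ae strong measurability of the integrand) `= ∫ z, c z x₂ • v (γ σ z, γ x₁)`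
`= ∫ z, c z x₂ • ρ γ (v (σ z, x₁)) = ρ γ (B x)` (`Fin.cons (γ s) (γ x) = γ (Fin.cons s x)`,
`hv.equiv`, `(ρ γ).toLinearIsometry...integral_comp_comm`, `ContinuousLinearEquiv.integral_comp_comm`).
Coboundary: `dd B x = ∫ z, dd (fun y => c z y₂ • v (Fin.cons (σ z) y₁)) x` (finite sum of integrals,
`integral_finset_sum`, `integral_smul`) `= ∫ z, c z (x back) • dd (v (Fin.cons (σ z) ·)) (x front)` (`dd_cup`)
`= ∫ z, c z (x back) • v (x front)` (`dd_cons`) `= (∫ z, c z (x back)) • v (x front)` (`integral_smul_const`).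
-/

set_option autoImplicit false

open MeasureTheory
open scoped Matrix ComplexConjugate

namespace Pool.Agent.Helper71.KH

theorem abs_main {G Z E : Type*} [Group G] [TopologicalSpace G] [SecondCountableTopology G]
    [MeasurableSpace Z] (μ : Measure Z) [NormedAddCommGroup E] [NormedSpace ℝ E] [CompleteSpace E]
    (Γ : Subgroup G) (ρ : Γ →* (E ≃ₗᵢ[ℝ] E)) {k m : ℕ} (c : Z → (Fin (k + 1) → G) → ℝ)
    (σ : Z → G) (τ : Γ → Z → Z) (C : ℝ)
    (hc0 : ∀ z, dd (c z) = 0)
    (hcm : ∀ x, AEStronglyMeasurable (fun z => c z x) μ)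
    (hcd : ∀ x, ∃ bound : Z → ℝ, Integrable bound μ ∧
      ∀ᶠ x' in nhds x, ∀ᵐ z ∂μ, |c z x'| ≤ bound z)
    (hcc : ∀ x, ∀ᵐ z ∂μ, ContinuousAt (fun x' => c z x') x)
    (hcb : ∀ x, ∫ z, |c z x| ∂μ ≤ C)
    (hτ : ∀ γ, MeasurePreserving (τ γ) μ μ)
    (hcτ : ∀ (γ : Γ) (z : Z) (x : Fin (k + 1) → G), c (τ γ z) (fun i => (γ : G) * x i) = c z x)
    (hσ : ∀ U : Set G, IsOpen U → MeasurableSet (σ ⁻¹' U))
    (hστ : ∀ γ : Γ, ∀ᵐ z ∂μ, σ (τ γ z) = (γ : G) * σ z)
    (v : (Fin (m + 2) → G) → E) (hv : IsBC Γ ρ v) (hdv : dd v = 0) :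
    ∃ B : (Fin (m + k + 1) → G) → E, IsBC Γ ρ B ∧ ∀ x : Fin (m + k + 2) → G,
      dd B x = (∫ z, c z (fun j => x ⟨m + 1 + j, by omega⟩) ∂μ) •
        v (fun i => x ⟨i, by omega⟩) := by
  classical
  let _ : MeasurableSpace G := borel G
  have _ : BorelSpace G := ⟨rfl⟩
  obtain ⟨Cv0, hCv0⟩ := hv.bdd
  obtain ⟨Cv, hCv, hCvn⟩ : ∃ Cv : ℝ, (∀ x, ‖v x‖ ≤ Cv) ∧ 0 ≤ Cv :=
    ⟨Cv0, hCv0, (norm_nonneg _).trans (hCv0 (fun _ => 1))⟩
  have hσm : Measurable σ := measurable_of_isOpen (fun U hU => hσ U hU)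
  -- front and back faces
  let f1 : (Fin (m + k + 1) → G) → (Fin (m + 1) → G) := fun x i => x ⟨i, by omega⟩
  let f2 : (Fin (m + k + 1) → G) → (Fin (k + 1) → G) := fun x j => x ⟨m + j, by omega⟩
  have hf1 : Continuous f1 := continuous_pi fun i => continuous_apply _
  have hf2 : Continuous f2 := continuous_pi fun i => continuous_apply _
  have hcons : ∀ s : G, Continuous (fun y : Fin (m + 1) → G =>
      (Fin.cons (α := fun _ => G) s y : Fin (m + 2) → G)) := by
    intro s
    refine continuous_pi fun i => ?_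
    refine Fin.cases ?_ (fun j => ?_) i
    · simpa using continuous_const
    · simpa using continuous_apply j
  have hcons' : ∀ y : Fin (m + 1) → G, Continuous (fun s : G =>
      (Fin.cons (α := fun _ => G) s y : Fin (m + 2) → G)) := by
    intro y
    refine continuous_pi fun i => ?_
    refine Fin.cases ?_ (fun j => ?_) i
    · simpa using continuous_id'
    · simpa using continuous_const
  have hvm : ∀ y : Fin (m + 1) → G, AEStronglyMeasurable
      (fun z => v (Fin.cons (α := fun _ => G) (σ z) y)) μ := by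
    intro y
    have h1 : StronglyMeasurable (fun s : G => v (Fin.cons (α := fun _ => G) s y)) :=
      (hv.cont.comp (hcons' y)).stronglyMeasurable
    exact (h1.comp_measurable hσm).aestronglyMeasurable
  have hci : ∀ x, Integrable (fun z => c z x) μ := by
    intro x
    obtain ⟨b, hb, hb'⟩ := hcd x
    exact hb.mono' (hcm x) (by
      filter_upwards [hb'.self_of_nhds] with z hz
      simpa [Real.norm_eq_abs] using hz)
  have hFm : ∀ (x2 : Fin (k + 1) → G) (x1 : Fin (m + 1) → G), AEStronglyMeasurable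
      (fun z => c z x2 • v (Fin.cons (α := fun _ => G) (σ z) x1)) μ := fun x2 x1 =>
    (hcm x2).smul (hvm x1)
  have hFi : ∀ (x2 : Fin (k + 1) → G) (x1 : Fin (m + 1) → G), Integrable
      (fun z => c z x2 • v (Fin.cons (α := fun _ => G) (σ z) x1)) μ := by
    intro x2 x1
    refine ((hci x2).norm.mul_const Cv).mono' (hFm x2 x1) (Filter.Eventually.of_forall fun z => ?_)
    rw [norm_smul]
    exact mul_le_mul_of_nonneg_left (hCv _) (norm_nonneg _)
  let B : (Fin (m + k + 1) → G) → E := fun x =>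
    ∫ z, c z (f2 x) • v (Fin.cons (α := fun _ => G) (σ z) (f1 x)) ∂μ
  refine ⟨B, ⟨?_, ?_, ?_⟩, ?_⟩
  · -- continuity
    rw [continuous_iff_continuousAt]
    intro x0
    obtain ⟨b, hb, hb'⟩ := hcd (f2 x0)
    refine continuousAt_of_dominated (bound := fun z => b z * Cv) ?_ ?_ (hb.mul_const Cv) ?_
    · exact Filter.Eventually.of_forall fun x => hFm (f2 x) (f1 x)
    · have h2 := hf2.continuousAt.eventually hb'
      filter_upwards [h2] with x hx
      filter_upwards [hx] with z hz
      rw [norm_smul, Real.norm_eq_abs]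
      exact mul_le_mul hz (hCv _) (norm_nonneg _) ((abs_nonneg _).trans hz)
    · filter_upwards [hcc (f2 x0)] with z hz
      have h3 : ContinuousAt (fun x => c z (f2 x)) x0 :=
        ContinuousAt.comp (f := f2) (g := fun x' => c z x') hz hf2.continuousAt
      have h4 : Continuous (fun x => v (Fin.cons (α := fun _ => G) (σ z) (f1 x))) :=
        hv.cont.comp ((hcons (σ z)).comp hf1)
      exact h3.smul h4.continuousAt
  · -- bound
    refine ⟨C * Cv, fun x => ?_⟩
    have h1 : ‖B x‖ ≤ ∫ z, |c z (f2 x)| * Cv ∂μ := by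
      refine norm_integral_le_of_norm_le ((hci (f2 x)).norm.mul_const Cv)
        (Filter.Eventually.of_forall fun z => ?_)
      rw [norm_smul]
      exact mul_le_mul_of_nonneg_left (hCv _) (norm_nonneg _)
    refine h1.trans ?_
    rw [integral_mul_const]
    exact mul_le_mul_of_nonneg_right (hcb _) hCvn
  · -- equivariance
    intro γ x
    set F : Z → E := fun z => c z (fun j => (γ : G) * f2 x j) •
      v (Fin.cons (α := fun _ => G) (σ z) (fun i => (γ : G) * f1 x i)) with hF
    have e1 : B (fun i => (γ : G) * x i) = ∫ z, F z ∂μ := rfl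
    have e2 : ∫ z, F z ∂μ = ∫ z, F (τ γ z) ∂μ := by
      have h1 : AEStronglyMeasurable F (Measure.map (τ γ) μ) := by
        rw [(hτ γ).map_eq]
        exact hFm _ _
      have h2 := integral_map (hτ γ).measurable.aemeasurable h1
      rw [(hτ γ).map_eq] at h2
      exact h2
    have e3 : ∫ z, F (τ γ z) ∂μ =
        ∫ z, (ρ γ).toContinuousLinearEquiv
          (c z (f2 x) • v (Fin.cons (α := fun _ => G) (σ z) (f1 x))) ∂μ := by
      refine integral_congr_ae ?_
      filter_upwards [hστ γ] with z hz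
      have h1 : (Fin.cons (α := fun _ => G) ((γ : G) * σ z) (fun i => (γ : G) * f1 x i) :
          Fin (m + 2) → G) =
          fun i => (γ : G) * (Fin.cons (α := fun _ => G) (σ z) (f1 x) : Fin (m + 2) → G) i := by
        funext i
        refine Fin.cases ?_ (fun j => ?_) i
        · simp
        · simp
      show c (τ γ z) (fun j => (γ : G) * f2 x j) •
        v (Fin.cons (α := fun _ => G) (σ (τ γ z)) (fun i => (γ : G) * f1 x i)) =
        (ρ γ) (c z (f2 x) • v (Fin.cons (α := fun _ => G) (σ z) (f1 x)))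
      rw [hz, h1, hcτ, hv.equiv, map_smul]
    rw [e1, e2, e3, ContinuousLinearEquiv.integral_comp_comm]
    rfl
  · -- coboundary
    intro x
    have e1 : dd B x = ∫ z, dd (fun y : Fin (m + k + 1) → G => c z (fun j => y ⟨m + j, by omega⟩) •
        v (Fin.cons (α := fun _ => G) (σ z) (fun i => y ⟨i, by omega⟩))) x ∂μ := by
      unfold dd
      rw [integral_finsetSum]
      · refine Finset.sum_congr rfl fun i _ => ?_
        rw [integral_smul]
      · intro i _
        exact (hFi _ _).smul _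
    rw [e1]
    have e2 : ∀ z, dd (fun y : Fin (m + k + 1) → G => c z (fun j => y ⟨m + j, by omega⟩) •
        v (Fin.cons (α := fun _ => G) (σ z) (fun i => y ⟨i, by omega⟩))) x =
        c z (fun j => x ⟨m + 1 + j, by omega⟩) • v (fun i => x ⟨i, by omega⟩) := by
      intro z
      have h1 := dd_cup (fun y => v (Fin.cons (α := fun _ => G) (σ z) y)) (c z) (hc0 z) x
      rw [h1, dd_cons v hdv (σ z)]
    simp_rw [e2]
    rw [integral_smul_const]

end Pool.Agent.Helper71.KH
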