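import Pool.Agent.Helper71.KH.Kdef

/-!
# Project KH, piece ARG: arguments of complex numbers

PROOFS. `arg_tri`: replace `a, b, c` by `a conj u`, etc. (the products `b conj c` are multiplied by
`‖u‖ ^ 2 > 0`): all three have positive real part, so their arguments `α, β, γ` are in
`(-π/2, π/2)` and `arg (b conj c) = β - γ` etc. (`Complex.arg_mul_eq_add_arg_iff`, `arg_conj`).
`halfplane_or`: the triangle `K` with vertices `a, b, c` (the convex hull) is compact and convex. If
it does not contain `0` let `u` be its point nearest to `0` (or separate `0` from `K`,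
`geometric_hahn_banach_point_closed`): `0 < (v * conj u).re` for every `v` in `K`.
`arg_three`: `arg p + arg q + arg r - arg s` is a multiple of `2 π` (`Complex.arg_mul_coe_angle`,
`Real.Angle`) and less than `2 π` in absolute value (`Complex.abs_arg_lt_pi_div_two_iff`).
`arg_three_mod` is the first half.
-/

set_option autoImplicit false

open MeasureTheory
open scoped Matrix ComplexConjugate

namespace Pool.Agent.Helper71.KH

variable {n : ℕ}

private lemma ne_zero_of_re {b : ℂ} (hb : 0 < b.re) : b ≠ 0 := by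
  rintro rfl
  simp at hb

private lemma abs_arg_lt {b : ℂ} (hb : 0 < b.re) : |Complex.arg b| < Real.pi / 2 :=
  Complex.abs_arg_lt_pi_div_two_iff.2 (Or.inl hb)

private lemma arg_diff {b c : ℂ} (hb : 0 < b.re) (hc : 0 < c.re) :
    Complex.arg (b * conj c) = Complex.arg b - Complex.arg c := by
  have hb1 := abs_lt.1 (abs_arg_lt hb)
  have hc1 := abs_lt.1 (abs_arg_lt hc)
  have hcc : Complex.arg (conj c) = -Complex.arg c := by
    rw [Complex.arg_conj, if_neg]
    intro h
    rw [h] at hc1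
    have := Real.pi_pos
    linarith [hc1.2]
  have hpi := Real.pi_pos
  rw [Complex.arg_mul_eq_add_arg_iff (ne_zero_of_re hb)
    ((map_ne_zero (starRingEnd ℂ)).2 (ne_zero_of_re hc)) |>.2, hcc]
  · ring
  · rw [hcc]
    constructor <;> linarith [hb1.1, hb1.2, hc1.1, hc1.2]

private lemma arg_diff' {b c u : ℂ} (hb : 0 < (b * conj u).re) (hc : 0 < (c * conj u).re) :
    Complex.arg (b * conj c) = Complex.arg (b * conj u) - Complex.arg (c * conj u) := by
  rw [← arg_diff hb hc]
  have hu : u ≠ 0 := by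
    rintro rfl
    simp at hb
  have h1 : b * conj u * conj (c * conj u) = ((Complex.normSq u : ℝ) : ℂ) * (b * conj c) := by
    rw [map_mul, Complex.conj_conj, Complex.normSq_eq_conj_mul_self]
    ring
  rw [h1, Complex.arg_real_mul _ (Complex.normSq_pos.2 hu)]

theorem arg_tri {a b c u : ℂ} (ha : 0 < (a * conj u).re) (hb : 0 < (b * conj u).re)
    (hc : 0 < (c * conj u).re) :
    Complex.arg (b * conj c) - Complex.arg (a * conj c) + Complex.arg (a * conj b) = 0 := by
  rw [arg_diff' hb hc, arg_diff' ha hc, arg_diff' ha hb]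
  ring

theorem halfplane_or (a b c : ℂ) :
    (∃ u : ℂ, 0 < (a * conj u).re ∧ 0 < (b * conj u).re ∧ 0 < (c * conj u).re) ∨
      ∃ α β γ : ℝ, 0 ≤ α ∧ 0 ≤ β ∧ 0 ≤ γ ∧ α + β + γ = 1 ∧
        (α : ℂ) * a + (β : ℂ) * b + (γ : ℂ) * c = 0 := by
  by_cases h0 : (0 : ℂ) ∈ convexHull ℝ ({a, b, c} : Set ℂ)
  · right
    rw [convexHull_insert (Set.insert_nonempty _ _), convexHull_pair, mem_convexJoin] at h0
    obtain ⟨x, hx, y, hy, h1⟩ := h0
    rw [Set.mem_singleton_iff] at hx
    subst hx
    obtain ⟨s, t, hs, ht, hst, hy⟩ := hy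
    obtain ⟨s', t', hs', ht', hst', hy'⟩ := h1
    refine ⟨s', t' * s, t' * t, hs', mul_nonneg ht' hs, mul_nonneg ht' ht, ?_, ?_⟩
    · have : t' * s + t' * t = t' := by rw [← mul_add, hst, mul_one]
      linarith
    · rw [← hy', ← hy]
      simp only [Complex.real_smul]
      push_cast
      ring
  · left
    have hcl : IsClosed (convexHull ℝ ({a, b, c} : Set ℂ)) :=
      (Set.Finite.isCompact_convexHull ℝ (Set.toFinite _)).isClosed
    obtain ⟨f, u, h1, h2⟩ := geometric_hahn_banach_point_closed (convex_convexHull ℝ _) hcl h0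
    rw [map_zero] at h1
    have hf : ∀ z : ℂ, (z * conj (((f 1 : ℝ) : ℂ) + ((f Complex.I : ℝ) : ℂ) * Complex.I)).re =
        f z := by
      intro z
      have h3 : f z = z.re * f 1 + z.im * f Complex.I := by
        conv_lhs => rw [← Complex.re_add_im z]
        rw [map_add]
        have e1 : ((z.re : ℝ) : ℂ) = z.re • (1 : ℂ) := by simp
        have e2 : ((z.im : ℝ) : ℂ) * Complex.I = z.im • Complex.I := by simp
        rw [e2, e1, map_smul, map_smul, smul_eq_mul, smul_eq_mul]
      rw [h3]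
      simp [Complex.mul_re]
    refine ⟨((f 1 : ℝ) : ℂ) + ((f Complex.I : ℝ) : ℂ) * Complex.I, ?_, ?_, ?_⟩
    · rw [hf]
      exact h1.trans (h2 a (subset_convexHull ℝ _ (by simp)))
    · rw [hf]
      exact h1.trans (h2 b (subset_convexHull ℝ _ (by simp)))
    · rw [hf]
      exact h1.trans (h2 c (subset_convexHull ℝ _ (by simp)))

theorem arg_three_mod {p q r s : ℂ} {t : ℝ} (ht : 0 < t) (hs : s ≠ 0)
    (h : p * q * r = (t : ℂ) * s) :
    ∃ k : ℤ, Complex.arg p + Complex.arg q + Complex.arg r = Complex.arg s + 2 * Real.pi * k := by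
  have ht' : (t : ℂ) ≠ 0 := by exact_mod_cast ht.ne'
  have h0 : p * q * r ≠ 0 := by rw [h]; exact mul_ne_zero ht' hs
  have hr0 : r ≠ 0 := right_ne_zero_of_mul h0
  have hpq : p * q ≠ 0 := left_ne_zero_of_mul h0
  have hp0 : p ≠ 0 := left_ne_zero_of_mul hpq
  have hq0 : q ≠ 0 := right_ne_zero_of_mul hpq
  have h1 : ((Complex.arg p + Complex.arg q + Complex.arg r : ℝ) : Real.Angle) =
      (Complex.arg s : ℝ) := by
    rw [Real.Angle.coe_add, Real.Angle.coe_add, ← Complex.arg_mul_coe_angle hp0 hq0,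
      ← Complex.arg_mul_coe_angle hpq hr0, h, Complex.arg_real_mul _ ht]
  obtain ⟨k, hk⟩ := Real.Angle.angle_eq_iff_two_pi_dvd_sub.1 h1
  exact ⟨k, by linarith⟩

theorem arg_three {p q r s : ℂ} {t : ℝ} (ht : 0 < t) (h : p * q * r = (t : ℂ) * s)
    (hp : 0 < p.re) (hq : 0 < q.re) (hr : 0 < r.re) (hs : 0 < s.re) :
    Complex.arg p + Complex.arg q + Complex.arg r = Complex.arg s := by
  obtain ⟨k, hk⟩ := arg_three_mod ht (ne_zero_of_re hs) h
  have h1 := abs_lt.1 (abs_arg_lt hp)
  have h2 := abs_lt.1 (abs_arg_lt hq)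
  have h3 := abs_lt.1 (abs_arg_lt hr)
  have h4 := abs_lt.1 (abs_arg_lt hs)
  have hpi := Real.pi_pos
  have h5 : (k : ℝ) < 1 := by
    by_contra hc
    push Not at hc
    nlinarith [h1.1, h1.2, h2.1, h2.2, h3.1, h3.2, h4.1, h4.2]
  have h6 : (-1 : ℝ) < k := by
    by_contra hc
    push Not at hc
    nlinarith [h1.1, h1.2, h2.1, h2.2, h3.1, h3.2, h4.1, h4.2]
  have h7 : k = 0 := by
    have h8 : k < 1 := by exact_mod_cast h5
    have h9 : -1 < k := by exact_mod_cast h6
    omega
  rw [hk, h7]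
  simp

end Pool.Agent.Helper71.KH
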