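import Pool.Agent.Helper71.KH.Gram
import Pool.Agent.Helper71.KH.Arg

/-!
# Project KH, piece ALL: the angular invariant

PROOFS. `al_smul`: the product is multiplied by `‖a‖ ^ 2 ‖b‖ ^ 2 ‖c‖ ^ 2 > 0`
(`Complex.arg_real_mul`).  `al_slit`, `al_abs_lt`: for unit vectors by `re_pos`, in general by
scaling (`exists_unit`, `al_smul`).  `al_self_left` etc.: the product is a real number `≥ 0`.
`al_cocycle`: with `P x y z = -(hf x y * hf y z * hf z x)`, the product
`P y z w * conj (P x z w) * P x y w * conj (P x y z)` is a positive real number (it is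
`‖hf y z‖² ‖hf z w‖² ‖hf w y‖² ‖hf z x‖² ‖hf x w‖² ‖hf x y‖²`), so the sum is a multiple of `2 π`; by
`al_abs_lt` it is less than `2 π` in absolute value.
`al_swap`: `conj` of the product (`hf_conj`), `Complex.arg_conj` and `al_slit`.
-/

set_option autoImplicit false

open MeasureTheory
open scoped Matrix ComplexConjugate

namespace Pool.Agent.Helper71.KH

variable {n : ℕ}

private theorem mul_swap (x y : V n) : hf x y * hf y x = ((‖hf x y‖ ^ 2 : ℝ) : ℂ) := by
  rw [← hf_conj x y, Complex.mul_conj, Complex.normSq_eq_norm_sq]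

private theorem scale {a b c : ℂ} (x y z : V n) :
    -(hf (a • x) (b • y) * hf (b • y) (c • z) * hf (c • z) (a • x)) =
      ((Complex.normSq a * Complex.normSq b * Complex.normSq c : ℝ) : ℂ) *
        -(hf x y * hf y z * hf z x) := by
  simp only [hf_smul_left, hf_smul_right, Complex.ofReal_mul, ← Complex.mul_conj]
  ring

private theorem scale_pos {a b c : ℂ} (ha : a ≠ 0) (hb : b ≠ 0) (hc : c ≠ 0) :
    0 < Complex.normSq a * Complex.normSq b * Complex.normSq c :=
  mul_pos (mul_pos (Complex.normSq_pos.2 ha) (Complex.normSq_pos.2 hb)) (Complex.normSq_pos.2 hc)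

theorem al_smul {a b c : ℂ} (ha : a ≠ 0) (hb : b ≠ 0) (hc : c ≠ 0) (x y z : V n) :
    al (a • x) (b • y) (c • z) = al x y z := by
  unfold al
  rw [scale, Complex.arg_real_mul _ (scale_pos ha hb hc)]

theorem al_slit {x y z : V n} (hx : Ng x) (hy : Ng y) (hz : Ng z) :
    0 < (-(hf x y * hf y z * hf z x)).re := by
  obtain ⟨a, ha, ha'⟩ := exists_unit hx
  obtain ⟨b, hb, hb'⟩ := exists_unit hy
  obtain ⟨c, hc, hc'⟩ := exists_unit hz
  have h := re_pos ha' hb' hc'
  rw [scale, Complex.re_ofReal_mul] at h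
  exact pos_of_mul_pos_right (lt_of_lt_of_le one_pos h) (scale_pos ha hb hc).le

theorem al_abs_lt {x y z : V n} (hx : Ng x) (hy : Ng y) (hz : Ng z) :
    |al x y z| < Real.pi / 2 := by
  unfold al
  exact Complex.abs_arg_lt_pi_div_two_iff.2 (Or.inl (al_slit hx hy hz))

private theorem arg_real_zero {x : V n} (hx : Ng x) (z : V n) :
    Complex.arg (-(hf x x * (hf x z * hf z x))) = 0 := by
  rw [mul_swap, hf_self_eq, ← Complex.ofReal_mul, ← Complex.ofReal_neg]
  refine Complex.arg_ofReal_of_nonneg ?_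
  have h1 : (hf x x).re < 0 := hx
  have h2 : 0 ≤ ‖hf x z‖ ^ 2 := by positivity
  rw [← neg_mul]
  exact mul_nonneg (neg_nonneg.2 h1.le) h2

theorem al_self_left {x : V n} (hx : Ng x) (z : V n) : al x x z = 0 := by
  unfold al
  rw [mul_assoc]
  exact arg_real_zero hx z

theorem al_self_right (x : V n) {z : V n} (hz : Ng z) : al x z z = 0 := by
  unfold al
  have h : hf x z * hf z z * hf z x = hf z z * (hf z x * hf x z) := by ring
  rw [h]
  exact arg_real_zero hz x

theorem al_self_mid {x : V n} (hx : Ng x) (z : V n) : al x z x = 0 := by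
  unfold al
  have h : hf x z * hf z x * hf x x = hf x x * (hf x z * hf z x) := by ring
  rw [h]
  exact arg_real_zero hx z

private theorem arg_conj_neg {p : ℂ} (hp : 0 < p.re) : Complex.arg (conj p) = -Complex.arg p := by
  rw [Complex.arg_conj, if_neg]
  intro h
  rw [Complex.arg_eq_pi_iff] at h
  exact absurd h.1 (not_lt.2 hp.le)

theorem al_cocycle {x y z w : V n} (hx : Ng x) (hy : Ng y) (hz : Ng z) (hw : Ng w) :
    al y z w - al x z w + al x y w - al x y z = 0 := by
  have h1 := al_slit hy hz hw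
  have h2 := al_slit hx hy hw
  have h3 := al_slit hx hy hz
  have h4 := al_slit hx hz hw
  have h5 : 0 < (conj (-(hf x y * hf y z * hf z x))).re := by rwa [Complex.conj_re]
  have ht : 0 < ‖hf y z‖ ^ 2 * ‖hf y w‖ ^ 2 * ‖hf x y‖ ^ 2 := by
    have a1 := norm_pos_iff.2 (ng_hf_ne hy hz)
    have a2 := norm_pos_iff.2 (ng_hf_ne hy hw)
    have a3 := norm_pos_iff.2 (ng_hf_ne hx hy)
    positivity
  have h6 := arg_three (p := -(hf y z * hf z w * hf w y)) (q := -(hf x y * hf y w * hf w x))
    (r := conj (-(hf x y * hf y z * hf z x))) (s := -(hf x z * hf z w * hf w x)) ht (by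
      simp only [Complex.ofReal_mul, ← mul_swap, map_neg, map_mul, hf_conj]
      ring) h1 h2 h5 h4
  rw [arg_conj_neg h3] at h6
  unfold al
  linarith

theorem al_swap {x y z : V n} (hx : Ng x) (hy : Ng y) (hz : Ng z) : al y x z = -al x y z := by
  unfold al
  rw [← arg_conj_neg (al_slit hx hy hz)]
  congr 1
  simp only [map_neg, map_mul, hf_conj]
  ring

end Pool.Agent.Helper71.KH
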