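import Pool.Agent.Helper71.KH.AlgA

/-!
# Project KH, piece ALB: homogeneous cochains

PROOFS. `dd_cons`: `dd v (Fin.cons s x) = 0`; split off the term `i = 0` (`Fin.sum_univ_succ`,
`Fin.succAbove_zero`), which is `v x`; for `i.succ` the tuple `Fin.cons s x` without the entry `i.succ` is
`Fin.cons s (x without the entry i)` (`Fin.succ_succAbove_succ`, `Fin.succ_succAbove_zero`) and the sign changes.
`dd_prod`: induction on `n`: for `n = 0` the cochain is constant and `dd` of it is `1 - 1`.  Step: `dd_cup`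
with `w` the product for `n` and `c = a (Fin.last n)`, `m = 2 n`, `k = 2` (`Fin.prod_univ_castSucc`, the
indices agree definitionally up to `2 * (n + 1) = 2 * n + 2`).
-/

set_option autoImplicit false

open MeasureTheory
open scoped Matrix ComplexConjugate

namespace Pool.Agent.Helper71.KH

variable {n : ℕ}

variable {G : Type*} {E : Type*} [NormedAddCommGroup E] [NormedSpace ℝ E]

theorem dd_cons {m : ℕ} (v : (Fin (m + 2) → G) → E) (hv : dd v = 0) (s : G) :
    dd (fun x : Fin (m + 1) → G => v (Fin.cons (α := fun _ => G) s x)) = v := by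
  funext x
  have h := congrFun hv (Fin.cons (α := fun _ => G) s x)
  unfold dd at h
  rw [Fin.sum_univ_succ] at h
  have h0 : (fun j : Fin (m + 2) => (Fin.cons (α := fun _ => G) s x : Fin (m + 3) → G)
      (Fin.succAbove 0 j)) = x := by
    funext j
    rw [Fin.succAbove_zero, Fin.cons_succ]
  have h1 : ∀ i : Fin (m + 2), (fun j : Fin (m + 2) =>
      (Fin.cons (α := fun _ => G) s x : Fin (m + 3) → G) (i.succ.succAbove j)) =
      Fin.cons (α := fun _ => G) s (fun j : Fin (m + 1) => x (i.succAbove j)) := by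
    intro i
    funext j
    refine Fin.cases ?_ (fun j' => ?_) j
    · rw [Fin.succ_succAbove_zero, Fin.cons_zero, Fin.cons_zero]
    · rw [Fin.succ_succAbove_succ, Fin.cons_succ, Fin.cons_succ]
  rw [h0] at h
  simp only [h1, Fin.val_zero, pow_zero, one_smul, Fin.val_succ, pow_succ, mul_neg, mul_one,
    neg_smul, Finset.sum_neg_distrib, Pi.zero_apply] at h
  unfold dd
  rw [← sub_eq_add_neg, sub_eq_zero] at h
  exact h.symm

theorem dd_prod (n : ℕ) (a : Fin n → (Fin 3 → G) → ℝ) (ha : ∀ i, dd (a i) = 0) :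
    dd (fun x : Fin (2 * n + 1) → G => ∏ i : Fin n,
      a i ![x ⟨2 * i, by omega⟩, x ⟨2 * i + 1, by omega⟩, x ⟨2 * i + 2, by omega⟩]) = 0 := by
  induction n with
  | zero =>
    funext x
    simp [dd]
  | succ n ih =>
    funext x
    have ih' := ih (fun i => a i.castSucc) (fun i => ha i.castSucc)
    have h := dd_cup (m := 2 * n) (k := 2)
      (fun x : Fin (2 * n + 1) → G => ∏ i : Fin n,
        a i.castSucc ![x ⟨2 * i, by omega⟩, x ⟨2 * i + 1, by omega⟩, x ⟨2 * i + 2, by omega⟩])
      (a (Fin.last n)) (ha (Fin.last n)) x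
    rw [ih', Pi.zero_apply, smul_zero] at h
    rw [Pi.zero_apply, ← h]
    congr 1
    funext y
    rw [Fin.prod_univ_castSucc, smul_eq_mul, mul_comm]
    congr 1
    congr 1
    funext j
    fin_cases j <;> rfl

end Pool.Agent.Helper71.KH
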