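import Pool.Agent.Helper71.KH.Defs

/-!
# Project KH, piece ALA: the coboundary of a cup product

PROOF of `dd_cup`: write the sum over `i : Fin (m + k + 2)` as the sum over `i ≤ m` and over `i > m`
(cast to `Fin ((m + 1) + (k + 1))` and `Fin.sum_univ_add`, or use functions of natural numbers and
`Finset.sum_range`).  For `i ≤ m` the back face is `j ↦ x (m + 1 + j)` and the
front face is `(x 0, .., x (m + 1))` without the entry `i`.  So the first sum is
`c (back) • (dd w (front) - (-1) ^ (m + 1) • w (x 0, .., x m))`.  For `i = m + i'`, `1 ≤ i' ≤ k + 1`, the front face is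
`(x 0, .., x m)` and the back face is `(x m, .., x (m + k + 1))` without the entry `i'`.  By `dd c = 0` at
`(x m, .., x (m + k + 1))` the sum over `i'` of `(-1) ^ i' c (..)` is `-c (x (m + 1), ..)`, so the second sum is
`-(-1) ^ m c (back) • w (x 0, .., x m)`.  The terms with `w (x 0, .., x m)` cancel.
-/

set_option autoImplicit false

open MeasureTheory
open scoped Matrix ComplexConjugate

namespace Pool.Agent.Helper71.KH

variable {n : ℕ}

variable {G : Type*} {E : Type*} [NormedAddCommGroup E] [NormedSpace ℝ E]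

/-- The sequence without the entry `i`. -/
private def alaSk (i : ℕ) (X : ℕ → G) (j : ℕ) : G := if j < i then X j else X (j + 1)

private lemma ala_dd {k : ℕ} (f : (Fin (k + 1) → G) → E) (X : ℕ → G) :
    dd f (fun j => X j) =
      ∑ i ∈ Finset.range (k + 2), (-1 : ℝ) ^ i • f (fun j : Fin (k + 1) => alaSk i X j) := by
  unfold dd
  rw [Finset.sum_range]
  refine Finset.sum_congr rfl fun i _ => ?_
  congr 2
  funext j
  unfold alaSk
  by_cases h : (j : ℕ) < (i : ℕ)
  · rw [if_pos h, Fin.succAbove_of_castSucc_lt _ _ (by simpa [Fin.lt_def] using h)]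
    rfl
  · rw [if_neg h, Fin.succAbove_of_le_castSucc _ _ (by simpa [Fin.le_def] using h)]
    rfl

private lemma ala_ext {N : ℕ} (x : Fin (N + 1) → G) : ∃ X : ℕ → G, x = fun j : Fin (N + 1) => X (j : ℕ) := by
  refine ⟨fun i => if h : i < N + 1 then x ⟨i, h⟩ else x 0, ?_⟩
  funext j
  simp [j.2]

theorem dd_cup {m k : ℕ} (w : (Fin (m + 1) → G) → E) (c : (Fin (k + 1) → G) → ℝ)
    (hc : dd c = 0) (x : Fin (m + k + 2) → G) :
    dd (fun y : Fin (m + k + 1) → G => c (fun j => y ⟨m + j, by omega⟩) •
        w (fun i => y ⟨i, by omega⟩)) x =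
      c (fun j => x ⟨m + 1 + j, by omega⟩) • dd w (fun i => x ⟨i, by omega⟩) := by
  obtain ⟨X, rfl⟩ := ala_ext x
  rw [ala_dd]
  change ∑ i ∈ Finset.range (m + k + 2), (-1 : ℝ) ^ i •
      (c (fun j : Fin (k + 1) => alaSk i X (m + j)) •
        w (fun j : Fin (m + 1) => alaSk i X j)) =
    c (fun j : Fin (k + 1) => X (m + 1 + j)) • dd w (fun i => X i)
  rw [ala_dd, show m + k + 2 = (m + 1) + (k + 1) by ring, Finset.sum_range_add]
  have hw : ∀ i, m + 1 ≤ i → w (fun j : Fin (m + 1) => alaSk i X j) =
      w (fun j : Fin (m + 1) => X j) := by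
    intro i hi
    congr 1
    funext j
    unfold alaSk
    rw [if_pos (by have := j.2; omega)]
  have h1 : ∑ i ∈ Finset.range (m + 1), (-1 : ℝ) ^ i •
      (c (fun j : Fin (k + 1) => alaSk i X (m + j)) •
        w (fun j : Fin (m + 1) => alaSk i X j)) =
      c (fun j : Fin (k + 1) => X (m + 1 + j)) •
        ∑ i ∈ Finset.range (m + 1), (-1 : ℝ) ^ i •
          w (fun j : Fin (m + 1) => alaSk i X j) := by
    rw [Finset.smul_sum]
    refine Finset.sum_congr rfl fun i hi => ?_
    rw [Finset.mem_range] at hi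
    rw [smul_comm]
    congr 2
    funext j
    unfold alaSk
    rw [if_neg (by omega)]
    congr 1
    ring
  have h2 : ∑ i ∈ Finset.range (k + 1), (-1 : ℝ) ^ (m + 1 + i) •
      (c (fun j : Fin (k + 1) => alaSk (m + 1 + i) X (m + j)) •
        w (fun j : Fin (m + 1) => alaSk (m + 1 + i) X j)) =
      ((-1 : ℝ) ^ m * ∑ i ∈ Finset.range (k + 1), (-1 : ℝ) ^ (i + 1) *
        c (fun j : Fin (k + 1) => alaSk (i + 1) (fun l => X (m + l)) j)) •
        w (fun j : Fin (m + 1) => X j) := by
    rw [Finset.mul_sum, Finset.sum_smul]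
    refine Finset.sum_congr rfl fun i _ => ?_
    rw [hw _ (by omega), smul_smul]
    congr 1
    have : (fun j : Fin (k + 1) => alaSk (m + 1 + i) X (m + j)) =
        fun j : Fin (k + 1) => alaSk (i + 1) (fun l => X (m + l)) j := by
      funext j
      unfold alaSk
      by_cases hj : (j : ℕ) < i + 1
      · rw [if_pos (by omega), if_pos hj]
      · rw [if_neg (by omega), if_neg hj]
        rfl
    rw [this]
    ring
  have h3 : ∑ i ∈ Finset.range (k + 1), (-1 : ℝ) ^ (i + 1) *
        c (fun j : Fin (k + 1) => alaSk (i + 1) (fun l => X (m + l)) j) =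
      - c (fun j : Fin (k + 1) => X (m + 1 + j)) := by
    have h := congrFun hc (fun j => X (m + j))
    have h' := ala_dd c (fun l => X (m + l))
    simp only [smul_eq_mul] at h'
    rw [Finset.sum_range_succ'] at h'
    have e : (fun j : Fin (k + 1) => alaSk 0 (fun l => X (m + l)) j) =
        fun j : Fin (k + 1) => X (m + 1 + j) := by
      funext j
      unfold alaSk
      rw [if_neg (by omega)]
      change X (m + (j + 1)) = X (m + 1 + j)
      congr 1
      ring
    rw [e, pow_zero, one_mul] at h'
    have h'' : dd c (fun j => X (m + j)) = 0 := h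
    rw [h''] at h'
    linarith
  rw [h1, h2, h3, Finset.sum_range_succ _ (m + 1), hw (m + 1) le_rfl, smul_add, smul_smul,
    pow_succ]
  module

end Pool.Agent.Helper71.KH
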