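import Pool.Agent.Helper71.KH.Arg

/-!
# Project KH, piece CTA: the winding number for a right triangle in the disc

`Q s t w = 1 + ‖w‖² - w.re (s + 1/s) - w.im (t + 1/t)`; `Del s t` is the geodesic triangle with vertices
`0, s, i t`.
PROOF. Write `x = w.re`, `y = w.im`, `0 < s, t < 1`.  Put `P1 = w conj (w - i t)`,
`P2 = conj w (w - s)`, `P3 = (1 + i s t) (w - i t) conj (w - s)`, `θi = arg Pi`.  Then
`P1 = (‖w‖² - t y) + i t x`, `P2 = (‖w‖² - s x) + i s y` (so `arg (w conj (w - s)) = -θ2` as `y ≠ 0`),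
`P3 = .. + i s t Q`, `P1 P2 P3 = ‖w‖² ‖w - s‖² ‖w - i t‖² (1 + i s t)`, `arg (1 + i s t) = arctan (s t)`.
So `θ1 + θ2 + θ3 - arctan (s t) = 2 π k` with an integer `k` (`arg_three_mod`), and the value is `k`.  The
sign of `θ1` is the sign of `x`, the sign of `θ2` that of `y`, the sign of `θ3` that of `Q`
(`Complex.arg_nonneg_iff`, `arg_neg_iff`, all `|θ| < π`), and `0 < arctan (s t) < π/2`.
(i) Exactly one of `x, y, Q` is negative: `θ1 + θ2 + θ3` is in `(-π, 2 π)`, so `k = 0`.
(ii) `x < 0`, `y < 0`: then `Q > 0` and `P1.re, P2.re > 0`, so the sum is in `(-π, π)`, `k = 0`.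
(iii) `x < 0`, `Q < 0`, `y > 0`: `y (t + 1/t) > 1 + x² + y² ≥ 1 + y²`, so `(y - t)(y - 1/t) < 0`, `y > t`,
`P1.re ≥ y² - t y > 0`, and `P2.re > 0`: the sum is in `(-π/2 - π, π/2)`, `k = 0`.
(iv) `y < 0`, `Q < 0`, `x > 0`: the same with `x > s`, `P2.re > 0`, `P1.re > 0`.
(v) `x, y, Q > 0` and `‖w‖ ≥ 1`: `P1.re = ‖w‖² - t y ≥ ‖w‖ (‖w‖ - t) > 0`, the same for `P2`, so `θ1, θ2` are in
`(0, π/2)`, `θ3` in `(0, π)`: the sum is in `(0, 2 π)` and minus `arctan (s t)` in `(-π/2, 2 π)`, so `k = 0`.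
(vi) `x, y, Q > 0` and `‖w‖ < 1`: claim `t x + s y < s t`.  Then
`(P1 P2).im = ‖w‖² (s y + t x - s t) < 0` (`P1 P2 = ‖w‖² conj (w - i t) (w - s)`), so `θ1 + θ2 > π`, and with
`θ3 > 0` the sum is `> π`, so `k > 0`, and `k < 2` as the sum is `< 3 π`; `k = 1`.
Claim: put `x = s μ λ`, `y = t μ (1 - λ)` with `μ > 0`, `0 < λ < 1` and suppose `μ ≥ 1`.  Then
`Q = f μ`, `f μ = 1 - μ (1 + e) + μ² q`, `e = s² λ + t² (1 - λ)`, `q = s² λ² + t² (1 - λ)² ≤ e`,
`μ² q < 1`.  `f 1 = q - e ≤ 0`, `f (1/√q) = 2 - (1 + e)/√q ≤ 0` (`2 √q ≤ 1 + q ≤ 1 + e`), `f` is convex and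
`1 ≤ μ ≤ 1/√q`, so `Q ≤ 0`, a contradiction.
-/

set_option autoImplicit false

open MeasureTheory
open scoped Matrix ComplexConjugate

namespace Pool.Agent.Helper71.KH

/-- The sign function of the geodesic through `s` and `i t`. -/
noncomputable def Qf (s t : ℝ) (w : ℂ) : ℝ :=
  1 + ‖w‖ ^ 2 - w.re * (s + 1 / s) - w.im * (t + 1 / t)

/-- The open geodesic triangle with vertices `0`, `s`, `i t` in the unit disc. -/
def Del (s t : ℝ) : Set ℂ := {w | 0 < w.re ∧ 0 < w.im ∧ ‖w‖ < 1 ∧ 0 < Qf s t w}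

/-- Twice `π` times the value of the cocycle. -/
noncomputable def wd (s t : ℝ) (w : ℂ) : ℝ :=
  Complex.arg (w * conj (w - t * Complex.I)) - Complex.arg (w * conj (w - s)) +
    Complex.arg ((1 + s * t * Complex.I) * ((w - t * Complex.I) * conj (w - s))) -
      Complex.arg (1 + s * t * Complex.I)

private theorem CTa_pos {z : ℂ} (h : 0 < z.im) : 0 < Complex.arg z ∧ Complex.arg z < Real.pi := by
  constructor
  · refine lt_of_le_of_ne (Complex.arg_nonneg_iff.2 h.le) (fun h0 => ?_)
    exact h.ne' (Complex.arg_eq_zero_iff.1 h0.symm).2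
  · exact Complex.arg_lt_pi_iff.2 (Or.inr h.ne')

private theorem CTa_neg {z : ℂ} (h : z.im < 0) : -Real.pi < Complex.arg z ∧ Complex.arg z < 0 :=
  ⟨Complex.neg_pi_lt_arg z, Complex.arg_neg_iff.2 h⟩

private theorem CTa_re {z : ℂ} (h : 0 < z.re) :
    -(Real.pi / 2) < Complex.arg z ∧ Complex.arg z < Real.pi / 2 :=
  abs_lt.1 (Complex.abs_arg_lt_pi_div_two_iff.2 (Or.inl h))

private theorem CTa_k0 {k : ℤ} (h1 : -(2 * Real.pi) < 2 * Real.pi * k)
    (h2 : 2 * Real.pi * k < 2 * Real.pi) : k = 0 := by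
  have hp := Real.pi_pos
  have h3 : (k : ℝ) < 1 := by
    by_contra h
    push Not at h
    nlinarith
  have h4 : (-1 : ℝ) < k := by
    by_contra h
    push Not at h
    nlinarith
  have h5 : k < 1 := by exact_mod_cast h3
  have h6 : -1 < k := by exact_mod_cast h4
  omega

private theorem CTa_k1 {k : ℤ} (h1 : 0 < 2 * Real.pi * k)
    (h2 : 2 * Real.pi * k < 2 * (2 * Real.pi)) : k = 1 := by
  have hp := Real.pi_pos
  have h3 : (k : ℝ) < 2 := by
    by_contra h
    push Not at h
    nlinarith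
  have h4 : (0 : ℝ) < k := by
    by_contra h
    push Not at h
    nlinarith
  have h5 : k < 2 := by exact_mod_cast h3
  have h6 : 0 < k := by exact_mod_cast h4
  omega

/-- The three products and the multiple of `2 π`. -/
private theorem CTa_core {s t : ℝ} (hs : 0 < s) (ht : 0 < t) {w : ℂ}
    (hx : w.re ≠ 0) (hy : w.im ≠ 0) :
    ∃ (k : ℤ) (P1 P2 P3 : ℂ),
      P1.re = ‖w‖ ^ 2 - t * w.im ∧ P1.im = t * w.re ∧
      P2.re = ‖w‖ ^ 2 - s * w.re ∧ P2.im = s * w.im ∧
      P3.im = s * t * Qf s t w ∧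
      (P1 * P2).im = ‖w‖ ^ 2 * (s * w.im + t * w.re - s * t) ∧
      wd s t w = 2 * Real.pi * k ∧
      Complex.arg P1 + Complex.arg P2 + Complex.arg P3 =
        Complex.arg (1 + s * t * Complex.I) + 2 * Real.pi * k := by
  have hn : ‖w‖ ^ 2 = w.re * w.re + w.im * w.im := by
    rw [← Complex.normSq_eq_norm_sq, Complex.normSq_apply]
  set P1 : ℂ := w * conj (w - t * Complex.I) with hP1
  set P2 : ℂ := conj w * (w - s) with hP2
  set P3 : ℂ := (1 + s * t * Complex.I) * ((w - t * Complex.I) * conj (w - s)) with hP3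
  have h1r : P1.re = ‖w‖ ^ 2 - t * w.im := by
    rw [hn, hP1]
    simp
    ring
  have h1i : P1.im = t * w.re := by
    rw [hP1]
    simp
    ring
  have h2r : P2.re = ‖w‖ ^ 2 - s * w.re := by
    rw [hn, hP2]
    simp
    ring
  have h2i : P2.im = s * w.im := by
    rw [hP2]
    simp
    ring
  have h3i : P3.im = s * t * Qf s t w := by
    rw [Qf, hn, hP3]
    simp
    field_simp
    ring
  have h12 : (P1 * P2).im = ‖w‖ ^ 2 * (s * w.im + t * w.re - s * t) := by
    rw [Complex.mul_im, h1r, h1i, h2r, h2i]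
    rw [hn]
    ring
  have hw0 : w ≠ 0 := by
    rintro rfl
    exact hx rfl
  have hws : w - s ≠ 0 := by
    intro h
    have h' := congrArg Complex.im h
    simp at h'
    exact hy h'
  have hwt : w - t * Complex.I ≠ 0 := by
    intro h
    have h' := congrArg Complex.re h
    simp at h'
    exact hx h'
  have hT : 0 < ‖w‖ ^ 2 * (‖w - s‖ ^ 2 * ‖w - t * Complex.I‖ ^ 2) := by
    have e1 : 0 < ‖w‖ := norm_pos_iff.2 hw0
    have e2 : 0 < ‖w - s‖ := norm_pos_iff.2 hws
    have e3 : 0 < ‖w - t * Complex.I‖ := norm_pos_iff.2 hwt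
    positivity
  have hs0 : (1 + s * t * Complex.I : ℂ) ≠ 0 := by
    intro h
    have h' := congrArg Complex.re h
    simp at h'
  have hprod : P1 * P2 * P3 =
      ((‖w‖ ^ 2 * (‖w - s‖ ^ 2 * ‖w - t * Complex.I‖ ^ 2) : ℝ) : ℂ) *
        (1 + s * t * Complex.I) := by
    have e1 : w * conj w = ((‖w‖ ^ 2 : ℝ) : ℂ) := by
      rw [Complex.mul_conj, Complex.normSq_eq_norm_sq]
    have e2 : (w - s) * conj (w - s) = ((‖w - s‖ ^ 2 : ℝ) : ℂ) := by
      rw [Complex.mul_conj, Complex.normSq_eq_norm_sq]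
    have e3 : (w - t * Complex.I) * conj (w - t * Complex.I) =
        ((‖w - t * Complex.I‖ ^ 2 : ℝ) : ℂ) := by
      rw [Complex.mul_conj, Complex.normSq_eq_norm_sq]
    rw [Complex.ofReal_mul, Complex.ofReal_mul, ← e1, ← e2, ← e3, hP1, hP2, hP3]
    ring
  obtain ⟨k, hk⟩ := arg_three_mod hT hs0 hprod
  refine ⟨k, P1, P2, P3, h1r, h1i, h2r, h2i, h3i, h12, ?_, hk⟩
  have h2 : Complex.arg (w * conj (w - s)) = - Complex.arg P2 := by
    have e : w * conj (w - s) = conj P2 := by
      rw [hP2]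
      simp
    rw [e, Complex.arg_conj, if_neg]
    intro h
    have h' := (Complex.arg_eq_pi_iff.1 h).2
    rw [h2i] at h'
    exact mul_ne_zero hs.ne' hy h'
  rw [wd, h2]
  linarith

/-- The triangle is on the side of `0` of the chord through `s` and `i t`. -/
private theorem CTa_claim {s t x y : ℝ} (hs : 0 < s) (ht : 0 < t) (hx : 0 < x) (hy : 0 < y)
    (hn : x * x + y * y < 1) (hQ : 0 < 1 + (x * x + y * y) - x * (s + 1 / s) - y * (t + 1 / t)) :
    t * x + s * y < s * t := by
  by_contra hcon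
  push Not at hcon
  have hst : 0 < s * t := mul_pos hs ht
  set m : ℝ := x / s + y / t with hm
  have hm1 : 1 ≤ m := by
    have e : m = (t * x + s * y) / (s * t) := by
      rw [hm]
      field_simp
    rw [e, le_div_iff₀ hst, one_mul]
    exact hcon
  have hQ' : 0 < 1 + (x * x + y * y) - (x * s + y * t) - m := by
    have e : 1 + (x * x + y * y) - x * (s + 1 / s) - y * (t + 1 / t) =
        1 + (x * x + y * y) - (x * s + y * t) - m := by
      rw [hm]
      ring
    rw [← e]
    exact hQ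
  have h1 : x * x + y * y ≤ m * (x * s + y * t) := by
    have e : m * (x * s + y * t) = x * x + y * y + x * y * (t / s + s / t) := by
      rw [hm]
      field_simp
      ring
    have e2 : 0 ≤ x * y * (t / s + s / t) := by positivity
    rw [e]
    linarith
  have h2 : 0 < m * (1 + (x * x + y * y) - (x * s + y * t) - m) :=
    mul_pos (by linarith) hQ'
  have h3 : (m - 1) * (m - (x * x + y * y)) ≥ 0 :=
    mul_nonneg (by linarith) (by linarith)
  nlinarith

private theorem CTa_gt {a b s t : ℝ} (hs : 0 < s) (ht : 0 < t) (ht' : t < 1) (ha : a < 0)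
    (hb : 0 < b) (hQ : 1 + (a * a + b * b) - a * (s + 1 / s) - b * (t + 1 / t) < 0) : t < b := by
  by_contra hcon
  push Not at hcon
  have hss : 0 < s + 1 / s := by positivity
  have e1 := mul_neg_of_neg_of_pos ha hss
  have e2 : t * b ≤ 1 := by nlinarith
  have e3 : 0 ≤ (t - b) * (1 - t * b) := mul_nonneg (by linarith) (by linarith)
  have e4 : t * (1 + b * b - b * (t + 1 / t)) = (t - b) * (1 - t * b) := by
    field_simp
    ring
  have e5 : 0 ≤ 1 + b * b - b * (t + 1 / t) := by
    by_contra h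
    push Not at h
    have := mul_neg_of_pos_of_neg ht h
    linarith
  linarith [mul_self_nonneg a]

private theorem CTa_fin {A B C S : ℝ} {k : ℤ} (hk : A + B + C = S + 2 * Real.pi * k)
    (h1 : -(2 * Real.pi) < A + B + C - S) (h2 : A + B + C - S < 2 * Real.pi) : k = 0 := by
  have e : A + B + C - S = 2 * Real.pi * k := by linarith
  rw [e] at h1 h2
  exact CTa_k0 h1 h2

theorem wd_in {s t : ℝ} (hs : 0 < s) (hs' : s < 1) (ht : 0 < t) (ht' : t < 1) {w : ℂ}
    (hw : w ∈ Del s t) : wd s t w = 2 * Real.pi := by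
  obtain ⟨hx, hy, hn, hQ⟩ := hw
  obtain ⟨k, P1, P2, P3, h1r, h1i, h2r, h2i, h3i, h12, hwd, hk⟩ := CTa_core hs ht hx.ne' hy.ne'
  have hp := Real.pi_pos
  have hst : 0 < s * t := mul_pos hs ht
  have hS : 0 < (1 + s * t * Complex.I : ℂ).re := by simp
  have hSi : 0 < (1 + s * t * Complex.I : ℂ).im := by simpa using hst
  have a0 := CTa_pos hSi
  have a0' := CTa_re hS
  have a1 := CTa_pos (z := P1) (by rw [h1i]; positivity)
  have a2 := CTa_pos (z := P2) (by rw [h2i]; positivity)
  have a3 := CTa_pos (z := P3) (by rw [h3i]; positivity)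
  have hnn : ‖w‖ ^ 2 = w.re * w.re + w.im * w.im := by
    rw [← Complex.normSq_eq_norm_sq, Complex.normSq_apply]
  have hn1 : ‖w‖ ^ 2 < 1 := by
    have := norm_nonneg w
    nlinarith
  have hcl : t * w.re + s * w.im < s * t := by
    refine CTa_claim hs ht hx hy (by rw [← hnn]; exact hn1) ?_
    rw [← hnn]
    exact hQ
  have h12' : (P1 * P2).im < 0 := by
    rw [h12]
    have e1 : 0 < ‖w‖ ^ 2 := by
      rw [hnn]
      positivity
    have e2 : s * w.im + t * w.re - s * t < 0 := by linarith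
    exact mul_neg_of_pos_of_neg e1 e2
  have hsum : Real.pi < Complex.arg P1 + Complex.arg P2 := by
    by_contra hcon
    push Not at hcon
    have e1 : 0 ≤ Real.sin (Complex.arg P1 + Complex.arg P2) :=
      Real.sin_nonneg_of_nonneg_of_le_pi (by linarith) hcon
    have e2 : (P1 * P2).im = ‖P1‖ * ‖P2‖ * Real.sin (Complex.arg P1 + Complex.arg P2) := by
      have c1 : P1.re = ‖P1‖ * Real.cos (Complex.arg P1) := (Complex.norm_mul_cos_arg P1).symm
      have c2 : P1.im = ‖P1‖ * Real.sin (Complex.arg P1) := (Complex.norm_mul_sin_arg P1).symm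
      have c3 : P2.re = ‖P2‖ * Real.cos (Complex.arg P2) := (Complex.norm_mul_cos_arg P2).symm
      have c4 : P2.im = ‖P2‖ * Real.sin (Complex.arg P2) := (Complex.norm_mul_sin_arg P2).symm
      rw [Complex.mul_im, Real.sin_add, c1, c2, c3, c4]
      ring
    have e3 : 0 ≤ (P1 * P2).im := by
      rw [e2]
      positivity
    linarith
  have hk1 : k = 1 := CTa_k1 (by linarith) (by linarith)
  rw [hwd, hk1]
  push_cast
  ring

theorem wd_out {s t : ℝ} (hs : 0 < s) (hs' : s < 1) (ht : 0 < t) (ht' : t < 1) {w : ℂ}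
    (hx : w.re ≠ 0) (hy : w.im ≠ 0) (hQ : Qf s t w ≠ 0) (hw : w ∉ Del s t) : wd s t w = 0 := by
  obtain ⟨k, P1, P2, P3, h1r, h1i, h2r, h2i, h3i, h12, hwd, hk⟩ := CTa_core hs ht hx hy
  have hp := Real.pi_pos
  have hst : 0 < s * t := mul_pos hs ht
  have hS : 0 < (1 + s * t * Complex.I : ℂ).re := by simp
  have hSi : 0 < (1 + s * t * Complex.I : ℂ).im := by simpa using hst
  obtain ⟨b1, b2⟩ := CTa_pos hSi
  obtain ⟨b3, b4⟩ := CTa_re hS
  have hnn : ‖w‖ ^ 2 = w.re * w.re + w.im * w.im := by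
    rw [← Complex.normSq_eq_norm_sq, Complex.normSq_apply]
  have hQdef : Qf s t w =
      1 + (w.re * w.re + w.im * w.im) - w.re * (s + 1 / s) - w.im * (t + 1 / t) := by
    rw [← hnn]
    rfl
  have hxx : 0 < w.re * w.re := mul_self_pos.2 hx
  have hyy : 0 < w.im * w.im := mul_self_pos.2 hy
  have hn0 : 0 < ‖w‖ ^ 2 := by
    rw [hnn]
    exact add_pos hxx hyy
  have hk0 : k = 0 := by
    clear hwd h12
    rcases lt_or_gt_of_ne hx with hx' | hx'
    · obtain ⟨l1, u1⟩ := CTa_neg (z := P1) (by rw [h1i]; exact mul_neg_of_pos_of_neg ht hx')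
      obtain ⟨l2, u2⟩ := CTa_re (z := P2) (by
        rw [h2r]
        have := mul_neg_of_pos_of_neg hs hx'
        linarith only [this, hn0])
      rcases lt_or_gt_of_ne hy with hy' | hy'
      · -- both negative
        obtain ⟨l4, u4⟩ := CTa_neg (z := P2) (by rw [h2i]; exact mul_neg_of_pos_of_neg hs hy')
        obtain ⟨l5, u5⟩ := CTa_re (z := P1) (by
          rw [h1r]
          have := mul_neg_of_pos_of_neg ht hy'
          linarith only [this, hn0])
        have hQ' : 0 < Qf s t w := by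
          rw [hQdef]
          have e1 := mul_neg_of_neg_of_pos hx' (show 0 < s + 1 / s by positivity)
          have e2 := mul_neg_of_neg_of_pos hy' (show 0 < t + 1 / t by positivity)
          linarith only [e1, e2, hxx, hyy]
        obtain ⟨l3, u3⟩ := CTa_pos (z := P3) (by rw [h3i]; exact mul_pos hst hQ')
        exact CTa_fin hk (by linarith only [l2, l5, l3, b4, hp])
          (by linarith only [u4, u1, u3, b1, hp])
      · obtain ⟨l4, u4⟩ := CTa_pos (z := P2) (by rw [h2i]; exact mul_pos hs hy')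
        rcases lt_or_gt_of_ne hQ with hQ' | hQ'
        · obtain ⟨l3, u3⟩ := CTa_neg (z := P3) (by
            rw [h3i]
            exact mul_neg_of_pos_of_neg hst hQ')
          have hyt : t < w.im := CTa_gt hs ht ht' hx' hy' (by rw [← hQdef]; exact hQ')
          obtain ⟨l5, u5⟩ := CTa_re (z := P1) (by
            rw [h1r, hnn]
            have := mul_pos hy' (sub_pos.2 hyt)
            linarith only [this, hxx])
          exact CTa_fin hk (by linarith only [l4, l5, l3, b4, hp])
            (by linarith only [u2, u1, u3, b1, hp])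
        · obtain ⟨l3, u3⟩ := CTa_pos (z := P3) (by rw [h3i]; exact mul_pos hst hQ')
          exact CTa_fin hk (by linarith only [l1, l4, l3, b4, hp])
            (by linarith only [u4, u1, u3, b1, hp])
    · obtain ⟨l1, u1⟩ := CTa_pos (z := P1) (by rw [h1i]; exact mul_pos ht hx')
      rcases lt_or_gt_of_ne hy with hy' | hy'
      · obtain ⟨l4, u4⟩ := CTa_neg (z := P2) (by rw [h2i]; exact mul_neg_of_pos_of_neg hs hy')
        obtain ⟨l5, u5⟩ := CTa_re (z := P1) (by
          rw [h1r]
          have := mul_neg_of_pos_of_neg ht hy'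
          linarith only [this, hn0])
        rcases lt_or_gt_of_ne hQ with hQ' | hQ'
        · obtain ⟨l3, u3⟩ := CTa_neg (z := P3) (by
            rw [h3i]
            exact mul_neg_of_pos_of_neg hst hQ')
          have hxs : s < w.re := CTa_gt ht hs hs' hy' hx' (by
            have e : 1 + (w.im * w.im + w.re * w.re) - w.im * (t + 1 / t) -
                w.re * (s + 1 / s) = Qf s t w := by
              rw [hQdef]
              ring
            rw [e]
            exact hQ')
          obtain ⟨l2, u2⟩ := CTa_re (z := P2) (by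
            rw [h2r, hnn]
            have := mul_pos hx' (sub_pos.2 hxs)
            linarith only [this, hyy])
          exact CTa_fin hk (by linarith only [l1, l2, l3, b4, hp])
            (by linarith only [u4, u1, u3, b1, hp])
        · obtain ⟨l3, u3⟩ := CTa_pos (z := P3) (by rw [h3i]; exact mul_pos hst hQ')
          exact CTa_fin hk (by linarith only [l1, l4, l3, b4, hp])
            (by linarith only [u4, u1, u3, b1, hp])
      · obtain ⟨l4, u4⟩ := CTa_pos (z := P2) (by rw [h2i]; exact mul_pos hs hy')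
        rcases lt_or_gt_of_ne hQ with hQ' | hQ'
        · obtain ⟨l3, u3⟩ := CTa_neg (z := P3) (by
            rw [h3i]
            exact mul_neg_of_pos_of_neg hst hQ')
          exact CTa_fin hk (by linarith only [l1, l4, l3, b4, hp])
            (by linarith only [u4, u1, u3, b1, hp])
        · obtain ⟨l3, u3⟩ := CTa_pos (z := P3) (by rw [h3i]; exact mul_pos hst hQ')
          have hn1 : 1 ≤ ‖w‖ := by
            by_contra hcon
            push Not at hcon
            exact hw ⟨hx', hy', hcon, hQ'⟩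
          have hre : w.re ≤ ‖w‖ := Complex.re_le_norm w
          have him : w.im ≤ ‖w‖ := Complex.im_le_norm w
          obtain ⟨l5, u5⟩ := CTa_re (z := P1) (by
            rw [h1r]
            have e1 : t * w.im ≤ t * ‖w‖ := mul_le_mul_of_nonneg_left him ht.le
            have e2 : 0 < (1 - t) * ‖w‖ := mul_pos (sub_pos.2 ht') (by linarith only [hn1])
            have e3 : 0 ≤ ‖w‖ * (‖w‖ - 1) :=
              mul_nonneg (by linarith only [hn1]) (sub_nonneg.2 hn1)
            linarith only [e1, e2, e3])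
          obtain ⟨l2, u2⟩ := CTa_re (z := P2) (by
            rw [h2r]
            have e1 : s * w.re ≤ s * ‖w‖ := mul_le_mul_of_nonneg_left hre hs.le
            have e2 : 0 < (1 - s) * ‖w‖ := mul_pos (sub_pos.2 hs') (by linarith only [hn1])
            have e3 : 0 ≤ ‖w‖ * (‖w‖ - 1) :=
              mul_nonneg (by linarith only [hn1]) (sub_nonneg.2 hn1)
            linarith only [e1, e2, e3])
          exact CTa_fin hk (by linarith only [l1, l4, l3, b4, hp])
            (by linarith only [u2, u5, u3, b1, hp])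
  rw [hwd, hk0]
  simp

end Pool.Agent.Helper71.KH
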