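import Pool.Agent.Helper71.KH.CTa

/-!
# Project KH, piece CTB: the area of the right triangle

PROOF. Polar coordinates (`Complex.lintegral_comp_polarCoord_symm` or the `ℝ × ℝ` version,
`lintegral_comp_polarCoord_symm`): with `A = s + 1/s > 2`, `B = t + 1/t > 2`, `g φ = A cos φ + B sin φ`, the
condition `w = r e^{iφ} ∈ Del s t` means `0 < φ < π/2`, `0 < r < 1`, `0 < r² - r g φ + 1`, that is
`0 < r < R φ`, `R φ = (g φ - √(g φ ^ 2 - 4)) / 2 < 1` (`g φ > 2` on `[0, π/2]`:
`g φ ≥ min A B (cos φ + sin φ) ≥ min A B`), so the integral is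
`∫⁻ φ in Ioo 0 (π/2), ∫⁻ r in Ioo 0 (R φ), r / (1 - r²)²`.  The inner integral is
`1/2 (1 / (1 - R²) - 1) = R² / (2 (1 - R²)) = 1/4 (g / √(g² - 4) - 1)` (from `R² + 1 = R g`,
`1 - R² = R √(g² - 4)`).  Put `D = √(A² + B² - 4)`; a primitive of `g / √(g² - 4)` is
`arcsin ((A sin φ - B cos φ) / D)` because `(A sin φ - B cos φ)² + g² = A² + B²`.  So the integral is
`1/4 (arcsin (A / D) + arcsin (B / D) - π/2)`.  With `a' = 1/s - s`, `b' = 1/t - t`: `A² = a'² + 4`,
`B² = b'² + 4`, so `arcsin (A/D) = arctan (A/b')`, `arcsin (B/D) = arctan (B/a')`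
(`Real.arcsin_eq_arctan`), and `arctan (A/b') + arctan (B/a') - π/2 = 2 arctan (s t)`: take tangents;
`A/b' = t (1 + s²) / (s (1 - t²))`, `B/a' = s (1 + t²) / (t (1 - s²))`, `X Y > 1`,
`(X Y - 1) / (X + Y) = 2 s t / (1 - s² t²)`.
-/

set_option autoImplicit false

open MeasureTheory
open scoped Matrix ComplexConjugate ENNReal

namespace Pool.Agent.Helper71.KH

private lemma lint_ftc {a b : ℝ} (hab : a ≤ b) {f F : ℝ → ℝ}
    (hF : ∀ x ∈ Set.Icc a b, HasDerivAt F (f x) x) (hc : ContinuousOn f (Set.Icc a b))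
    (h0 : ∀ x ∈ Set.Ioo a b, 0 ≤ f x) :
    ∫⁻ x in Set.Ioo a b, ENNReal.ofReal (f x) = ENNReal.ofReal (F b - F a) := by
  have h1 : IntervalIntegrable f volume a b := hc.intervalIntegrable_of_Icc hab
  have h2 : IntegrableOn f (Set.Ioo a b) volume :=
    ((intervalIntegrable_iff_integrableOn_Ioo_of_le hab).1 h1)
  rw [← intervalIntegral.integral_eq_sub_of_hasDerivAt
    (fun x hx => hF x (by rwa [Set.uIcc_of_le hab] at hx)) h1,
    intervalIntegral.integral_of_le hab, integral_Ioc_eq_integral_Ioo,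
    ofReal_integral_eq_lintegral_ofReal h2]
  exact (ae_restrict_iff' measurableSet_Ioo).2 (Filter.Eventually.of_forall h0)

/-- the smaller root -/
private noncomputable def rt (g : ℝ) : ℝ := (g - √(g ^ 2 - 4)) / 2

private lemma sq4 {g : ℝ} (hg : 2 < g) : 0 < g ^ 2 - 4 := by nlinarith

private lemma rt_pos {g : ℝ} (hg : 2 < g) : 0 < rt g := by
  unfold rt
  have h1 : √(g ^ 2 - 4) < g := by
    rw [Real.sqrt_lt' (by linarith)]
    linarith
  linarith

private lemma rt_lt_one {g : ℝ} (hg : 2 < g) : rt g < 1 := by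
  unfold rt
  have h1 : g - 2 < √(g ^ 2 - 4) := by
    apply Real.lt_sqrt_of_sq_lt
    nlinarith
  linarith

private lemma rt_eq {g : ℝ} (hg : 2 < g) : rt g ^ 2 + 1 = rt g * g := by
  unfold rt
  have h1 := Real.sq_sqrt (sq4 hg).le
  nlinarith

private lemma rt_one_sub {g : ℝ} (hg : 2 < g) : 1 - rt g ^ 2 = rt g * √(g ^ 2 - 4) := by
  unfold rt
  have h1 := Real.sq_sqrt (sq4 hg).le
  nlinarith

private lemma rt_iff {g r : ℝ} (hg : 2 < g) (hr : 0 < r) :
    (r < 1 ∧ 0 < 1 + r ^ 2 - r * g) ↔ r < rt g := by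
  have h1 := rt_pos hg
  have h2 := rt_lt_one hg
  have h3 := rt_eq hg
  have h4 : rt g * (1 + r ^ 2 - r * g) = (rt g - r) * (1 - rt g * r) := by
    linear_combination r * h3
  constructor
  · rintro ⟨h5, h6⟩
    have h7 : 0 < (rt g - r) * (1 - rt g * r) := by rw [← h4]; exact mul_pos h1 h6
    have h8 : 0 < 1 - rt g * r := by nlinarith
    have h9 := (mul_pos_iff_of_pos_right h8).1 h7
    linarith
  · intro h5
    refine ⟨by linarith, ?_⟩
    have h8 : 0 < 1 - rt g * r := by nlinarith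
    have h7 : 0 < (rt g - r) * (1 - rt g * r) := mul_pos (by linarith) h8
    rw [← h4] at h7
    exact (mul_pos_iff_of_pos_left h1).1 h7

private lemma inner {g : ℝ} (hg : 2 < g) :
    ∫⁻ r in Set.Ioo 0 (rt g), ENNReal.ofReal (r * ((1 - r ^ 2) ^ 2)⁻¹) =
      ENNReal.ofReal (1 / 4 * (g / √(g ^ 2 - 4) - 1)) := by
  have h1 := rt_pos hg
  have h2 := rt_lt_one hg
  have hne : ∀ r ∈ Set.Icc 0 (rt g), 0 < 1 - r ^ 2 := by
    rintro r ⟨h3, h4⟩
    nlinarith
  rw [lint_ftc (F := fun r => 1 / 2 * (1 - r ^ 2)⁻¹) h1.le]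
  · congr 1
    have h3 := rt_one_sub hg
    have h4 := rt_eq hg
    have h5 : 0 < √(g ^ 2 - 4) := Real.sqrt_pos.2 (sq4 hg)
    have h6 : 0 < 1 - rt g ^ 2 := hne _ ⟨h1.le, le_rfl⟩
    have h7 : g = (rt g ^ 2 + 1) / rt g := by rw [h4]; field_simp
    have h8 : √(g ^ 2 - 4) = (1 - rt g ^ 2) / rt g := by rw [h3]; field_simp
    rw [h8]
    have h9 : g / ((1 - rt g ^ 2) / rt g) = (rt g ^ 2 + 1) / (1 - rt g ^ 2) := by
      rw [div_div_eq_mul_div, mul_comm g, ← h4]
    rw [h9]
    field_simp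
    ring
  · intro r hr
    have h3 := hne r hr
    have h4 : HasDerivAt (fun r : ℝ => 1 - r ^ 2) (-(2 * r)) r := by
      have h5 := (hasDerivAt_pow 2 r).const_sub 1
      simpa using h5
    have h6 := (h4.inv h3.ne').const_mul (1 / 2)
    refine h6.congr_deriv ?_
    field_simp
  · apply ContinuousOn.mul continuousOn_id
    apply ContinuousOn.inv₀ (by fun_prop)
    intro r hr
    have := hne r hr
    positivity
  · rintro r ⟨h3, h4⟩
    positivity

/-- `A cos φ + B sin φ` -/
private noncomputable def gg (A B φ : ℝ) : ℝ := A * Real.cos φ + B * Real.sin φ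

private lemma gg_gt {A B φ : ℝ} (hA : 2 < A) (hB : 2 < B) (h0 : 0 ≤ φ) (h1 : φ ≤ Real.pi / 2) :
    2 < gg A B φ := by
  unfold gg
  have h2 : 0 ≤ Real.sin φ := Real.sin_nonneg_of_nonneg_of_le_pi h0 (by linarith [Real.pi_pos])
  have h3 : 0 ≤ Real.cos φ := Real.cos_nonneg_of_neg_pi_div_two_le_of_le
    (by linarith [Real.pi_pos]) h1
  have h4 := Real.sin_sq_add_cos_sq φ
  have h5 : Real.sin φ ≤ 1 := Real.sin_le_one φ
  have h6 : Real.cos φ ≤ 1 := Real.cos_le_one φ
  have h7 : 0 < Real.sin φ + Real.cos φ := by nlinarith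
  have h8 : 1 ≤ Real.sin φ + Real.cos φ := by nlinarith
  have h9 : 0 ≤ (A - 2) * Real.cos φ := mul_nonneg (by linarith) h3
  have h10 : 0 ≤ (B - 2) * Real.sin φ := mul_nonneg (by linarith) h2
  rcases eq_or_lt_of_le h2 with h11 | h11
  · have h12 : 0 < Real.cos φ := by linarith
    have h13 : 0 < (A - 2) * Real.cos φ := mul_pos (by linarith) h12
    linarith
  · have h13 : 0 < (B - 2) * Real.sin φ := mul_pos (by linarith) h11
    linarith

private lemma outer_int {A B : ℝ} (hA : 2 < A) (hB : 2 < B) :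
    ∫⁻ φ in Set.Ioo 0 (Real.pi / 2),
        ENNReal.ofReal (1 / 4 * (gg A B φ / √(gg A B φ ^ 2 - 4) - 1)) =
      ENNReal.ofReal (1 / 4 * (Real.arctan (A / √(B ^ 2 - 4)) + Real.arctan (B / √(A ^ 2 - 4)) -
        Real.pi / 2)) := by
  have hp := Real.pi_pos
  have hder : ∀ φ, HasDerivAt (gg A B) (-(A * Real.sin φ - B * Real.cos φ)) φ := by
    intro φ
    have h1 := ((Real.hasDerivAt_cos φ).const_mul A).add ((Real.hasDerivAt_sin φ).const_mul B)
    exact h1.congr_deriv (by ring)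
  have hu : ∀ φ, HasDerivAt (fun φ => A * Real.sin φ - B * Real.cos φ) (gg A B φ) φ := by
    intro φ
    have h1 := ((Real.hasDerivAt_sin φ).const_mul A).sub ((Real.hasDerivAt_cos φ).const_mul B)
    refine h1.congr_deriv ?_
    unfold gg
    ring
  have hgt : ∀ φ ∈ Set.Icc 0 (Real.pi / 2), 0 < gg A B φ ^ 2 - 4 := fun φ hφ =>
    sq4 (gg_gt hA hB hφ.1 hφ.2)
  have hcont : Continuous (gg A B) := by unfold gg; fun_prop
  rw [lint_ftc (F := fun φ => 1 / 4 * (Real.arctan ((A * Real.sin φ - B * Real.cos φ) /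
    √(gg A B φ ^ 2 - 4)) - φ)) (by linarith)]
  · congr 1
    have h1 : gg A B (Real.pi / 2) = B := by simp [gg]
    have h2 : gg A B 0 = A := by simp [gg]
    simp only [h1, h2, Real.sin_pi_div_two, Real.cos_pi_div_two, Real.sin_zero, Real.cos_zero]
    rw [show (A * 0 - B * 1) / √(A ^ 2 - 4) = -(B / √(A ^ 2 - 4)) by ring, Real.arctan_neg,
      show A * 1 - B * 0 = A by ring]
    ring
  · intro φ hφ
    have h1 := hgt φ hφ
    have h2 : 0 < √(gg A B φ ^ 2 - 4) := Real.sqrt_pos.2 h1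
    have h3 : HasDerivAt (fun φ => gg A B φ ^ 2 - 4)
        (2 * gg A B φ * -(A * Real.sin φ - B * Real.cos φ)) φ := by
      have h4 := ((hder φ).pow 2).sub_const 4
      refine h4.congr_deriv ?_
      simp only [Nat.cast_ofNat, Nat.add_one_sub_one, pow_one]
    have h4 := h3.sqrt h1.ne'
    have h5 := (((hu φ).div h4 h2.ne').arctan.sub (hasDerivAt_id φ)).const_mul (1 / 4)
    refine h5.congr_deriv ?_
    rw [Pi.div_apply]
    have h6 : √(gg A B φ ^ 2 - 4) ^ 2 = gg A B φ ^ 2 - 4 := Real.sq_sqrt h1.le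
    set q := √(gg A B φ ^ 2 - 4) with hq
    set u := A * Real.sin φ - B * Real.cos φ with hu'
    have h7 : 0 < q ^ 2 + u ^ 2 := by positivity
    field_simp
    ring
  · apply ContinuousOn.mul continuousOn_const
    apply ContinuousOn.sub _ continuousOn_const
    apply ContinuousOn.div hcont.continuousOn
    · exact ((hcont.pow 2).sub continuous_const).sqrt.continuousOn
    · intro φ hφ
      exact (Real.sqrt_pos.2 (hgt φ hφ)).ne'
  · intro φ hφ
    have h1 := gg_gt hA hB hφ.1.le hφ.2.le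
    have h2 : 0 < √(gg A B φ ^ 2 - 4) := Real.sqrt_pos.2 (sq4 h1)
    have h3 : √(gg A B φ ^ 2 - 4) ≤ gg A B φ := by
      rw [Real.sqrt_le_left (by linarith)]
      linarith
    have h4 : 1 ≤ gg A B φ / √(gg A B φ ^ 2 - 4) := by
      rw [le_div_iff₀ h2]
      linarith
    linarith

private lemma final {s t : ℝ} (hs : 0 < s) (hs' : s < 1) (ht : 0 < t) (ht' : t < 1) :
    1 / 4 * (Real.arctan ((s + 1 / s) / √((t + 1 / t) ^ 2 - 4)) +
      Real.arctan ((t + 1 / t) / √((s + 1 / s) ^ 2 - 4)) - Real.pi / 2) =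
      Real.arctan (s * t) / 2 := by
  have hq : ∀ x : ℝ, 0 < x → x < 1 → √((x + 1 / x) ^ 2 - 4) = 1 / x - x := by
    intro x h1 h2
    have h3 : (x + 1 / x) ^ 2 - 4 = (1 / x - x) ^ 2 := by
      field_simp
      ring
    rw [h3, Real.sqrt_sq]
    rw [sub_nonneg, le_div_iff₀ h1]
    nlinarith
  rw [hq t ht ht', hq s hs hs']
  have h1 : 0 < 1 - s ^ 2 := by nlinarith
  have h2 : 0 < 1 - t ^ 2 := by nlinarith
  have h3 : (s + 1 / s) / (1 / t - t) = (t * (1 + s ^ 2)) / (s * (1 - t ^ 2)) := by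
    field_simp
    ring
  have h4 : (t + 1 / t) / (1 / s - s) = (s * (1 + t ^ 2)) / (t * (1 - s ^ 2)) := by
    field_simp
    ring
  rw [h3, h4]
  have h5 : 0 < (t * (1 + s ^ 2)) / (s * (1 - t ^ 2)) := by positivity
  have h6 := Real.arctan_inv_of_pos h5
  have h7 : s * t < 1 := by nlinarith
  have h8 : 0 < 1 - s ^ 2 * t ^ 2 := by
    have : (s * t) ^ 2 < 1 := by
      have h9 : 0 < s * t := mul_pos hs ht
      nlinarith
    nlinarith
  have h9 := Real.two_mul_arctan (x := s * t) (by nlinarith [mul_pos hs ht]) h7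
  have h10 : Real.arctan ((s * (1 + t ^ 2)) / (t * (1 - s ^ 2))) +
      Real.arctan (-((t * (1 + s ^ 2)) / (s * (1 - t ^ 2)))⁻¹) =
      Real.arctan (2 * (s * t) / (1 - (s * t) ^ 2)) := by
    rw [Real.arctan_add]
    · congr 1
      rw [show 1 - (s * t) ^ 2 = 1 - s ^ 2 * t ^ 2 by ring]
      have h11 : 0 < 1 - s ^ 2 := h1
      have h12 : (1 : ℝ) - s * (1 + t ^ 2) / (t * (1 - s ^ 2)) *
          -((t * (1 + s ^ 2)) / (s * (1 - t ^ 2)))⁻¹ ≠ 0 := by
        have : 0 < s * (1 + t ^ 2) / (t * (1 - s ^ 2)) *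
          ((t * (1 + s ^ 2)) / (s * (1 - t ^ 2)))⁻¹ := by positivity
        nlinarith
      rw [div_eq_div_iff h12 h8.ne']
      field_simp
      ring
    · have : 0 < s * (1 + t ^ 2) / (t * (1 - s ^ 2)) *
          ((t * (1 + s ^ 2)) / (s * (1 - t ^ 2)))⁻¹ := by positivity
      nlinarith
  rw [Real.arctan_neg] at h10
  linarith

theorem area {s t : ℝ} (hs : 0 < s) (hs' : s < 1) (ht : 0 < t) (ht' : t < 1) :
    ∫⁻ w in Del s t, ENNReal.ofReal (((1 - ‖w‖ ^ 2) ^ 2)⁻¹) =
      ENNReal.ofReal (Real.arctan (s * t) / 2) := by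
  have hp := Real.pi_pos
  set A := s + 1 / s with hA
  set B := t + 1 / t with hB
  have hx2 : ∀ x : ℝ, 0 < x → x < 1 → 2 < x + 1 / x := by
    intro x h1 h2
    have h3 : x + 1 / x - 2 = (1 - x) ^ 2 / x := by
      field_simp
      ring
    have h4 : 0 < (1 - x) ^ 2 / x := by
      have : 0 < 1 - x := by linarith
      positivity
    linarith
  have hA2 : 2 < A := hx2 s hs hs'
  have hB2 : 2 < B := hx2 t ht ht'
  have hmD : MeasurableSet (Del s t) := by
    have hQ : Continuous (Qf s t) := by unfold Qf; fun_prop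
    unfold Del
    refine MeasurableSet.inter (measurableSet_lt measurable_const Complex.measurable_re)
      (MeasurableSet.inter (measurableSet_lt measurable_const Complex.measurable_im)
      (MeasurableSet.inter (measurableSet_lt measurable_norm measurable_const)
      (measurableSet_lt measurable_const hQ.measurable)))
  have hcg : Continuous (gg A B) := by unfold gg; fun_prop
  have hcr : Continuous (fun φ => rt (gg A B φ)) := by
    unfold rt
    exact (hcg.sub ((hcg.pow 2).sub continuous_const).sqrt).div_const 2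
  set U : Set (ℝ × ℝ) := {p | (0 < p.2 ∧ p.2 < Real.pi / 2) ∧ (0 < p.1 ∧ p.1 < rt (gg A B p.2))}
    with hU
  have hmU : MeasurableSet U := by
    refine MeasurableSet.inter (MeasurableSet.inter (measurableSet_lt measurable_const
      measurable_snd) (measurableSet_lt measurable_snd measurable_const))
      (MeasurableSet.inter (measurableSet_lt measurable_const measurable_fst)
      (measurableSet_lt measurable_fst (hcr.measurable.comp measurable_snd)))
  rw [← lintegral_indicator hmD, ← Complex.lintegral_comp_polarCoord_symm]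
  have hkey : ∀ p ∈ polarCoord.target, ENNReal.ofReal p.1 • (Del s t).indicator
      (fun w => ENNReal.ofReal (((1 - ‖w‖ ^ 2) ^ 2)⁻¹)) (Complex.polarCoord.symm p) =
      U.indicator (fun p => ENNReal.ofReal (p.1 * ((1 - p.1 ^ 2) ^ 2)⁻¹)) p := by
    rintro ⟨r, φ⟩ hp'
    rw [polarCoord_target] at hp'
    obtain ⟨hr, hφ⟩ := hp'
    have hr : 0 < r := hr
    have hφ1 : -Real.pi < φ := hφ.1
    have hφ2 : φ < Real.pi := hφ.2
    rw [Complex.polarCoord_symm_apply]
    set w : ℂ := (r : ℂ) * ((Real.cos φ : ℂ) + (Real.sin φ : ℂ) * Complex.I) with hw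
    have hre : w.re = r * Real.cos φ := by
      rw [hw]; simp [-Complex.ofReal_cos, -Complex.ofReal_sin]
    have him : w.im = r * Real.sin φ := by
      rw [hw]; simp [-Complex.ofReal_cos, -Complex.ofReal_sin]
    have hn2 : ‖w‖ ^ 2 = r ^ 2 := by
      rw [← Complex.normSq_eq_norm_sq, Complex.normSq_apply, hre, him]
      have := Real.sin_sq_add_cos_sq φ
      linear_combination r ^ 2 * this
    have hn : ‖w‖ = r := by
      have h1 : 0 ≤ ‖w‖ := norm_nonneg w
      nlinarith [sq_nonneg (‖w‖ - r)]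
    have hiff : w ∈ Del s t ↔ (r, φ) ∈ U := by
      show (0 < w.re ∧ 0 < w.im ∧ ‖w‖ < 1 ∧ 0 < Qf s t w) ↔
        ((0 < φ ∧ φ < Real.pi / 2) ∧ (0 < r ∧ r < rt (gg A B φ)))
      rw [hn]
      have hQ : Qf s t w = 1 + r ^ 2 - r * gg A B φ := by
        unfold Qf gg
        rw [hn, hre, him, ← hA, ← hB]
        ring
      rw [hQ, hre, him]
      constructor
      · rintro ⟨h1, h2, h3, h4⟩
        have h5 : 0 < Real.cos φ := by
          rcases (mul_pos_iff.1 h1) with h | h
          · exact h.2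
          · linarith [h.1]
        have h6 : 0 < Real.sin φ := by
          rcases (mul_pos_iff.1 h2) with h | h
          · exact h.2
          · linarith [h.1]
        have h7 : 0 < φ := by
          by_contra hc
          have := Real.sin_nonpos_of_nonpos_of_neg_pi_le (not_lt.1 hc) hφ1.le
          linarith
        have h8 : φ < Real.pi / 2 := by
          by_contra hc
          have := Real.cos_nonpos_of_pi_div_two_le_of_le (not_lt.1 hc) (by linarith)
          linarith
        exact ⟨⟨h7, h8⟩, hr, (rt_iff (gg_gt hA2 hB2 h7.le h8.le) hr).1 ⟨h3, h4⟩⟩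
      · rintro ⟨⟨h7, h8⟩, -, h9⟩
        obtain ⟨h3, h4⟩ := (rt_iff (gg_gt hA2 hB2 h7.le h8.le) hr).2 h9
        refine ⟨mul_pos hr (Real.cos_pos_of_mem_Ioo ⟨by linarith, h8⟩),
          mul_pos hr (Real.sin_pos_of_pos_of_lt_pi h7 hφ2), h3, h4⟩
    by_cases h : w ∈ Del s t
    · rw [Set.indicator_of_mem h, Set.indicator_of_mem (hiff.1 h), hn2, smul_eq_mul,
        ← ENNReal.ofReal_mul hr.le]
    · rw [Set.indicator_of_notMem h, Set.indicator_of_notMem (fun h' => h (hiff.2 h')), smul_zero]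
  rw [setLIntegral_congr_fun polarCoord.open_target.measurableSet hkey]
  have hsub : U ⊆ polarCoord.target := by
    rintro ⟨r, φ⟩ ⟨⟨h1, h2⟩, h3, h4⟩
    rw [polarCoord_target]
    have h1 : 0 < φ := h1
    have h2 : φ < Real.pi / 2 := h2
    exact ⟨h3, ⟨by linarith, by linarith⟩⟩
  rw [← lintegral_indicator polarCoord.open_target.measurableSet, Set.indicator_indicator,
    Set.inter_eq_self_of_subset_right hsub, Measure.volume_eq_prod, lintegral_prod_symm]
  · have h1 : ∀ φ, ∫⁻ r, U.indicator (fun p => ENNReal.ofReal (p.1 * ((1 - p.1 ^ 2) ^ 2)⁻¹)) (r, φ)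
        = (Set.Ioo 0 (Real.pi / 2)).indicator (fun φ =>
          ENNReal.ofReal (1 / 4 * (gg A B φ / √(gg A B φ ^ 2 - 4) - 1))) φ := by
      intro φ
      by_cases hφ : φ ∈ Set.Ioo 0 (Real.pi / 2)
      · rw [Set.indicator_of_mem hφ, ← inner (gg_gt hA2 hB2 hφ.1.le hφ.2.le),
          ← lintegral_indicator measurableSet_Ioo]
        congr 1
        funext r
        by_cases hr : r ∈ Set.Ioo 0 (rt (gg A B φ))
        · rw [Set.indicator_of_mem hr, Set.indicator_of_mem (show (r, φ) ∈ U from ⟨hφ, hr⟩)]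
        · rw [Set.indicator_of_notMem hr, Set.indicator_of_notMem (fun h => hr h.2)]
      · rw [Set.indicator_of_notMem hφ]
        rw [lintegral_congr (g := fun _ => 0)]
        · simp
        · intro r
          exact Set.indicator_of_notMem (fun h => hφ h.1) _
    simp_rw [h1]
    rw [lintegral_indicator measurableSet_Ioo, outer_int hA2 hB2, hA, hB, final hs hs' ht ht']
  · apply Measurable.aemeasurable
    apply Measurable.indicator _ hmU
    fun_prop

end Pool.Agent.Helper71.KH
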