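import Pool.Agent.Helper71.KH.CTb

/-!
# Project KH, piece CTE: the weighted measure of the right triangle

PROOF. Exchange the integrals (Tonelli; the set is measurable).  For fixed `b ≠ 0` substitute
`a = conj w * b` (`w ↦ conj w * b` multiplies the measure by `‖b‖²`):
`∫⁻ a, .. = ‖b‖² ∫⁻ w in Del s t, exp (‖b‖² ‖w‖² - ‖b‖²)`; exchange again, and
`∫⁻ b : ℂ, ‖b‖² exp (-δ ‖b‖²) = π / δ²` for `δ = 1 - ‖w‖² > 0` (polar coordinates, or
`integral_rpow_mul_exp_neg_mul_sq`), then `area`.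
-/

set_option autoImplicit false

open MeasureTheory
open scoped Matrix ComplexConjugate ENNReal

namespace Pool.Agent.Helper71.KH

variable {n : ℕ}

private theorem CTe_measDel (s t : ℝ) : MeasurableSet (Del s t) := by
  have h1 : Measurable fun w : ℂ => w.re := Complex.measurable_re
  have h2 : Measurable fun w : ℂ => w.im := Complex.measurable_im
  have h3 : Measurable fun w : ℂ => ‖w‖ := measurable_norm
  have h4 : Measurable fun w : ℂ => Qf s t w := by
    unfold Qf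
    fun_prop
  exact (measurableSet_lt measurable_const h1).inter ((measurableSet_lt measurable_const h2).inter
    ((measurableSet_lt h3 measurable_const).inter (measurableSet_lt measurable_const h4)))

private theorem CTe_subst {b : ℂ} (hb : b ≠ 0) (F : ℂ → ℝ≥0∞) (hF : Measurable F) :
    ∫⁻ a : ℂ, F a = ENNReal.ofReal (‖b‖ ^ 2) * ∫⁻ w : ℂ, F (conj w * b) := by
  set f : ℂ →ₗ[ℝ] ℂ := (Algebra.lmul ℝ ℂ b).comp Complex.conjAe.toLinearMap with hf
  have hdet : LinearMap.det f = -(‖b‖ ^ 2) := by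
    rw [hf, LinearMap.det_comp, ← Algebra.norm_apply, Algebra.norm_complex_apply,
      Complex.normSq_eq_norm_sq]
    have := Complex.det_conjAe
    rw [this]
    ring
  have hb' : (0 : ℝ) < ‖b‖ ^ 2 := by positivity
  have hne : LinearMap.det f ≠ 0 := by
    rw [hdet]
    exact neg_ne_zero.2 hb'.ne'
  have hmap := Measure.map_linearMap_addHaar_eq_smul_addHaar (volume : Measure ℂ) hne
  have hfm : Measurable (f : ℂ → ℂ) := f.continuous_of_finiteDimensional.measurable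
  have h1 : ∫⁻ w : ℂ, F (f w) = ENNReal.ofReal |(LinearMap.det f)⁻¹| * ∫⁻ a : ℂ, F a := by
    rw [← lintegral_map hF hfm, hmap, lintegral_smul_measure, smul_eq_mul]
  have h2 : ∀ w : ℂ, f w = conj w * b := by
    intro w
    simp [hf, mul_comm]
  simp only [h2] at h1
  rw [h1, ← mul_assoc, ← ENNReal.ofReal_mul hb'.le, hdet]
  have h3 : ‖b‖ ^ 2 * |(-(‖b‖ ^ 2))⁻¹| = 1 := by
    rw [abs_inv, abs_neg, abs_of_pos hb', mul_inv_cancel₀ hb'.ne']
  rw [h3, ENNReal.ofReal_one, one_mul]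

private theorem CTe_gauss {δ : ℝ} (hδ : 0 < δ) :
    ∫⁻ b : ℂ, ENNReal.ofReal (‖b‖ ^ 2 * Real.exp (-δ * ‖b‖ ^ 2)) =
      ENNReal.ofReal (Real.pi * (δ ^ 2)⁻¹) := by
  have h := Complex.integral_rpow_mul_exp_neg_mul_rpow (p := 2) (q := 2) (b := δ)
    (by norm_num) (by norm_num) hδ
  have h1 : (2 * Real.pi / 2 * δ ^ (-((2 : ℝ) + 2) / 2) * Real.Gamma (((2 : ℝ) + 2) / 2)) =
      Real.pi * (δ ^ 2)⁻¹ := by
    have e1 : (-((2 : ℝ) + 2) / 2) = -(2 : ℝ) := by norm_num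
    have e2 : (((2 : ℝ) + 2) / 2) = 2 := by norm_num
    rw [e1, e2, Real.Gamma_two, mul_one, Real.rpow_neg hδ.le, Real.rpow_two]
    ring
  rw [h1] at h
  have h2 : ∀ x : ℂ, ‖x‖ ^ (2 : ℝ) * Real.exp (-δ * ‖x‖ ^ (2 : ℝ)) =
      ‖x‖ ^ 2 * Real.exp (-δ * ‖x‖ ^ 2) := by
    intro x
    rw [Real.rpow_two]
  simp only [h2] at h
  have hpos : 0 < Real.pi * (δ ^ 2)⁻¹ := by positivity
  have hint : Integrable fun x : ℂ => ‖x‖ ^ 2 * Real.exp (-δ * ‖x‖ ^ 2) := by
    by_contra hcon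
    rw [integral_undef hcon] at h
    exact hpos.ne h
  rw [← h, ofReal_integral_eq_lintegral_ofReal hint]
  exact Filter.Eventually.of_forall fun x => by positivity

theorem mass {s t : ℝ} (hs : 0 < s) (hs' : s < 1) (ht : 0 < t) (ht' : t < 1) :
    ∫⁻ a : ℂ, ∫⁻ b : ℂ, {p : ℂ × ℂ | p.2 ≠ 0 ∧ conj (p.1 / p.2) ∈ Del s t}.indicator
      (fun p => ENNReal.ofReal (Real.exp (‖p.1‖ ^ 2 - ‖p.2‖ ^ 2))) (a, b) =
      ENNReal.ofReal (Real.pi / 2 * Real.arctan (s * t)) := by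
  have hD := CTe_measDel s t
  set S : Set (ℂ × ℂ) := {p : ℂ × ℂ | p.2 ≠ 0 ∧ conj (p.1 / p.2) ∈ Del s t} with hS
  have hSm : MeasurableSet S := by
    refine MeasurableSet.inter ?_ ?_
    · exact (measurableSet_eq_fun measurable_snd measurable_const).compl
    · refine measurableSet_preimage ?_ hD
      exact Complex.continuous_conj.measurable.comp (measurable_fst.div measurable_snd)
  have hEm : Measurable fun p : ℂ × ℂ =>
      ENNReal.ofReal (Real.exp (‖p.1‖ ^ 2 - ‖p.2‖ ^ 2)) := by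
    fun_prop
  have hFm : Measurable (S.indicator
      (fun p : ℂ × ℂ => ENNReal.ofReal (Real.exp (‖p.1‖ ^ 2 - ‖p.2‖ ^ 2)))) :=
    hEm.indicator hSm
  rw [lintegral_lintegral_swap (f := fun a b => S.indicator
      (fun p : ℂ × ℂ => ENNReal.ofReal (Real.exp (‖p.1‖ ^ 2 - ‖p.2‖ ^ 2))) (a, b))
      hFm.aemeasurable]
  have h1 : ∀ b : ℂ, ∫⁻ a : ℂ, S.indicator
      (fun p : ℂ × ℂ => ENNReal.ofReal (Real.exp (‖p.1‖ ^ 2 - ‖p.2‖ ^ 2))) (a, b) =
      ∫⁻ w : ℂ, (Del s t).indicator (fun w =>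
        ENNReal.ofReal (‖b‖ ^ 2 * Real.exp (-(1 - ‖w‖ ^ 2) * ‖b‖ ^ 2))) w := by
    intro b
    rcases eq_or_ne b 0 with hb | hb
    · subst hb
      have h2 : ∀ a : ℂ, S.indicator
          (fun p : ℂ × ℂ => ENNReal.ofReal (Real.exp (‖p.1‖ ^ 2 - ‖p.2‖ ^ 2))) (a, 0) = 0 := by
        intro a
        refine Set.indicator_of_notMem ?_ _
        rintro ⟨h, _⟩
        exact h rfl
      simp only [h2, lintegral_zero]
      symm
      rw [lintegral_indicator hD]
      simp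
    · rw [CTe_subst hb (fun a => S.indicator
        (fun p : ℂ × ℂ => ENNReal.ofReal (Real.exp (‖p.1‖ ^ 2 - ‖p.2‖ ^ 2))) (a, b))
        (hFm.comp (measurable_id.prodMk measurable_const))]
      rw [← lintegral_const_mul' _ _ ENNReal.ofReal_ne_top]
      refine lintegral_congr fun w => ?_
      by_cases hw : w ∈ Del s t
      · rw [Set.indicator_of_mem hw, Set.indicator_of_mem (show (conj w * b, b) ∈ S from
          ⟨hb, by
            show conj (conj w * b / b) ∈ Del s t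
            rw [mul_div_cancel_right₀ _ hb, Complex.conj_conj]
            exact hw⟩)]
        rw [← ENNReal.ofReal_mul (by positivity)]
        congr 3
        show ‖conj w * b‖ ^ 2 - ‖b‖ ^ 2 = -(1 - ‖w‖ ^ 2) * ‖b‖ ^ 2
        rw [norm_mul, Complex.norm_conj]
        ring
      · rw [Set.indicator_of_notMem hw, Set.indicator_of_notMem, mul_zero]
        rintro ⟨_, h⟩
        apply hw
        have h' : conj (conj w * b / b) ∈ Del s t := h
        rwa [mul_div_cancel_right₀ _ hb, Complex.conj_conj] at h'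
  simp only [h1]
  have hGm : Measurable fun p : ℂ × ℂ => (Del s t).indicator (fun w =>
      ENNReal.ofReal (‖p.1‖ ^ 2 * Real.exp (-(1 - ‖w‖ ^ 2) * ‖p.1‖ ^ 2))) p.2 := by
    have h3 : Measurable fun p : ℂ × ℂ =>
        ENNReal.ofReal (‖p.1‖ ^ 2 * Real.exp (-(1 - ‖p.2‖ ^ 2) * ‖p.1‖ ^ 2)) := by
      fun_prop
    exact h3.indicator (measurableSet_preimage measurable_snd hD)
  rw [lintegral_lintegral_swap (f := fun b w => (Del s t).indicator (fun w =>
      ENNReal.ofReal (‖b‖ ^ 2 * Real.exp (-(1 - ‖w‖ ^ 2) * ‖b‖ ^ 2))) w) hGm.aemeasurable]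
  have h5 : ∀ w : ℂ, ∫⁻ b : ℂ, (Del s t).indicator (fun w =>
      ENNReal.ofReal (‖b‖ ^ 2 * Real.exp (-(1 - ‖w‖ ^ 2) * ‖b‖ ^ 2))) w =
      (Del s t).indicator (fun w => ENNReal.ofReal Real.pi *
        ENNReal.ofReal (((1 - ‖w‖ ^ 2) ^ 2)⁻¹)) w := by
    intro w
    by_cases hw : w ∈ Del s t
    · simp only [Set.indicator_of_mem hw]
      have hw1 : ‖w‖ < 1 := hw.2.2.1
      have hδ : 0 < 1 - ‖w‖ ^ 2 := by
        have : ‖w‖ ^ 2 < 1 := pow_lt_one₀ (norm_nonneg _) hw1 two_ne_zero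
        linarith
      rw [CTe_gauss hδ, ENNReal.ofReal_mul Real.pi_pos.le]
    · simp only [Set.indicator_of_notMem hw, lintegral_zero]
  simp only [h5]
  rw [lintegral_indicator hD, lintegral_const_mul' _ _ ENNReal.ofReal_ne_top,
    area hs hs' ht ht', ← ENNReal.ofReal_mul Real.pi_pos.le]
  congr 1
  ring

end Pool.Agent.Helper71.KH
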