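import Pool.Agent.Helper71.KH.Kdef

/-!
# Project KH, piece RED: reduction to the first two or three coordinates

PROOF. `∫⁻ u : ℂ, exp (-‖u‖²) = π` (`Complex.integral_exp_neg_...` or `integral_gaussian_complex`, or as a
product of two real Gaussians: `integral_gaussian`, `MeasureTheory.ofReal_integral_eq_lintegral_ofReal`).
`∫⁻ u : Fin m → ℂ, exp (-∑ ‖u i‖²) = π ^ m` (`lintegral` over a product of a product of functions,
`MeasureTheory.lintegral_fintype_prod_eq_prod` or induction on `m`).  Then split off the coordinates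
one by one with `MeasureTheory.volume_preserving_piFinSuccAbove (fun _ => ℂ) 0` and
`lintegral_prod` (Tonelli); `Fin.insertNth 0 a h` has value `a` at `0` and `h i` at `i.succ`.
-/

set_option autoImplicit false

open MeasureTheory
open scoped Matrix ComplexConjugate ENNReal

namespace Pool.Agent.Helper71.KH

private theorem measurable_fcons (k : ℕ) :
    Measurable fun p : ℂ × (Fin k → ℂ) => (Fin.cons p.1 p.2 : Fin (k + 1) → ℂ) := by
  refine measurable_pi_iff.2 fun i => ?_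
  refine Fin.cases ?_ (fun j => ?_) i
  · exact measurable_fst
  · exact (measurable_pi_apply j).comp measurable_snd

private theorem split_one (k : ℕ) (F : (Fin (k + 1) → ℂ) → ℝ≥0∞) (hF : Measurable F) :
    ∫⁻ h : Fin (k + 1) → ℂ, F h =
      ∫⁻ a : ℂ, ∫⁻ h' : Fin k → ℂ, F (Fin.cons a h' : Fin (k + 1) → ℂ) := by
  have h1 := volume_preserving_piFinSuccAbove (fun _ : Fin (k + 1) => ℂ) 0
  set e := MeasurableEquiv.piFinSuccAbove (fun _ : Fin (k + 1) => ℂ) 0 with he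
  have h2 : ∀ h : Fin (k + 1) → ℂ, F h = (fun p : ℂ × (Fin k → ℂ) =>
      F (Fin.cons p.1 p.2 : Fin (k + 1) → ℂ)) (e h) := by
    intro h
    have h3 : (Fin.cons (e h).1 (e h).2 : Fin (k + 1) → ℂ) = h := by
      funext i
      refine Fin.cases ?_ (fun j => ?_) i
      · rfl
      · rfl
    simp only []
    rw [h3]
  rw [lintegral_congr h2]
  have h4 := h1.lintegral_comp_emb e.measurableEmbedding
    (fun p : ℂ × (Fin k → ℂ) => F (Fin.cons p.1 p.2 : Fin (k + 1) → ℂ))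
  rw [h4]
  exact lintegral_prod _ (hF.comp (measurable_fcons k)).aemeasurable

private theorem gauss_one : ∫⁻ u : ℂ, ENNReal.ofReal (Real.exp (-‖u‖ ^ 2)) =
    ENNReal.ofReal Real.pi := by
  have h1 : ∫ u : ℂ, Real.exp (-‖u‖ ^ 2) = Real.pi := by
    have h2 := Complex.integral_exp_neg_rpow (p := 2) (by norm_num)
    have h3 : Real.Gamma (2 / 2 + 1) = 1 := by
      rw [show (2 / 2 + 1 : ℝ) = 2 by norm_num, Real.Gamma_two]
    rw [h3, mul_one] at h2
    simpa using h2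
  have h4 : Integrable (fun u : ℂ => Real.exp (-‖u‖ ^ 2)) := by
    by_contra h5
    rw [integral_undef h5] at h1
    exact Real.pi_ne_zero h1.symm
  rw [← ofReal_integral_eq_lintegral_ofReal h4
    (Filter.Eventually.of_forall fun u => (Real.exp_pos _).le), h1]

private theorem measurable_gauss (m : ℕ) : Measurable fun h : Fin m → ℂ =>
    ENNReal.ofReal (Real.exp (-∑ i : Fin m, ‖h i‖ ^ 2)) := by
  fun_prop

private theorem gauss_pi (m : ℕ) :
    ∫⁻ h : Fin m → ℂ, ENNReal.ofReal (Real.exp (-∑ i : Fin m, ‖h i‖ ^ 2)) =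
      ENNReal.ofReal (Real.pi ^ m) := by
  induction m with
  | zero =>
    have h0 : (volume : Measure (Fin 0 → ℂ)) Set.univ = 1 := by
      rw [volume_pi, Measure.pi_univ]
      simp
    simp [h0]
  | succ m ih =>
    rw [split_one m _ (measurable_gauss (m + 1))]
    have h1 : ∀ (a : ℂ) (h' : Fin m → ℂ), ENNReal.ofReal (Real.exp
        (-∑ i : Fin (m + 1), ‖(Fin.cons a h' : Fin (m + 1) → ℂ) i‖ ^ 2)) =
        ENNReal.ofReal (Real.exp (-‖a‖ ^ 2)) *
          ENNReal.ofReal (Real.exp (-∑ i : Fin m, ‖h' i‖ ^ 2)) := by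
      intro a h'
      rw [Fin.sum_univ_succ, ← ENNReal.ofReal_mul (Real.exp_pos _).le, ← Real.exp_add]
      simp only [Fin.cons_zero, Fin.cons_succ]
      congr 2
      ring
    simp only [h1]
    have h2 : ∀ a : ℂ, ∫⁻ h' : Fin m → ℂ, ENNReal.ofReal (Real.exp (-‖a‖ ^ 2)) *
          ENNReal.ofReal (Real.exp (-∑ i : Fin m, ‖h' i‖ ^ 2)) =
        ENNReal.ofReal (Real.exp (-‖a‖ ^ 2)) * ENNReal.ofReal (Real.pi ^ m) := by
      intro a
      rw [lintegral_const_mul _ (measurable_gauss m), ih]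
    simp only [h2]
    rw [lintegral_mul_const _ (by fun_prop), gauss_one, ← ENNReal.ofReal_mul Real.pi_pos.le,
      pow_succ, mul_comm (Real.pi ^ m)]

theorem red2 (m : ℕ) (f : ℂ → ℂ → ℝ≥0∞) (hf : Measurable (Function.uncurry f)) :
    ∫⁻ h : V (m + 1), f (h 0) (h 1) *
        ENNReal.ofReal (Real.exp (-∑ i : Fin m, ‖h i.succ.succ‖ ^ 2)) =
      ENNReal.ofReal (Real.pi ^ m) * ∫⁻ a : ℂ, ∫⁻ b : ℂ, f a b := by
  have hm0 : Measurable fun h : Fin (m + 2) → ℂ => f (h 0) (h 1) *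
      ENNReal.ofReal (Real.exp (-∑ i : Fin m, ‖h i.succ.succ‖ ^ 2)) := by
    refine Measurable.mul ?_ (by fun_prop)
    have h5 : Measurable fun h : Fin (m + 2) → ℂ => (h 0, h 1) := by fun_prop
    exact hf.comp h5
  have h1 := split_one (m + 1) _ hm0
  refine h1.trans ?_
  have h2 : ∀ a : ℂ, ∫⁻ h' : Fin (m + 1) → ℂ,
      f ((Fin.cons a h' : Fin (m + 2) → ℂ) 0) ((Fin.cons a h' : Fin (m + 2) → ℂ) 1) *
        ENNReal.ofReal (Real.exp (-∑ i : Fin m,
          ‖(Fin.cons a h' : Fin (m + 2) → ℂ) i.succ.succ‖ ^ 2)) =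
      ∫⁻ b : ℂ, f a b * ENNReal.ofReal (Real.pi ^ m) := by
    intro a
    have hm1 : Measurable fun h' : Fin (m + 1) → ℂ =>
        f ((Fin.cons a h' : Fin (m + 2) → ℂ) 0) ((Fin.cons a h' : Fin (m + 2) → ℂ) 1) *
        ENNReal.ofReal (Real.exp (-∑ i : Fin m,
          ‖(Fin.cons a h' : Fin (m + 2) → ℂ) i.succ.succ‖ ^ 2)) :=
      hm0.comp ((measurable_fcons (m + 1)).comp measurable_prodMk_left)
    rw [split_one m _ hm1]
    refine lintegral_congr fun b => ?_
    have h3 : ∀ h'' : Fin m → ℂ,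
        f ((Fin.cons a (Fin.cons b h'' : Fin (m + 1) → ℂ) : Fin (m + 2) → ℂ) 0)
          ((Fin.cons a (Fin.cons b h'' : Fin (m + 1) → ℂ) : Fin (m + 2) → ℂ) 1) *
        ENNReal.ofReal (Real.exp (-∑ i : Fin m,
          ‖(Fin.cons a (Fin.cons b h'' : Fin (m + 1) → ℂ) : Fin (m + 2) → ℂ) i.succ.succ‖ ^ 2)) =
        f a b * ENNReal.ofReal (Real.exp (-∑ i : Fin m, ‖h'' i‖ ^ 2)) := fun h'' => rfl
    rw [lintegral_congr h3, lintegral_const_mul _ (measurable_gauss m), gauss_pi]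
  rw [lintegral_congr h2]
  have h4 : ∀ a : ℂ, ∫⁻ b : ℂ, f a b * ENNReal.ofReal (Real.pi ^ m) =
      (∫⁻ b : ℂ, f a b) * ENNReal.ofReal (Real.pi ^ m) := fun a =>
    lintegral_mul_const _ (hf.comp measurable_prodMk_left)
  have h5 : Measurable fun a : ℂ => ∫⁻ b : ℂ, f a b := hf.lintegral_prod_right'
  rw [lintegral_congr h4, lintegral_mul_const _ h5, mul_comm]

theorem red3 (m : ℕ) (f : ℂ → ℂ → ℂ → ℝ≥0∞)
    (hf : Measurable fun p : ℂ × ℂ × ℂ => f p.1 p.2.1 p.2.2) :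
    ∫⁻ h : V (m + 2), f (h 0) (h 1) (h 2) *
        ENNReal.ofReal (Real.exp (-∑ i : Fin m, ‖h i.succ.succ.succ‖ ^ 2)) =
      ENNReal.ofReal (Real.pi ^ m) * ∫⁻ a : ℂ, ∫⁻ b : ℂ, ∫⁻ c : ℂ, f a b c := by
  have hm0 : Measurable fun h : Fin (m + 3) → ℂ => f (h 0) (h 1) (h 2) *
      ENNReal.ofReal (Real.exp (-∑ i : Fin m, ‖h i.succ.succ.succ‖ ^ 2)) := by
    refine Measurable.mul ?_ (by fun_prop)
    have h5 : Measurable fun h : Fin (m + 3) → ℂ => (h 0, h 1, h 2) := by fun_prop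
    exact hf.comp h5
  have h1 := split_one (m + 2) _ hm0
  refine h1.trans ?_
  have hfa : ∀ a : ℂ, Measurable (Function.uncurry (f a)) := fun a =>
    hf.comp (measurable_const.prodMk (measurable_fst.prodMk measurable_snd))
  have h2 : ∀ a : ℂ, ∫⁻ h' : Fin (m + 2) → ℂ,
      f ((Fin.cons a h' : Fin (m + 3) → ℂ) 0) ((Fin.cons a h' : Fin (m + 3) → ℂ) 1)
        ((Fin.cons a h' : Fin (m + 3) → ℂ) 2) *
        ENNReal.ofReal (Real.exp (-∑ i : Fin m,
          ‖(Fin.cons a h' : Fin (m + 3) → ℂ) i.succ.succ.succ‖ ^ 2)) =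
      ENNReal.ofReal (Real.pi ^ m) * ∫⁻ b : ℂ, ∫⁻ c : ℂ, f a b c := by
    intro a
    exact red2 m (f a) (hfa a)
  rw [lintegral_congr h2]
  have hmb : Measurable fun p : ℂ × ℂ => ∫⁻ c : ℂ, f p.1 p.2 c := by
    have h3 : Measurable fun q : (ℂ × ℂ) × ℂ => f q.1.1 q.1.2 q.2 :=
      hf.comp ((measurable_fst.comp measurable_fst).prodMk
        ((measurable_snd.comp measurable_fst).prodMk measurable_snd))
    exact h3.lintegral_prod_right'
  have h6 : Measurable fun a : ℂ => ∫⁻ b : ℂ, ∫⁻ c : ℂ, f a b c := hmb.lintegral_prod_right'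
  rw [lintegral_const_mul _ h6]

end Pool.Agent.Helper71.KH
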