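import Pool.Agent.Helper71.KH.CTd
import Pool.Agent.Helper71.KH.CTe
import Pool.Agent.Helper71.KH.Red

/-!
# Project KH, piece CTC: right triangles in a complex line are good

PROOF. For almost all `h` (`h 1 ≠ 0`, `w.re ≠ 0`, `w.im ≠ 0`, `Qf s t w ≠ 0`, `w = conj (h 0 / h 1)`, hold for
almost all `h`: by Fubini, for fixed `h 1 ≠ 0` each excludes a null set of `h 0`) `kv h x y z = 1` if
`w ∈ Del s t` and `0` otherwise (`kv_cpx`, `wd_in`, `wd_out`).  So `W ≥ 0` almost everywhere,
`W = exp (-(hf h h).re) * 1` on the set, `-(hf h h).re = ‖h 0‖² - ‖h 1‖² - ∑ ‖h i.succ.succ‖²` (`hf_self_re`,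
`Fin.sum_univ_succ`), and by `red2` and `mass`
`∫⁻ W = π ^ m * (π/2 arctan (s t)) = π ^ (m + 1) / 2 * al x y z` (`al_cpx`), which is `≤ π ^ (m + 2)`; `W_meas`,
`integral_eq_lintegral_of_nonneg_ae`.
-/

set_option autoImplicit false

open MeasureTheory
open scoped Matrix ComplexConjugate ENNReal

namespace Pool.Agent.Helper71.KH

variable {n : ℕ}

private def CTc_bad (s t : ℝ) : Set ℂ := {w | w.re = 0 ∨ w.im = 0 ∨ Qf s t w = 0}

private theorem CTc_measQf (s t : ℝ) : Measurable fun w : ℂ => Qf s t w := by
  have h1 : Measurable fun w : ℂ => w.re := Complex.measurable_re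
  have h2 : Measurable fun w : ℂ => w.im := Complex.measurable_im
  unfold Qf
  fun_prop

private theorem CTc_measDel (s t : ℝ) : MeasurableSet (Del s t) := by
  have h1 : Measurable fun w : ℂ => w.re := Complex.measurable_re
  have h2 : Measurable fun w : ℂ => w.im := Complex.measurable_im
  have h3 : Measurable fun w : ℂ => ‖w‖ := measurable_norm
  exact (measurableSet_lt measurable_const h1).inter ((measurableSet_lt measurable_const h2).inter
    ((measurableSet_lt h3 measurable_const).inter
      (measurableSet_lt measurable_const (CTc_measQf s t))))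

private theorem CTc_measBad (s t : ℝ) : MeasurableSet (CTc_bad s t) :=
  (measurableSet_eq_fun Complex.measurable_re measurable_const).union
    ((measurableSet_eq_fun Complex.measurable_im measurable_const).union
      (measurableSet_eq_fun (CTc_measQf s t) measurable_const))

private theorem CTc_null (s t : ℝ) :
    volume (CTc_bad s t) = 0 := by
  have h1 : volume {w : ℂ | w.re = 0} = 0 := by
    have h := Measure.addHaar_submodule (volume : Measure ℂ) (LinearMap.ker Complex.reLm) (by
      intro h
      have h2 : (1 : ℂ) ∈ LinearMap.ker Complex.reLm := by rw [h]; trivial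
      rw [LinearMap.mem_ker] at h2
      simp at h2)
    refine measure_mono_null ?_ h
    intro w hw
    show w ∈ LinearMap.ker Complex.reLm
    rw [LinearMap.mem_ker]
    exact hw
  have h2 : volume {w : ℂ | w.im = 0} = 0 := by
    have h := Measure.addHaar_submodule (volume : Measure ℂ) (LinearMap.ker Complex.imLm) (by
      intro h
      have h2 : (Complex.I : ℂ) ∈ LinearMap.ker Complex.imLm := by rw [h]; trivial
      rw [LinearMap.mem_ker] at h2
      simp at h2)
    refine measure_mono_null ?_ h
    intro w hw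
    show w ∈ LinearMap.ker Complex.imLm
    rw [LinearMap.mem_ker]
    exact hw
  have h3 : volume {w : ℂ | Qf s t w = 0} = 0 := by
    set c : ℂ := ⟨(s + 1 / s) / 2, (t + 1 / t) / 2⟩ with hc
    refine measure_mono_null ?_ (Measure.addHaar_sphere (volume : Measure ℂ) c
      (Real.sqrt (‖c‖ ^ 2 - 1)))
    intro w hw
    have hw' : Qf s t w = 0 := hw
    rw [mem_sphere_iff_norm]
    have e1 : ‖w - c‖ ^ 2 = ‖c‖ ^ 2 - 1 := by
      unfold Qf at hw'
      rw [← Complex.normSq_eq_norm_sq, Complex.normSq_apply] at hw' ⊢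
      rw [← Complex.normSq_eq_norm_sq, Complex.normSq_apply]
      simp only [Complex.sub_re, Complex.sub_im, hc]
      linarith
    rw [← e1, Real.sqrt_sq (norm_nonneg _)]
  exact measure_union_null h1 (measure_union_null h2 h3)

private theorem CTc_fibre (s t : ℝ) {b : ℂ} (hb : b ≠ 0) :
    volume {a : ℂ | conj (a / b) ∈ CTc_bad s t} = 0 := by
  set f : ℂ →ₗ[ℝ] ℂ := Complex.conjAe.toLinearMap.comp (Algebra.lmul ℝ ℂ b⁻¹) with hf
  have hdet : LinearMap.det f ≠ 0 := by
    rw [hf, LinearMap.det_comp, ← Algebra.norm_apply, Algebra.norm_complex_apply,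
      Complex.normSq_eq_norm_sq]
    have := Complex.det_conjAe
    rw [this]
    have h2 : (0 : ℝ) < ‖b⁻¹‖ ^ 2 := by
      have : b⁻¹ ≠ 0 := inv_ne_zero hb
      positivity
    exact mul_ne_zero (by norm_num) h2.ne'
  have h := Measure.addHaar_preimage_linearMap (volume : Measure ℂ) hdet (CTc_bad s t)
  rw [CTc_null s t, mul_zero] at h
  refine measure_mono_null ?_ h
  intro a ha
  show f a ∈ CTc_bad s t
  have h2 : f a = conj (a / b) := by
    simp [hf, div_eq_mul_inv, mul_comm]
  rw [h2]
  exact ha

private theorem CTc_ae (m : ℕ) (s t : ℝ) :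
    ∀ᵐ h : V (m + 1), h 1 ≠ 0 ∧ conj (h 0 / h 1) ∉ CTc_bad s t := by
  classical
  set B : Set (ℂ × ℂ) := {p | p.2 = 0 ∨ conj (p.1 / p.2) ∈ CTc_bad s t} with hB
  have hBm : MeasurableSet B := by
    refine MeasurableSet.union ?_ ?_
    · exact measurableSet_eq_fun measurable_snd measurable_const
    · refine measurableSet_preimage ?_ (CTc_measBad s t)
      exact Complex.continuous_conj.measurable.comp (measurable_fst.div measurable_snd)
  set f : ℂ → ℂ → ℝ≥0∞ := fun a b => B.indicator 1 (a, b) with hf
  have hfm : Measurable (Function.uncurry f) := by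
    show Measurable (B.indicator 1)
    exact measurable_one.indicator hBm
  have h0 : ∫⁻ a : ℂ, ∫⁻ b : ℂ, f a b = 0 := by
    rw [lintegral_lintegral_swap hfm.aemeasurable]
    have h1 : ∀ᵐ b : ℂ, ∫⁻ a : ℂ, f a b = 0 := by
      have h2 : ∀ᵐ b : ℂ, b ≠ 0 := by
        rw [ae_iff]
        simp
      filter_upwards [h2] with b hb
      have h3 : ∀ a : ℂ, f a b = {a : ℂ | conj (a / b) ∈ CTc_bad s t}.indicator 1 a := by
        intro a
        by_cases ha : conj (a / b) ∈ CTc_bad s t
        · rw [Set.indicator_of_mem (show a ∈ {a : ℂ | conj (a / b) ∈ CTc_bad s t} from ha)]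
          show B.indicator 1 (a, b) = _
          rw [Set.indicator_of_mem (show (a, b) ∈ B from Or.inr ha)]
          rfl
        · rw [Set.indicator_of_notMem (show a ∉ {a : ℂ | conj (a / b) ∈ CTc_bad s t} from ha)]
          show B.indicator 1 (a, b) = _
          rw [Set.indicator_of_notMem]
          rintro (h | h)
          · exact hb h
          · exact ha h
      simp only [h3]
      have hm : MeasurableSet {a : ℂ | conj (a / b) ∈ CTc_bad s t} := by
        refine measurableSet_preimage ?_ (CTc_measBad s t)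
        exact Complex.continuous_conj.measurable.comp (measurable_id.div measurable_const)
      rw [lintegral_indicator_one hm, CTc_fibre s t hb]
    rw [lintegral_congr_ae h1, lintegral_zero]
  have h1 := red2 m f hfm
  rw [h0, mul_zero] at h1
  rw [lintegral_eq_zero_iff] at h1
  · filter_upwards [h1] with h hh
    have h2 : f (h 0) (h 1) = 0 := by
      rcases mul_eq_zero.1 hh with h3 | h3
      · exact h3
      · exfalso
        rw [ENNReal.ofReal_eq_zero] at h3
        exact absurd (Real.exp_pos _) (not_lt.2 h3)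
    have h3 : (h 0, h 1) ∉ B := by
      intro hmem
      have h4 : f (h 0) (h 1) = 1 := Set.indicator_of_mem hmem _
      rw [h4] at h2
      exact one_ne_zero h2
    exact ⟨fun h4 => h3 (Or.inl h4), fun h4 => h3 (Or.inr h4)⟩
  · refine Measurable.mul ?_ ?_
    · have h5 : Measurable fun h : V (m + 1) => (h 0, h 1) :=
        (measurable_pi_apply 0).prodMk (measurable_pi_apply 1)
      exact hfm.comp h5
    · fun_prop

theorem cpx_pos (m : ℕ) {s t : ℝ} (hs : 0 < s) (hs' : s < 1) (ht : 0 < t) (ht' : t < 1) :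
    Good (Real.pi ^ (m + 2)) (e0 (m + 1) + (s : ℂ) • e1 m)
      (e0 (m + 1) + (t * Complex.I : ℂ) • e1 m) (e0 (m + 1)) := by
  classical
  set x := e0 (m + 1) + (s : ℂ) • e1 m with hx
  set y := e0 (m + 1) + (t * Complex.I : ℂ) • e1 m with hy
  set z := e0 (m + 1) with hz
  set S : Set (ℂ × ℂ) := {p : ℂ × ℂ | p.2 ≠ 0 ∧ conj (p.1 / p.2) ∈ Del s t} with hS
  set g : ℂ → ℂ → ℝ≥0∞ := fun a b => S.indicator
      (fun p => ENNReal.ofReal (Real.exp (‖p.1‖ ^ 2 - ‖p.2‖ ^ 2))) (a, b) with hg
  have hSm : MeasurableSet S := by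
    refine MeasurableSet.inter ?_ ?_
    · exact (measurableSet_eq_fun measurable_snd measurable_const).compl
    · refine measurableSet_preimage ?_ (CTc_measDel s t)
      exact Complex.continuous_conj.measurable.comp (measurable_fst.div measurable_snd)
  have hgm : Measurable (Function.uncurry g) := by
    have hEm : Measurable fun p : ℂ × ℂ =>
        ENNReal.ofReal (Real.exp (‖p.1‖ ^ 2 - ‖p.2‖ ^ 2)) := by
      fun_prop
    exact hEm.indicator hSm
  have hexp : ∀ h : V (m + 1), Real.exp (-(hf h h).re) =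
      Real.exp (‖h 0‖ ^ 2 - ‖h 1‖ ^ 2) *
        Real.exp (-∑ i : Fin m, ‖h i.succ.succ‖ ^ 2) := by
    intro h
    rw [← Real.exp_add, hf_self_re, Fin.sum_univ_succ]
    congr 1
    have : (Fin.succ 0 : Fin (m + 2)) = 1 := rfl
    rw [this]
    ring
  have hae : ∀ᵐ h : V (m + 1), kv h x y z =
      if conj (h 0 / h 1) ∈ Del s t then 1 else 0 := by
    filter_upwards [CTc_ae m s t] with h hh
    have h1 := kv_cpx m s t h hh.1
    have h2 : ¬ ((conj (h 0 / h 1)).re = 0 ∨ (conj (h 0 / h 1)).im = 0 ∨
      Qf s t (conj (h 0 / h 1)) = 0) := hh.2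
    push Not at h2
    have hpi : (2 * Real.pi) ≠ 0 := by positivity
    split_ifs with hD
    · rw [wd_in hs hs' ht ht' hD] at h1
      exact mul_left_cancel₀ hpi (h1.trans (mul_one _).symm)
    · rw [wd_out hs hs' ht ht' h2.1 h2.2.1 h2.2.2 hD] at h1
      exact mul_left_cancel₀ hpi (h1.trans (mul_zero _).symm)
  have hnn : ∀ᵐ h : V (m + 1), 0 ≤ W h x y z := by
    filter_upwards [hae] with h hh
    unfold W
    rw [hh]
    refine mul_nonneg (Real.exp_pos _).le ?_
    split_ifs
    · exact zero_le_one
    · exact le_rfl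
  have hlin : ∫⁻ h : V (m + 1), ENNReal.ofReal (W h x y z) =
      ENNReal.ofReal (Real.pi ^ (m + 1) / 2 * Real.arctan (s * t)) := by
    have h1 : ∫⁻ h : V (m + 1), ENNReal.ofReal (W h x y z) =
        ∫⁻ h : V (m + 1), g (h 0) (h 1) *
          ENNReal.ofReal (Real.exp (-∑ i : Fin m, ‖h i.succ.succ‖ ^ 2)) := by
      refine lintegral_congr_ae ?_
      filter_upwards [hae, CTc_ae m s t] with h hh h2
      unfold W
      rw [hh]
      split_ifs with hD
      · rw [mul_one, hexp, ENNReal.ofReal_mul (Real.exp_pos _).le]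
        congr 1
        show _ = S.indicator _ (h 0, h 1)
        rw [Set.indicator_of_mem (show (h 0, h 1) ∈ S from ⟨h2.1, hD⟩)]
      · rw [mul_zero, ENNReal.ofReal_zero]
        have h3 : g (h 0) (h 1) = 0 := Set.indicator_of_notMem (fun h4 => hD h4.2) _
        rw [h3, zero_mul]
    rw [h1, red2 m g hgm, mass hs hs' ht ht', ← ENNReal.ofReal_mul (by positivity)]
    congr 1
    ring
  have hat : 0 ≤ Real.arctan (s * t) := Real.arctan_nonneg.2 (by positivity)
  have hat' : Real.arctan (s * t) ≤ Real.pi / 2 := (Real.arctan_lt_pi_div_two _).le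
  have hms : AEStronglyMeasurable (fun h : V (m + 1) => W h x y z) volume :=
    (W_meas x y z).aestronglyMeasurable
  have hint : Integrable (fun h : V (m + 1) => W h x y z) := by
    refine ⟨hms, ?_⟩
    rw [hasFiniteIntegral_iff_ofReal hnn, hlin]
    exact ENNReal.ofReal_lt_top
  have hval : ∫ h : V (m + 1), W h x y z =
      Real.pi ^ (m + 1) / 2 * Real.arctan (s * t) := by
    rw [integral_eq_lintegral_of_nonneg_ae hnn hms, hlin, ENNReal.toReal_ofReal (by positivity)]
  refine ⟨hint, ?_, ?_⟩
  · have h1 : ∫ h : V (m + 1), |W h x y z| = ∫ h : V (m + 1), W h x y z := by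
      refine integral_congr_ae ?_
      filter_upwards [hnn] with h hh
      exact abs_of_nonneg hh
    rw [h1, hval, pow_succ Real.pi (m + 1)]
    have hp : (0 : ℝ) < Real.pi ^ (m + 1) := by positivity
    have hp2 := Real.pi_pos
    calc Real.pi ^ (m + 1) / 2 * Real.arctan (s * t)
        ≤ Real.pi ^ (m + 1) / 2 * (Real.pi / 2) := by
          exact mul_le_mul_of_nonneg_left hat' (by positivity)
      _ ≤ Real.pi ^ (m + 1) * Real.pi := by
          have : 0 < Real.pi ^ (m + 1) * Real.pi := by positivity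
          nlinarith
  · rw [hval, al_cpx]

end Pool.Agent.Helper71.KH
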