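import Pool.Agent.Helper71.KH.AlL

/-!
# Project KH, piece KVL: elementary properties of the cocycle `kv`

PROOFS. `kv_abs_le`: four arguments of absolute value at most `π`.  `kv_smul`: every `tt` is
multiplied by a positive real number (`Complex.arg_real_mul`), `al_smul`.  `kv_cocycle`: the
arguments of the `tt` cancel in pairs, `al_cocycle`.
`kv_local`: by `gram3` and the hypothesis `0 < (tt x y h).re` (note
`tt x y h = -(hf x y * hf y h * hf h x)` up to the order of the factors), the same for `y, z` and `x, z`;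
`tt z x h = conj (tt x z h)`, so `arg (tt z x h) = -arg (tt x z h)` and
`tt x y h * tt y z h * tt z x h = (‖hf x h‖² ‖hf y h‖² ‖hf z h‖²) * (-(hf x y * hf y z * hf z x))`:
apply `arg_three` (the norms are not `0` because the `tt` are not `0`).
`good_add`: `W h x y z = W h y z w - W h x z w + W h x y w` by `kv_cocycle`, and `al_cocycle`.
`kv_same_left`: `tt y z h` and `tt x z h` are positive multiples of each other for `y = a • x`, and
`tt x (a • x) h` is `≥ 0`.  `W_meas`: `Complex.measurable_arg`, `continuous_hf`.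
-/

set_option autoImplicit false

open MeasureTheory
open scoped Matrix ComplexConjugate

namespace Pool.Agent.Helper71.KH

variable {n : ℕ}

theorem kv_abs_le (h x y z : V n) : |kv h x y z| ≤ 2 := by
  have hpi := Real.pi_pos
  have h1 := Complex.abs_arg_le_pi (tt y z h)
  have h2 := Complex.abs_arg_le_pi (tt x z h)
  have h3 := Complex.abs_arg_le_pi (tt x y h)
  have h4 : |al x y z| ≤ Real.pi := Complex.abs_arg_le_pi _
  unfold kv
  rw [abs_div, abs_of_pos (by positivity : (0 : ℝ) < 2 * Real.pi), div_le_iff₀ (by positivity)]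
  rw [abs_le] at h1 h2 h3 h4 ⊢
  constructor
  · linarith [h1.1, h2.2, h3.1, h4.2]
  · linarith [h1.2, h2.1, h3.2, h4.1]

theorem tt_smul (a b : ℂ) (x y h : V n) :
    tt (a • x) (b • y) h = ((‖a‖ ^ 2 * ‖b‖ ^ 2 : ℝ) : ℂ) * tt x y h := by
  unfold tt
  rw [hf_smul_left, hf_smul_left, hf_smul_right, hf_smul_right]
  have ha := Complex.mul_conj' a
  have hb := Complex.mul_conj' b
  push_cast
  rw [← ha, ← hb]
  ring

private theorem KvL_arg {a b : ℂ} (ha : a ≠ 0) (hb : b ≠ 0) (x y h : V n) :
    Complex.arg (tt (a • x) (b • y) h) = Complex.arg (tt x y h) := by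
  rw [tt_smul]
  have h1 : 0 < ‖a‖ := norm_pos_iff.2 ha
  have h2 : 0 < ‖b‖ := norm_pos_iff.2 hb
  exact Complex.arg_real_mul _ (by positivity)

theorem kv_smul {a b c : ℂ} (ha : a ≠ 0) (hb : b ≠ 0) (hc : c ≠ 0) (h x y z : V n) :
    kv h (a • x) (b • y) (c • z) = kv h x y z := by
  unfold kv
  rw [KvL_arg hb hc, KvL_arg ha hc, KvL_arg ha hb, al_smul ha hb hc]

theorem kv_cocycle {x y z w : V n} (hx : Ng x) (hy : Ng y) (hz : Ng z) (hw : Ng w) (h : V n) :
    kv h y z w - kv h x z w + kv h x y w - kv h x y z = 0 := by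
  have h1 := al_cocycle hx hy hz hw
  unfold kv
  linear_combination (-1 / (2 * Real.pi)) * h1

private theorem KvL_pos {x y : V n} (hx : hf x x = -1) (hy : hf y y = -1) (h : V n)
    (h1 : (hf h h).re * (‖hf x y‖ ^ 2 - 1) < ‖hf x h‖ ^ 2 + ‖hf y h‖ ^ 2) :
    0 < (tt x y h).re := by
  have h2 := gram3 hx hy h
  rw [norm_hf_comm h x] at h2
  have h3 : tt x y h = -(hf x y * hf y h * hf h x) := by
    unfold tt
    ring
  rw [h3, Complex.neg_re]
  linarith

theorem kv_local {x y z : V n} (hx : hf x x = -1) (hy : hf y y = -1) (hz : hf z z = -1) (h : V n)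
    (h1 : (hf h h).re * (‖hf x y‖ ^ 2 - 1) < ‖hf x h‖ ^ 2 + ‖hf y h‖ ^ 2)
    (h2 : (hf h h).re * (‖hf y z‖ ^ 2 - 1) < ‖hf y h‖ ^ 2 + ‖hf z h‖ ^ 2)
    (h3 : (hf h h).re * (‖hf x z‖ ^ 2 - 1) < ‖hf x h‖ ^ 2 + ‖hf z h‖ ^ 2) : kv h x y z = 0 := by
  have p1 := KvL_pos hx hy h h1
  have p2 := KvL_pos hy hz h h2
  have p3 := KvL_pos hx hz h h3
  have p4 := re_pos hx hy hz
  have n1 : tt x y h ≠ 0 := by
    intro h0
    rw [h0] at p1
    simp at p1
  have n3 : tt x z h ≠ 0 := by
    intro h0
    rw [h0] at p3
    simp at p3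
  have hyh : hf y h ≠ 0 := by
    intro h0
    apply n1
    unfold tt
    rw [h0]
    ring
  have hzh : hf z h ≠ 0 := by
    intro h0
    apply n3
    unfold tt
    rw [h0]
    ring
  have hxh : hf x h ≠ 0 := by
    intro h0
    apply n1
    unfold tt
    have : hf h x = 0 := by
      rw [← hf_conj, h0, map_zero]
    rw [this]
    ring
  have hc : conj (tt x z h) = tt z x h := by
    unfold tt
    rw [map_neg, map_mul, map_mul, hf_conj, hf_conj, hf_conj]
    ring
  have ht : 0 < ‖hf x h‖ ^ 2 * ‖hf y h‖ ^ 2 * ‖hf z h‖ ^ 2 := by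
    have := norm_pos_iff.2 hxh
    have := norm_pos_iff.2 hyh
    have := norm_pos_iff.2 hzh
    positivity
  have e1 := Complex.mul_conj' (hf x h)
  have e2 := Complex.mul_conj' (hf y h)
  have e3 := Complex.mul_conj' (hf z h)
  rw [hf_conj] at e1 e2 e3
  have key : tt x y h * tt y z h * conj (tt x z h) =
      ((‖hf x h‖ ^ 2 * ‖hf y h‖ ^ 2 * ‖hf z h‖ ^ 2 : ℝ) : ℂ) *
        (-(hf x y * hf y z * hf z x)) := by
    rw [hc]
    push_cast
    rw [← e1, ← e2, ← e3]
    unfold tt
    ring
  have p3' : 0 < (conj (tt x z h)).re := by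
    rw [Complex.conj_re]
    exact p3
  have h5 := arg_three ht key p1 p2 p3' (by linarith)
  have h6 : Complex.arg (conj (tt x z h)) = -Complex.arg (tt x z h) := by
    rw [Complex.arg_conj, if_neg]
    intro h7
    rw [Complex.arg_eq_pi_iff] at h7
    linarith [h7.1]
  rw [h6] at h5
  unfold kv al
  rw [← h5]
  ring

private theorem KvL_arg_zero {r : ℝ} (hr : 0 ≤ r) {t : ℂ} (h : t = (r : ℂ)) :
    Complex.arg t = 0 := by
  rw [h]
  exact Complex.arg_ofReal_of_nonneg hr

theorem kv_same_left {x : V n} (hx : Ng x) {a : ℂ} (ha : a ≠ 0) (h z : V n) :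
    kv h x (a • x) z = 0 := by
  have h1 : Complex.arg (tt (a • x) z h) = Complex.arg (tt x z h) := by
    have := KvL_arg ha one_ne_zero x z h
    rwa [one_smul] at this
  have h2 : Complex.arg (tt x (a • x) h) = 0 := by
    have hxx : (hf x x).re < 0 := hx
    apply KvL_arg_zero (r := ‖a‖ ^ 2 * ‖hf x h‖ ^ 2 * (-(hf x x).re))
    · have : 0 ≤ -(hf x x).re := by linarith
      positivity
    · unfold tt
      rw [hf_smul_left, hf_smul_right, ← hf_conj x h]
      have e1 := Complex.mul_conj' (hf x h)
      have e2 := Complex.mul_conj' a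
      have e3 := hf_self_eq x
      push_cast
      rw [← e1, ← e2]
      linear_combination (-(a * conj a * (hf x h * conj (hf x h)))) * e3
  have h3 : al x (a • x) z = 0 := by
    have := al_smul one_ne_zero ha one_ne_zero x x z
    rw [one_smul, one_smul] at this
    rw [this]
    exact al_self_left hx z
  unfold kv
  rw [h1, h2, h3]
  ring

theorem kv_same_right (x : V n) {z : V n} (hz : Ng z) {a : ℂ} (ha : a ≠ 0) (h : V n) :
    kv h x (a • z) z = 0 := by
  have h1 : Complex.arg (tt x (a • z) h) = Complex.arg (tt x z h) := by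
    have := KvL_arg one_ne_zero ha x z h
    rwa [one_smul] at this
  have h2 : Complex.arg (tt (a • z) z h) = 0 := by
    have hzz : (hf z z).re < 0 := hz
    apply KvL_arg_zero (r := ‖a‖ ^ 2 * ‖hf z h‖ ^ 2 * (-(hf z z).re))
    · have : 0 ≤ -(hf z z).re := by linarith
      positivity
    · unfold tt
      rw [hf_smul_left, hf_smul_right, ← hf_conj z h]
      have e1 := Complex.mul_conj' (hf z h)
      have e2 := Complex.mul_conj' a
      have e3 := hf_self_eq z
      push_cast
      rw [← e1, ← e2]
      linear_combination (-(a * conj a * (hf z h * conj (hf z h)))) * e3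
  have h3 : al x (a • z) z = 0 := by
    have := al_smul one_ne_zero ha one_ne_zero x z z
    rw [one_smul, one_smul] at this
    rw [this]
    exact al_self_right x hz
  unfold kv
  rw [h1, h2, h3]
  ring

private theorem KvL_tt_meas (x y : V n) : Measurable fun h : V n => Complex.arg (tt x y h) := by
  have h1 : Continuous fun h : V n => hf y h :=
    continuous_hf.comp (continuous_const.prodMk continuous_id)
  have h2 : Continuous fun h : V n => hf h x :=
    continuous_hf.comp (continuous_id.prodMk continuous_const)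
  have h3 : Continuous fun h : V n => tt x y h := by
    unfold tt
    exact ((h1.mul h2).mul continuous_const).neg
  exact Complex.measurable_arg.comp h3.measurable

theorem W_meas (x y z : V n) : Measurable fun h => W h x y z := by
  have h1 : Continuous fun h : V n => Real.exp (-(hf h h).re) := by
    have h2 : Continuous fun h : V n => hf h h :=
      continuous_hf.comp (continuous_id.prodMk continuous_id)
    exact Real.continuous_exp.comp (Complex.continuous_re.comp h2).neg
  unfold W kv
  exact h1.measurable.mul (((((KvL_tt_meas y z).sub (KvL_tt_meas x z)).add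
    (KvL_tt_meas x y)).sub measurable_const).div measurable_const)

theorem good_smul {C : ℝ} {a b c : ℂ} (ha : a ≠ 0) (hb : b ≠ 0) (hc : c ≠ 0) {x y z : V n}
    (h : Good C x y z) : Good C (a • x) (b • y) (c • z) := by
  have h1 : (fun h : V n => W h (a • x) (b • y) (c • z)) = fun h : V n => W h x y z := by
    funext h
    unfold W
    rw [kv_smul ha hb hc]
  have h2 : ∀ h : V n, W h (a • x) (b • y) (c • z) = W h x y z := fun h => congrFun h1 h
  refine ⟨?_, ?_, ?_⟩
  · rw [h1]
    exact h.integrable
  · simp only [h2]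
    exact h.bound
  · simp only [h2]
    rw [al_smul ha hb hc]
    exact h.value

theorem good_add {C1 C2 C3 : ℝ} {x y z w : V n} (hx : Ng x) (hy : Ng y) (hz : Ng z) (hw : Ng w)
    (h1 : Good C1 y z w) (h2 : Good C2 x z w) (h3 : Good C3 x y w) :
    Good (C1 + C2 + C3) x y z := by
  have e : ∀ h : V n, W h x y z = W h y z w - W h x z w + W h x y w := by
    intro h
    have := kv_cocycle hx hy hz hw h
    unfold W
    linear_combination (-Real.exp (-(hf h h).re)) * this
  have i1 := h1.integrable
  have i2 := h2.integrable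
  have i3 := h3.integrable
  have hint : Integrable (fun h : V n => W h y z w - W h x z w + W h x y w) :=
    (i1.sub i2).add i3
  refine ⟨?_, ?_, ?_⟩
  · simp only [e]
    exact hint
  · simp only [e]
    have h4 : ∫ h : V n, |W h y z w - W h x z w + W h x y w| ≤
        ∫ h : V n, (|W h y z w| + |W h x z w| + |W h x y w|) := by
      refine integral_mono hint.abs ((i1.abs.add i2.abs).add i3.abs) fun h => ?_
      exact (abs_add_le _ _).trans (add_le_add (abs_sub _ _) le_rfl)
    refine h4.trans ?_
    rw [integral_add (f := fun h : V n => |W h y z w| + |W h x z w|) (i1.abs.add i2.abs) i3.abs,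
      integral_add i1.abs i2.abs]
    exact add_le_add (add_le_add h1.bound h2.bound) h3.bound
  · simp only [e]
    rw [integral_add (f := fun h : V n => W h y z w - W h x z w) (i1.sub i2) i3,
      integral_sub i1 i2, h1.value, h2.value, h3.value]
    have := al_cocycle hx hy hz hw
    linear_combination (Real.pi ^ n / 2) * this

theorem good_mono {C C' : ℝ} (hC : C ≤ C') {x y z : V n} (h : Good C x y z) : Good C' x y z :=
  ⟨h.integrable, h.bound.trans hC, h.value⟩

theorem good_of_ae_zero {x y z : V n} (h : ∀ᵐ h : V n, kv h x y z = 0) (hal : al x y z = 0) :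
    Good 0 x y z := by
  have h1 : (fun h : V n => W h x y z) =ᵐ[volume] fun _ => (0 : ℝ) := by
    filter_upwards [h] with g hg
    unfold W
    rw [hg, mul_zero]
  refine ⟨?_, ?_, ?_⟩
  · exact (integrable_zero _ _ _).congr h1.symm
  · have h2 : (fun h : V n => |W h x y z|) =ᵐ[volume] fun _ => (0 : ℝ) := by
      filter_upwards [h1] with g hg
      rw [hg, abs_zero]
    rw [integral_congr_ae h2, integral_zero]
  · rw [integral_congr_ae h1, integral_zero, hal, mul_zero]

end Pool.Agent.Helper71.KH
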