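import Pool.Agent.Helper71.KH.CTa
import Pool.Agent.Helper71.KH.KvL

/-!
# Project KH, piece CTD: the cocycle on a right triangle in a complex line

PROOFS. `kv_cpx`: for `h 1 ≠ 0` put `w = conj (h 0 / h 1)`, i.e. `h 0 = conj w * h 1`.  With
`x = e0 + s • e1`, `y = e0 + (t i) • e1`, `z = e0` (`hf_e0`, `hf_e1`, sesquilinearity):
`hf x y = -1 - i s t`, `hf y z = hf z x = -1`, `hf z h = -conj (h 0)`,
`hf x h = -conj (h 0) + s conj (h 1)`, `hf y h = -conj (h 0) + i t conj (h 1)`,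
`tt y z h = ‖h 1‖² w conj (w - i t)`, `tt x z h = ‖h 1‖² w conj (w - s)`,
`tt x y h = ‖h 1‖² (1 + i s t) (w - i t) conj (w - s)`, `al x y z = arg (1 + i s t)`; `Complex.arg_real_mul`.
`al_cpx`: `Complex.arg` of a number with positive real part is `arctan (im / re)`.
-/

set_option autoImplicit false

open MeasureTheory
open scoped Matrix ComplexConjugate

namespace Pool.Agent.Helper71.KH

variable {n : ℕ}

private theorem ctd_e00 (m : ℕ) : hf (e0 (m + 1)) (e0 (m + 1)) = -1 := by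
  rw [hf_e0, e0_zero, map_one]

private theorem ctd_e01 (m : ℕ) : hf (e0 (m + 1)) (e1 m) = 0 := by
  rw [hf_e0]
  simp [e1]

private theorem ctd_e10 (m : ℕ) : hf (e1 m) (e0 (m + 1)) = 0 := by
  rw [← hf_conj, ctd_e01, map_zero]

private theorem ctd_e11 (m : ℕ) : hf (e1 m) (e1 m) = 1 := by
  rw [hf_e1]
  simp [e1]

private theorem ctd_hxy (m : ℕ) (a b : ℂ) :
    hf (e0 (m + 1) + a • e1 m) (e0 (m + 1) + b • e1 m) = -1 + a * conj b := by
  rw [hf_add_left, hf_add_right, hf_add_right, hf_smul_left, hf_smul_right, hf_smul_left,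
    hf_smul_right, ctd_e00, ctd_e01, ctd_e10, ctd_e11]
  ring

private theorem ctd_hxz (m : ℕ) (a : ℂ) :
    hf (e0 (m + 1) + a • e1 m) (e0 (m + 1)) = -1 := by
  rw [hf_add_left, hf_smul_left, ctd_e00, ctd_e10]
  ring

private theorem ctd_hzx (m : ℕ) (a : ℂ) :
    hf (e0 (m + 1)) (e0 (m + 1) + a • e1 m) = -1 := by
  rw [← hf_conj, ctd_hxz]
  simp

private theorem ctd_hxh (m : ℕ) (a : ℂ) (h : V (m + 1)) :
    hf (e0 (m + 1) + a • e1 m) h = -conj (h 0) + a * conj (h 1) := by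
  rw [hf_add_left, hf_smul_left, hf_e0, hf_e1]

private theorem ctd_hhx (m : ℕ) (a : ℂ) (h : V (m + 1)) :
    hf h (e0 (m + 1) + a • e1 m) = -h 0 + conj a * h 1 := by
  rw [← hf_conj, ctd_hxh]
  simp

private theorem ctd_al (m : ℕ) (s t : ℝ) :
    al (e0 (m + 1) + (s : ℂ) • e1 m) (e0 (m + 1) + (t * Complex.I : ℂ) • e1 m) (e0 (m + 1)) =
      Complex.arg (1 + s * t * Complex.I) := by
  unfold al
  congr 1
  rw [ctd_hxy, ctd_hxz, ctd_hzx, map_mul, Complex.conj_ofReal, Complex.conj_I]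
  ring

theorem kv_cpx (m : ℕ) (s t : ℝ) (h : V (m + 1)) (h1 : h 1 ≠ 0) :
    2 * Real.pi * kv h (e0 (m + 1) + (s : ℂ) • e1 m) (e0 (m + 1) + (t * Complex.I : ℂ) • e1 m)
      (e0 (m + 1)) = wd s t (conj (h 0 / h 1)) := by
  have hc : 0 < Complex.normSq (h 1) := Complex.normSq_pos.2 h1
  have hcc : ((Complex.normSq (h 1) : ℝ) : ℂ) = h 1 * conj (h 1) := (Complex.mul_conj _).symm
  obtain ⟨w, hw0⟩ : ∃ w : ℂ, w = conj (h 0 / h 1) := ⟨_, rfl⟩
  have hw' : h 0 = conj w * h 1 := by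
    rw [hw0, Complex.conj_conj, div_mul_cancel₀ _ h1]
  have hw : conj (h 0) = w * conj (h 1) := by
    rw [hw', map_mul, Complex.conj_conj]
  rw [← hw0]
  have e1' : tt (e0 (m + 1) + (t * Complex.I : ℂ) • e1 m) (e0 (m + 1)) h =
      ((Complex.normSq (h 1) : ℝ) : ℂ) * (w * conj (w - t * Complex.I)) := by
    unfold tt
    rw [hf_e0, ctd_hhx, ctd_hxz, hcc, map_sub, map_mul, Complex.conj_ofReal,
      Complex.conj_I, hw, hw']
    ring
  have e2' : tt (e0 (m + 1) + (s : ℂ) • e1 m) (e0 (m + 1)) h =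
      ((Complex.normSq (h 1) : ℝ) : ℂ) * (w * conj (w - s)) := by
    unfold tt
    rw [hf_e0, ctd_hhx, ctd_hxz, hcc, map_sub, Complex.conj_ofReal, hw, hw']
    ring
  have e3' : tt (e0 (m + 1) + (s : ℂ) • e1 m) (e0 (m + 1) + (t * Complex.I : ℂ) • e1 m) h =
      ((Complex.normSq (h 1) : ℝ) : ℂ) *
        ((1 + s * t * Complex.I) * ((w - t * Complex.I) * conj (w - s))) := by
    unfold tt
    rw [ctd_hxh, ctd_hhx, ctd_hxy, hcc, map_sub, map_mul, Complex.conj_ofReal, Complex.conj_ofReal,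
      Complex.conj_I, hw, hw']
    ring
  have hpi : (2 : ℝ) * Real.pi ≠ 0 := by
    have := Real.pi_pos
    positivity
  unfold kv wd
  rw [mul_div_cancel₀ _ hpi, ctd_al, e1', e2', e3', Complex.arg_real_mul _ hc,
    Complex.arg_real_mul _ hc, Complex.arg_real_mul _ hc]

theorem al_cpx (m : ℕ) (s t : ℝ) :
    al (e0 (m + 1) + (s : ℂ) • e1 m) (e0 (m + 1) + (t * Complex.I : ℂ) • e1 m) (e0 (m + 1)) =
      Real.arctan (s * t) := by
  rw [ctd_al]
  have hre : (1 + s * t * Complex.I : ℂ).re = 1 := by simp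
  have him : (1 + s * t * Complex.I : ℂ).im = s * t := by simp
  rw [Complex.arg_of_re_nonneg (by rw [hre]; norm_num), Real.arctan_eq_arcsin, him]
  congr 2
  rw [Complex.norm_def, Complex.normSq_apply, hre, him]
  congr 1
  ring

end Pool.Agent.Helper71.KH
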