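import Mathlib

/-!
# Project KH (MP_6f8b02_al): the bounded Kähler class of SU(n,1), definitions

Homogeneous continuous bounded cochains on a topological group `G`, equivariant under a subgroup
`Γ` acting isometrically on a Banach space `E`; the group `SU(n,1)`; the Kähler cocycle and its cup
powers.
-/

set_option autoImplicit false

open scoped Matrix ComplexConjugate

namespace Pool.Agent.Helper71.KH

/-! ### Cochains -/

section Cochains

variable {G : Type*} {E : Type*} [NormedAddCommGroup E] [NormedSpace ℝ E]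

/-- The homogeneous coboundary of a cochain of degree `k`. -/
def dd {k : ℕ} (f : (Fin (k + 1) → G) → E) : (Fin (k + 2) → G) → E :=
  fun x => ∑ i : Fin (k + 2), (-1 : ℝ) ^ (i : ℕ) • f (fun j => x (i.succAbove j))

/-- Continuous bounded cochains of degree `k` on `G` with values in `E`, equivariant under the
subgroup `Γ`, which acts on `E` by linear isometries. -/
structure IsBC [Group G] [TopologicalSpace G] (Γ : Subgroup G) (ρ : Γ →* (E ≃ₗᵢ[ℝ] E)) {k : ℕ}
    (f : (Fin (k + 1) → G) → E) : Prop where
  cont : Continuous f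
  bdd : ∃ C : ℝ, ∀ x, ‖f x‖ ≤ C
  equiv : ∀ (γ : Γ) (x : Fin (k + 1) → G), f (fun i => (γ : G) * x i) = ρ γ (f x)

end Cochains

/-! ### The group `SU(n,1)` -/

/-- The vector space `ℂ^(n+1)`. -/
abbrev V (n : ℕ) : Type := Fin (n + 1) → ℂ

/-- The Hermitian form of signature `(n, 1)`. -/
noncomputable def hf {n : ℕ} (x y : V n) : ℂ :=
  -(x 0 * conj (y 0)) + ∑ i : Fin n, x i.succ * conj (y i.succ)

/-- The group `SU(n,1)`, with the topology of the group of matrices. -/
def SU (n : ℕ) : Subgroup (Matrix.SpecialLinearGroup (Fin (n + 1)) ℂ) where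
  carrier := {g | ∀ x y : V n, hf (g.1 *ᵥ x) (g.1 *ᵥ y) = hf x y}
  mul_mem' {a b} ha hb x y := by
    rw [Matrix.SpecialLinearGroup.coe_mul, ← Matrix.mulVec_mulVec, ← Matrix.mulVec_mulVec, ha, hb]
  one_mem' x y := by
    rw [Matrix.SpecialLinearGroup.coe_one, Matrix.one_mulVec, Matrix.one_mulVec]
  inv_mem' {a} ha x y := by
    have h : ∀ z : V n, a.1 *ᵥ ((a⁻¹).1 *ᵥ z) = z := by
      intro z
      rw [Matrix.mulVec_mulVec, ← Matrix.SpecialLinearGroup.coe_mul, mul_inv_cancel,
        Matrix.SpecialLinearGroup.coe_one, Matrix.one_mulVec]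
    rw [← ha, h, h]

/-- The base point of complex hyperbolic space: the negative vector `(1, 0, …, 0)`. -/
def e0 (n : ℕ) : V n := Pi.single 0 1

/-- The point of complex hyperbolic space attached to a group element: a vector with
`hf v v = -1`. -/
noncomputable def pt {n : ℕ} (g : SU n) : V n := g.1.1 *ᵥ e0 n

/-- The angular invariant `arg (-⟨x, y⟩⟨y, z⟩⟨z, x⟩)` of three negative vectors. -/
noncomputable def al {n : ℕ} (x y z : V n) : ℝ := Complex.arg (-(hf x y * hf y z * hf z x))

/-- The Kähler cocycle, of degree 2: up to a constant factor the integral of the Kähler form over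
the geodesic triangle with vertices `x 0`, `x 1`, `x 2`. -/
noncomputable def kah {n : ℕ} (x : Fin 3 → SU n) : ℝ := al (pt (x 0)) (pt (x 1)) (pt (x 2))

/-- The `j`-th cup power of the Kähler cocycle, of degree `2 j`. -/
noncomputable def kahPow {n : ℕ} (j : ℕ) (x : Fin (2 * j + 1) → SU n) : ℝ :=
  ∏ i : Fin j, kah ![x ⟨2 * i, by omega⟩, x ⟨2 * i + 1, by omega⟩, x ⟨2 * i + 2, by omega⟩]

/-- The statement of the project: for every subgroup `Γ` of `SU(n,1)`, every Banach space `E` with
an isometric action of `Γ` and every cocycle `v` of positive degree `m + 1`, the cup product of `v`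
with the `n`-th power of the Kähler cocycle is the coboundary of a bounded continuous equivariant
cochain. -/
def Statement (n : ℕ) (E : Type) [NormedAddCommGroup E] [NormedSpace ℝ E] : Prop :=
  ∀ (Γ : Subgroup (SU n)) (ρ : Γ →* (E ≃ₗᵢ[ℝ] E)) (m : ℕ) (v : (Fin (m + 2) → SU n) → E),
    IsBC Γ ρ v → dd v = 0 →
    ∃ B : (Fin (m + 2 * n + 1) → SU n) → E, IsBC Γ ρ B ∧
      ∀ x : Fin (m + 2 * n + 2) → SU n,
        dd B x = kahPow n (fun j => x ⟨m + 1 + j, by omega⟩) • v (fun i => x ⟨i, by omega⟩)

end Pool.Agent.Helper71.KH
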