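import Pool.Agent.Helper71.KH.DomA

/-!
# Project KH, piece DMB: domination and integrability

PROOFS. `W_dom`: if `kv h x y z ≠ 0` then by `kv_local` one of its three hypotheses fails, say the first
(the others are the same): with `s = (hf h h).re`, `‖hf x h‖² + ‖hf y h‖² ≤ s (‖hf x y‖² - 1)`, where
`‖hf x y‖ ≥ 1` (`one_le`).  If `s < 0` this gives `hf x h = 0`, and then `s ≥ 0` by `psd`, a contradiction.  So `s ≥ 0`,
`‖hf x h‖² ≤ M² s`, and by `norm_le` `∑ ‖h i‖² ≤ 4 M² (s + 2 M² s) = 4 M² (1 + 2 M²) s`; `W = exp (-s) kv`,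
`kv_abs_le`.  For the pair `y, z` use `y` in `norm_le`.
`W_integrable`: `W_dom` with `M` the maximum of the six numbers and `1`, `gauss_integrable`, `W_meas`
(`Integrable.mono'`).
-/

set_option autoImplicit false

open MeasureTheory
open scoped Matrix ComplexConjugate

namespace Pool.Agent.Helper71.KH

variable {n : ℕ}

private theorem dom_core {p q : V n} (hp : hf p p = -1) (hq : hf q q = -1) {M : ℝ}
    (hM : 1 ≤ M) (h1 : ‖p 0‖ ≤ M) (h4 : ‖hf p q‖ ≤ M) (h : V n)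
    (hle : ‖hf p h‖ ^ 2 + ‖hf q h‖ ^ 2 ≤ (hf h h).re * (‖hf p q‖ ^ 2 - 1)) :
    ∑ i, ‖h i‖ ^ 2 ≤ 4 * M ^ 2 * (1 + 2 * M ^ 2) * (hf h h).re := by
  have hT0 : 1 ≤ ‖hf p q‖ := one_le hp hq
  have hT : 0 ≤ ‖hf p q‖ ^ 2 - 1 := by nlinarith
  have hTM : ‖hf p q‖ ^ 2 - 1 ≤ M ^ 2 := by nlinarith [norm_nonneg (hf p q)]
  have hs : 0 ≤ (hf h h).re := by
    by_contra hs
    push Not at hs
    have h5 : ‖hf p h‖ ^ 2 ≤ 0 := by nlinarith [sq_nonneg ‖hf q h‖]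
    have h6 : ‖hf p h‖ = 0 := by
      have := sq_nonneg ‖hf p h‖
      exact pow_eq_zero_iff (two_ne_zero) |>.1 (le_antisymm h5 this)
    have h7 : hf h p = 0 := by
      rw [← norm_eq_zero, norm_hf_comm]
      exact h6
    exact absurd (psd hp h7) (not_le.2 hs)
  have h8 : ‖hf p h‖ ^ 2 ≤ (hf h h).re * M ^ 2 := by
    have := mul_le_mul_of_nonneg_left hTM hs
    nlinarith [sq_nonneg ‖hf q h‖]
  have h9 := norm_le hp h
  have h10 : ‖p 0‖ ^ 2 ≤ M ^ 2 := by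
    have := norm_nonneg (p 0)
    nlinarith
  have h11 : (hf h h).re + 2 * ‖hf p h‖ ^ 2 ≤ (1 + 2 * M ^ 2) * (hf h h).re := by nlinarith
  have h12 : 0 ≤ (hf h h).re + 2 * ‖hf p h‖ ^ 2 := by positivity
  calc ∑ i, ‖h i‖ ^ 2 ≤ 4 * ‖p 0‖ ^ 2 * ((hf h h).re + 2 * ‖hf p h‖ ^ 2) := h9
    _ ≤ 4 * M ^ 2 * ((hf h h).re + 2 * ‖hf p h‖ ^ 2) := by
        apply mul_le_mul_of_nonneg_right _ h12
        linarith
    _ ≤ 4 * M ^ 2 * ((1 + 2 * M ^ 2) * (hf h h).re) := by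
        apply mul_le_mul_of_nonneg_left h11
        positivity
    _ = _ := by ring

theorem W_dom {x y z : V n} (hx : hf x x = -1) (hy : hf y y = -1) (hz : hf z z = -1) {M : ℝ}
    (hM : 1 ≤ M) (h1 : ‖x 0‖ ≤ M) (h2 : ‖y 0‖ ≤ M) (h3 : ‖z 0‖ ≤ M) (h4 : ‖hf x y‖ ≤ M)
    (h5 : ‖hf y z‖ ≤ M) (h6 : ‖hf x z‖ ≤ M) (h : V n) :
    |W h x y z| ≤ 2 * Real.exp (-(∑ i, ‖h i‖ ^ 2) / (4 * M ^ 2 * (1 + 2 * M ^ 2))) := by
  by_cases hk : kv h x y z = 0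
  · unfold W
    rw [hk, mul_zero, abs_zero]
    positivity
  have hK : 0 < 4 * M ^ 2 * (1 + 2 * M ^ 2) := by positivity
  have key : ∑ i, ‖h i‖ ^ 2 ≤ 4 * M ^ 2 * (1 + 2 * M ^ 2) * (hf h h).re := by
    by_contra hcon
    refine hk (kv_local hx hy hz h ?_ ?_ ?_)
    · by_contra hc
      exact hcon (dom_core hx hy hM h1 h4 h (not_lt.1 hc))
    · by_contra hc
      exact hcon (dom_core hy hz hM h2 h5 h (not_lt.1 hc))
    · by_contra hc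
      exact hcon (dom_core hx hz hM h1 h6 h (not_lt.1 hc))
  unfold W
  rw [abs_mul, abs_of_pos (Real.exp_pos _), mul_comm]
  refine mul_le_mul (kv_abs_le h x y z) (Real.exp_le_exp.2 ?_) (Real.exp_pos _).le (by norm_num)
  rw [neg_div, neg_le_neg_iff, div_le_iff₀ hK]
  linarith

theorem W_integrable {x y z : V n} (hx : hf x x = -1) (hy : hf y y = -1) (hz : hf z z = -1) :
    Integrable fun h : V n => W h x y z := by
  obtain ⟨M, hM⟩ : ∃ M : ℝ, 1 ≤ M ∧ ‖x 0‖ ≤ M ∧ ‖y 0‖ ≤ M ∧ ‖z 0‖ ≤ M ∧ ‖hf x y‖ ≤ M ∧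
      ‖hf y z‖ ≤ M ∧ ‖hf x z‖ ≤ M := by
    refine ⟨1 + ‖x 0‖ + ‖y 0‖ + ‖z 0‖ + ‖hf x y‖ + ‖hf y z‖ + ‖hf x z‖, ?_⟩
    have a1 := norm_nonneg (x 0)
    have a2 := norm_nonneg (y 0)
    have a3 := norm_nonneg (z 0)
    have a4 := norm_nonneg (hf x y)
    have a5 := norm_nonneg (hf y z)
    have a6 := norm_nonneg (hf x z)
    refine ⟨?_, ?_, ?_, ?_, ?_, ?_, ?_⟩ <;> linarith
  obtain ⟨m0, m1, m2, m3, m4, m5, m6⟩ := hM
  have hK : 0 < 4 * M ^ 2 * (1 + 2 * M ^ 2) := by positivity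
  refine Integrable.mono' ((gauss_integrable (n := n) hK).const_mul 2)
    (W_meas x y z).aestronglyMeasurable (Filter.Eventually.of_forall fun h => ?_)
  rw [Real.norm_eq_abs]
  exact W_dom hx hy hz m0 m1 m2 m3 m4 m5 m6 h

end Pool.Agent.Helper71.KH
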