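import Pool.Agent.Helper71.KH.KvL

/-!
# Project KH, piece DMA: a lower bound for the positive form of a negative vector

PROOFS. `norm_le`: put `m = ‖x 0‖ ≥ 1`, `a = ‖h 0‖`, `b ^ 2 = ∑ ‖h i.succ‖ ^ 2`, `b ≥ 0`,
`c = √(m ^ 2 - 1)`, `t = ‖hf x h‖ ≥ m a - c b` (Cauchy-Schwarz for the last coordinates).  The claim is
`a² + b² ≤ 4 m² (b² - a² + 2 t²)`.  If `m a < c b` then `a² < (1 - 1/m²) b²`, so
`b² - a² ≥ b² / m²` and `a² + b² ≤ 2 b²`.  Otherwise `t² ≥ (m a - c b)²` and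
`b² - a² + 2 (m a - c b)² = (2 m² - 1) (a² + b²) - 4 m c a b ≥ (2 m² - 1 - 2 m c) (a² + b²)`
`= (m - c)² (a² + b²) ≥ (a² + b²) / (4 m²)`, because `(m - c) (m + c) = 1` and `m + c ≤ 2 m`.
`gauss_integrable`: product of one-dimensional Gaussians (`Integrable.fintype_prod`,
`integrable_exp_neg_mul_sq` or the complex version; `ℂ` as `ℝ × ℝ` or `GaussianFourier` lemmas), `Real.exp_sum`.
-/

set_option autoImplicit false

open MeasureTheory
open scoped Matrix ComplexConjugate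

namespace Pool.Agent.Helper71.KH

variable {n : ℕ}

/-- the inequality for the norms -/
private theorem DomA_ineq {m a b c t : ℝ} (ha : 0 ≤ a) (hc : 0 ≤ c) (hm : 1 ≤ m)
    (hmc : m ^ 2 = 1 + c ^ 2) (ht : m * a - c * b ≤ t) :
    a ^ 2 + b ^ 2 ≤ 4 * m ^ 2 * (b ^ 2 - a ^ 2 + 2 * t ^ 2) := by
  by_cases h : m * a < c * b
  · have h1 : (m * a) ^ 2 ≤ (c * b) ^ 2 := pow_le_pow_left₀ (by positivity) h.le 2
    have h2 : 0 ≤ t ^ 2 := sq_nonneg t
    have h3 : b ^ 2 ≤ m ^ 2 * (b ^ 2 - a ^ 2) := by nlinarith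
    have h4 : a ^ 2 ≤ b ^ 2 := by nlinarith [sq_nonneg b, sq_nonneg a, sq_nonneg m]
    have h5 : 0 ≤ m ^ 2 * t ^ 2 := by positivity
    nlinarith
  · have h0 : 0 ≤ m * a - c * b := by linarith
    have h1 : (m * a - c * b) ^ 2 ≤ t ^ 2 := pow_le_pow_left₀ h0 ht 2
    have h2 : (m - c) ^ 2 * (a ^ 2 + b ^ 2) ≤ b ^ 2 - a ^ 2 + 2 * (m * a - c * b) ^ 2 := by
      have : 0 ≤ 2 * m * c * (a - b) ^ 2 := by positivity
      nlinarith
    have h3 : (m - c) * (m + c) = 1 := by linarith [hmc, show (m - c) * (m + c) = m ^ 2 - c ^ 2 by ring]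
    have h4 : c ≤ m := by nlinarith
    have h5 : 1 ≤ (m - c) * (2 * m) := by
      rw [← h3]
      apply mul_le_mul_of_nonneg_left _ (by linarith)
      linarith
    have h6 : 1 ≤ ((m - c) * (2 * m)) ^ 2 := one_le_pow₀ h5
    have h7 : 0 ≤ a ^ 2 + b ^ 2 := by positivity
    calc a ^ 2 + b ^ 2 ≤ ((m - c) * (2 * m)) ^ 2 * (a ^ 2 + b ^ 2) := by nlinarith
      _ = 4 * m ^ 2 * ((m - c) ^ 2 * (a ^ 2 + b ^ 2)) := by ring
      _ ≤ 4 * m ^ 2 * (b ^ 2 - a ^ 2 + 2 * t ^ 2) := by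
        apply mul_le_mul_of_nonneg_left _ (by positivity)
        linarith

theorem norm_le {x : V n} (hx : hf x x = -1) (h : V n) :
    ∑ i, ‖h i‖ ^ 2 ≤ 4 * ‖x 0‖ ^ 2 * ((hf h h).re + 2 * ‖hf x h‖ ^ 2) := by
  have hre : ∀ y : V n, (hf y y).re = ∑ i : Fin n, ‖y i.succ‖ ^ 2 - ‖y 0‖ ^ 2 := by
    intro y
    unfold hf
    rw [Complex.add_re, Complex.neg_re, Complex.re_sum]
    simp only [Complex.mul_conj, Complex.ofReal_re, Complex.normSq_eq_norm_sq]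
    ring
  have hx1 : ∑ i : Fin n, ‖x i.succ‖ ^ 2 - ‖x 0‖ ^ 2 = -1 := by
    rw [← hre, hx]; simp
  have hS : 0 ≤ ∑ i : Fin n, ‖x i.succ‖ ^ 2 := Finset.sum_nonneg fun i _ => by positivity
  have hT : 0 ≤ ∑ i : Fin n, ‖h i.succ‖ ^ 2 := Finset.sum_nonneg fun i _ => by positivity
  set c := √(∑ i : Fin n, ‖x i.succ‖ ^ 2) with hc
  set b := √(∑ i : Fin n, ‖h i.succ‖ ^ 2) with hb
  have hc2 : c ^ 2 = ∑ i : Fin n, ‖x i.succ‖ ^ 2 := Real.sq_sqrt hS
  have hb2 : b ^ 2 = ∑ i : Fin n, ‖h i.succ‖ ^ 2 := Real.sq_sqrt hT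
  have hc0 : 0 ≤ c := Real.sqrt_nonneg _
  have hb0 : 0 ≤ b := Real.sqrt_nonneg _
  have hm : 1 ≤ ‖x 0‖ := by
    have : 1 ≤ ‖x 0‖ ^ 2 := by linarith
    nlinarith [norm_nonneg (x 0)]
  have hCS : ‖∑ i : Fin n, x i.succ * conj (h i.succ)‖ ≤ c * b := by
    have h1 : ‖∑ i : Fin n, x i.succ * conj (h i.succ)‖ ≤
        ∑ i : Fin n, ‖x i.succ‖ * ‖h i.succ‖ := by
      refine (norm_sum_le _ _).trans (Finset.sum_le_sum fun i _ => ?_)
      rw [norm_mul, RCLike.norm_conj]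
    refine h1.trans ?_
    have h2 := Finset.sum_mul_sq_le_sq_mul_sq Finset.univ (fun i : Fin n => ‖x i.succ‖)
      (fun i => ‖h i.succ‖)
    rw [← hc2, ← hb2, ← mul_pow] at h2
    exact abs_le_of_sq_le_sq' h2 (by positivity) |>.2
  have ht : ‖x 0‖ * ‖h 0‖ - c * b ≤ ‖hf x h‖ := by
    unfold hf
    have h1 := norm_sub_norm_le (x 0 * conj (h 0)) (∑ i : Fin n, x i.succ * conj (h i.succ))
    rw [norm_mul, RCLike.norm_conj] at h1
    have h2 : ‖-(x 0 * conj (h 0)) + ∑ i : Fin n, x i.succ * conj (h i.succ)‖ =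
        ‖x 0 * conj (h 0) - ∑ i : Fin n, x i.succ * conj (h i.succ)‖ := by
      rw [← norm_neg]; congr 1; ring
    rw [h2]
    linarith
  rw [Fin.sum_univ_succ, hre, ← hb2]
  have := DomA_ineq (norm_nonneg (h 0)) hc0 hm (by rw [hc2]; linarith) ht
  linarith

theorem gauss_integrable {K : ℝ} (hK : 0 < K) :
    Integrable fun h : V n => Real.exp (-(∑ i, ‖h i‖ ^ 2) / K) := by
  have h1 : Integrable fun z : ℂ => Real.exp (-‖z‖ ^ 2 / K) := by
    have h2 := GaussianFourier.integrable_cexp_neg_mul_sq_norm_add (V := ℂ) (b := ((1 / K : ℝ) : ℂ))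
      (by rw [Complex.ofReal_re]; positivity) 0 0
    have h3 := h2.norm
    refine h3.congr (Filter.Eventually.of_forall fun z => ?_)
    simp only [zero_mul, add_zero, Complex.norm_exp]
    congr 1
    rw [← Complex.ofReal_neg, ← Complex.ofReal_pow, ← Complex.ofReal_mul, Complex.ofReal_re]
    ring
  have h2 : (fun h : V n => Real.exp (-(∑ i, ‖h i‖ ^ 2) / K)) =
      fun h : V n => ∏ i, Real.exp (-‖h i‖ ^ 2 / K) := by
    funext h
    rw [← Real.exp_sum]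
    congr 1
    rw [← Finset.sum_neg_distrib, Finset.sum_div]
  rw [h2]
  exact Integrable.fintype_prod (fun _ => h1)

end Pool.Agent.Helper71.KH
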