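import Pool.Agent.Helper71.KH.Gram

/-!
# Project KH, piece NUL: for almost all `h` the products `tt x y h` are not on the negative axis

PROOF. By scaling (`exists_unit`; `tt (a • x) (b • y) h = ‖a‖² ‖b‖² tt x y h`) let `hf x x = -1` and
`hf y y = -1`.
The set `{h | hf h x = 0}` is null: a proper subspace (`hf x x ≠ 0`), `Measure.addHaar_submodule` or
the line argument below.
Case 1: `y = a • x`.  Then `tt x y h = ‖a‖² ‖hf x h‖²` is positive off that set.
Case 2: `y` is not a multiple of `x`.  Let `e = y + hf y x • x`.  Then `hf e x = 0`, and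
`hf e y = ‖hf x y‖ ^ 2 - 1 ≠ 0`: otherwise `hf e e = 0`, `e = 0` by `psd_eq_zero`.  For `h` with
`hf h x ≠ 0` and `s : ℂ`, `tt x y (h + s • e) = -((hf y h + conj s * hf y e) * hf h x * hf x y)` is
`u + conj s * v` with `v ≠ 0` (`ng_hf_ne`).  So for almost all `s` it is in the (open)
slit plane: the complement of the slit plane is contained in a real line, which is null in `ℂ`, and
`s ↦ u + conj s * v` is an affine isomorphism over `ℝ`.  Conclude with
`MeasureTheory.ae_mem_of_ae_add_linearMap_mem` (`Mathlib.MeasureTheory.Measure.Haar.Disintegration`) for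
the set `{h | hf h x = 0 ∨ tt x y h ∈ slitPlane}`, which is measurable, and the linear map `s ↦ s • e`
(`hf (h + s • e) x = hf h x`).
-/

set_option autoImplicit false

open MeasureTheory
open scoped Matrix ComplexConjugate

namespace Pool.Agent.Helper71.KH

variable {n : ℕ}

/-- Almost every number is different from a given one after an affine bijection. -/
private theorem ae_ne_line {a b : ℂ} (hb : b ≠ 0) : ∀ᵐ s : ℂ, a + s * b ≠ 0 := by
  have h : ∀ᵐ s : ℂ, s ∈ ({-a / b} : Set ℂ)ᶜ := by
    rw [ae_iff]
    simp
  filter_upwards [h] with s hs h0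
  apply hs
  rw [Set.mem_singleton_iff, eq_div_iff hb]
  linear_combination h0

/-- Real version. -/
private theorem ae_ne_real (c : ℝ) : ∀ᵐ t : ℝ, c + t ≠ 0 := by
  have h : ∀ᵐ t : ℝ, t ∈ ({-c} : Set ℝ)ᶜ := by
    rw [ae_iff]
    simp
  filter_upwards [h] with t ht h0
  apply ht
  rw [Set.mem_singleton_iff]
  linarith

/-- The affine image of almost every number is in the slit plane. -/
private theorem ae_slit {u v : ℂ} (hv : v ≠ 0) :
    ∀ᵐ s : ℂ, u + conj s * v ∈ Complex.slitPlane := by
  have hm : MeasurableSet {s : ℂ | (u + conj s * v).im ≠ 0} := by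
    apply IsOpen.measurableSet
    apply isOpen_ne_fun
    · fun_prop
    · fun_prop
  set w : ℂ := conj (Complex.I / v) with hw
  have hwv : conj w * v = Complex.I := by
    rw [hw, Complex.conj_conj, div_mul_cancel₀ _ hv]
  have h : ∀ᵐ s : ℂ, s ∈ {s : ℂ | (u + conj s * v).im ≠ 0} := by
    refine ae_mem_of_ae_add_linearMap_mem (𝕜 := ℝ) (LinearMap.toSpanSingleton ℝ ℂ w)
      (volume : Measure ℝ) volume hm ?_
    intro s
    filter_upwards [ae_ne_real ((u + conj s * v).im)] with t ht
    simp only [LinearMap.toSpanSingleton_apply]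
    have : u + conj (s + t • w) * v = (u + conj s * v) + t * Complex.I := by
      rw [map_add, Complex.real_smul, map_mul, Complex.conj_ofReal, ← hwv]
      ring
    rw [this]
    simpa using ht
  filter_upwards [h] with s hs
  exact Or.inr hs

private theorem continuous_hf_left (x : V n) : Continuous fun h : V n => hf h x :=
  continuous_hf.comp (continuous_id.prodMk continuous_const)

private theorem continuous_hf_right (x : V n) : Continuous fun h : V n => hf x h :=
  continuous_hf.comp (continuous_const.prodMk continuous_id)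

private theorem continuous_tt (x y : V n) : Continuous fun h : V n => tt x y h := by
  unfold tt
  exact (((continuous_hf_right y).mul (continuous_hf_left x)).mul continuous_const).neg

theorem hf_ne_ae {x : V n} (hx : Ng x) : ∀ᵐ h : V n, hf h x ≠ 0 := by
  have hxx : hf x x ≠ 0 := by
    intro h0
    unfold Ng at hx
    rw [h0] at hx
    simp at hx
  have hm : MeasurableSet {h : V n | hf h x ≠ 0} :=
    (isOpen_ne_fun (continuous_hf_left x) continuous_const).measurableSet
  have h : ∀ᵐ h : V n, h ∈ {h : V n | hf h x ≠ 0} := by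
    refine ae_mem_of_ae_add_linearMap_mem (𝕜 := ℂ) (LinearMap.toSpanSingleton ℂ (V n) x)
      (volume : Measure ℂ) volume hm ?_
    intro h
    filter_upwards [ae_ne_line (a := hf h x) hxx] with s hs
    simp only [LinearMap.toSpanSingleton_apply]
    rw [hf_add_left, hf_smul_left]
    exact hs
  exact h

private theorem slit_of_pos_mul {r : ℝ} (hr : 0 < r) {z : ℂ}
    (h : (r : ℂ) * z ∈ Complex.slitPlane) : z ∈ Complex.slitPlane := by
  rw [Complex.mem_slitPlane_iff] at h ⊢
  rcases h with h | h
  · left
    rw [Complex.re_ofReal_mul] at h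
    exact (pos_iff_pos_of_mul_pos h).1 hr
  · right
    rw [Complex.im_ofReal_mul] at h
    exact fun h0 => h (by rw [h0, mul_zero])

private theorem tt_smul (a b : ℂ) (x y h : V n) :
    tt (a • x) (b • y) h = ((Complex.normSq a * Complex.normSq b : ℝ) : ℂ) * tt x y h := by
  unfold tt
  rw [hf_smul_left, hf_smul_right, hf_smul_left, hf_smul_right, Complex.ofReal_mul,
    ← Complex.mul_conj, ← Complex.mul_conj]
  ring

private theorem tt_slit_ae_unit {x y : V n} (hx : hf x x = -1) (hy : hf y y = -1) :
    ∀ᵐ h : V n, tt x y h ∈ Complex.slitPlane := by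
  have hxn : Ng x := ng_of_eq hx
  have hyn : Ng y := ng_of_eq hy
  have hxy : hf x y ≠ 0 := ng_hf_ne hxn hyn
  set e : V n := y + hf y x • x with he
  have hex : hf e x = 0 := by
    rw [he, hf_add_left, hf_smul_left, hx]
    ring
  have hee : hf e e = hf e y := by
    conv_lhs => rw [he]
    rw [hf_add_right, hf_smul_right]
    rw [← he, hex, mul_zero, add_zero]
  by_cases hey : hf e y = 0
  · -- `y` is a multiple of `x`
    have he0 : e = 0 := psd_eq_zero hx hex (by rw [hee, hey]; simp)
    have hyx : y = (-hf y x) • x := by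
      rw [neg_smul, ← sub_eq_zero, sub_neg_eq_add, ← he]
      exact he0
    have hc : -hf y x ≠ 0 := by
      rw [neg_ne_zero, ← hf_conj x y]
      simpa using hxy
    filter_upwards [hf_ne_ae hxn] with h hh
    have : tt x y h = ((Complex.normSq (-hf y x) * Complex.normSq (hf h x) : ℝ) : ℂ) := by
      generalize -hf y x = c at hyx
      unfold tt
      rw [hyx, hf_smul_left, hf_smul_right, hx, ← hf_conj h x, Complex.ofReal_mul,
        ← Complex.mul_conj, ← Complex.mul_conj]
      ring
    rw [this]
    left
    rw [Complex.ofReal_re]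
    exact mul_pos (Complex.normSq_pos.2 hc) (Complex.normSq_pos.2 hh)
  · have hm : MeasurableSet {h : V n | hf h x = 0 ∨ tt x y h ∈ Complex.slitPlane} := by
      have h1 : MeasurableSet {h : V n | hf h x = 0} :=
        (isClosed_eq (continuous_hf_left x) continuous_const).measurableSet
      have h2 : MeasurableSet {h : V n | tt x y h ∈ Complex.slitPlane} :=
        (Complex.isOpen_slitPlane.preimage (continuous_tt x y)).measurableSet
      exact h1.union h2
    have hye : hf y e ≠ 0 := by
      rw [← hf_conj e y]
      simpa using hey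
    have h : ∀ᵐ h : V n, h ∈ {h : V n | hf h x = 0 ∨ tt x y h ∈ Complex.slitPlane} := by
      refine ae_mem_of_ae_add_linearMap_mem (𝕜 := ℂ) (LinearMap.toSpanSingleton ℂ (V n) e)
        (volume : Measure ℂ) volume hm ?_
      intro h
      have hadd : ∀ s : ℂ, hf (h + s • e) x = hf h x := by
        intro s
        rw [hf_add_left, hf_smul_left, hex, mul_zero, add_zero]
      by_cases hh : hf h x = 0
      · refine Filter.Eventually.of_forall fun s => ?_
        left
        rw [LinearMap.toSpanSingleton_apply, hadd, hh]
      · have hv : -(hf y e * hf h x * hf x y) ≠ 0 :=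
          neg_ne_zero.2 (mul_ne_zero (mul_ne_zero hye hh) hxy)
        filter_upwards [ae_slit (u := -(hf y h * hf h x * hf x y)) hv] with s hs
        right
        rw [LinearMap.toSpanSingleton_apply]
        have : tt x y (h + s • e) =
            -(hf y h * hf h x * hf x y) + conj s * -(hf y e * hf h x * hf x y) := by
          unfold tt
          rw [hadd, hf_add_right, hf_smul_right]
          ring
        rw [this]
        exact hs
    filter_upwards [h, hf_ne_ae hxn] with h h1 h2
    exact h1.resolve_left h2

theorem tt_slit_ae {x y : V n} (hx : Ng x) (hy : Ng y) :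
    ∀ᵐ h : V n, tt x y h ∈ Complex.slitPlane := by
  obtain ⟨a, ha, hax⟩ := exists_unit hx
  obtain ⟨b, hb, hby⟩ := exists_unit hy
  filter_upwards [tt_slit_ae_unit hax hby] with h hh
  rw [tt_smul] at hh
  exact slit_of_pos_mul (mul_pos (Complex.normSq_pos.2 ha) (Complex.normSq_pos.2 hb)) hh

end Pool.Agent.Helper71.KH
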