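import Pool.Agent.Helper71.KH.IsoA
import Pool.Agent.Helper71.KH.NullT

/-!
# Project KH, piece ISB: complex conjugation

PROOFS. `cj_mp`: `volume_preserving_pi` and complex conjugation on `ℂ` is a linear isometry
(`Complex.conjLIE`, `LinearIsometryEquiv.measurePreserving`).
`W_cj_ae`: `hf (cj x) (cj y) = conj (hf x y)`, so `tt` is conjugated; `Complex.arg_conj` for `tt` in the
slit plane (`tt_slit_ae` three times) and for the product in `al` (`al_slit`).
`good_cj`: `cj` is an involution and measure preserving, so integrals of `W (cj h) ..` and `W h ..` agree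
(`MeasurePreserving.integral_comp` with the measurable embedding `cj`), then `W_cj_ae`; `al (cj x) .. = -al x ..`.
-/

set_option autoImplicit false

open MeasureTheory
open scoped Matrix ComplexConjugate

namespace Pool.Agent.Helper71.KH

variable {n : ℕ}

/-- Complex conjugation of the coordinates. -/
def cj (x : V n) : V n := fun i => conj (x i)

theorem cj_cj (x : V n) : cj (cj x) = x := by
  funext i
  simp [cj]

theorem cj_mp : MeasurePreserving (cj : V n → V n) volume volume := by
  have h : MeasurePreserving (fun z : ℂ => conj z) volume volume :=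
    Complex.conjLIE.measurePreserving
  exact volume_preserving_pi (fun _ : Fin (n + 1) => h)

private theorem hf_cj (x y : V n) : hf (cj x) (cj y) = conj (hf x y) := by
  unfold hf cj
  rw [map_add, map_neg, map_mul, map_sum]
  simp only [map_mul]

private theorem tt_cj (x y h : V n) : tt (cj x) (cj y) (cj h) = conj (tt x y h) := by
  unfold tt
  rw [hf_cj, hf_cj, hf_cj, map_neg, map_mul, map_mul]

private theorem arg_conj_slit {t : ℂ} (ht : t ∈ Complex.slitPlane) :
    Complex.arg (conj t) = -Complex.arg t := by
  rw [Complex.arg_conj, if_neg (Complex.mem_slitPlane_iff_arg.mp ht).1]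

private theorem al_cj {x y z : V n} (hx : Ng x) (hy : Ng y) (hz : Ng z) :
    al (cj x) (cj y) (cj z) = -al x y z := by
  unfold al
  rw [hf_cj, hf_cj, hf_cj, ← map_mul, ← map_mul, ← map_neg]
  exact arg_conj_slit (Complex.mem_slitPlane_iff.mpr (Or.inl (al_slit hx hy hz)))

theorem W_cj_ae {x y z : V n} (hx : Ng x) (hy : Ng y) (hz : Ng z) :
    ∀ᵐ h : V n, W (cj h) (cj x) (cj y) (cj z) = -W h x y z := by
  filter_upwards [tt_slit_ae hy hz, tt_slit_ae hx hz, tt_slit_ae hx hy] with h h1 h2 h3
  unfold W kv
  rw [tt_cj, tt_cj, tt_cj, al_cj hx hy hz, arg_conj_slit h1, arg_conj_slit h2, arg_conj_slit h3,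
    hf_cj, Complex.conj_re]
  ring

/-- complex conjugation as a measurable equivalence -/
private def cjE : V n ≃ᵐ V n where
  toFun := cj
  invFun := cj
  left_inv := cj_cj
  right_inv := cj_cj
  measurable_toFun := cj_mp.measurable
  measurable_invFun := cj_mp.measurable

private theorem cj_emb : MeasurableEmbedding (cj : V n → V n) :=
  (cjE (n := n)).measurableEmbedding

theorem good_cj {C : ℝ} {x y z : V n} (hx : Ng x) (hy : Ng y) (hz : Ng z) (h : Good C x y z) :
    Good C (cj x) (cj y) (cj z) := by
  have hae := W_cj_ae hx hy hz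
  refine ⟨?_, ?_, ?_⟩
  · rw [← cj_mp.integrable_comp_emb cj_emb]
    refine h.integrable.neg.congr ?_
    filter_upwards [hae] with k hk
    exact hk.symm
  · rw [← cj_mp.integral_comp cj_emb]
    have e : ∫ k : V n, |W (cj k) (cj x) (cj y) (cj z)| = ∫ k : V n, |W k x y z| := by
      refine integral_congr_ae ?_
      filter_upwards [hae] with k hk
      rw [hk, abs_neg]
    rw [e]
    exact h.bound
  · rw [← cj_mp.integral_comp cj_emb]
    have e : ∫ k : V n, W (cj k) (cj x) (cj y) (cj z) = ∫ k : V n, -W k x y z := by
      refine integral_congr_ae ?_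
      filter_upwards [hae] with k hk
      exact hk
    rw [e, integral_neg, h.value, al_cj hx hy hz]
    ring

end Pool.Agent.Helper71.KH
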