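import Pool.Agent.Helper71.KH.Gram

/-!
# Project KH, piece NF: isometries with given first columns

PROOF. Let `p` with `hf p p = -1`.  The subspace `P = {y | hf y p = 0}` of `V n` has dimension `n`
(kernel of a non-zero linear form) and the form is positive definite on it (`psd`, `psd_eq_zero`).
Give `P` the inner product `⟪x, y⟫ = hf y x` (`InnerProductSpace.Core`, conjugate linear in `x`).  The
family `v` is orthonormal in it; extend it to an orthonormal basis
(`Orthonormal.exists_orthonormalBasis_extension_of_card_eq`), `w : Fin n → V n` with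
`w ⟨i, _⟩ = v i` for `i < k`, `hf (w i) (w j) = if i = j then 1 else 0`, `hf (w i) p = 0`.
(Alternative without inner product spaces: induction on `n - k`; if `k < n` the vectors `p, v i` do not
span `V n`, take `u` outside of their span and subtract its components, the result `u'` is
not `0`, orthogonal to `p` and to the `v i`, so `hf u' u' > 0` by `psd`, `psd_eq_zero`; normalise it.)
Let `g x = x 0 • p + ∑ i, x i.succ • w i`.  Then `hf (g x) (g y) = hf x y` by the relations, and `g` is
injective because `hf (g x) (g y) = 0` for all `y` implies `hf x y = 0` for all `y`, `x = 0`; so it is a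
linear equivalence (`LinearEquiv.ofInjectiveEndo`).
-/

set_option autoImplicit false

open MeasureTheory
open scoped Matrix ComplexConjugate

namespace Pool.Agent.Helper71.KH

variable {n : ℕ}

private theorem nf_one {p : V n} (hp : hf p p = -1) {k : ℕ} (hk : k < n) (v : Fin k → V n)
    (hv : ∀ i j, hf (v i) (v j) = if i = j then 1 else 0) (hvp : ∀ i, hf (v i) p = 0) :
    ∃ u : V n, hf u u = 1 ∧ hf u p = 0 ∧ ∀ i, hf u (v i) = 0 := by
  have hpv : ∀ i, hf p (v i) = 0 := fun i => by rw [← hf_conj, hvp i, map_zero]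
  obtain ⟨u, hu⟩ : ∃ u : V n, u ∉ Submodule.span ℂ (Set.range (Fin.cons (α := fun _ => V n) p v)) := by
    by_contra hcon
    push Not at hcon
    have h1 : Submodule.span ℂ (Set.range (Fin.cons (α := fun _ => V n) p v)) = ⊤ := by
      rw [eq_top_iff]
      exact fun x _ => hcon x
    have h2 := finrank_range_le_card (R := ℂ) (Fin.cons (α := fun _ => V n) p v)
    rw [Set.finrank, h1, finrank_top, Module.finrank_fin_fun, Fintype.card_fin] at h2
    omega
  obtain ⟨u', hu'⟩ : ∃ u' : V n, u' = u + hf u p • p - ∑ i, hf u (v i) • v i := ⟨_, rfl⟩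
  have h1 : hf u' p = 0 := by
    rw [hu', hf_sub_left, hf_add_left, hf_smul_left, hp, hf_sum_left]
    simp only [hf_smul_left, hvp, mul_zero, Finset.sum_const_zero]
    ring
  have h2 : ∀ j, hf u' (v j) = 0 := by
    intro j
    rw [hu', hf_sub_left, hf_add_left, hf_smul_left, hpv, hf_sum_left]
    simp only [hf_smul_left, hv, mul_ite, mul_one, mul_zero, Finset.sum_ite_eq', Finset.mem_univ,
      if_true]
    ring
  have h3 : u' ≠ 0 := by
    intro h0
    apply hu
    have e : u = -(hf u p • p) + ∑ i, hf u (v i) • v i := by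
      rw [h0] at hu'
      have := sub_eq_zero.mp hu'.symm
      rw [← this]
      abel
    rw [e]
    refine Submodule.add_mem _ (Submodule.neg_mem _ (Submodule.smul_mem _ _ ?_))
      (Submodule.sum_mem _ fun i _ => Submodule.smul_mem _ _ ?_)
    · exact Submodule.subset_span ⟨0, rfl⟩
    · exact Submodule.subset_span ⟨i.succ, by rw [Fin.cons_succ]⟩
  have h4 := psd hp h1
  have h5 : (hf u' u').re ≠ 0 := fun h => h3 (psd_eq_zero hp h1 h)
  have h6 : 0 < (hf u' u').re := lt_of_le_of_ne h4 (Ne.symm h5)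
  obtain ⟨r, hr⟩ : ∃ r : ℝ, r = (hf u' u').re := ⟨_, rfl⟩
  have hr0 : 0 < r := by rw [hr]; exact h6
  obtain ⟨c, hc⟩ : ∃ c : ℝ, c = (√r)⁻¹ := ⟨_, rfl⟩
  have hcr : c * c * r = 1 := by
    rw [hc, ← mul_inv, Real.mul_self_sqrt hr0.le, inv_mul_cancel₀ hr0.ne']
  refine ⟨(c : ℂ) • u', ?_, ?_, fun i => ?_⟩
  · rw [hf_smul_left, hf_smul_right, Complex.conj_ofReal, hf_self_eq, ← hr, ← mul_assoc]
    exact_mod_cast hcr
  · rw [hf_smul_left, h1, mul_zero]
  · rw [hf_smul_left, h2, mul_zero]

private theorem nf_ext {p : V n} (hp : hf p p = -1) (m : ℕ) : ∀ (k : ℕ) (hkm : k + m = n)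
    (v : Fin k → V n), (∀ i j, hf (v i) (v j) = if i = j then 1 else 0) →
    (∀ i, hf (v i) p = 0) →
    ∃ w : Fin n → V n, (∀ i j, hf (w i) (w j) = if i = j then 1 else 0) ∧
      (∀ i, hf (w i) p = 0) ∧ ∀ i : Fin k, w ⟨i, by omega⟩ = v i := by
  induction m with
  | zero =>
    intro k hkm v hv hvp
    have hkn : k = n := by omega
    subst hkn
    exact ⟨v, hv, hvp, fun i => rfl⟩
  | succ m ih =>
    intro k hkm v hv hvp
    obtain ⟨u, hu1, hu2, hu3⟩ := nf_one hp (by omega) v hv hvp
    have hu4 : ∀ i, hf (v i) u = 0 := fun i => by rw [← hf_conj, hu3 i, map_zero]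
    obtain ⟨w, hw1, hw2, hw3⟩ := ih (k + 1) (by omega) (Fin.snoc (α := fun _ => V n) v u) (by
      intro i j
      refine Fin.lastCases ?_ (fun i => ?_) i
      · refine Fin.lastCases ?_ (fun j => ?_) j
        · rw [Fin.snoc_last, hu1, if_pos rfl]
        · rw [Fin.snoc_last, Fin.snoc_castSucc, hu3, if_neg (Fin.castSucc_ne_last j).symm]
      · refine Fin.lastCases ?_ (fun j => ?_) j
        · rw [Fin.snoc_last, Fin.snoc_castSucc, hu4, if_neg (Fin.castSucc_ne_last i)]
        · rw [Fin.snoc_castSucc, Fin.snoc_castSucc, hv]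
          simp only [Fin.castSucc_inj]) (by
      intro i
      refine Fin.lastCases ?_ (fun i => ?_) i
      · rw [Fin.snoc_last, hu2]
      · rw [Fin.snoc_castSucc, hvp])
    refine ⟨w, hw1, hw2, fun i => ?_⟩
    have h := hw3 i.castSucc
    rw [Fin.snoc_castSucc] at h
    exact h

private theorem nf_sep {x : V n} (h : ∀ y, hf x y = 0) : x = 0 := by
  funext j
  refine Fin.cases ?_ (fun i => ?_) j
  · have h0 := h (Pi.single 0 1)
    unfold hf at h0
    simpa using h0
  · have h0 := h (Pi.single i.succ 1)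
    unfold hf at h0
    simpa [Pi.single_apply, (Fin.succ_ne_zero i).symm] using h0

theorem nf {p : V n} (hp : hf p p = -1) {k : ℕ} (hk : k ≤ n) (v : Fin k → V n)
    (hv : ∀ i j, hf (v i) (v j) = if i = j then 1 else 0) (hvp : ∀ i, hf (v i) p = 0) :
    ∃ g : V n ≃ₗ[ℂ] V n, (∀ x y, hf (g x) (g y) = hf x y) ∧ g (e0 n) = p ∧
      ∀ i : Fin k, g (Pi.single ⟨i + 1, by omega⟩ 1) = v i := by
  obtain ⟨w, hw1, hw2, hw3⟩ := nf_ext hp (n - k) k (by omega) v hv hvp
  have hw2' : ∀ i, hf p (w i) = 0 := fun i => by rw [← hf_conj, hw2 i, map_zero]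
  obtain ⟨f, hfd⟩ : ∃ f : V n →ₗ[ℂ] V n, ∀ x, f x = x 0 • p + ∑ i : Fin n, x i.succ • w i := by
    refine ⟨{ toFun := fun x => (x 0 • p + ∑ i : Fin n, x i.succ • w i)
              map_add' := ?_
              map_smul' := ?_ }, fun x => rfl⟩
    · intro x y
      simp only [Pi.add_apply, add_smul, Finset.sum_add_distrib]
      abel
    · intro c x
      simp only [Pi.smul_apply, smul_eq_mul, mul_smul, smul_add, Finset.smul_sum, RingHom.id_apply]
  have hiso : ∀ x y, hf (f x) (f y) = hf x y := by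
    intro x y
    rw [hfd, hfd, hf_add_left, hf_add_right, hf_add_right, hf_smul_left, hf_smul_right, hp,
      hf_smul_left, hf_sum_right, hf_sum_left, hf_sum_left]
    have e1 : ∑ i, hf p (y i.succ • w i) = 0 :=
      Finset.sum_eq_zero fun i _ => by rw [hf_smul_right, hw2', mul_zero]
    have e2 : ∑ i, hf (x i.succ • w i) (y 0 • p) = 0 :=
      Finset.sum_eq_zero fun i _ => by rw [hf_smul_left, hf_smul_right, hw2, mul_zero, mul_zero]
    have e3 : ∀ i, hf (x i.succ • w i) (∑ j, y j.succ • w j) = x i.succ * conj (y i.succ) := by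
      intro i
      rw [hf_smul_left, hf_sum_right]
      simp only [hf_smul_right, hw1, mul_ite, mul_one, mul_zero, Finset.sum_ite_eq, Finset.mem_univ,
        if_true]
    rw [e1, e2, Finset.sum_congr rfl fun i _ => e3 i]
    unfold hf
    ring
  have hinj : Function.Injective f := by
    rw [injective_iff_map_eq_zero]
    intro x hx
    refine nf_sep fun y => ?_
    rw [← hiso, hx, hf_zero_left]
  refine ⟨LinearEquiv.ofInjectiveEndo f hinj, fun x y => hiso x y, ?_, fun i => ?_⟩
  · change f (e0 n) = p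
    rw [hfd]
    unfold e0
    simp
  · change f (Pi.single ⟨i + 1, by omega⟩ 1) = v i
    rw [hfd, ← hw3 i]
    obtain ⟨j, hj⟩ : ∃ j : Fin n, j = ⟨i, by omega⟩ := ⟨_, rfl⟩
    have e : (⟨i + 1, by omega⟩ : Fin (n + 1)) = Fin.succ j := by rw [hj]; rfl
    rw [e, ← hj]
    have e2 : ∀ l : Fin n, (Pi.single j.succ (1 : ℂ) : V n) l.succ • w l = if l = j then w l else 0 := by
      intro l
      by_cases hl : l = j
      · rw [if_pos hl, hl, Pi.single_eq_same, one_smul]
      · rw [if_neg hl, Pi.single_eq_of_ne (fun h => hl (Fin.succ_injective _ h)), zero_smul]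
    rw [Finset.sum_congr rfl fun l _ => e2 l, Pi.single_eq_of_ne (Fin.succ_ne_zero j).symm,
      zero_smul, zero_add]
    simp

end Pool.Agent.Helper71.KH
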