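import Pool.Agent.Helper71.KH.Kdef

/-!
# Project KH, piece RTB: the region of a real right triangle, inner integral

The set of the `(a, b, c)` with `a = l b + l' c`, `l, l' ≥ 0`, `l + l' ≤ 1`.
PROOFS. `isClosed_DE`: it is the projection to the last factor of a closed subset of `T × ℂ³`, `T` the
compact triangle (`isClosedMap_snd_of_compactSpace`, or `IsCompact` and sequences).
`DE_inner`: fix `b, c`.  The linear map `L (l, l') = l b + l' c` from `ℝ × ℝ` to `ℂ` has determinant
(with respect to the basis `1, i`) `±(conj b * c).im`.  The set `{a | (a, b, c) ∈ DE}` is the image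
of the triangle `T`.  If the determinant is `0` the image is in a proper real subspace of `ℂ`, a null
set.  Otherwise the change of variables (`MeasureTheory.lintegral_image_eq_lintegral_abs_det_fderiv_mul`, or
`Measure.addHaar_image_linearMap`) gives equality.
-/

set_option autoImplicit false

open MeasureTheory
open scoped Matrix ComplexConjugate ENNReal

namespace Pool.Agent.Helper71.KH

/-- The closed region. -/
def DE : Set (ℂ × ℂ × ℂ) :=
  {p | ∃ l l' : ℝ, 0 ≤ l ∧ 0 ≤ l' ∧ l + l' ≤ 1 ∧ p.1 = l * p.2.1 + l' * p.2.2}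

/-- The triangle. -/
def Tri : Set (ℝ × ℝ) := {q | 0 ≤ q.1 ∧ 0 ≤ q.2 ∧ q.1 + q.2 ≤ 1}

private theorem RTb_isCompact_Tri : IsCompact Tri := by
  have h1 : Tri ⊆ Set.Icc (0 : ℝ × ℝ) 1 := by
    rintro ⟨a, b⟩ ⟨h1, h2, h3⟩
    simp only at h1 h2 h3
    exact ⟨⟨h1, h2⟩, ⟨by simp only [Prod.fst_one]; linarith, by simp only [Prod.snd_one]; linarith⟩⟩
  have h2 : IsClosed Tri := by
    have e : Tri = {q : ℝ × ℝ | 0 ≤ q.1} ∩ ({q : ℝ × ℝ | 0 ≤ q.2} ∩ {q : ℝ × ℝ | q.1 + q.2 ≤ 1}) := by
      ext q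
      rfl
    rw [e]
    exact (isClosed_le continuous_const continuous_fst).inter
      ((isClosed_le continuous_const continuous_snd).inter
        (isClosed_le (continuous_fst.add continuous_snd) continuous_const))
  exact isCompact_Icc.of_isClosed_subset h2 h1

theorem isClosed_DE : IsClosed DE := by
  have hT : CompactSpace Tri := isCompact_iff_compactSpace.1 RTb_isCompact_Tri
  set S : Set (Tri × (ℂ × ℂ × ℂ)) :=
    {p | p.2.1 = (p.1.1.1 : ℂ) * p.2.2.1 + (p.1.1.2 : ℂ) * p.2.2.2} with hS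
  have hSc : IsClosed S := by
    apply isClosed_eq
    · fun_prop
    · fun_prop
  have h := isClosedMap_snd_of_compactSpace S hSc
  have e : DE = Prod.snd '' S := by
    ext p
    constructor
    · rintro ⟨l, l', h1, h2, h3, h4⟩
      exact ⟨(⟨(l, l'), h1, h2, h3⟩, p), h4, rfl⟩
    · rintro ⟨⟨⟨⟨l, l'⟩, h1, h2, h3⟩, q⟩, h4, rfl⟩
      exact ⟨l, l', h1, h2, h3, h4⟩
  rw [e]
  exact h

theorem DE_inner (b c : ℂ) :
    ∫⁻ a in {a : ℂ | (a, b, c) ∈ DE}, ENNReal.ofReal (Real.exp (‖a‖ ^ 2)) ≤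
      ∫⁻ q in Tri, ENNReal.ofReal (|(conj b * c).im| * Real.exp (‖(q.1 : ℂ) * b + q.2 * c‖ ^ 2)) := by
  set M : (ℝ × ℝ) →L[ℝ] (ℝ × ℝ) := LinearMap.toContinuousLinearMap
    (Matrix.toLin (Module.Basis.finTwoProd ℝ) (Module.Basis.finTwoProd ℝ)
      !![b.re, c.re; b.im, c.im]) with hM
  have hMa : ∀ q, M q = (b.re * q.1 + c.re * q.2, b.im * q.1 + c.im * q.2) := by
    intro q
    rw [hM, Matrix.toLin_finTwoProd_toContinuousLinearMap]
    simp
  have hdet : M.det = (conj b * c).im := by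
    rw [hM, ContinuousLinearMap.det, LinearMap.coe_toContinuousLinearMap, LinearMap.det_toLin,
      Matrix.det_fin_two_of, Complex.mul_im, Complex.conj_re, Complex.conj_im]
    ring
  have hTm : MeasurableSet Tri := RTb_isCompact_Tri.measurableSet
  -- the image of the triangle
  set e := Complex.measurableEquivRealProd with he
  have hmp := Complex.volume_preserving_equiv_real_prod
  have hpre : {a : ℂ | (a, b, c) ∈ DE} = e ⁻¹' (M '' Tri) := by
    ext a
    constructor
    · rintro ⟨l, l', h1, h2, h3, h4⟩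
      refine ⟨(l, l'), ⟨h1, h2, h3⟩, ?_⟩
      simp only at h4
      rw [hMa, h4]
      rw [he, Complex.measurableEquivRealProd_apply]
      apply Prod.ext
      · simp [mul_comm]
      · simp [mul_comm]
    · rintro ⟨⟨l, l'⟩, ⟨h1, h2, h3⟩, h4⟩
      refine ⟨l, l', h1, h2, h3, ?_⟩
      rw [hMa, he, Complex.measurableEquivRealProd_apply] at h4
      have h5 := congrArg Prod.fst h4
      have h6 := congrArg Prod.snd h4
      simp only at h5 h6
      apply Complex.ext
      · rw [← h5]; simp [mul_comm]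
      · rw [← h6]; simp [mul_comm]
  have hg : ∀ a : ℂ, ENNReal.ofReal (Real.exp (‖a‖ ^ 2)) =
      (fun p : ℝ × ℝ => ENNReal.ofReal (Real.exp (p.1 ^ 2 + p.2 ^ 2))) (e a) := by
    intro a
    rw [he, Complex.measurableEquivRealProd_apply, ← Complex.normSq_eq_norm_sq,
      Complex.normSq_apply]
    simp only [pow_two]
  rw [hpre]
  have e1 : ∫⁻ a in e ⁻¹' (M '' Tri), ENNReal.ofReal (Real.exp (‖a‖ ^ 2)) =
      ∫⁻ p in M '' Tri, ENNReal.ofReal (Real.exp (p.1 ^ 2 + p.2 ^ 2)) := by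
    rw [← (hmp.restrict_preimage_emb e.measurableEmbedding (M '' Tri)).lintegral_comp_emb
      e.measurableEmbedding]
    exact lintegral_congr fun a => hg a
  rw [e1]
  by_cases hD : M.det = 0
  · have h0 : volume (M '' Tri) = 0 := by
      have h1 : M '' Tri ⊆ (LinearMap.range (M : (ℝ × ℝ) →ₗ[ℝ] (ℝ × ℝ)) : Set (ℝ × ℝ)) := by
        rintro _ ⟨q, _, rfl⟩
        exact ⟨q, rfl⟩
      refine measure_mono_null h1 (Measure.addHaar_submodule _ _ ?_)
      exact (LinearMap.range_lt_top_of_det_eq_zero hD).ne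
    rw [Measure.restrict_eq_zero.2 h0, lintegral_zero_measure]
    exact zero_le
  · have hinj : Function.Injective M := by
      have := LinearMap.bot_lt_ker_of_det_eq_zero (f := (M : (ℝ × ℝ) →ₗ[ℝ] (ℝ × ℝ)))
      have h2 : LinearMap.ker (M : (ℝ × ℝ) →ₗ[ℝ] (ℝ × ℝ)) = ⊥ := by
        have hu : IsUnit (LinearMap.det (M : (ℝ × ℝ) →ₗ[ℝ] (ℝ × ℝ))) := isUnit_iff_ne_zero.2 hD
        have := (LinearMap.isUnit_iff_isUnit_det _).2 hu
        exact (LinearMap.isUnit_iff_ker_eq_bot _).1 this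
      exact LinearMap.ker_eq_bot.1 h2
    rw [lintegral_image_eq_lintegral_abs_det_fderiv_mul volume hTm
      (fun x _ => M.hasFDerivAt.hasFDerivWithinAt) hinj.injOn]
    refine lintegral_mono fun q => ?_
    rw [← ENNReal.ofReal_mul (abs_nonneg _), hdet]
    apply le_of_eq
    congr 3
    rw [hMa, ← Complex.normSq_eq_norm_sq, Complex.normSq_apply]
    simp
    ring

end Pool.Agent.Helper71.KH
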