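import Pool.Agent.Helper71.KH.Kdef

/-!
# Project KH, piece RTC: the region of a real right triangle, outer integral

PROOF (by a shear instead of a rotation).  Put `β = 1 - l'²`, `α = (1 - l² - l'²) / β`,
`μ = l l' / β`.  Completing the square,
`‖l b + l' (c + μ b)‖² - ‖b‖² - ‖c + μ b‖² = - α ‖b‖² - β ‖c‖²`, and `(conj b * (c + μ b)).im =
(conj b * c).im`.  So the integral is at most `J α * J β` with
`J δ = ∫⁻ u : ℂ, ‖u‖ exp (-δ ‖u‖²) = π Γ (3/2) δ ^ (-3/2)`, and `α β = 1 - l² - l'²`.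
-/

set_option autoImplicit false

open MeasureTheory
open scoped Matrix ComplexConjugate ENNReal

namespace Pool.Agent.Helper71.KH

variable {n : ℕ}

private theorem J_value {d : ℝ} (hd : 0 < d) :
    ∫⁻ u : ℂ, ENNReal.ofReal (‖u‖ * Real.exp (-d * ‖u‖ ^ 2)) =
      ENNReal.ofReal (Real.pi * Real.Gamma (3 / 2)) * ENNReal.ofReal (d ^ (-(3 / 2) : ℝ)) := by
  have h := Complex.integral_rpow_mul_exp_neg_mul_rpow (p := 2) (q := 1) (b := d)
    (by norm_num) (by norm_num) hd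
  have hG : 0 < Real.Gamma (3 / 2) := Real.Gamma_pos_of_pos (by norm_num)
  have hval : ∫ u : ℂ, ‖u‖ * Real.exp (-d * ‖u‖ ^ 2) =
      (Real.pi * Real.Gamma (3 / 2)) * d ^ (-(3 / 2) : ℝ) := by
    have e1 : (fun u : ℂ => ‖u‖ ^ (1 : ℝ) * Real.exp (-d * ‖u‖ ^ (2 : ℝ))) =
        fun u : ℂ => ‖u‖ * Real.exp (-d * ‖u‖ ^ 2) := by
      funext u
      rw [Real.rpow_one, Real.rpow_two]
    rw [e1] at h
    rw [h]
    norm_num
    ring
  have hpos : 0 < (Real.pi * Real.Gamma (3 / 2)) * d ^ (-(3 / 2) : ℝ) := by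
    have := Real.pi_pos
    have := Real.rpow_pos_of_pos hd (-(3 / 2) : ℝ)
    positivity
  have hint : Integrable (fun u : ℂ => ‖u‖ * Real.exp (-d * ‖u‖ ^ 2)) := by
    apply Integrable.of_integral_ne_zero
    rw [hval]
    exact hpos.ne'
  rw [← ofReal_integral_eq_lintegral_ofReal hint
    (Filter.Eventually.of_forall fun u => by positivity), hval,
    ENNReal.ofReal_mul (by positivity)]

private theorem square_id {l l' : ℝ} (hb : 0 < 1 - l' ^ 2) (b c : ℂ) :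
    ‖(l : ℂ) * b + l' * (c + ((l * l' / (1 - l' ^ 2) : ℝ) : ℂ) * b)‖ ^ 2 - ‖b‖ ^ 2 -
        ‖c + ((l * l' / (1 - l' ^ 2) : ℝ) : ℂ) * b‖ ^ 2 =
      -((1 - l ^ 2 - l' ^ 2) / (1 - l' ^ 2)) * ‖b‖ ^ 2 + -(1 - l' ^ 2) * ‖c‖ ^ 2 := by
  have e : ∀ z : ℂ, ‖z‖ ^ 2 = z.re ^ 2 + z.im ^ 2 := by
    intro z
    rw [← Complex.normSq_eq_norm_sq, Complex.normSq_apply]
    ring
  rw [e, e, e, e]
  simp only [Complex.add_re, Complex.add_im, Complex.mul_re, Complex.mul_im, Complex.ofReal_re,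
    Complex.ofReal_im, zero_mul, sub_zero, add_zero]
  field_simp
  ring

private theorem im_shear (m : ℝ) (b c : ℂ) :
    (conj b * (c + (m : ℂ) * b)).im = (conj b * c).im := by
  simp only [Complex.mul_im, Complex.add_im, Complex.add_re, Complex.mul_re, Complex.ofReal_re,
    Complex.ofReal_im, Complex.conj_re, Complex.conj_im, zero_mul, sub_zero, add_zero]
  ring

theorem outer : ∃ C : ℝ≥0∞, C < ∞ ∧ ∀ l l' : ℝ, l ^ 2 + l' ^ 2 < 1 →
    ∫⁻ q : ℂ × ℂ, ENNReal.ofReal (|(conj q.1 * q.2).im| *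
        Real.exp (‖(l : ℂ) * q.1 + l' * q.2‖ ^ 2 - ‖q.1‖ ^ 2 - ‖q.2‖ ^ 2)) ≤
      C * ENNReal.ofReal ((1 - l ^ 2 - l' ^ 2) ^ (-(3 / 2) : ℝ)) := by
  refine ⟨ENNReal.ofReal (Real.pi * Real.Gamma (3 / 2)) *
    ENNReal.ofReal (Real.pi * Real.Gamma (3 / 2)), ?_, ?_⟩
  · exact ENNReal.mul_lt_top ENNReal.ofReal_lt_top ENNReal.ofReal_lt_top
  intro l l' hl
  have hb : 0 < 1 - l' ^ 2 := by nlinarith [sq_nonneg l]
  have hd : 0 < 1 - l ^ 2 - l' ^ 2 := by linarith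
  set m : ℝ := l * l' / (1 - l' ^ 2) with hm
  set a : ℝ := (1 - l ^ 2 - l' ^ 2) / (1 - l' ^ 2) with ha
  have ha0 : 0 < a := div_pos hd hb
  have hab : (1 - l ^ 2 - l' ^ 2) = a * (1 - l' ^ 2) := by
    rw [ha]
    field_simp
  have hmeas : Measurable fun q : ℂ × ℂ => ENNReal.ofReal (|(conj q.1 * q.2).im| *
      Real.exp (‖(l : ℂ) * q.1 + l' * q.2‖ ^ 2 - ‖q.1‖ ^ 2 - ‖q.2‖ ^ 2)) := by
    apply Measurable.ennreal_ofReal
    apply Continuous.measurable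
    fun_prop
  rw [Measure.volume_eq_prod, lintegral_prod _ hmeas.aemeasurable]
  calc ∫⁻ b : ℂ, ∫⁻ c : ℂ, ENNReal.ofReal (|(conj b * c).im| *
        Real.exp (‖(l : ℂ) * b + l' * c‖ ^ 2 - ‖b‖ ^ 2 - ‖c‖ ^ 2))
      = ∫⁻ b : ℂ, ∫⁻ c : ℂ, ENNReal.ofReal (|(conj b * (c + (m : ℂ) * b)).im| *
        Real.exp (‖(l : ℂ) * b + l' * (c + (m : ℂ) * b)‖ ^ 2 - ‖b‖ ^ 2 -
          ‖c + (m : ℂ) * b‖ ^ 2)) := by
        apply lintegral_congr
        intro b
        exact (lintegral_add_right_eq_self (fun c : ℂ => ENNReal.ofReal (|(conj b * c).im| *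
          Real.exp (‖(l : ℂ) * b + l' * c‖ ^ 2 - ‖b‖ ^ 2 - ‖c‖ ^ 2))) ((m : ℂ) * b)).symm
    _ ≤ ∫⁻ b : ℂ, ∫⁻ c : ℂ, ENNReal.ofReal (‖b‖ * Real.exp (-a * ‖b‖ ^ 2)) *
          ENNReal.ofReal (‖c‖ * Real.exp (-(1 - l' ^ 2) * ‖c‖ ^ 2)) := by
        apply lintegral_mono
        intro b
        apply lintegral_mono
        intro c
        dsimp only
        rw [← ENNReal.ofReal_mul (by positivity)]
        apply ENNReal.ofReal_le_ofReal
        rw [im_shear, hm, square_id hb, Real.exp_add, ← ha]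
        have h1 : |(conj b * c).im| ≤ ‖b‖ * ‖c‖ := by
          calc |(conj b * c).im| ≤ ‖conj b * c‖ := Complex.abs_im_le_norm _
            _ = ‖b‖ * ‖c‖ := by rw [norm_mul, Complex.norm_conj]
        calc |(conj b * c).im| * (Real.exp (-a * ‖b‖ ^ 2) * Real.exp (-(1 - l' ^ 2) * ‖c‖ ^ 2))
            ≤ (‖b‖ * ‖c‖) * (Real.exp (-a * ‖b‖ ^ 2) * Real.exp (-(1 - l' ^ 2) * ‖c‖ ^ 2)) := by
              apply mul_le_mul_of_nonneg_right h1
              positivity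
          _ = _ := by ring
    _ = ∫⁻ b : ℂ, ENNReal.ofReal (‖b‖ * Real.exp (-a * ‖b‖ ^ 2)) *
          ∫⁻ c : ℂ, ENNReal.ofReal (‖c‖ * Real.exp (-(1 - l' ^ 2) * ‖c‖ ^ 2)) := by
        apply lintegral_congr
        intro b
        apply lintegral_const_mul
        apply Measurable.ennreal_ofReal
        apply Continuous.measurable
        fun_prop
    _ = (∫⁻ b : ℂ, ENNReal.ofReal (‖b‖ * Real.exp (-a * ‖b‖ ^ 2))) *
          ∫⁻ c : ℂ, ENNReal.ofReal (‖c‖ * Real.exp (-(1 - l' ^ 2) * ‖c‖ ^ 2)) := by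
        apply lintegral_mul_const
        apply Measurable.ennreal_ofReal
        apply Continuous.measurable
        fun_prop
    _ = ENNReal.ofReal (Real.pi * Real.Gamma (3 / 2)) *
          ENNReal.ofReal (Real.pi * Real.Gamma (3 / 2)) *
            ENNReal.ofReal ((1 - l ^ 2 - l' ^ 2) ^ (-(3 / 2) : ℝ)) := by
        rw [J_value ha0, J_value hb, hab, Real.mul_rpow ha0.le hb.le,
          ENNReal.ofReal_mul (Real.rpow_nonneg ha0.le _)]
        ring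
    _ ≤ _ := le_refl _

end Pool.Agent.Helper71.KH
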