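import Pool.Agent.Helper71.KH.Kdef

/-!
# Project KH, piece RTE: a finite integral over the triangle

PROOF. On the part `q.2 ≤ q.1`: `q.2 ≤ 1/2`, `q.2² ≤ q.2 (1 - q.1) ≤ (1 - q.1) / 2`,
`1 - q.1² - q.2² ≥ (1 - q.1)(1 + q.1) - (1 - q.1)/2 ≥ (1 - q.1)/2`; the integral over this part is at most
`∫ l in 0..1, (1 - l) * (2 / (1 - l)) ^ (3/2) = 2 ^ (3/2) ∫ (1 - l) ^ (-1/2) < ∞` (Tonelli, the section at `l` is in
`[0, 1 - l]`).  The other part is symmetric (`Prod.swap` preserves the measure).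
-/

set_option autoImplicit false

open MeasureTheory
open scoped Matrix ComplexConjugate ENNReal

namespace Pool.Agent.Helper71.KH

variable {n : ℕ}

private def rteS : Set (ℝ × ℝ) := {q | 0 ≤ q.1 ∧ q.1 ≤ 1 ∧ 0 ≤ q.2 ∧ q.2 ≤ 1 - q.1}

private theorem rteS_meas : MeasurableSet rteS := by
  unfold rteS
  exact ((measurableSet_le measurable_const measurable_fst).inter
    ((measurableSet_le measurable_fst measurable_const).inter
    ((measurableSet_le measurable_const measurable_snd).inter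
    (measurableSet_le measurable_snd (measurable_const.sub measurable_fst)))))

private noncomputable def rteG (a : ℝ) : ℝ≥0∞ :=
  ENNReal.ofReal ((2 : ℝ) ^ (3 / 2 : ℝ) * (1 - a) ^ (-(3 / 2) : ℝ))

private theorem rteG_meas : Measurable rteG := by
  unfold rteG
  fun_prop

private theorem rte_int :
    ∫⁻ q : ℝ × ℝ, rteS.indicator (fun q => rteG q.1) q < ∞ := by
  have hm : Measurable (rteS.indicator (fun q : ℝ × ℝ => rteG q.1)) :=
    (rteG_meas.comp measurable_fst).indicator rteS_meas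
  rw [Measure.volume_eq_prod, lintegral_prod _ hm.aemeasurable]
  have hin : ∀ x : ℝ, ∫⁻ y : ℝ, rteS.indicator (fun q : ℝ × ℝ => rteG q.1) (x, y) =
      (Set.Icc (0 : ℝ) 1).indicator (fun x => rteG x * volume (Set.Icc (0 : ℝ) (1 - x))) x := by
    intro x
    by_cases hx : x ∈ Set.Icc (0 : ℝ) 1
    · rw [Set.indicator_of_mem hx]
      have h1 : (fun y : ℝ => rteS.indicator (fun q : ℝ × ℝ => rteG q.1) (x, y)) =
          (Set.Icc (0 : ℝ) (1 - x)).indicator (fun _ => rteG x) := by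
        funext y
        by_cases hy : y ∈ Set.Icc (0 : ℝ) (1 - x)
        · rw [Set.indicator_of_mem hy, Set.indicator_of_mem (show (x, y) ∈ rteS from
            ⟨hx.1, hx.2, hy.1, hy.2⟩)]
        · rw [Set.indicator_of_notMem hy, Set.indicator_of_notMem (show (x, y) ∉ rteS from
            fun h => hy ⟨h.2.2.1, h.2.2.2⟩)]
      rw [h1, lintegral_indicator measurableSet_Icc, setLIntegral_const]
    · rw [Set.indicator_of_notMem hx]
      have h1 : (fun y : ℝ => rteS.indicator (fun q : ℝ × ℝ => rteG q.1) (x, y)) = fun _ => 0 := by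
        funext y
        rw [Set.indicator_of_notMem (show (x, y) ∉ rteS from fun h => hx ⟨h.1, h.2.1⟩)]
      rw [h1, lintegral_zero]
  simp_rw [hin]
  rw [lintegral_indicator measurableSet_Icc]
  have hii : IntegrableOn (fun x : ℝ => (2 : ℝ) ^ (3 / 2 : ℝ) * (1 - x) ^ (-(1 / 2) : ℝ))
      (Set.Icc (0 : ℝ) 1) := by
    have h1 : IntervalIntegrable (fun x : ℝ => x ^ (-(1 / 2) : ℝ)) volume 1 0 :=
      intervalIntegral.intervalIntegrable_rpow' (by norm_num)
    have h2 := (h1.comp_sub_left 1).const_mul ((2 : ℝ) ^ (3 / 2 : ℝ))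
    rw [sub_self, sub_zero] at h2
    exact (intervalIntegrable_iff_integrableOn_Icc_of_le (by norm_num)).mp h2
  refine lt_of_le_of_lt ?_ hii.lintegral_lt_top
  apply setLIntegral_mono' measurableSet_Icc
  intro x hx
  rw [Real.volume_Icc, sub_zero]
  unfold rteG
  have h0 : (0 : ℝ) ≤ 1 - x := by linarith [hx.2]
  rw [← ENNReal.ofReal_mul (by positivity)]
  apply ENNReal.ofReal_le_ofReal
  rw [mul_assoc]
  refine mul_le_mul_of_nonneg_left ?_ (by positivity)
  rcases h0.eq_or_lt with h | h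
  · rw [← h]
    simp
  · rw [← Real.rpow_add_one h.ne']
    norm_num

private theorem rte_point (a b : ℝ) (ha : 0 ≤ a) (hb : 0 ≤ b) (hab : a + b ≤ 1) (hba : b ≤ a) :
    ENNReal.ofReal ((1 - a ^ 2 - b ^ 2) ^ (-(3 / 2) : ℝ)) ≤
      rteS.indicator (fun q : ℝ × ℝ => rteG q.1) (a, b) := by
  rw [Set.indicator_of_mem (show (a, b) ∈ rteS from ⟨ha, by linarith, hb, by linarith⟩)]
  unfold rteG
  apply ENNReal.ofReal_le_ofReal
  have h1 : (1 - a) / 2 ≤ 1 - a ^ 2 - b ^ 2 := by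
    have h2 : b * b ≤ b * (1 - a) := mul_le_mul_of_nonneg_left (by linarith) hb
    have h3 : b * (1 - a) ≤ 1 / 2 * (1 - a) := mul_le_mul_of_nonneg_right (by linarith) (by linarith)
    nlinarith
  rcases (show (0 : ℝ) ≤ 1 - a by linarith).eq_or_lt with h | h
  · have ha1 : a = 1 := by linarith
    have hb0 : b = 0 := by linarith
    rw [ha1, hb0]
    have h4 : (1 : ℝ) - 1 ^ 2 - 0 ^ 2 = 0 := by norm_num
    rw [h4, Real.zero_rpow (by norm_num)]
    positivity
  · have h5 : (0 : ℝ) < (1 - a) / 2 := by linarith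
    calc (1 - a ^ 2 - b ^ 2) ^ (-(3 / 2) : ℝ) ≤ ((1 - a) / 2) ^ (-(3 / 2) : ℝ) :=
          Real.rpow_le_rpow_of_nonpos h5 h1 (by norm_num)
      _ = (2 : ℝ) ^ (3 / 2 : ℝ) * (1 - a) ^ (-(3 / 2) : ℝ) := by
          rw [Real.div_rpow h.le (by norm_num), Real.rpow_neg (by norm_num : (0 : ℝ) ≤ 2),
            div_inv_eq_mul, mul_comm]

theorem tri_finite :
    ∫⁻ q in {q : ℝ × ℝ | 0 ≤ q.1 ∧ 0 ≤ q.2 ∧ q.1 + q.2 ≤ 1},
      ENNReal.ofReal ((1 - q.1 ^ 2 - q.2 ^ 2) ^ (-(3 / 2) : ℝ)) < ∞ := by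
  have hT : MeasurableSet {q : ℝ × ℝ | 0 ≤ q.1 ∧ 0 ≤ q.2 ∧ q.1 + q.2 ≤ 1} :=
    (measurableSet_le measurable_const measurable_fst).inter
    ((measurableSet_le measurable_const measurable_snd).inter
    (measurableSet_le (measurable_fst.add measurable_snd) measurable_const))
  rw [← lintegral_indicator hT]
  have hm : Measurable (rteS.indicator (fun q : ℝ × ℝ => rteG q.1)) :=
    (rteG_meas.comp measurable_fst).indicator rteS_meas
  have hle : ∀ q : ℝ × ℝ, ({q : ℝ × ℝ | 0 ≤ q.1 ∧ 0 ≤ q.2 ∧ q.1 + q.2 ≤ 1}.indicator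
      (fun q => ENNReal.ofReal ((1 - q.1 ^ 2 - q.2 ^ 2) ^ (-(3 / 2) : ℝ))) q) ≤
      rteS.indicator (fun q : ℝ × ℝ => rteG q.1) q +
      rteS.indicator (fun q : ℝ × ℝ => rteG q.1) q.swap := by
    rintro ⟨a, b⟩
    by_cases hq : (a, b) ∈ {q : ℝ × ℝ | 0 ≤ q.1 ∧ 0 ≤ q.2 ∧ q.1 + q.2 ≤ 1}
    · rw [Set.indicator_of_mem hq]
      obtain ⟨h1, h2, h3⟩ := hq
      simp only at h1 h2 h3
      rcases le_total b a with h | h
      · exact (rte_point a b h1 h2 h3 h).trans le_self_add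
      · have h4 := rte_point b a h2 h1 (by linarith) h
        have h5 : (1 : ℝ) - a ^ 2 - b ^ 2 = 1 - b ^ 2 - a ^ 2 := by ring
        simp only
        rw [h5]
        exact h4.trans le_add_self
    · rw [Set.indicator_of_notMem hq]
      exact zero_le
  refine (lintegral_mono hle).trans_lt ?_
  rw [lintegral_add_left hm]
  refine ENNReal.add_lt_top.mpr ⟨rte_int, ?_⟩
  rw [Measure.volume_eq_prod, lintegral_prod_swap (μ := volume) (ν := volume)
    (rteS.indicator (fun q : ℝ × ℝ => rteG q.1)), ← Measure.volume_eq_prod]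
  exact rte_int

end Pool.Agent.Helper71.KH
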