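import Pool.Agent.Helper71.KH.RTa
import Pool.Agent.Helper71.KH.RTb
import Pool.Agent.Helper71.KH.RTc
import Pool.Agent.Helper71.KH.RTe
import Pool.Agent.Helper71.KH.Red
import Pool.Agent.Helper71.KH.Iso

/-!
# Project KH, piece RTD: real right triangles

PROOFS. `DE_finite`: Tonelli: the left side is
`∫⁻ (b, c), exp (-‖b‖² - ‖c‖²) ∫⁻ a in .., exp ‖a‖²` (the indicator of the closed set `DE` is measurable),
then `DE_inner`, exchange the integrals (`lintegral_lintegral_swap`), `outer` for `q ∈ Tri` with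
`q.1² + q.2² < 1` (almost all `q` in `Tri`: the others are `(1, 0)`, `(0, 1)`), `tri_finite`.
`real_good`: `x, y` as in `kv_real`, `z = e0`.  By `kv_abs_le` and `kv_real`
`|W h x y z| ≤ 2 * exp (-(hf h h).re) * 1_DE (h 0, h 1, h 2)`, `hf_self_re`; integrate with `red3`.  So
`W` is integrable (`W_meas`) with `L¹` norm at most
`C = 2 π ^ m * (the number of DE_finite)`, independent of `s, t`.  Value: `al_real`, and
`∫ W h x y z = ∫ W (cj h) x y z` (`cj_mp`) `= ∫ W (cj h) (cj x) (cj y) (cj z) = -∫ W h x y z`, because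
`cj x = x` etc. (real coordinates), `W_cj_ae`; `Ng x`: `hf x x = -1 + s ^ 2 < 0`.
-/

set_option autoImplicit false

open MeasureTheory
open scoped Matrix ComplexConjugate ENNReal

namespace Pool.Agent.Helper71.KH

private noncomputable def rtdF (p : ℂ × ℂ × ℂ) : ℝ≥0∞ :=
  DE.indicator (fun p : ℂ × ℂ × ℂ =>
      ENNReal.ofReal (Real.exp (‖p.1‖ ^ 2 - ‖p.2.1‖ ^ 2 - ‖p.2.2‖ ^ 2))) p

private theorem rtdF_meas : Measurable rtdF := by
  unfold rtdF
  exact Measurable.indicator (by fun_prop) isClosed_DE.measurableSet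

private noncomputable def rtdG (q : ℂ × ℂ) (t : ℝ × ℝ) : ℝ≥0∞ :=
  ENNReal.ofReal (|(conj q.1 * q.2).im| *
    Real.exp (‖(t.1 : ℂ) * q.1 + t.2 * q.2‖ ^ 2 - ‖q.1‖ ^ 2 - ‖q.2‖ ^ 2))

private theorem rtdG_meas : Measurable (Function.uncurry rtdG) := by
  unfold rtdG Function.uncurry
  apply Measurable.ennreal_ofReal
  apply Continuous.measurable
  fun_prop

private theorem rtd_sec (q : ℂ × ℂ) : ∫⁻ a : ℂ, rtdF (a, q) ≤ ∫⁻ t in Tri, rtdG q t := by
  obtain ⟨b, c⟩ := q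
  have hsec : MeasurableSet {a : ℂ | (a, b, c) ∈ DE} :=
    isClosed_DE.measurableSet.preimage (measurable_id.prodMk measurable_const)
  have h1 : ∀ a : ℂ, rtdF (a, b, c) = ENNReal.ofReal (Real.exp (-‖b‖ ^ 2 - ‖c‖ ^ 2)) *
      {a : ℂ | (a, b, c) ∈ DE}.indicator (fun a => ENNReal.ofReal (Real.exp (‖a‖ ^ 2))) a := by
    intro a
    unfold rtdF
    by_cases ha : (a, b, c) ∈ DE
    · rw [Set.indicator_of_mem ha, Set.indicator_of_mem (show a ∈ {a : ℂ | (a, b, c) ∈ DE} from ha),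
        ← ENNReal.ofReal_mul (Real.exp_pos _).le, ← Real.exp_add]
      congr 2
      ring
    · rw [Set.indicator_of_notMem ha,
        Set.indicator_of_notMem (show a ∉ {a : ℂ | (a, b, c) ∈ DE} from ha), mul_zero]
  rw [lintegral_congr h1, lintegral_const_mul' _ _ ENNReal.ofReal_ne_top,
    lintegral_indicator hsec]
  refine (mul_le_mul_right (DE_inner b c) _).trans ?_
  rw [← lintegral_const_mul' _ _ ENNReal.ofReal_ne_top]
  refine lintegral_mono fun t => ?_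
  unfold rtdG
  dsimp only
  rw [← ENNReal.ofReal_mul (Real.exp_pos _).le]
  apply ENNReal.ofReal_le_ofReal
  apply le_of_eq
  rw [mul_left_comm, ← Real.exp_add]
  congr 2
  ring

private theorem rtd_ae : ∀ᵐ t : ℝ × ℝ ∂(volume.restrict Tri), t.1 ^ 2 + t.2 ^ 2 < 1 := by
  have hTm : MeasurableSet Tri :=
    (measurableSet_le measurable_const measurable_fst).inter
    ((measurableSet_le measurable_const measurable_snd).inter
    (measurableSet_le (measurable_fst.add measurable_snd) measurable_const))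
  rw [ae_restrict_iff' hTm]
  have n1 : ∀ᵐ t : ℝ × ℝ, t ≠ (1, 0) := compl_mem_ae_iff.2 (measure_singleton _)
  have n2 : ∀ᵐ t : ℝ × ℝ, t ≠ (0, 1) := compl_mem_ae_iff.2 (measure_singleton _)
  filter_upwards [n1, n2] with t h1 h2 ht
  obtain ⟨a, b⟩ := t
  obtain ⟨h3, h4, h5⟩ := ht
  simp only at h3 h4 h5 ⊢
  by_contra hcon
  have h6 : a ^ 2 + b ^ 2 + 2 * (a * b) ≤ 1 := by nlinarith
  have hab : 0 ≤ a * b := mul_nonneg h3 h4
  have h7 : a * b = 0 := by nlinarith [not_lt.1 hcon]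
  rcases mul_eq_zero.1 h7 with h8 | h8
  · apply h2
    have h9 : b = 1 := by nlinarith [not_lt.1 hcon]
    rw [h8, h9]
  · apply h1
    have h9 : a = 1 := by nlinarith [not_lt.1 hcon]
    rw [h8, h9]

private theorem rtd_fin : ∫⁻ a : ℂ, ∫⁻ b : ℂ, ∫⁻ c : ℂ, rtdF (a, b, c) < ∞ := by
  obtain ⟨C, hC, hout⟩ := outer
  have e1 : ∀ a : ℂ, ∫⁻ b : ℂ, ∫⁻ c : ℂ, rtdF (a, b, c) = ∫⁻ q : ℂ × ℂ, rtdF (a, q) := by
    intro a
    have hm : Measurable fun q : ℂ × ℂ => rtdF (a, q) := rtdF_meas.comp measurable_prodMk_left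
    rw [Measure.volume_eq_prod, lintegral_prod _ hm.aemeasurable]
  rw [lintegral_congr e1]
  have hsw : ∫⁻ a : ℂ, ∫⁻ q : ℂ × ℂ, rtdF (a, q) = ∫⁻ q : ℂ × ℂ, ∫⁻ a : ℂ, rtdF (a, q) :=
    lintegral_lintegral_swap (f := fun (a : ℂ) (q : ℂ × ℂ) => rtdF (a, q)) rtdF_meas.aemeasurable
  rw [hsw]
  refine (lintegral_mono rtd_sec).trans_lt ?_
  rw [lintegral_lintegral_swap rtdG_meas.aemeasurable]
  have h2 : ∫⁻ t in Tri, ∫⁻ q : ℂ × ℂ, rtdG q t ≤
      ∫⁻ t in Tri, C * ENNReal.ofReal ((1 - t.1 ^ 2 - t.2 ^ 2) ^ (-(3 / 2) : ℝ)) := by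
    refine lintegral_mono_ae ?_
    filter_upwards [rtd_ae] with t ht
    exact hout t.1 t.2 ht
  refine h2.trans_lt ?_
  rw [lintegral_const_mul' _ _ hC.ne]
  exact ENNReal.mul_lt_top hC tri_finite

theorem DE_finite :
    ∫⁻ a : ℂ, ∫⁻ b : ℂ, ∫⁻ c : ℂ, DE.indicator (fun p : ℂ × ℂ × ℂ =>
      ENNReal.ofReal (Real.exp (‖p.1‖ ^ 2 - ‖p.2.1‖ ^ 2 - ‖p.2.2‖ ^ 2))) (a, b, c) < ∞ :=
  rtd_fin

theorem ng_e0_e1 (m : ℕ) {c : ℂ} (hc : ‖c‖ < 1) : Ng (e0 (m + 1) + c • e1 m) := by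
  have h1 : (e0 (m + 1) + c • e1 m : V (m + 1)) 0 = 1 := by
    rw [Pi.add_apply, Pi.smul_apply, e0_zero]
    have : e1 m 0 = 0 :=
      Pi.single_eq_of_ne (M := fun _ : Fin (m + 1 + 1) => ℂ)
        (Fin.succ_ne_zero (0 : Fin (m + 1))).symm 1
    rw [this]
    simp
  have h2 : (e0 (m + 1) + c • e1 m : V (m + 1)) 1 = c := by
    rw [Pi.add_apply, Pi.smul_apply]
    have h0 : e0 (m + 1) 1 = 0 := e0_succ (m + 1) 0
    have : e1 m 1 = 1 := Pi.single_eq_same (M := fun _ : Fin (m + 1 + 1) => ℂ) 1 1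
    rw [this, h0]
    simp
  unfold Ng
  rw [hf_add_left, hf_smul_left, hf_e0, hf_e1, h1, h2, map_one, Complex.mul_conj,
    Complex.normSq_eq_norm_sq, Complex.add_re, Complex.neg_re, Complex.one_re, Complex.ofReal_re]
  have := norm_nonneg c
  nlinarith

theorem ng_e0_e2 (m : ℕ) {c : ℂ} (hc : ‖c‖ < 1) : Ng (e0 (m + 2) + c • e2 m) := by
  have h1 : (e0 (m + 2) + c • e2 m : V (m + 2)) 0 = 1 := by
    rw [Pi.add_apply, Pi.smul_apply, e0_zero]
    have : e2 m 0 = 0 :=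
      Pi.single_eq_of_ne (M := fun _ : Fin (m + 2 + 1) => ℂ)
        (Fin.succ_ne_zero (1 : Fin (m + 2))).symm 1
    rw [this]
    simp
  have h2 : (e0 (m + 2) + c • e2 m : V (m + 2)) 2 = c := by
    rw [Pi.add_apply, Pi.smul_apply]
    have h0 : e0 (m + 2) 2 = 0 := e0_succ (m + 2) 1
    have : e2 m 2 = 1 := Pi.single_eq_same (M := fun _ : Fin (m + 2 + 1) => ℂ) 2 1
    rw [this, h0]
    simp
  unfold Ng
  rw [hf_add_left, hf_smul_left, hf_e0, hf_e2, h1, h2, map_one, Complex.mul_conj,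
    Complex.normSq_eq_norm_sq, Complex.add_re, Complex.neg_re, Complex.one_re, Complex.ofReal_re]
  have := norm_nonneg c
  nlinarith

private theorem rtd_cj_single {n : ℕ} (j : Fin (n + 1)) :
    cj (Pi.single j 1 : V n) = (Pi.single j 1 : V n) := by
  funext i
  unfold cj
  by_cases h : i = j
  · subst h
    rw [Pi.single_eq_same, map_one]
  · rw [Pi.single_eq_of_ne h, map_zero]

private theorem rtd_cj_add_smul {n : ℕ} {u v : V n} (hu : cj u = u) (hv : cj v = v) (s : ℝ) :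
    cj (u + (s : ℂ) • v) = u + (s : ℂ) • v := by
  funext i
  have h1 := congrFun hu i
  have h2 := congrFun hv i
  unfold cj at h1 h2 ⊢
  rw [Pi.add_apply, Pi.smul_apply, smul_eq_mul, map_add, map_mul, Complex.conj_ofReal, h1, h2]

private noncomputable def rtd_cjE {n : ℕ} : V n ≃ᵐ V n where
  toFun := cj
  invFun := cj
  left_inv := cj_cj
  right_inv := cj_cj
  measurable_toFun := cj_mp.measurable
  measurable_invFun := cj_mp.measurable

private theorem rtd_pt (m : ℕ) {s t : ℝ} (hs : 0 ≤ s) (hs' : s < 1) (ht : 0 ≤ t) (ht' : t < 1)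
    (h : V (m + 2)) :
    ENNReal.ofReal |W h (e0 (m + 2) + (s : ℂ) • e1 (m + 1)) (e0 (m + 2) + (t : ℂ) • e2 m)
      (e0 (m + 2))| ≤ 2 * (rtdF (h 0, h 1, h 2) *
        ENNReal.ofReal (Real.exp (-∑ i : Fin m, ‖h i.succ.succ.succ‖ ^ 2))) := by
  by_cases hk : kv h (e0 (m + 2) + (s : ℂ) • e1 (m + 1)) (e0 (m + 2) + (t : ℂ) • e2 m)
      (e0 (m + 2)) = 0
  · unfold W
    rw [hk, mul_zero, abs_zero, ENNReal.ofReal_zero]
    exact zero_le
  · obtain ⟨l, l', h1, h2, h3, h4⟩ := kv_real m hs hs'.le ht ht'.le h hk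
    have hD : (h 0, h 1, h 2) ∈ DE := ⟨l, l', h1, h2, h3, h4⟩
    unfold rtdF
    rw [Set.indicator_of_mem hD, ← ENNReal.ofReal_mul (Real.exp_pos _).le,
      show (2 : ℝ≥0∞) = ENNReal.ofReal 2 by norm_num, ← ENNReal.ofReal_mul (by norm_num),
      ← Real.exp_add]
    apply ENNReal.ofReal_le_ofReal
    have hre : -(hf h h).re = ‖h 0‖ ^ 2 - ‖h 1‖ ^ 2 - ‖h 2‖ ^ 2 +
        -∑ i : Fin m, ‖h i.succ.succ.succ‖ ^ 2 := by
      rw [hf_self_re, Fin.sum_univ_succ, Fin.sum_univ_succ]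
      have e1 : h (Fin.succ (0 : Fin (m + 2))) = h 1 := rfl
      have e2 : h (Fin.succ (Fin.succ (0 : Fin (m + 1)))) = h 2 := rfl
      rw [e1, e2]
      ring
    unfold W
    rw [abs_mul, abs_of_pos (Real.exp_pos _), hre, mul_comm]
    exact mul_le_mul_of_nonneg_right (kv_abs_le _ _ _ _) (Real.exp_pos _).le

theorem real_good (m : ℕ) : ∃ C : ℝ, 0 ≤ C ∧ ∀ s t : ℝ, 0 ≤ s → s < 1 → 0 ≤ t → t < 1 →
    Good C (e0 (m + 2) + (s : ℂ) • e1 (m + 1)) (e0 (m + 2) + (t : ℂ) • e2 m) (e0 (m + 2)) := by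
  set D : ℝ≥0∞ := 2 * (ENNReal.ofReal (Real.pi ^ m) *
    ∫⁻ a : ℂ, ∫⁻ b : ℂ, ∫⁻ c : ℂ, rtdF (a, b, c)) with hDdef
  have hD : D < ∞ := by
    rw [hDdef]
    exact ENNReal.mul_lt_top (by norm_num) (ENNReal.mul_lt_top ENNReal.ofReal_lt_top rtd_fin)
  refine ⟨D.toReal, ENNReal.toReal_nonneg, fun s t hs hs' ht ht' => ?_⟩
  set x : V (m + 2) := e0 (m + 2) + (s : ℂ) • e1 (m + 1) with hx
  set y : V (m + 2) := e0 (m + 2) + (t : ℂ) • e2 m with hy
  have hle : ∫⁻ h : V (m + 2), ENNReal.ofReal |W h x y (e0 (m + 2))| ≤ D := by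
    refine (lintegral_mono (rtd_pt m hs hs' ht ht')).trans (le_of_eq ?_)
    rw [lintegral_const_mul' _ _ (by norm_num), hDdef]
    congr 1
    exact red3 m (fun a b c => rtdF (a, b, c)) rtdF_meas
  have hmeas := (W_meas x y (e0 (m + 2))).aestronglyMeasurable (μ := (volume : Measure (V (m + 2))))
  have hint : Integrable fun h : V (m + 2) => W h x y (e0 (m + 2)) := by
    refine ⟨hmeas, ?_⟩
    rw [hasFiniteIntegral_iff_norm]
    exact hle.trans_lt hD
  refine ⟨hint, ?_, ?_⟩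
  · rw [integral_eq_lintegral_of_nonneg_ae (Filter.Eventually.of_forall fun h => abs_nonneg _)
      hint.abs.aestronglyMeasurable]
    exact ENNReal.toReal_mono hD.ne hle
  · have hnx : Ng x := by
      have := ng_e0_e1 (m + 1) (c := (s : ℂ)) (by
        rw [Complex.norm_real, Real.norm_of_nonneg hs]
        exact hs')
      exact this
    have hny : Ng y := ng_e0_e2 m (by
      rw [Complex.norm_real, Real.norm_of_nonneg ht]
      exact ht')
    have hnz : Ng (e0 (m + 2)) := by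
      apply ng_of_eq
      rw [hf_e0, e0_zero, map_one]
    have cx : cj x = x := rtd_cj_add_smul (rtd_cj_single 0) (rtd_cj_single 1) s
    have cy : cj y = y := rtd_cj_add_smul (rtd_cj_single 0) (rtd_cj_single 2) t
    have cz : cj (e0 (m + 2)) = e0 (m + 2) := rtd_cj_single 0
    rw [hx, hy, al_real, mul_zero, ← hx, ← hy]
    have h1 : ∫ h : V (m + 2), W (cj h) x y (e0 (m + 2)) = ∫ h : V (m + 2), W h x y (e0 (m + 2)) :=
      cj_mp.integral_comp (rtd_cjE (n := m + 2)).measurableEmbedding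
        (fun h => W h x y (e0 (m + 2)))
    have h2 : ∫ h : V (m + 2), W (cj h) x y (e0 (m + 2)) =
        ∫ h : V (m + 2), -W h x y (e0 (m + 2)) := by
      refine integral_congr_ae ?_
      filter_upwards [W_cj_ae hnx hny hnz] with h hh
      rw [cx, cy, cz] at hh
      exact hh
    rw [integral_neg, h1] at h2
    linarith

end Pool.Agent.Helper71.KH
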