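import Pool.Agent.Helper71.KH.CTc
import Pool.Agent.Helper71.KH.Iso
import Pool.Agent.Helper71.KH.RTd
import Pool.Agent.Helper71.KH.Nf

/-!
# Project KH, piece GNA: right triangles in a complex line, all signs, all positions

PROOFS. `kv_col`: three points `f0 + a • f1`, `f0 + b • f1`, `f0` with real `a, b`.  By `nf` (`k = 1`) and
invariance (`kv (g h) (g x) (g y) (g z) = kv h x y z`, `iso_mp`) or directly: with `A = hf f0 h`,
`B = hf f1 h`, the numbers `hf x h = A + a B`, `hf y h = A + b B`, `hf z h = A` are on a real line of `ℂ`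
not through `0` if `(A conj B).im ≠ 0`, in an open half plane, and `hf x y = -(1 - a b)`, etc. are
negative real; so the three arguments cancel (`arg_tri`) and `al x y z = 0`.  `(A conj B).im ≠ 0` for almost
all `h` (as in `tt_slit_ae`: line argument in the direction of `f0`, or `tt_slit_ae` itself for
two negative vectors of the line).
`cpx_all`: `s, t > 0` is `cpx_pos`.  `(-s, -t)`: apply `good_iso` with the isometry changing the sign of the
coordinate `1` (`e1 ↦ -e1`).  `(s, -t)`: `good_cj`, `cj` fixes `e0, e1` and conjugates the coefficient.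
`(-s, t)`: both.  `s = 0`: `kv h e0 y e0 = 0` for almost all `h` (`2 π kv = arg (tt y e0 h) + arg (tt e0 y h)`,
the two numbers are conjugate, and in the slit plane almost always) and `al = 0` (`al_self_mid`);
`t = 0`: `kv_same_right`, `al_self_right`; `good_of_ae_zero`, `good_mono`.
`cpx_vec`: `nf` with `k = 1` and `good_iso`.  `real_vec`: `nf` with `k = 2`, `real_good`, `good_iso`.
-/

set_option autoImplicit false

open MeasureTheory
open scoped Matrix ComplexConjugate

namespace Pool.Agent.Helper71.KH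

variable {n : ℕ}

/-- The form on the plane spanned by a negative and a positive unit vector. -/
private theorem hf_comb {f0 f1 : V n} (h0 : hf f0 f0 = -1) (h1 : hf f1 f1 = 1) (h2 : hf f1 f0 = 0)
    (a b : ℂ) : hf (f0 + a • f1) (f0 + b • f1) = -1 + a * conj b := by
  have h3 : hf f0 f1 = 0 := by rw [← hf_conj, h2, map_zero]
  rw [hf_add_left, hf_add_right, hf_add_right, hf_smul_left, hf_smul_left, hf_smul_right,
    hf_smul_right, h0, h1, h2, h3]
  ring

private theorem ng_comb {f0 f1 : V n} (h0 : hf f0 f0 = -1) (h1 : hf f1 f1 = 1) (h2 : hf f1 f0 = 0)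
    {a : ℂ} (ha : ‖a‖ < 1) : Ng (f0 + a • f1) := by
  unfold Ng
  rw [hf_comb h0 h1 h2, Complex.mul_conj, Complex.normSq_eq_norm_sq]
  have : ‖a‖ ^ 2 < 1 := by nlinarith [norm_nonneg a]
  rw [Complex.add_re, Complex.ofReal_re, Complex.neg_re, Complex.one_re]
  linarith

private theorem arg_real_slit {z : ℂ} (h : z ∈ Complex.slitPlane) (hz : z.im = 0) :
    Complex.arg z = 0 := by
  rcases Complex.mem_slitPlane_iff.1 h with h | h
  · exact Complex.arg_eq_zero_iff.2 ⟨h.le, hz⟩
  · exact absurd hz h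

theorem kv_col {f0 f1 : V n} (h0 : hf f0 f0 = -1) (h1 : hf f1 f1 = 1) (h2 : hf f1 f0 = 0)
    {a b : ℝ} (ha : |a| < 1) (hb : |b| < 1) :
    Good 0 (f0 + (a : ℂ) • f1) (f0 + (b : ℂ) • f1) f0 := by
  have hna : ‖(a : ℂ)‖ < 1 := by rwa [Complex.norm_real, Real.norm_eq_abs]
  have hnb : ‖(b : ℂ)‖ < 1 := by rwa [Complex.norm_real, Real.norm_eq_abs]
  have hab : 0 < 1 - a * b := by
    have h3 : |a * b| < 1 := by
      rw [abs_mul]
      nlinarith [abs_nonneg a, abs_nonneg b]
    have := (abs_lt.1 h3).2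
    linarith
  have hx : Ng (f0 + (a : ℂ) • f1) := ng_comb h0 h1 h2 hna
  have hy : Ng (f0 + (b : ℂ) • f1) := ng_comb h0 h1 h2 hnb
  have hz : Ng f0 := ng_of_eq h0
  have exy : hf (f0 + (a : ℂ) • f1) (f0 + (b : ℂ) • f1) = ((-(1 - a * b) : ℝ) : ℂ) := by
    rw [hf_comb h0 h1 h2, Complex.conj_ofReal]
    push_cast
    ring
  have exz : hf (f0 + (a : ℂ) • f1) f0 = -1 := by
    have := hf_comb h0 h1 h2 (a : ℂ) 0
    simpa using this
  have eyz : hf (f0 + (b : ℂ) • f1) f0 = -1 := by
    have := hf_comb h0 h1 h2 (b : ℂ) 0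
    simpa using this
  have ezx : hf f0 (f0 + (a : ℂ) • f1) = -1 := by
    rw [← hf_conj, exz]; simp
  have hal : al (f0 + (a : ℂ) • f1) (f0 + (b : ℂ) • f1) f0 = 0 := by
    unfold al
    rw [exy, eyz, ezx]
    have : -(((-(1 - a * b) : ℝ) : ℂ) * -1 * -1) = ((1 - a * b : ℝ) : ℂ) := by
      push_cast; ring
    rw [this]
    exact Complex.arg_ofReal_of_nonneg hab.le
  refine good_of_ae_zero ?_ hal
  filter_upwards [tt_slit_ae hx hy, tt_slit_ae hy hz, tt_slit_ae hx hz] with h hxy hyz hxz
  set A : ℂ := hf f0 h with hA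
  set B : ℂ := hf f1 h with hB
  have ex : hf (f0 + (a : ℂ) • f1) h = A + a * B := by rw [hf_add_left, hf_smul_left]
  have ey : hf (f0 + (b : ℂ) • f1) h = A + b * B := by rw [hf_add_left, hf_smul_left]
  have ex' : hf h (f0 + (a : ℂ) • f1) = conj (A + a * B) := by rw [← ex, hf_conj]
  have ey' : hf h (f0 + (b : ℂ) • f1) = conj (A + b * B) := by rw [← ey, hf_conj]
  have txy : tt (f0 + (a : ℂ) • f1) (f0 + (b : ℂ) • f1) h =
      ((1 - a * b : ℝ) : ℂ) * ((A + b * B) * conj (A + a * B)) := by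
    unfold tt
    rw [exy, ey, ex']
    push_cast
    ring
  have tyz : tt (f0 + (b : ℂ) • f1) f0 h = A * conj (A + b * B) := by
    unfold tt
    rw [eyz, ey', ← hA]
    ring
  have txz : tt (f0 + (a : ℂ) • f1) f0 h = A * conj (A + a * B) := by
    unfold tt
    rw [exz, ex', ← hA]
    ring
  have key : Complex.arg (tt (f0 + (b : ℂ) • f1) f0 h) - Complex.arg (tt (f0 + (a : ℂ) • f1) f0 h)
      + Complex.arg (tt (f0 + (a : ℂ) • f1) (f0 + (b : ℂ) • f1) h) = 0 := by
    by_cases him : (A * conj B).im = 0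
    · have him' : A.im * B.re - A.re * B.im = 0 := by
        have := him
        simp only [Complex.mul_im, Complex.conj_re, Complex.conj_im] at this
        linarith
      rw [arg_real_slit hyz, arg_real_slit hxz, arg_real_slit hxy]
      · ring
      · rw [txy, Complex.im_ofReal_mul]
        have : ((A + b * B) * conj (A + a * B)).im = 0 := by
          simp only [Complex.mul_im, Complex.conj_re, Complex.conj_im, Complex.add_re,
            Complex.add_im, Complex.mul_re, Complex.ofReal_re, Complex.ofReal_im]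
          linear_combination (a - b) * him'
        rw [this, mul_zero]
      · rw [txz]
        simp only [Complex.mul_im, Complex.conj_re, Complex.conj_im, Complex.add_re,
          Complex.add_im, Complex.mul_re, Complex.ofReal_re, Complex.ofReal_im]
        linear_combination a * him'
      · rw [tyz]
        simp only [Complex.mul_im, Complex.conj_re, Complex.conj_im, Complex.add_re,
          Complex.add_im, Complex.mul_re, Complex.ofReal_re, Complex.ofReal_im]
        linear_combination b * him'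
    · set d : ℝ := (A * conj B).im with hd
      have hd' : d = A.im * B.re - A.re * B.im := by
        rw [hd]
        simp only [Complex.mul_im, Complex.conj_re, Complex.conj_im]
        ring
      have hpos : 0 < d ^ 2 := by positivity
      have hu : ∀ r : ℝ, 0 < ((A + r * B) * conj ((d : ℂ) * Complex.I * B)).re := by
        intro r
        have : ((A + r * B) * conj ((d : ℂ) * Complex.I * B)).re = d ^ 2 := by
          simp only [Complex.mul_re, Complex.mul_im, Complex.conj_re, Complex.conj_im,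
            Complex.add_re, Complex.add_im, Complex.ofReal_re, Complex.ofReal_im, Complex.I_re,
            Complex.I_im]
          linear_combination (-d) * hd'
        rw [this]
        exact hpos
      have hA' : 0 < (A * conj ((d : ℂ) * Complex.I * B)).re := by
        simpa using hu 0
      have := arg_tri hA' (hu b) (hu a)
      rw [txy, Complex.arg_real_mul _ hab, tyz, txz]
      linarith
  unfold kv
  rw [key, hal]
  simp

private theorem hf_e0_e0 (m : ℕ) : hf (e0 (m + 1)) (e0 (m + 1)) = -1 := by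
  rw [hf_e0, e0_zero, map_one]

private theorem hf_e1_e1 (m : ℕ) : hf (e1 m) (e1 m) = 1 := by
  rw [hf_e1]
  simp [e1]

private theorem hf_e1_e0 (m : ℕ) : hf (e1 m) (e0 (m + 1)) = 0 := by
  rw [hf_e1, show (1 : Fin (m + 1 + 1)) = (0 : Fin (m + 1)).succ from rfl, e0_succ, map_zero]

private theorem cj_add (x y : V n) : cj (x + y) = cj x + cj y := by
  funext i
  simp [cj]

private theorem cj_smul (a : ℂ) (x : V n) : cj (a • x) = conj a • cj x := by
  funext i
  simp [cj]

private theorem cj_e0 (n : ℕ) : cj (e0 n) = e0 n := by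
  funext i
  refine Fin.cases ?_ (fun j => ?_) i
  · simp [cj, e0_zero]
  · simp [cj, e0_succ]

private theorem cj_e1 (m : ℕ) : cj (e1 m) = e1 m := by
  funext i
  by_cases hi : i = 1
  · subst hi
    simp [cj, e1]
  · simp [cj, e1, hi]

/-- The case of a degenerate triangle. -/
private theorem cpx_zero_left (m : ℕ) {t : ℝ} (ht : |t| < 1) :
    Good 0 (e0 (m + 1)) (e0 (m + 1) + (t * Complex.I : ℂ) • e1 m) (e0 (m + 1)) := by
  have hnt : ‖(t * Complex.I : ℂ)‖ < 1 := by
    rwa [norm_mul, Complex.norm_I, mul_one, Complex.norm_real, Real.norm_eq_abs]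
  have hx : Ng (e0 (m + 1)) := ng_of_eq (hf_e0_e0 m)
  have hy : Ng (e0 (m + 1) + (t * Complex.I : ℂ) • e1 m) := ng_e0_e1 m hnt
  refine good_of_ae_zero ?_ (al_self_mid hx _)
  filter_upwards [tt_slit_ae hx hy] with h hxy
  set x := e0 (m + 1)
  set y := e0 (m + 1) + (t * Complex.I : ℂ) • e1 m
  have h1 : tt y x h = conj (tt x y h) := by
    unfold tt
    rw [map_neg, map_mul, map_mul, hf_conj, hf_conj, hf_conj]
    ring
  have h2 : Complex.arg (tt y x h) = -Complex.arg (tt x y h) := by
    rw [h1, Complex.arg_conj, if_neg (Complex.slitPlane_arg_ne_pi hxy)]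
  have h3 : Complex.arg (tt x x h) = 0 := by
    have : tt x x h = ((‖hf x h‖ ^ 2 : ℝ) : ℂ) := by
      unfold tt
      rw [show hf x x = -1 from hf_e0_e0 m, ← hf_conj x h, Complex.mul_conj,
        Complex.normSq_eq_norm_sq]
      push_cast
      ring
    rw [this]
    exact Complex.arg_ofReal_of_nonneg (by positivity)
  unfold kv
  rw [h2, h3, al_self_mid hx]
  simp

private theorem cpx_zero_right (m : ℕ) (s : ℝ) :
    Good 0 (e0 (m + 1) + (s : ℂ) • e1 m) (e0 (m + 1)) (e0 (m + 1)) := by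
  have hx : Ng (e0 (m + 1)) := ng_of_eq (hf_e0_e0 m)
  refine good_of_ae_zero (Filter.Eventually.of_forall fun h => ?_) (al_self_right _ hx)
  have := kv_same_right (e0 (m + 1) + (s : ℂ) • e1 m) hx (one_ne_zero (α := ℂ)) h
  rwa [one_smul] at this

/-- The reflection changing the sign of the second basis vector. -/
private theorem cpx_flip (m : ℕ) {C : ℝ} {a b : ℂ}
    (H : Good C (e0 (m + 1) + a • e1 m) (e0 (m + 1) + b • e1 m) (e0 (m + 1))) :
    Good C (e0 (m + 1) + (-a) • e1 m) (e0 (m + 1) + (-b) • e1 m) (e0 (m + 1)) := by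
  obtain ⟨g, hg, hg0, hg1⟩ := nf (hf_e0_e0 m) (k := 1) (by omega) (fun _ => -e1 m)
    (fun i j => by
      rw [hf_neg_left, hf_neg_right, neg_neg, hf_e1_e1, if_pos (Subsingleton.elim i j)])
    (fun _ => by rw [hf_neg_left, hf_e1_e0, neg_zero])
  have e : g (e1 m) = -e1 m := hg1 0
  have := good_iso g hg H
  rwa [map_add, map_add, map_smul, map_smul, hg0, e, smul_neg, ← neg_smul, smul_neg,
    ← neg_smul] at this

private theorem cpx_conj (m : ℕ) {C : ℝ} {a b : ℂ} (ha : ‖a‖ < 1) (hb : ‖b‖ < 1)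
    (H : Good C (e0 (m + 1) + a • e1 m) (e0 (m + 1) + b • e1 m) (e0 (m + 1))) :
    Good C (e0 (m + 1) + conj a • e1 m) (e0 (m + 1) + conj b • e1 m) (e0 (m + 1)) := by
  have := good_cj (ng_e0_e1 m ha) (ng_e0_e1 m hb) (ng_of_eq (hf_e0_e0 m)) H
  rwa [cj_add, cj_add, cj_smul, cj_smul, cj_e0, cj_e1] at this

private theorem cpx_pos_conj (m : ℕ) {s t : ℝ} (hs : 0 < s) (hs' : s < 1) (ht : 0 < t)
    (ht' : t < 1) :
    Good (Real.pi ^ (m + 2)) (e0 (m + 1) + (s : ℂ) • e1 m)
      (e0 (m + 1) + (-(t * Complex.I) : ℂ) • e1 m) (e0 (m + 1)) := by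
  have h1 : ‖(s : ℂ)‖ < 1 := by
    rw [Complex.norm_real, Real.norm_eq_abs, abs_of_pos hs]; exact hs'
  have h2 : ‖(t * Complex.I : ℂ)‖ < 1 := by
    rw [norm_mul, Complex.norm_I, mul_one, Complex.norm_real, Real.norm_eq_abs, abs_of_pos ht]
    exact ht'
  have := cpx_conj m h1 h2 (cpx_pos m hs hs' ht ht')
  rwa [Complex.conj_ofReal, map_mul, Complex.conj_ofReal, Complex.conj_I, mul_neg] at this

theorem cpx_all (m : ℕ) {s t : ℝ} (hs : |s| < 1) (ht : |t| < 1) :
    Good (Real.pi ^ (m + 2)) (e0 (m + 1) + (s : ℂ) • e1 m)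
      (e0 (m + 1) + (t * Complex.I : ℂ) • e1 m) (e0 (m + 1)) := by
  have hpi : (0 : ℝ) ≤ Real.pi ^ (m + 2) := by positivity
  rcases lt_trichotomy s 0 with hs0 | hs0 | hs0
  · have hs1 : 0 < -s := by linarith
    have hs2 : -s < 1 := by linarith [(abs_lt.1 hs).1]
    rcases lt_trichotomy t 0 with ht0 | ht0 | ht0
    · have ht1 : 0 < -t := by linarith
      have ht2 : -t < 1 := by linarith [(abs_lt.1 ht).1]
      have := cpx_flip m (cpx_pos m hs1 hs2 ht1 ht2)
      rwa [Complex.ofReal_neg, Complex.ofReal_neg, neg_neg, neg_mul, neg_neg] at this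
    · subst ht0
      have := good_mono hpi (cpx_zero_right m s)
      rwa [Complex.ofReal_zero, zero_mul, zero_smul, add_zero]
    · have := cpx_flip m (cpx_pos_conj m hs1 hs2 ht0 (abs_lt.1 ht).2)
      rwa [Complex.ofReal_neg, neg_neg, neg_neg] at this
  · subst hs0
    have := good_mono hpi (cpx_zero_left m ht)
    rwa [Complex.ofReal_zero, zero_smul, add_zero]
  · have hs2 : s < 1 := (abs_lt.1 hs).2
    rcases lt_trichotomy t 0 with ht0 | ht0 | ht0
    · have ht1 : 0 < -t := by linarith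
      have ht2 : -t < 1 := by linarith [(abs_lt.1 ht).1]
      have := cpx_pos_conj m hs0 hs2 ht1 ht2
      rwa [Complex.ofReal_neg, neg_mul, neg_neg] at this
    · subst ht0
      have := good_mono hpi (cpx_zero_right m s)
      rwa [Complex.ofReal_zero, zero_mul, zero_smul, add_zero]
    · exact cpx_pos m hs0 hs2 ht0 (abs_lt.1 ht).2

theorem cpx_vec {m : ℕ} {f0 f1 : V (m + 1)} (h0 : hf f0 f0 = -1) (h1 : hf f1 f1 = 1)
    (h2 : hf f1 f0 = 0) {s t : ℝ} (hs : |s| < 1) (ht : |t| < 1) :
    Good (Real.pi ^ (m + 2)) (f0 + (s : ℂ) • f1) (f0 + (t * Complex.I : ℂ) • f1) f0 := by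
  obtain ⟨g, hg, hg0, hg1⟩ := nf h0 (k := 1) (by omega) (fun _ => f1)
    (fun i j => by rw [h1, if_pos (Subsingleton.elim i j)]) (fun _ => h2)
  have e : g (e1 m) = f1 := hg1 0
  have := good_iso g hg (cpx_all m hs ht)
  rwa [map_add, map_add, map_smul, map_smul, hg0, e] at this

theorem real_vec (m : ℕ) : ∃ C : ℝ, 0 ≤ C ∧ ∀ f0 f1 f2 : V (m + 2), hf f0 f0 = -1 →
    hf f1 f1 = 1 → hf f2 f2 = 1 → hf f1 f0 = 0 → hf f2 f0 = 0 → hf f1 f2 = 0 →
    ∀ s t : ℝ, 0 ≤ s → s < 1 → 0 ≤ t → t < 1 →
    Good C (f0 + (s : ℂ) • f1) (f0 + (t : ℂ) • f2) f0 := by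
  obtain ⟨C, hC, H⟩ := real_good m
  refine ⟨C, hC, ?_⟩
  intro f0 f1 f2 h0 h1 h2 h10 h20 h12 s t hs hs' ht ht'
  have h21 : hf f2 f1 = 0 := by rw [← hf_conj, h12, map_zero]
  obtain ⟨g, hg, hg0, hg1⟩ := nf h0 (k := 2) (by omega) ![f1, f2]
    (by
      intro i j
      fin_cases i <;> fin_cases j <;> simp [h1, h2, h12, h21])
    (by
      intro i
      fin_cases i <;> simp [h10, h20])
  have ea : g (e1 (m + 1)) = f1 := hg1 0
  have eb : g (e2 m) = f2 := hg1 1
  have := good_iso g hg (H s t hs hs' ht ht')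
  rwa [map_add, map_add, map_smul, map_smul, hg0, ea, eb] at this

end Pool.Agent.Helper71.KH
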