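import Pool.Agent.Helper71.KH.GenA

/-!
# Project KH, piece GNB: triangles in a complex line

PROOF. Let `F c = f0 + c • f1`, negative for `‖c‖ < 1`.  The triple is `(F 0, F b, F ζ)`, `b` real.
Foot: there is `q ∈ (-1, 1)` with `ζ.re (1 + q²) = q (1 + ‖ζ‖²)` (intermediate values: the difference is
`> 0` at `q = -1` and `< 0` at `q = 1`, since `2 |ζ.re| ≤ 2 ‖ζ‖ < 1 + ‖ζ‖²`).  Let
`g0 = (1 - q²)^(-1/2) • (f0 + q • f1)`, `g1 = (1 - q²)^(-1/2) • (q • f0 + f1)`; again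
`hf g0 g0 = -1`, `hf g1 g1 = 1`, `hf g1 g0 = 0`, and
`F c = √(1 - q²)⁻¹ (1 - q c) • (g0 + ((c - q) / (1 - q c)) • g1)`.  The number `ζ' = (ζ - q) / (1 - q ζ)` is purely
imaginary, `ζ' = i τ`, `|τ| < 1` (its real part is that of `(ζ - q) (1 - q conj ζ)`, which is
`ζ.re (1 + q²) - q (1 + ‖ζ‖²) = 0`); `(c - q) / (1 - q c)` is real and of absolute value `< 1` for real `c`.
So up to scaling (`good_smul`) with `w = g0 = F q`:
`(F b, F ζ, w)` and `(F 0, F ζ, w)` are `Good (π ^ (m + 2))` by `cpx_vec`, `(F 0, F b, w)` is `Good 0` by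
`kv_col`; `good_add` with `x = F 0`, `y = F b`, `z = F ζ` needs `Good` for `(y, z, w)`, `(x, z, w)`, `(x, y, w)`.
-/

set_option autoImplicit false

open MeasureTheory
open scoped Matrix ComplexConjugate

namespace Pool.Agent.Helper71.KH

variable {n : ℕ}

private theorem GNB_foot {ζ : ℂ} (hζ : ‖ζ‖ < 1) :
    ∃ q : ℝ, |q| < 1 ∧ ζ.re * (1 + q ^ 2) = q * (1 + ‖ζ‖ ^ 2) := by
  have h1 : |ζ.re| ≤ ‖ζ‖ := Complex.abs_re_le_norm ζ
  have h2 : 2 * ‖ζ‖ < 1 + ‖ζ‖ ^ 2 := by nlinarith [sq_pos_of_pos (sub_pos.2 hζ)]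
  have h3 := abs_le.1 h1
  let φ : ℝ → ℝ := fun q => ζ.re * (1 + q ^ 2) - q * (1 + ‖ζ‖ ^ 2)
  have hφ : ContinuousOn φ (Set.Icc (-1) 1) := by
    apply Continuous.continuousOn
    fun_prop
  have h4 : (0 : ℝ) ∈ Set.Icc (φ 1) (φ (-1)) := by
    constructor
    · change ζ.re * (1 + 1 ^ 2) - 1 * (1 + ‖ζ‖ ^ 2) ≤ 0
      linarith [h3.2]
    · change 0 ≤ ζ.re * (1 + (-1) ^ 2) - (-1) * (1 + ‖ζ‖ ^ 2)
      linarith [h3.1]
  obtain ⟨q, hq, hq0⟩ := intermediate_value_Icc' (by norm_num) hφ h4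
  have hq1 : ζ.re * (1 + q ^ 2) - q * (1 + ‖ζ‖ ^ 2) = 0 := hq0
  refine ⟨q, ?_, by linarith⟩
  rw [abs_lt]
  constructor
  · refine lt_of_le_of_ne hq.1 ?_
    rintro rfl
    linarith [h3.1]
  · refine lt_of_le_of_ne hq.2 ?_
    rintro rfl
    linarith [h3.2]

private theorem GNB_hf {f0 f1 : V n} (h0 : hf f0 f0 = -1) (h1 : hf f1 f1 = 1)
    (h2 : hf f1 f0 = 0) (a b c d : ℂ) :
    hf (a • f0 + b • f1) (c • f0 + d • f1) = -(a * conj c) + b * conj d := by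
  have h3 : hf f0 f1 = 0 := by rw [← hf_conj, h2, map_zero]
  rw [hf_add_left, hf_add_right, hf_add_right, hf_smul_left, hf_smul_left, hf_smul_left,
    hf_smul_left, hf_smul_right, hf_smul_right, hf_smul_right, hf_smul_right, h0, h1, h2, h3]
  ring

private theorem GNB_ng {f0 f1 : V n} (h0 : hf f0 f0 = -1) (h1 : hf f1 f1 = 1)
    (h2 : hf f1 f0 = 0) {c : ℂ} (hc : ‖c‖ < 1) : Ng (f0 + c • f1) := by
  have h3 := GNB_hf h0 h1 h2 1 c 1 c
  rw [one_smul] at h3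
  unfold Ng
  rw [h3, map_one, mul_one, Complex.mul_conj, Complex.add_re, Complex.neg_re, Complex.one_re,
    Complex.ofReal_re, Complex.normSq_eq_norm_sq]
  nlinarith [norm_nonneg c]

theorem line_good {m : ℕ} {f0 f1 : V (m + 1)} (h0 : hf f0 f0 = -1) (h1 : hf f1 f1 = 1)
    (h2 : hf f1 f0 = 0) {b : ℝ} (hb : |b| < 1) {ζ : ℂ} (hζ : ‖ζ‖ < 1) :
    Good (2 * Real.pi ^ (m + 2)) f0 (f0 + (b : ℂ) • f1) (f0 + ζ • f1) := by
  obtain ⟨q, hq, hqζ⟩ := GNB_foot hζ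
  have hq2 : 0 < 1 - q ^ 2 := by
    have := (sq_lt_one_iff_abs_lt_one q).2 hq
    linarith
  obtain ⟨k, hk⟩ : ∃ k : ℝ, k = (Real.sqrt (1 - q ^ 2))⁻¹ := ⟨_, rfl⟩
  have hk0 : k ≠ 0 := by
    rw [hk]
    exact inv_ne_zero (Real.sqrt_ne_zero'.2 hq2)
  have hkk : k * k * (1 - q ^ 2) = 1 := by
    rw [hk, ← mul_inv, Real.mul_self_sqrt hq2.le, inv_mul_cancel₀ hq2.ne']
  have hkkc : (k : ℂ) * k * (1 - (q : ℂ) ^ 2) = 1 := by
    exact_mod_cast hkk
  have hk0c : (k : ℂ) ≠ 0 := Complex.ofReal_ne_zero.2 hk0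
  obtain ⟨g0, hg0⟩ : ∃ g0 : V (m + 1), g0 = (k : ℂ) • f0 + ((k : ℂ) * q) • f1 := ⟨_, rfl⟩
  obtain ⟨g1, hg1⟩ : ∃ g1 : V (m + 1), g1 = ((k : ℂ) * q) • f0 + (k : ℂ) • f1 := ⟨_, rfl⟩
  have H0 : hf g0 g0 = -1 := by
    rw [hg0, GNB_hf h0 h1 h2, map_mul, Complex.conj_ofReal, Complex.conj_ofReal]
    linear_combination -hkkc
  have H1 : hf g1 g1 = 1 := by
    rw [hg1, GNB_hf h0 h1 h2, map_mul, Complex.conj_ofReal, Complex.conj_ofReal]
    linear_combination hkkc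
  have H2 : hf g1 g0 = 0 := by
    rw [hg0, hg1, GNB_hf h0 h1 h2, map_mul, Complex.conj_ofReal, Complex.conj_ofReal]
    ring
  -- the points of the line
  have hne : ∀ c : ℂ, ‖c‖ < 1 → 1 - q * c ≠ 0 := by
    intro c hc h
    have h3 : (q : ℂ) * c = 1 := (sub_eq_zero.1 h).symm
    have h4 : |q| * ‖c‖ = 1 := by
      have := congrArg norm h3
      rwa [norm_mul, Complex.norm_real, norm_one, Real.norm_eq_abs] at this
    nlinarith [norm_nonneg c, abs_nonneg q]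
  have hF : ∀ c : ℂ, ‖c‖ < 1 → f0 + c • f1 =
      ((k : ℂ) * (1 - q * c)) • (g0 + ((c - q) / (1 - q * c)) • g1) := by
    intro c hc
    have h3 := hne c hc
    have h4 : ((k : ℂ) * (1 - q * c)) • (g0 + ((c - q) / (1 - q * c)) • g1) =
        ((k : ℂ) * (1 - q * c)) • g0 + ((k : ℂ) * (c - q)) • g1 := by
      rw [smul_add, smul_smul]
      congr 2
      field_simp
    rw [h4, hg0, hg1]
    have h5 : ((k : ℂ) * (1 - q * c)) • ((k : ℂ) • f0 + ((k : ℂ) * q) • f1) +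
        ((k : ℂ) * (c - q)) • (((k : ℂ) * q) • f0 + (k : ℂ) • f1) =
        ((k : ℂ) * k * (1 - (q : ℂ) ^ 2)) • f0 + ((k : ℂ) * k * (1 - (q : ℂ) ^ 2) * c) • f1 := by
      module
    rw [h5, hkkc, one_smul, one_mul]
  have hlt : ∀ c : ℂ, ‖c‖ < 1 → ‖(c - q) / (1 - q * c)‖ < 1 := by
    intro c hc
    have h3 := hne c hc
    rw [norm_div, div_lt_one (norm_pos_iff.2 h3)]
    have h4 : ‖c - q‖ ^ 2 < ‖1 - q * c‖ ^ 2 := by
      rw [← Complex.normSq_eq_norm_sq, ← Complex.normSq_eq_norm_sq]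
      have h5 : Complex.normSq c < 1 := by
        rw [Complex.normSq_eq_norm_sq]
        nlinarith [norm_nonneg c]
      rw [Complex.normSq_apply] at h5
      simp only [Complex.normSq_apply, Complex.sub_re, Complex.sub_im, Complex.ofReal_re,
        Complex.ofReal_im, Complex.one_re, Complex.one_im, Complex.mul_re, Complex.mul_im]
      nlinarith [mul_pos hq2 (sub_pos.2 h5)]
    exact lt_of_pow_lt_pow_left₀ 2 (norm_nonneg _) h4
  have hb' : ‖(b : ℂ)‖ < 1 := by rwa [Complex.norm_real, Real.norm_eq_abs]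
  -- real coordinates of the first two points
  have e1 : f0 = (k : ℂ) • (g0 + ((-q : ℝ) : ℂ) • g1) := by
    have h3 := hF 0 (by rw [norm_zero]; norm_num)
    rw [zero_smul, add_zero, mul_zero, sub_zero, mul_one, div_one, zero_sub] at h3
    rw [Complex.ofReal_neg]
    exact h3
  have e2 : f0 + (b : ℂ) • f1 =
      ((k : ℂ) * (1 - q * b)) • (g0 + (((b - q) / (1 - q * b) : ℝ) : ℂ) • g1) := by
    have h3 := hF b hb'
    push_cast
    exact h3
  have hs : |(b - q) / (1 - q * b)| < 1 := by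
    have h3 := hlt b hb'
    have h4 : ((b : ℂ) - q) / (1 - q * b) = (((b - q) / (1 - q * b) : ℝ) : ℂ) := by
      push_cast
      rfl
    rw [h4, Complex.norm_real, Real.norm_eq_abs] at h3
    exact h3
  obtain ⟨τ, hτ⟩ : ∃ τ : ℝ, τ = ((ζ - q) / (1 - q * ζ)).im := ⟨_, rfl⟩
  have hτ1 : |τ| < 1 := by
    rw [hτ]
    exact (Complex.abs_im_le_norm _).trans_lt (hlt ζ hζ)
  have hτ2 : (ζ - q) / (1 - q * ζ) = (τ * Complex.I : ℂ) := by
    have h3 : ((ζ - q) / (1 - q * ζ)).re = 0 := by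
      rw [Complex.div_re, ← add_div, div_eq_zero_iff]
      left
      rw [← Complex.normSq_eq_norm_sq, Complex.normSq_apply] at hqζ
      simp only [Complex.sub_re, Complex.sub_im, Complex.ofReal_re,
        Complex.ofReal_im, Complex.one_re, Complex.one_im, Complex.mul_re, Complex.mul_im]
      linear_combination hqζ
    apply Complex.ext
    · rw [h3]
      simp
    · rw [← hτ]
      simp
  have e3 : f0 + ζ • f1 = ((k : ℂ) * (1 - q * ζ)) • (g0 + (τ * Complex.I : ℂ) • g1) := by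
    rw [← hτ2]
    exact hF ζ hζ
  have hn2 : (k : ℂ) * (1 - q * b) ≠ 0 := mul_ne_zero hk0c (hne b hb')
  have hn3 : (k : ℂ) * (1 - q * ζ) ≠ 0 := mul_ne_zero hk0c (hne ζ hζ)
  have hq' : |(-q)| < 1 := by rwa [abs_neg]
  have G1 : Good (Real.pi ^ (m + 2)) (f0 + (b : ℂ) • f1) (f0 + ζ • f1) g0 := by
    have h3 := good_smul hn2 hn3 one_ne_zero (cpx_vec H0 H1 H2 hs hτ1)
    rw [← e2, ← e3, one_smul] at h3
    exact h3
  have G2 : Good (Real.pi ^ (m + 2)) f0 (f0 + ζ • f1) g0 := by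
    have h3 := good_smul hk0c hn3 one_ne_zero (cpx_vec H0 H1 H2 hq' hτ1)
    rw [← e1, ← e3, one_smul] at h3
    exact h3
  have G3 : Good 0 f0 (f0 + (b : ℂ) • f1) g0 := by
    have h3 := good_smul hk0c hn2 one_ne_zero (kv_col H0 H1 H2 hq' hs)
    rw [← e1, ← e2, one_smul] at h3
    exact h3
  have h5 := good_add (ng_of_eq h0) (GNB_ng h0 h1 h2 hb') (GNB_ng h0 h1 h2 hζ) (ng_of_eq H0)
    G1 G2 G3
  have h6 : Real.pi ^ (m + 2) + Real.pi ^ (m + 2) + 0 = 2 * Real.pi ^ (m + 2) := by ring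
  rw [h6] at h5
  exact h5

end Pool.Agent.Helper71.KH
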