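import Pool.Agent.Helper71.KH.GenB

/-!
# Project KH, piece GNC: all triangles

PROOF. Let `x, y, z` be negative vectors; scale `x` so that `hf x x = -1` (`exists_unit`, `good_smul`; the
constant does not change).
(1) `y = a • x`: `kv_same_left`, `al_self_left`, `al_smul`: `Good 0`.
(2) Otherwise let `y' = y + hf y x • x`, `hf y' x = 0`, `y' ≠ 0`, so `hf y' y' > 0` (`psd`,
`psd_eq_zero`); `y = -hf y x • x + y'`, `hf y x ≠ 0` (`ng_hf_ne`), so up to a scalar `y` is
`x + b • f1` with `hf f1 f1 = 1`, `hf f1 x = 0`, `0 < b < 1` real (put the phase into `f1`).  In particular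
`n ≥ 1`, write `n = m + 1`.  Let `p = -hf z x • x + hf z f1 • f1` be the projection of `z`, `u = z - p`, so
`hf u x = hf u f1 = 0`.  `hf u u ≥ 0` and `hf p p = hf z z - hf u u < 0`; `hf z x ≠ 0`; up to a scalar
`p` is `x + ζ • f1`, `‖ζ‖ < 1`.  By `line_good` (with `f0 = x`) `(x, y, p)` is `Good (2 π ^ (m + 2))`.
(3) `(x, z, p)` and `(y, z, p)`: if `u = 0` then `z = p` and `kv_same_right`, `al_self_right` give `Good 0`.
If `u ≠ 0` then `hf u u > 0`; with `f0 = p` scaled to a unit vector, `f2 = u` scaled to a unit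
vector, and, `v` being `x` or `y`: `v + hf v f0 • f0` is `0` (then `v` is a multiple of `p`: use any unit
vector `f1` of the line orthogonal to `p`, and `s = 0`) or a multiple of a unit vector `f1` of the line
with `hf f1 f0 = 0`; up to scalars `v = f0 + s • f1`, `z = f0 + t • f2` with `0 ≤ s, t < 1` real (phases
put into `f1`, `f2`).  Here `hf f1 f2 = 0` because `f1` is in the span of `x, y`.  The vectors
`f0, f1, f2` are independent, so `n ≥ 2` (write `n = m + 2`; three orthonormal vectors), and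
`real_vec` applies.  (A unit vector of the line orthogonal to `f0 = α • x + β • f1`: the normalised
`conj β • x + conj α • f1`.)
(4) `good_add` with `w = p`.  For the constant take `2 π ^ (n + 1) + 2 C` with `C` of `real_vec`
(`C = 0` for `n = 1`); for `n = 0` all negative vectors are proportional.
-/

set_option autoImplicit false

open MeasureTheory
open scoped Matrix ComplexConjugate

namespace Pool.Agent.Helper71.KH

variable {n : ℕ}

private theorem gnc_unscale {C : ℝ} {a b c : ℂ} (ha : a ≠ 0) (hb : b ≠ 0) (hc : c ≠ 0)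
    {x y z : V n} (h : Good C (a • x) (b • y) (c • z)) : Good C x y z := by
  have h1 := good_smul (inv_ne_zero ha) (inv_ne_zero hb) (inv_ne_zero hc) h
  rwa [smul_smul, smul_smul, smul_smul, inv_mul_cancel₀ ha, inv_mul_cancel₀ hb,
    inv_mul_cancel₀ hc, one_smul, one_smul, one_smul] at h1

/-- Orthogonal families of non-isotropic vectors. -/
private theorem gnc_card {k : ℕ} (w : Fin k → V n) (h0 : ∀ i j, i ≠ j → hf (w i) (w j) = 0)
    (h1 : ∀ i, hf (w i) (w i) ≠ 0) : k ≤ n + 1 := by
  have hli : LinearIndependent ℂ w := by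
    rw [Fintype.linearIndependent_iff]
    intro g hg j
    have h2 : hf (∑ i, g i • w i) (w j) = 0 := by rw [hg, hf_zero_left]
    rw [hf_sum_left, Finset.sum_eq_single j] at h2
    · rw [hf_smul_left] at h2
      exact (mul_eq_zero.1 h2).resolve_right (h1 j)
    · intro i _ hij
      rw [hf_smul_left, h0 i j hij, mul_zero]
    · intro h
      exact absurd (Finset.mem_univ _) h
  have h2 := hli.fintype_card_le_finrank
  rwa [Fintype.card_fin, Module.finrank_fin_fun] at h2

private theorem gnc_swap {x y : V n} (h : hf x y = 0) : hf y x = 0 := by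
  rw [← hf_conj, h, map_zero]

/-- Position of a negative vector relative to a negative unit vector. -/
private theorem gnc_dec {p y : V n} (hp : hf p p = -1) (hy : Ng y) :
    ∃ α : ℂ, α ≠ 0 ∧ (y = α • p ∨ ∃ (f : V n) (c : ℂ) (s : ℝ), 0 ≤ s ∧ s < 1 ∧
      hf f f = 1 ∧ hf f p = 0 ∧ f = c • (y + hf y p • p) ∧ y = α • (p + (s : ℂ) • f)) := by
  set k : ℂ := hf y p with hk
  have hk0 : k ≠ 0 := ng_hf_ne hy (ng_of_eq hp)
  have hkn : 0 < ‖k‖ := norm_pos_iff.2 hk0
  refine ⟨-k, neg_ne_zero.2 hk0, ?_⟩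
  set y' : V n := y + k • p with hy'
  have h1 : hf y' p = 0 := by
    rw [hy', hf_add_left, hf_smul_left, hp, ← hk]
    ring
  have h1' : hf p y' = 0 := gnc_swap h1
  by_cases h0 : y' = 0
  · left
    rw [hy'] at h0
    rw [neg_smul]
    exact eq_neg_of_add_eq_zero_left h0
  · right
    set r : ℝ := (hf y' y').re with hr
    have hr0 : 0 < r := lt_of_le_of_ne (psd hp h1) fun h => h0 (psd_eq_zero hp h1 h.symm)
    have hrr : hf y' y' = (r : ℂ) := hf_self_eq y'
    have hyy : y = y' - k • p := by rw [hy']; abel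
    have h2 : hf y y = (r : ℂ) - ((‖k‖ ^ 2 : ℝ) : ℂ) := by
      have e1 : hf (y' - k • p) (y' - k • p) = (r : ℂ) - ((‖k‖ ^ 2 : ℝ) : ℂ) := by
        rw [hf_sub_left, hf_sub_right, hf_sub_right, hf_smul_left, hf_smul_left, hf_smul_right,
          hf_smul_right, h1, h1', hp, hrr]
        have e2 : k * conj k = ((‖k‖ ^ 2 : ℝ) : ℂ) := by
          rw [Complex.mul_conj, Complex.normSq_eq_norm_sq]
        rw [← e2]
        ring
      rw [← hyy] at e1
      exact e1
    have h3 : r < ‖k‖ ^ 2 := by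
      have e1 : (hf y y).re < 0 := hy
      rw [h2, ← Complex.ofReal_sub, Complex.ofReal_re] at e1
      linarith
    have hsr : 0 < Real.sqrt r := Real.sqrt_pos.2 hr0
    have hsr2 : Real.sqrt r * Real.sqrt r = r := Real.mul_self_sqrt hr0.le
    have hsc : (Real.sqrt r : ℂ) ≠ 0 := Complex.ofReal_ne_zero.2 hsr.ne'
    have hkc : (‖k‖ : ℂ) ≠ 0 := Complex.ofReal_ne_zero.2 hkn.ne'
    refine ⟨((‖k‖ : ℂ) / (-k * (Real.sqrt r : ℂ))) • y', (‖k‖ : ℂ) / (-k * (Real.sqrt r : ℂ)),
      Real.sqrt r / ‖k‖, by positivity, ?_, ?_, ?_, rfl, ?_⟩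
    · rw [div_lt_one hkn]
      exact (Real.sqrt_lt' hkn).2 h3
    · rw [hf_smul_left, hf_smul_right, ← mul_assoc, Complex.mul_conj, hrr,
        Complex.normSq_eq_norm_sq, norm_div, norm_mul, norm_neg, Complex.norm_real,
        Complex.norm_real, Real.norm_of_nonneg hkn.le, Real.norm_of_nonneg hsr.le,
        ← Complex.ofReal_mul]
      have e1 : (‖k‖ / (‖k‖ * Real.sqrt r)) ^ 2 * r = 1 := by
        rw [div_mul_cancel_left₀ hkn.ne', inv_pow, sq, hsr2]
        exact inv_mul_cancel₀ hr0.ne'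
      rw [e1, Complex.ofReal_one]
    · rw [hf_smul_left, h1, mul_zero]
    · rw [smul_add, smul_smul, smul_smul]
      have e1 : -k * ((Real.sqrt r / ‖k‖ : ℝ) : ℂ) * ((‖k‖ : ℂ) / (-k * (Real.sqrt r : ℂ))) =
          1 := by
        rw [Complex.ofReal_div]
        field_simp
      rw [e1, one_smul, hy', neg_smul]
      abel

theorem all_good (n : ℕ) : ∃ C : ℝ, 0 ≤ C ∧ ∀ x y z : V n, Ng x → Ng y → Ng z →
    Good C x y z := by
  -- the constants
  obtain ⟨C0, hC0, hC⟩ : ∃ C0 : ℝ, 0 ≤ C0 ∧ ∀ f0 f1 f2 : V n, hf f0 f0 = -1 →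
      hf f1 f1 = 1 → hf f2 f2 = 1 → hf f1 f0 = 0 → hf f2 f0 = 0 → hf f1 f2 = 0 →
      ∀ s t : ℝ, 0 ≤ s → s < 1 → 0 ≤ t → t < 1 →
      Good C0 (f0 + (s : ℂ) • f1) (f0 + (t : ℂ) • f2) f0 := by
    by_cases hn : 2 ≤ n
    · obtain ⟨m, rfl⟩ := Nat.exists_eq_add_of_le' hn
      exact real_vec m
    · refine ⟨0, le_rfl, fun f0 f1 f2 h0 h1 h2 h10 h20 h12 => ?_⟩
      exfalso
      have h3 := gnc_card (n := n) ![f0, f1, f2] (by
        intro i j hij
        fin_cases i <;> fin_cases j
        · exact absurd rfl hij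
        · exact gnc_swap h10
        · exact gnc_swap h20
        · exact h10
        · exact absurd rfl hij
        · exact h12
        · exact h20
        · exact gnc_swap h12
        · exact absurd rfl hij) (by
        intro i
        fin_cases i
        · show hf f0 f0 ≠ 0
          rw [h0]; norm_num
        · show hf f1 f1 ≠ 0
          rw [h1]; norm_num
        · show hf f2 f2 ≠ 0
          rw [h2]; norm_num)
      omega
  have hL : ∀ f0 f1 : V n, hf f0 f0 = -1 → hf f1 f1 = 1 → hf f1 f0 = 0 → ∀ b : ℝ, |b| < 1 →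
      ∀ ζ : ℂ, ‖ζ‖ < 1 →
      Good (2 * Real.pi ^ (n + 1)) f0 (f0 + (b : ℂ) • f1) (f0 + ζ • f1) := by
    intro f0 f1 h0 h1 h10 b hb ζ hζ
    by_cases hn : 1 ≤ n
    · obtain ⟨m, rfl⟩ := Nat.exists_eq_add_of_le' hn
      exact line_good h0 h1 h10 hb hζ
    · exfalso
      have h3 := gnc_card (n := n) ![f0, f1] (by
        intro i j hij
        fin_cases i <;> fin_cases j
        · exact absurd rfl hij
        · exact gnc_swap h10
        · exact h10
        · exact absurd rfl hij) (by
        intro i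
        fin_cases i
        · show hf f0 f0 ≠ 0
          rw [h0]; norm_num
        · show hf f1 f1 ≠ 0
          rw [h1]; norm_num)
      omega
  have hpi : 0 ≤ 2 * Real.pi ^ (n + 1) := by positivity
  -- triangles with one leg orthogonal to the line
  have hB : ∀ (p v z q u : V n) (β : ℂ), Ng p → Ng v → Ng z → β ≠ 0 → z = β • p + u →
      hf u p = 0 → hf v u = 0 → hf q q = 1 → hf q p = 0 → hf q u = 0 → Good C0 v z p := by
    intro p v z q u β hp hv hz hβ hzu hup hvu hqq hqp hqu
    obtain ⟨a, ha, hpa⟩ := exists_unit hp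
    set p1 : V n := a • p with hp1
    have hpp : p = a⁻¹ • p1 := by rw [hp1, smul_smul, inv_mul_cancel₀ ha, one_smul]
    have hai : a⁻¹ ≠ 0 := inv_ne_zero ha
    have hup1 : hf u p1 = 0 := by rw [hp1, hf_smul_right, hup, mul_zero]
    have hp1u : hf p1 u = 0 := gnc_swap hup1
    have hpu : hf p u = 0 := gnc_swap hup
    obtain ⟨α', hα', hz'⟩ := gnc_dec hpa hz
    rcases hz' with hz' | ⟨f2, c2, t, ht0, ht1, h22, h2p, hf2, hz'⟩
    · -- z is a multiple of p
      have e1 : z = (α' * a) • p := by rw [hz', hp1, smul_smul]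
      have e2 : α' * a ≠ 0 := mul_ne_zero hα' ha
      refine good_mono hC0 (good_of_ae_zero (Filter.Eventually.of_forall fun h => ?_) ?_)
      · rw [e1]
        exact kv_same_right v hp e2 h
      · have e3 := al_smul (one_ne_zero : (1 : ℂ) ≠ 0) e2 (one_ne_zero : (1 : ℂ) ≠ 0) v p p
        rw [one_smul, one_smul] at e3
        rw [e1, e3]
        exact al_self_right v hp
    · have hzp : ∀ f : V n, hf f p = 0 → hf f u = 0 → hf f f2 = 0 := by
        intro f hfp hfu
        have hfp1 : hf f p1 = 0 := by rw [hp1, hf_smul_right, hfp, mul_zero]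
        have hfz : hf f z = 0 := by
          rw [hzu, hf_add_right, hf_smul_right, hfp, hfu, mul_zero, add_zero]
        rw [hf2, hf_smul_right, hf_add_right, hf_smul_right, hfz, hfp1, mul_zero, add_zero,
          mul_zero]
      obtain ⟨α, hα, hv'⟩ := gnc_dec hpa hv
      have key : ∃ (f : V n) (s : ℝ), 0 ≤ s ∧ s < 1 ∧ hf f f = 1 ∧ hf f p1 = 0 ∧ hf f f2 = 0 ∧
          v = α • (p1 + (s : ℂ) • f) := by
        rcases hv' with hv' | ⟨f, c, s, hs0, hs1, hff, hfp, hfc, hv'⟩
        · refine ⟨q, 0, le_rfl, zero_lt_one, hqq, ?_, hzp q hqp hqu, ?_⟩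
          · rw [hp1, hf_smul_right, hqp, mul_zero]
          · rw [Complex.ofReal_zero, zero_smul, add_zero]
            exact hv'
        · refine ⟨f, s, hs0, hs1, hff, hfp, hzp f ?_ ?_, hv'⟩
          · rw [hpp, hf_smul_right, hfp, mul_zero]
          · rw [hfc, hf_smul_left, hf_add_left, hf_smul_left, hvu, hp1u, mul_zero, add_zero,
              mul_zero]
      obtain ⟨f, s, hs0, hs1, hff, hfp, hff2, hv''⟩ := key
      have h1 := hC p1 f f2 hpa hff h22 hfp h2p hff2 s t hs0 hs1 ht0 ht1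
      have h2 := good_smul hα hα' hai h1
      rwa [← hv'', ← hz', ← hpp] at h2
  refine ⟨2 * Real.pi ^ (n + 1) + 2 * C0, by positivity, ?_⟩
  -- reduction to a unit vector `x`
  suffices H : ∀ x y z : V n, hf x x = -1 → Ng y → Ng z →
      Good (2 * Real.pi ^ (n + 1) + 2 * C0) x y z by
    intro x y z hx hy hz
    obtain ⟨a, ha, hxa⟩ := exists_unit hx
    have h1 := H (a • x) y z hxa hy hz
    refine gnc_unscale ha (one_ne_zero : (1 : ℂ) ≠ 0) (one_ne_zero : (1 : ℂ) ≠ 0) ?_
    rwa [one_smul, one_smul]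
  intro x y z hx hy hz
  have hxN : Ng x := ng_of_eq hx
  obtain ⟨α, hα, hy'⟩ := gnc_dec hx hy
  rcases hy' with hy' | ⟨f1, c1, s, hs0, hs1, h11, h1x, -, hy'⟩
  · -- y is a multiple of x
    refine good_mono (by positivity)
      (good_of_ae_zero (Filter.Eventually.of_forall fun h => ?_) ?_)
    · rw [hy']
      exact kv_same_left hxN hα h z
    · have e3 := al_smul (one_ne_zero : (1 : ℂ) ≠ 0) hα (one_ne_zero : (1 : ℂ) ≠ 0) x x z
      rw [one_smul, one_smul] at e3
      rw [hy', e3]
      exact al_self_left hxN z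
  · set y1 : V n := x + (s : ℂ) • f1 with hy1
    have hx1 : hf x f1 = 0 := gnc_swap h1x
    have hy1N : Ng y1 := by
      have h1 := ng_smul hy (inv_ne_zero hα)
      rwa [hy', smul_smul, inv_mul_cancel₀ hα, one_smul] at h1
    have hsabs : |s| < 1 := by rwa [abs_of_nonneg hs0]
    -- the projection of z to the line
    set β : ℂ := -hf z x with hβ
    have hβ0 : β ≠ 0 := neg_ne_zero.2 (ng_hf_ne hz hxN)
    set ζ : ℂ := hf z f1 / β with hζ
    set p : V n := x + ζ • f1 with hp
    set u : V n := z - β • p with hu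
    have hzx : hf z x = -β := by rw [hβ, neg_neg]
    have hzf : hf z f1 = β * ζ := by rw [hζ, mul_div_cancel₀ _ hβ0]
    have hpx : hf p x = -1 := by rw [hp, hf_add_left, hf_smul_left, hx, h1x, mul_zero, add_zero]
    have hpf : hf p f1 = ζ := by rw [hp, hf_add_left, hf_smul_left, hx1, h11, mul_one, zero_add]
    have hux : hf u x = 0 := by
      rw [hu, hf_sub_left, hf_smul_left, hzx, hpx]
      ring
    have huf : hf u f1 = 0 := by
      rw [hu, hf_sub_left, hf_smul_left, hzf, hpf]
      ring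
    have hup : hf u p = 0 := by
      rw [hp, hf_add_right, hf_smul_right, hux, huf, mul_zero, add_zero]
    have hzu : z = β • p + u := by rw [hu]; abel
    have hpp : hf p p = ((‖ζ‖ ^ 2 - 1 : ℝ) : ℂ) := by
      have e1 : hf p p = hf p x + conj ζ * hf p f1 := by
        conv_lhs => rw [hp]
        rw [← hp, hf_add_right, hf_smul_right]
      rw [e1, hpx, hpf, mul_comm, Complex.mul_conj, Complex.normSq_eq_norm_sq]
      push_cast
      ring
    have hζ1 : ‖ζ‖ < 1 := by
      have e1 : hf z z = ((‖β‖ ^ 2 : ℝ) : ℂ) * hf p p + hf u u := by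
        rw [hzu, hf_add_left, hf_add_right, hf_add_right, hf_smul_left, hf_smul_left,
          hf_smul_right, hf_smul_right, hup, gnc_swap hup, mul_zero, mul_zero, add_zero, zero_add,
          ← mul_assoc, Complex.mul_conj, Complex.normSq_eq_norm_sq]
      have e2 : 0 ≤ (hf u u).re := psd hx hux
      have e3 : (hf z z).re < 0 := hz
      rw [e1, hpp, ← Complex.ofReal_mul, Complex.add_re, Complex.ofReal_re] at e3
      have e4 : 0 < ‖β‖ ^ 2 := by positivity
      have e5 : ‖β‖ ^ 2 * (‖ζ‖ ^ 2 - 1) < 0 := by linarith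
      have e6 : ‖ζ‖ ^ 2 - 1 < 0 := by
        by_contra h
        push Not at h
        have := mul_nonneg e4.le h
        linarith
      have e7 := norm_nonneg ζ
      nlinarith
    have hζ2 : 0 < 1 - ‖ζ‖ ^ 2 := by
      have e7 := norm_nonneg ζ
      nlinarith
    have hpN : Ng p := by
      unfold Ng
      rw [hpp, Complex.ofReal_re]
      linarith
    -- the unit vector of the line orthogonal to p
    set ρ : ℝ := Real.sqrt (1 - ‖ζ‖ ^ 2) with hρ
    have hρ0 : 0 < ρ := Real.sqrt_pos.2 hζ2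
    have hρ2 : ρ * ρ = 1 - ‖ζ‖ ^ 2 := Real.mul_self_sqrt hζ2.le
    set q0 : V n := conj ζ • x + f1 with hq0
    have hq0x : hf q0 x = -conj ζ := by
      rw [hq0, hf_add_left, hf_smul_left, hx, h1x]
      ring
    have hq0f : hf q0 f1 = 1 := by
      rw [hq0, hf_add_left, hf_smul_left, hx1, h11]
      ring
    have hq0p : hf q0 p = 0 := by
      rw [hp, hf_add_right, hf_smul_right, hq0x, hq0f]
      ring
    have hq0q : hf q0 q0 = ((ρ * ρ : ℝ) : ℂ) := by
      have e1 : hf q0 q0 = conj (conj ζ) * hf q0 x + hf q0 f1 := by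
        conv_lhs => rw [hq0]
        rw [← hq0, hf_add_right, hf_smul_right]
      rw [e1, hq0x, hq0f, Complex.conj_conj, hρ2, mul_neg, Complex.mul_conj,
        Complex.normSq_eq_norm_sq]
      push_cast
      ring
    have hq0u : hf q0 u = 0 := by
      rw [hq0, hf_add_left, hf_smul_left, gnc_swap hux, gnc_swap huf]
      ring
    have hρc : (ρ : ℂ) ≠ 0 := Complex.ofReal_ne_zero.2 hρ0.ne'
    have hqq : hf ((ρ : ℂ)⁻¹ • q0) ((ρ : ℂ)⁻¹ • q0) = 1 := by
      rw [hf_smul_left, hf_smul_right, hq0q, map_inv₀, Complex.conj_ofReal]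
      push_cast
      field_simp
    have hqp : hf ((ρ : ℂ)⁻¹ • q0) p = 0 := by rw [hf_smul_left, hq0p, mul_zero]
    have hqu : hf ((ρ : ℂ)⁻¹ • q0) u = 0 := by rw [hf_smul_left, hq0u, mul_zero]
    have hyu : hf y1 u = 0 := by
      rw [hy1, hf_add_left, hf_smul_left, gnc_swap hux, gnc_swap huf]
      ring
    have g1 := hB p y1 z _ u β hpN hy1N hz hβ0 hzu hup hyu hqq hqp hqu
    have g2 := hB p x z _ u β hpN hxN hz hβ0 hzu hup (gnc_swap hux) hqq hqp hqu
    have g3 := hL x f1 hx h11 h1x s hsabs ζ hζ1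
    have g4 := good_add hxN hy1N hz hpN g1 g2 g3
    have g5 : Good (2 * Real.pi ^ (n + 1) + 2 * C0) x y1 z := good_mono (by linarith) g4
    have g6 := good_smul (one_ne_zero : (1 : ℂ) ≠ 0) hα (one_ne_zero : (1 : ℂ) ≠ 0) g5
    rw [one_smul, one_smul, ← hy'] at g6
    exact g6

end Pool.Agent.Helper71.KH
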