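import Pool.Agent.Helper71.KH.Kdef

/-!
# Project KH, piece GRM: inequalities for the form of signature (n, 1)

PROOFS. `psd`: put `X = ‖x 0‖`, `Y = ‖y 0‖`, `A = ∑ ‖x i.succ‖ ^ 2 = X ^ 2 - 1`, `B = ∑ ‖y i.succ‖ ^ 2`
(`hf_self_re`). From `hf y x = 0`, `‖y 0‖ ‖x 0‖ ≤ ∑ ‖y i.succ‖ ‖x i.succ‖`, so `Y ^ 2 X ^ 2 ≤ A B`
(Cauchy-Schwarz, `Finset.sum_mul_sq_le_sq_mul_sq`) `= (X ^ 2 - 1) B`, and `X ^ 2 ≥ 1`.  So
`X ^ 2 (B - Y ^ 2) ≥ B ≥ 0`.  If `B = Y ^ 2` then `B = 0`, `Y = 0`, `y = 0`: this is `psd_eq_zero`.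
`cs`: for `y, z` in the complement of `x` the form is positive; the usual argument: if
`(hf z z).re = 0` then `z = 0`; otherwise apply `psd` to `y - (hf y z / hf z z) • z`.
`gram3`: `y' = y + hf y x • x`, `h' = h + hf h x • x` are in the complement of `x`,
`hf y' y' = ‖hf x y‖ ^ 2 - 1`, `hf h' h' = hf h h + ‖hf h x‖ ^ 2`,
`hf y' h' = hf y h + hf y x * hf x h`; apply `cs` and expand
(`‖u + v‖ ^ 2 = ‖u‖ ^ 2 + ‖v‖ ^ 2 + 2 (u conj v).re`, `conj (hf y x * hf x h) = hf x y * hf h x`).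
`one_le`: `psd` for `y' = y + hf y x • x`.  `re_pos`: `gram3` with `h = z`, and `one_le` three times.
`ng_hf_ne`: scale to unit vectors (`exists_unit`), `one_le`.
-/

set_option autoImplicit false

open MeasureTheory
open scoped Matrix ComplexConjugate

namespace Pool.Agent.Helper71.KH

variable {n : ℕ}

private theorem Gram_ineq {x y : V n} (hx : hf x x = -1) (h : hf y x = 0) :
    ∑ i : Fin n, ‖y i.succ‖ ^ 2 ≤ ‖x 0‖ ^ 2 * (hf y y).re ∧ 1 ≤ ‖x 0‖ ^ 2 := by
  have hxr : (hf x x).re = -1 := by rw [hx]; simp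
  rw [hf_self_re] at hxr
  rw [hf_self_re]
  set A := ∑ i : Fin n, ‖x i.succ‖ ^ 2 with hA
  set B := ∑ i : Fin n, ‖y i.succ‖ ^ 2 with hB
  have hA0 : 0 ≤ A := Finset.sum_nonneg fun i _ => sq_nonneg _
  have h1 : ‖y 0‖ * ‖x 0‖ ≤ ∑ i : Fin n, ‖y i.succ‖ * ‖x i.succ‖ := by
    have h2 : y 0 * conj (x 0) = ∑ i : Fin n, y i.succ * conj (x i.succ) := by
      unfold hf at h
      rw [neg_add_eq_zero] at h
      exact h
    calc ‖y 0‖ * ‖x 0‖ = ‖y 0 * conj (x 0)‖ := by rw [norm_mul, Complex.norm_conj]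
      _ = ‖∑ i : Fin n, y i.succ * conj (x i.succ)‖ := by rw [h2]
      _ ≤ ∑ i : Fin n, ‖y i.succ * conj (x i.succ)‖ := norm_sum_le _ _
      _ = ∑ i : Fin n, ‖y i.succ‖ * ‖x i.succ‖ := by
        refine Finset.sum_congr rfl fun i _ => ?_
        rw [norm_mul, Complex.norm_conj]
  have h3 : (∑ i : Fin n, ‖y i.succ‖ * ‖x i.succ‖) ^ 2 ≤ B * A :=
    Finset.sum_mul_sq_le_sq_mul_sq _ _ _
  have h4 : (‖y 0‖ * ‖x 0‖) ^ 2 ≤ B * A := by
    refine le_trans ?_ h3
    have h5 : 0 ≤ ‖y 0‖ * ‖x 0‖ := by positivity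
    gcongr
  have h6 : A = ‖x 0‖ ^ 2 - 1 := by linarith
  rw [h6, mul_pow] at h4
  constructor
  · nlinarith
  · linarith

/-- On the complement of a negative vector the form is positive. -/
theorem psd {x y : V n} (hx : hf x x = -1) (h : hf y x = 0) : 0 ≤ (hf y y).re := by
  obtain ⟨h1, h2⟩ := Gram_ineq hx h
  have hB : 0 ≤ ∑ i : Fin n, ‖y i.succ‖ ^ 2 := Finset.sum_nonneg fun i _ => sq_nonneg _
  by_contra hneg
  push Not at hneg
  have : ‖x 0‖ ^ 2 * (hf y y).re < 0 := mul_neg_of_pos_of_neg (by linarith) hneg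
  linarith

theorem psd_eq_zero {x y : V n} (hx : hf x x = -1) (h : hf y x = 0) (h0 : (hf y y).re = 0) :
    y = 0 := by
  obtain ⟨h1, _⟩ := Gram_ineq hx h
  rw [h0, mul_zero] at h1
  have hB : ∀ i ∈ Finset.univ, ‖y (Fin.succ i)‖ ^ 2 = 0 := by
    rw [← Finset.sum_eq_zero_iff_of_nonneg fun i _ => sq_nonneg _]
    exact le_antisymm h1 (Finset.sum_nonneg fun i _ => sq_nonneg _)
  have hB' : ∀ i : Fin n, y i.succ = 0 := fun i => by
    have := hB i (Finset.mem_univ _)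
    simpa using this
  rw [hf_self_re] at h0
  have h2 : ∑ i : Fin n, ‖y i.succ‖ ^ 2 = 0 := Finset.sum_eq_zero hB
  rw [h2, add_zero, neg_eq_zero] at h0
  have h3 : y 0 = 0 := by simpa using h0
  funext i
  refine Fin.cases ?_ (fun j => ?_) i
  · exact h3
  · exact hB' j

/-- The Cauchy-Schwarz inequality in the complement of a negative vector. -/
theorem cs {x y z : V n} (hx : hf x x = -1) (hy : hf y x = 0) (hz : hf z x = 0) :
    ‖hf y z‖ ^ 2 ≤ (hf y y).re * (hf z z).re := by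
  by_cases h0 : (hf z z).re = 0
  · have hz0 := psd_eq_zero hx hz h0
    rw [hz0, hf_zero_right, hf_zero_right]
    simp
  · have hzp : 0 < (hf z z).re := lt_of_le_of_ne (psd hx hz) (Ne.symm h0)
    set N : ℝ := (hf z z).re with hN
    have hNc : (N : ℂ) ≠ 0 := Complex.ofReal_ne_zero.mpr h0
    set c : ℂ := hf y z / N with hc
    have h1 : hf (y - c • z) x = 0 := by
      rw [hf_sub_left, hf_smul_left, hy, hz, mul_zero, sub_zero]
    have h2 := psd hx h1
    have h3 : hf (y - c • z) (y - c • z) = hf y y - ((‖hf y z‖ ^ 2 / N : ℝ) : ℂ) := by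
      rw [hf_sub_left, hf_sub_right, hf_sub_right, hf_smul_left, hf_smul_left, hf_smul_right,
        hf_smul_right, hf_self_eq z, ← hN]
      have e1 : conj c = hf z y / N := by
        rw [hc, map_div₀, Complex.conj_ofReal, hf_conj]
      have e2 : hf y z * hf z y = ((‖hf y z‖ ^ 2 : ℝ) : ℂ) := by
        rw [← hf_conj y z, Complex.mul_conj, Complex.normSq_eq_norm_sq]
      rw [e1, Complex.ofReal_div, ← e2, hc]
      field_simp
      ring
    rw [h3, Complex.sub_re, Complex.ofReal_re] at h2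
    have h4 : ‖hf y z‖ ^ 2 / N ≤ (hf y y).re := by linarith
    rwa [div_le_iff₀ hzp] at h4

private theorem Gram_orth {x : V n} (hx : hf x x = -1) (y : V n) :
    hf (y + hf y x • x) x = 0 := by
  rw [hf_add_left, hf_smul_left, hx]
  ring

private theorem Gram_pair {x : V n} (hx : hf x x = -1) (y h : V n) :
    hf (y + hf y x • x) (h + hf h x • x) = hf y h + hf y x * hf x h := by
  rw [hf_add_left, hf_add_right, hf_add_right, hf_smul_left, hf_smul_left, hf_smul_right,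
    hf_smul_right, hx, hf_conj]
  ring

private theorem Gram_self {x : V n} (hx : hf x x = -1) (y : V n) :
    (hf (y + hf y x • x) (y + hf y x • x)).re = (hf y y).re + ‖hf y x‖ ^ 2 := by
  rw [Gram_pair hx, Complex.add_re]
  congr 1
  rw [← hf_conj y x, Complex.mul_conj, Complex.normSq_eq_norm_sq, Complex.ofReal_re]

/-- The Gram determinant of two negative vectors and a third one is not positive. -/
theorem gram3 {x y : V n} (hx : hf x x = -1) (hy : hf y y = -1) (h : V n) :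
    2 * (hf x y * hf y h * hf h x).re ≤
      (hf h h).re * (‖hf x y‖ ^ 2 - 1) - ‖hf y h‖ ^ 2 - ‖hf h x‖ ^ 2 := by
  have h1 := cs hx (Gram_orth hx y) (Gram_orth hx h)
  rw [Gram_self hx, Gram_self hx, Gram_pair hx, hy, norm_hf_comm y x] at h1
  have h2 : ‖hf y h + hf y x * hf x h‖ ^ 2 = ‖hf y h‖ ^ 2 + ‖hf x y‖ ^ 2 * ‖hf h x‖ ^ 2 +
      2 * (hf x y * hf y h * hf h x).re := by
    rw [← Complex.normSq_eq_norm_sq, Complex.normSq_add, map_mul, map_mul, hf_conj, hf_conj,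
      Complex.normSq_eq_norm_sq, Complex.normSq_eq_norm_sq, Complex.normSq_eq_norm_sq,
      norm_hf_comm y x, norm_hf_comm x h]
    have e : hf y h * (hf x y * hf h x) = hf x y * hf y h * hf h x := by ring
    rw [e]
  rw [h2] at h1
  simp only [Complex.neg_re, Complex.one_re] at h1
  nlinarith

theorem one_le {x y : V n} (hx : hf x x = -1) (hy : hf y y = -1) : 1 ≤ ‖hf x y‖ := by
  have h1 := psd hx (Gram_orth hx y)
  rw [Gram_self hx, hy, norm_hf_comm y x] at h1
  simp only [Complex.neg_re, Complex.one_re] at h1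
  have h2 : 0 ≤ ‖hf x y‖ := norm_nonneg _
  nlinarith

theorem re_pos {x y z : V n} (hx : hf x x = -1) (hy : hf y y = -1) (hz : hf z z = -1) :
    1 ≤ (-(hf x y * hf y z * hf z x)).re := by
  have h1 := gram3 hx hy z
  have h2 := one_le hx hy
  have h3 := one_le hy hz
  have h4 := one_le hz hx
  rw [hz] at h1
  simp only [Complex.neg_re, Complex.one_re] at h1 ⊢
  nlinarith

theorem ng_hf_ne {x y : V n} (hx : Ng x) (hy : Ng y) : hf x y ≠ 0 := by
  obtain ⟨a, _, ha⟩ := exists_unit hx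
  obtain ⟨b, _, hb⟩ := exists_unit hy
  intro h0
  have h1 := one_le ha hb
  rw [hf_smul_left, hf_smul_right, h0, mul_zero, mul_zero, norm_zero] at h1
  linarith

end Pool.Agent.Helper71.KH
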