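import Pool.Agent.Helper71.KH.Defs

/-!
# Project KH: the Hermitian form, elementary rules
-/

set_option autoImplicit false

open scoped Matrix ComplexConjugate

namespace Pool.Agent.Helper71.KH

variable {n : ℕ}

theorem hf_add_left (x y z : V n) : hf (x + y) z = hf x z + hf y z := by
  unfold hf
  simp only [Pi.add_apply, add_mul, Finset.sum_add_distrib]
  ring

theorem hf_smul_left (c : ℂ) (x y : V n) : hf (c • x) y = c * hf x y := by
  unfold hf
  simp only [Pi.smul_apply, smul_eq_mul, mul_assoc, mul_add, Finset.mul_sum, mul_neg]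

theorem hf_conj (x y : V n) : conj (hf x y) = hf y x := by
  unfold hf
  rw [map_add, map_neg, map_mul, Complex.conj_conj, map_sum, mul_comm (y 0)]
  congr 1
  refine Finset.sum_congr rfl fun i _ => ?_
  rw [map_mul, Complex.conj_conj, mul_comm]

theorem hf_add_right (x y z : V n) : hf x (y + z) = hf x y + hf x z := by
  rw [← hf_conj, hf_add_left, map_add, hf_conj, hf_conj]

theorem hf_smul_right (c : ℂ) (x y : V n) : hf x (c • y) = conj c * hf x y := by
  rw [← hf_conj, hf_smul_left, map_mul, hf_conj]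

theorem hf_zero_left (y : V n) : hf 0 y = 0 := by
  rw [← zero_smul ℂ (0 : V n), hf_smul_left, zero_mul]

theorem hf_zero_right (y : V n) : hf y 0 = 0 := by
  rw [← hf_conj, hf_zero_left, map_zero]

theorem hf_neg_left (x y : V n) : hf (-x) y = -hf x y := by
  rw [← neg_one_smul ℂ x, hf_smul_left, neg_one_mul]

theorem hf_neg_right (x y : V n) : hf x (-y) = -hf x y := by
  rw [← hf_conj, hf_neg_left, map_neg, hf_conj]

theorem hf_sub_left (x y z : V n) : hf (x - y) z = hf x z - hf y z := by
  rw [sub_eq_add_neg, hf_add_left, hf_neg_left, sub_eq_add_neg]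

theorem hf_sub_right (x y z : V n) : hf x (y - z) = hf x y - hf x z := by
  rw [sub_eq_add_neg, hf_add_right, hf_neg_right, sub_eq_add_neg]

theorem hf_sum_left {ι : Type*} (s : Finset ι) (f : ι → V n) (y : V n) :
    hf (∑ i ∈ s, f i) y = ∑ i ∈ s, hf (f i) y := by
  classical
  induction s using Finset.induction_on with
  | empty => simp [hf_zero_left]
  | insert a s ha ih => rw [Finset.sum_insert ha, Finset.sum_insert ha, hf_add_left, ih]

theorem hf_sum_right {ι : Type*} (s : Finset ι) (f : ι → V n) (y : V n) :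
    hf y (∑ i ∈ s, f i) = ∑ i ∈ s, hf y (f i) := by
  rw [← hf_conj, hf_sum_left, map_sum]
  exact Finset.sum_congr rfl fun i _ => hf_conj _ _

theorem hf_self_im (x : V n) : (hf x x).im = 0 :=
  Complex.conj_eq_iff_im.1 (hf_conj x x)

theorem hf_self_eq (x : V n) : hf x x = ((hf x x).re : ℂ) :=
  (Complex.conj_eq_iff_re.1 (hf_conj x x)).symm

theorem hf_self_re (x : V n) : (hf x x).re = -‖x 0‖ ^ 2 + ∑ i : Fin n, ‖x i.succ‖ ^ 2 := by
  unfold hf
  rw [Complex.add_re, Complex.neg_re, Complex.re_sum]
  simp only [Complex.mul_conj, Complex.ofReal_re, Complex.normSq_eq_norm_sq]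

theorem norm_hf_comm (x y : V n) : ‖hf x y‖ = ‖hf y x‖ := by
  rw [← hf_conj, Complex.norm_conj]

theorem hf_pt (g : SU n) : hf (pt g) (pt g) = -1 := by
  unfold pt
  rw [g.2 (e0 n) (e0 n)]
  unfold hf e0
  simp

theorem pt_mul (g h : SU n) : pt (g * h) = g.1.1 *ᵥ pt h := by
  unfold pt
  rw [Matrix.mulVec_mulVec]
  rfl

theorem hf_mulVec (g : SU n) (x y : V n) : hf (g.1.1 *ᵥ x) (g.1.1 *ᵥ y) = hf x y := g.2 x y

theorem continuous_pt : Continuous (pt : SU n → V n) := by
  unfold pt
  refine Continuous.matrix_mulVec ?_ continuous_const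
  exact continuous_subtype_val.comp continuous_subtype_val

theorem continuous_hf : Continuous fun p : V n × V n => hf p.1 p.2 := by
  unfold hf
  fun_prop

end Pool.Agent.Helper71.KH
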