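import Pool.Agent.Helper71.KH.KvL

/-!
# Project KH, piece ISA: isometries

PROOFS. `iso_mp`: the real bilinear form `(hf x y).re` is non-degenerate and preserved by `g`, so the
determinant of `g` over `ℝ` is `±1` (with the matrix `A` of `g` over `ℂ` and
`J = diag (-1, 1, .., 1)`: `Aᴴ J A = J` gives `‖det A‖ = 1`, and `LinearMap.det_restrictScalars`,
`Algebra.norm_complex_apply`); then `MeasureTheory.Measure.map_linearMap_addHaar_eq_smul_addHaar`
(`g` restricted to `ℝ`).
`W_iso`: all values of `hf` are the same.
`good_iso`: `W (g h) (g x) (g y) (g z) = W h x y z`, then `iso_mp` (`g` is a homeomorphism, so a measurable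
embedding: `MeasurePreserving.integral_comp`, `MeasurePreserving.integrable_comp_emb`).
-/

set_option autoImplicit false

open MeasureTheory
open scoped Matrix ComplexConjugate

namespace Pool.Agent.Helper71.KH

variable {n : ℕ}

theorem W_iso (g : V n → V n) (hg : ∀ x y, hf (g x) (g y) = hf x y) (h x y z : V n) :
    W (g h) (g x) (g y) (g z) = W h x y z := by
  unfold W kv tt al
  simp only [hg]

/-- The diagonal entries of the form. -/
private noncomputable def IsoA_J (n : ℕ) : Fin (n + 1) → ℂ := Fin.cons (-1) fun _ => 1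

private theorem IsoA_hf (x y : V n) : hf x y = ∑ i, IsoA_J n i * (x i * conj (y i)) := by
  rw [Fin.sum_univ_succ]
  unfold hf IsoA_J
  simp

private theorem IsoA_det (g : V n ≃ₗ[ℂ] V n) (hg : ∀ x y, hf (g x) (g y) = hf x y) :
    Complex.normSq (LinearMap.det (g : V n →ₗ[ℂ] V n)) = 1 := by
  set A : Matrix (Fin (n + 1)) (Fin (n + 1)) ℂ := LinearMap.toMatrix' (g : V n →ₗ[ℂ] V n) with hA
  have hgA : ∀ x : V n, g x = A *ᵥ x := by
    intro x
    rw [hA, LinearMap.toMatrix'_mulVec]
    rfl
  have hM : Aᵀ * Matrix.diagonal (IsoA_J n) * A.map (starRingEnd ℂ) =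
      Matrix.diagonal (IsoA_J n) := by
    ext i j
    have h1 := hg (Pi.single i 1) (Pi.single j 1)
    rw [hgA, hgA, Matrix.mulVec_single_one, Matrix.mulVec_single_one, IsoA_hf, IsoA_hf] at h1
    rw [Matrix.mul_apply]
    have h2 : ∑ k, (Aᵀ * Matrix.diagonal (IsoA_J n)) i k * (A.map (starRingEnd ℂ)) k j =
        ∑ k, IsoA_J n k * (A.col i k * conj (A.col j k)) := by
      refine Finset.sum_congr rfl fun k _ => ?_
      rw [Matrix.mul_diagonal, Matrix.transpose_apply, Matrix.map_apply, Matrix.col_apply,
        Matrix.col_apply]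
      ring
    rw [h2, h1]
    rw [Matrix.diagonal_apply]
    split_ifs with hij
    · subst hij
      rw [Finset.sum_eq_single i]
      · simp
      · intro k _ hk
        rw [Pi.single_eq_of_ne hk]
        simp
      · intro h
        exact absurd (Finset.mem_univ _) h
    · apply Finset.sum_eq_zero
      intro k _
      rcases eq_or_ne k i with hk | hk
      · subst hk
        rw [Pi.single_eq_of_ne hij]
        simp
      · rw [Pi.single_eq_of_ne hk]
        simp
  have hdJ : (Matrix.diagonal (IsoA_J n)).det = -1 := by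
    rw [Matrix.det_diagonal, Fin.prod_univ_succ]
    unfold IsoA_J
    simp
  have hdet := congrArg Matrix.det hM
  rw [Matrix.det_mul, Matrix.det_mul, Matrix.det_transpose, hdJ] at hdet
  have hconj : (A.map (starRingEnd ℂ)).det = conj A.det := by
    rw [← RingHom.mapMatrix_apply, ← RingHom.map_det]
  rw [hconj] at hdet
  have hAd : LinearMap.det (g : V n →ₗ[ℂ] V n) = A.det := by
    rw [hA, LinearMap.det_toMatrix']
  rw [hAd]
  have h3 : ((Complex.normSq A.det : ℝ) : ℂ) = 1 := by
    rw [← Complex.mul_conj]
    linear_combination -hdet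
  exact_mod_cast h3

theorem iso_mp (g : V n ≃ₗ[ℂ] V n) (hg : ∀ x y, hf (g x) (g y) = hf x y) :
    MeasurePreserving g volume volume := by
  set f : V n →ₗ[ℝ] V n := (g : V n →ₗ[ℂ] V n).restrictScalars ℝ with hf'
  have hd : LinearMap.det f = 1 := by
    rw [hf', LinearMap.det_restrictScalars, Algebra.norm_complex_apply, IsoA_det g hg]
  have hcont : Continuous (g : V n → V n) := (g : V n →ₗ[ℂ] V n).continuous_of_finiteDimensional
  refine ⟨hcont.measurable, ?_⟩
  have h1 := MeasureTheory.Measure.map_linearMap_addHaar_eq_smul_addHaar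
    (volume : Measure (V n)) (f := f) (by rw [hd]; exact one_ne_zero)
  rw [hd] at h1
  simp only [inv_one, abs_one, ENNReal.ofReal_one, one_smul] at h1
  exact h1

theorem good_iso (g : V n ≃ₗ[ℂ] V n) (hg : ∀ x y, hf (g x) (g y) = hf x y) {C : ℝ} {x y z : V n}
    (h : Good C x y z) : Good C (g x) (g y) (g z) := by
  have hmp := iso_mp g hg
  have hemb : MeasurableEmbedding (g : V n → V n) :=
    g.toContinuousLinearEquiv.toHomeomorph.measurableEmbedding
  refine ⟨?_, ?_, ?_⟩
  · rw [← hmp.integrable_comp_emb hemb]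
    refine h.integrable.congr (Filter.Eventually.of_forall fun v => ?_)
    exact (W_iso g hg v x y z).symm
  · rw [← hmp.integral_comp hemb]
    simp only [W_iso g hg]
    exact h.bound
  · rw [← hmp.integral_comp hemb]
    simp only [W_iso g hg]
    have hal : al (g x) (g y) (g z) = al x y z := by
      unfold al
      simp only [hg]
    rw [hal]
    exact h.value

end Pool.Agent.Helper71.KH
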