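import Pool.Agent.Helper71.KH.AlL

/-!
# Project KH: the Kähler cocycle is a continuous bounded invariant cocycle
-/

set_option autoImplicit false

open scoped Matrix ComplexConjugate

namespace Pool.Agent.Helper71.KH

variable {n : ℕ}

theorem kah_isBC : IsBC (⊤ : Subgroup (SU n)) (1 : (⊤ : Subgroup (SU n)) →* (ℝ ≃ₗᵢ[ℝ] ℝ))
    (k := 2) (kah : (Fin 3 → SU n) → ℝ) where
  cont := by
    rw [continuous_iff_continuousAt]
    intro x
    have h : -(hf (pt (x 0)) (pt (x 1)) * hf (pt (x 1)) (pt (x 2)) * hf (pt (x 2)) (pt (x 0))) ∈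
        Complex.slitPlane :=
      Or.inl (al_slit (ng_of_eq (hf_pt _)) (ng_of_eq (hf_pt _)) (ng_of_eq (hf_pt _)))
    have hc : ∀ i j : Fin 3, Continuous fun x : Fin 3 → SU n => hf (pt (x i)) (pt (x j)) :=
      fun i j => continuous_hf.comp ((continuous_pt.comp (continuous_apply i)).prodMk
        (continuous_pt.comp (continuous_apply j)))
    have hcont : Continuous fun x : Fin 3 → SU n =>
        -(hf (pt (x 0)) (pt (x 1)) * hf (pt (x 1)) (pt (x 2)) * hf (pt (x 2)) (pt (x 0))) :=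
      (((hc 0 1).mul (hc 1 2)).mul (hc 2 0)).neg
    exact ContinuousAt.comp (f := fun x : Fin 3 → SU n =>
      -(hf (pt (x 0)) (pt (x 1)) * hf (pt (x 1)) (pt (x 2)) * hf (pt (x 2)) (pt (x 0))))
      (Complex.continuousAt_arg h) hcont.continuousAt
  bdd := ⟨Real.pi, fun x => by
    rw [Real.norm_eq_abs]
    exact Complex.abs_arg_le_pi _⟩
  equiv := by
    intro γ x
    change kah (fun i => (γ : SU n) * x i) = kah x
    unfold kah al
    rw [pt_mul, pt_mul, pt_mul, hf_mulVec, hf_mulVec, hf_mulVec]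

theorem dd_kah : dd (k := 2) (kah : (Fin 3 → SU n) → ℝ) = 0 := by
  funext x
  have key := al_cocycle (ng_of_eq (hf_pt (x 0))) (ng_of_eq (hf_pt (x 1)))
    (ng_of_eq (hf_pt (x 2))) (ng_of_eq (hf_pt (x 3)))
  unfold dd
  rw [Fin.sum_univ_succ, Fin.sum_univ_succ, Fin.sum_univ_succ, Fin.sum_univ_one]
  change (-1 : ℝ) ^ 0 • al (pt (x 1)) (pt (x 2)) (pt (x 3)) +
    ((-1 : ℝ) ^ 1 • al (pt (x 0)) (pt (x 2)) (pt (x 3)) +
      ((-1 : ℝ) ^ 2 • al (pt (x 0)) (pt (x 1)) (pt (x 3)) +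
        (-1 : ℝ) ^ 3 • al (pt (x 0)) (pt (x 1)) (pt (x 2)))) = 0
  simp only [smul_eq_mul]
  linarith

end Pool.Agent.Helper71.KH
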