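import Pool.Agent.Helper71.KH.Hf

/-!
# Project KH: the integer cocycles attached to positive vectors, definitions

`tt x y h = -⟨y, h⟩⟨h, x⟩⟨x, y⟩`; `kv h` is the cochain `(d A_h - α) / (2 π)` on negative vectors,
`A_h (x, y) = arg (tt x y h)`, `α = al`; `W = exp (-⟨h, h⟩) kv`.  `Good C x y z` says that
`W · x y z` is integrable, of `L¹` norm at most `C`, and with integral `(π ^ n / 2) al x y z`.
The aim of the analytic part is `Good C x y z` for all `x, y, z` with `hf x x = -1` etc., with one
constant `C`.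
-/

set_option autoImplicit false

open MeasureTheory
open scoped Matrix ComplexConjugate

namespace Pool.Agent.Helper71.KH

variable {n : ℕ}

/-- The product whose argument is the cochain `A_h`. -/
noncomputable def tt (x y h : V n) : ℂ := -(hf y h * hf h x * hf x y)

/-- The cocycle `(d A_h - α) / (2 π)`. -/
noncomputable def kv (h x y z : V n) : ℝ :=
  (Complex.arg (tt y z h) - Complex.arg (tt x z h) + Complex.arg (tt x y h) - al x y z) /
    (2 * Real.pi)

/-- The cocycle `kv` with its weight. -/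
noncomputable def W (h x y z : V n) : ℝ := Real.exp (-(hf h h).re) * kv h x y z

/-- The analytic property of a triple. -/
structure Good (C : ℝ) (x y z : V n) : Prop where
  integrable : Integrable (fun h : V n => W h x y z)
  bound : ∫ h : V n, |W h x y z| ≤ C
  value : ∫ h : V n, W h x y z = Real.pi ^ n / 2 * al x y z

/-- Negative vectors. -/
def Ng (x : V n) : Prop := (hf x x).re < 0

theorem ng_of_eq {x : V n} (h : hf x x = -1) : Ng x := by
  unfold Ng
  rw [h]
  norm_num

theorem ng_smul {x : V n} (hx : Ng x) {a : ℂ} (ha : a ≠ 0) : Ng (a • x) := by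
  unfold Ng at *
  rw [hf_smul_left, hf_smul_right, ← mul_assoc, Complex.mul_conj, Complex.re_ofReal_mul]
  exact mul_neg_of_pos_of_neg (Complex.normSq_pos.2 ha) hx

theorem exists_unit {x : V n} (hx : Ng x) : ∃ a : ℂ, a ≠ 0 ∧ hf (a • x) (a • x) = -1 := by
  have h1 : 0 < -(hf x x).re := neg_pos.2 hx
  set r : ℝ := (Real.sqrt (-(hf x x).re))⁻¹ with hr
  have h2 : r ≠ 0 := inv_ne_zero (Real.sqrt_ne_zero'.2 h1)
  have h3 : r * r * (hf x x).re = -1 := by
    rw [hr, ← mul_inv, Real.mul_self_sqrt h1.le, inv_mul_eq_div, div_eq_iff h1.ne']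
    ring
  refine ⟨r, Complex.ofReal_ne_zero.2 h2, ?_⟩
  rw [hf_smul_left, hf_smul_right, Complex.conj_ofReal, hf_self_eq, ← mul_assoc,
    ← Complex.ofReal_mul, ← Complex.ofReal_mul, h3]
  norm_num

/-- The second basis vector. -/
def e1 (m : ℕ) : V (m + 1) := Pi.single 1 1

/-- The third basis vector. -/
def e2 (m : ℕ) : V (m + 2) := Pi.single 2 1

theorem e0_zero (n : ℕ) : e0 n 0 = 1 := by simp [e0]

theorem e0_succ (n : ℕ) (i : Fin n) : e0 n i.succ = 0 := by simp [e0]

theorem hf_e0 (h : V n) : hf (e0 n) h = -conj (h 0) := by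
  unfold hf
  simp [e0]

theorem hf_single_succ (i : Fin n) (h : V n) :
    hf (Pi.single i.succ 1 : V n) h = conj (h i.succ) := by
  unfold hf
  rw [Pi.single_eq_of_ne (Fin.succ_ne_zero i).symm, zero_mul, neg_zero, zero_add,
    Finset.sum_eq_single i]
  · rw [Pi.single_eq_same, one_mul]
  · intro j _ hj
    rw [Pi.single_eq_of_ne (fun h => hj (Fin.succ_injective _ h)), zero_mul]
  · intro h
    exact absurd (Finset.mem_univ _) h

theorem hf_e1 (m : ℕ) (h : V (m + 1)) : hf (e1 m) h = conj (h 1) :=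
  hf_single_succ (0 : Fin (m + 1)) h

theorem hf_e2 (m : ℕ) (h : V (m + 2)) : hf (e2 m) h = conj (h 2) :=
  hf_single_succ (1 : Fin (m + 2)) h

end Pool.Agent.Helper71.KH
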