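import Pool.Agent.Helper71.KH.Hf

/-!
# Project KH, piece SGC: the vector orthogonal to `n` vectors

`mt x u` is the matrix with the columns `x, u 0, .., u (n - 1)`.
PROOFS. `cr_spec`: both sides are linear in `x` (the determinant is linear in the first column:
`Matrix.det_updateCol_add` or `Matrix.detRowAlternating` for the transpose), so take
`x = Pi.single i 1`; there `hf (Pi.single i 1) (cr u) = ∓ conj (cr u i)` is the determinant by definition.
`cr_orth`: two equal columns (`Matrix.det_zero_of_column_eq`).
`cr_equiv`: for all `x`, `hf x (cr (g u)) = det (mt x (g u)) = det (g * mt (g⁻¹ x) u) = det (mt (g⁻¹ x) u)`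
`= hf (g⁻¹ x) (cr u) = hf x (g (cr u))`, and `hf` is non-degenerate (`hf_nondeg`).
`cr_ne`: the `u i` are linearly independent (orthogonal, `hf (u i) (u i) ≠ 0`), and they do not span `V n` (dimension
`n + 1`): there is `x` outside of their span, `x, u 0, ..` are independent, so the determinant is not `0`
and `cr u ≠ 0`.  If `hf (cr u) (cr u) = 0` then `hf (cr u) y = 0` for `y` in the span of the `u i` and of `cr u`.
This span is `V n` if `cr u` is not in the span `U` of the `u i`; but if `cr u = ∑ a i u i` then
`0 = hf (cr u) (u i) = a i hf (u i) (u i)`, so `a i = 0`, `cr u = 0`.  So `cr u = 0` by `hf_nondeg`, a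
contradiction.  `cr_cont`: a polynomial expression (`Continuous.matrix_det`, `continuous_pi`).
-/

set_option autoImplicit false

open MeasureTheory
open scoped Matrix ComplexConjugate

namespace Pool.Agent.Helper71.KH

variable {n : ℕ}

/-- The matrix with columns `x, u 0, …`. -/
def mt (x : V n) (u : Fin n → V n) : Matrix (Fin (n + 1)) (Fin (n + 1)) ℂ :=
  Matrix.of fun r c => (Fin.cons (α := fun _ => V n) x u : Fin (n + 1) → V n) c r

/-- The vector orthogonal to the `u i`. -/
noncomputable def cr (u : Fin n → V n) : V n :=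
  fun i => (if i = 0 then -1 else 1) * conj (mt (Pi.single i 1) u).det

private theorem hf_eq (x y : V n) :
    hf x y = ∑ i, (if i = 0 then (-1 : ℂ) else 1) * (x i * conj (y i)) := by
  rw [Fin.sum_univ_succ]
  unfold hf
  simp [Fin.succ_ne_zero]

theorem hf_nondeg {x : V n} (h : ∀ y, hf x y = 0) : x = 0 := by
  funext i
  have h1 := h (Pi.single i 1)
  rw [hf_eq, Finset.sum_eq_single i] at h1
  · simp only [Pi.single_eq_same, map_one, mul_one] at h1
    rcases mul_eq_zero.1 h1 with h2 | h2
    · split_ifs at h2 <;> simp at h2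
    · exact h2
  · intro j _ hj
    rw [Pi.single_eq_of_ne hj, map_zero, mul_zero, mul_zero]
  · intro hi
    exact absurd (Finset.mem_univ i) hi

private theorem mt_zero (x : V n) (u : Fin n → V n) (r : Fin (n + 1)) : mt x u r 0 = x r := rfl

private theorem mt_succ (x : V n) (u : Fin n → V n) (r : Fin (n + 1)) (i : Fin n) :
    mt x u r i.succ = u i r := rfl

private theorem mt_update (x : V n) (u : Fin n → V n) : mt x u = (mt 0 u).updateCol 0 x := by
  ext r c
  induction c using Fin.cases with
  | zero => rw [Matrix.updateCol_self, mt_zero]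
  | succ i => rw [Matrix.updateCol_ne (Fin.succ_ne_zero i), mt_succ, mt_succ]

private noncomputable def mtD (u : Fin n → V n) : V n →ₗ[ℂ] ℂ where
  toFun x := (mt x u).det
  map_add' x y := by
    rw [mt_update (x + y), Matrix.det_updateCol_add, ← mt_update, ← mt_update]
  map_smul' c x := by
    rw [mt_update (c • x), Matrix.det_updateCol_smul, ← mt_update]
    rfl

theorem cr_spec (u : Fin n → V n) (x : V n) : hf x (cr u) = (mt x u).det := by
  have h1 : (mt x u).det = mtD u x := rfl
  rw [h1, LinearMap.pi_apply_eq_sum_univ, hf_eq]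
  refine Finset.sum_congr rfl fun i _ => ?_
  have h2 : (fun j => if i = j then (1 : ℂ) else 0) = Pi.single i 1 := by
    funext j
    rcases eq_or_ne i j with rfl | h
    · simp
    · rw [if_neg h, Pi.single_eq_of_ne h.symm]
  rw [h2]
  change _ = x i • (mt (Pi.single i 1) u).det
  unfold cr
  rw [map_mul, Complex.conj_conj, smul_eq_mul]
  split_ifs
  · rw [map_neg, map_one]; ring
  · rw [map_one]; ring

theorem cr_orth (u : Fin n → V n) (i : Fin n) : hf (u i) (cr u) = 0 := by
  rw [cr_spec]
  exact Matrix.det_zero_of_column_eq (Fin.succ_ne_zero i).symm fun r => rfl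

theorem cr_equiv (g : SU n) (u : Fin n → V n) :
    cr (fun i => g.1.1 *ᵥ u i) = g.1.1 *ᵥ cr u := by
  have hinv : ∀ x : V n, g.1.1 *ᵥ ((g⁻¹).1.1 *ᵥ x) = x := by
    intro x
    rw [Matrix.mulVec_mulVec]
    have h : g.1.1 * (g⁻¹).1.1 = 1 := by
      have h1 : (g * g⁻¹).1.1 = 1 := by rw [mul_inv_cancel]; rfl
      exact h1
    rw [h, Matrix.one_mulVec]
  have hmt : ∀ y : V n, mt (g.1.1 *ᵥ y) (fun i => g.1.1 *ᵥ u i) = g.1.1 * mt y u := by
    intro y
    ext r c
    induction c using Fin.cases with
    | zero => rfl
    | succ i => rfl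
  have key : ∀ x : V n, hf x (cr (fun i => g.1.1 *ᵥ u i)) = hf x (g.1.1 *ᵥ cr u) := by
    intro x
    rw [cr_spec, ← hinv x, hmt, Matrix.det_mul, g.1.2, one_mul, ← cr_spec, hf_mulVec]
  rw [← sub_eq_zero]
  refine hf_nondeg fun y => ?_
  rw [hf_sub_left, ← hf_conj, key, hf_conj, sub_self]

private theorem det_ne {x : V n} {u : Fin n → V n} (hu : LinearIndependent ℂ u)
    (hx : x ∉ Submodule.span ℂ (Set.range u)) : (mt x u).det ≠ 0 := by
  have h1 : LinearIndependent ℂ (Fin.cons x u : Fin (n + 1) → V n) :=
    linearIndependent_finCons.2 ⟨hu, hx⟩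
  have h2 : LinearIndependent ℂ (mt x u).col := by
    have : (mt x u).col = (Fin.cons x u : Fin (n + 1) → V n) := rfl
    rw [this]
    exact h1
  have h3 := Matrix.linearIndependent_cols_iff_isUnit.1 h2
  exact ((Matrix.isUnit_iff_isUnit_det _).1 h3).ne_zero

theorem cr_ne (u : Fin n → V n) (h : ∀ i, hf (u i) (u i) ≠ 0)
    (ho : ∀ i j, i ≠ j → hf (u i) (u j) = 0) : hf (cr u) (cr u) ≠ 0 := by
  classical
  have hcoef : ∀ (a : Fin n → ℂ) (j : Fin n), hf (∑ i, a i • u i) (u j) =
      a j * hf (u j) (u j) := by
    intro a j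
    rw [hf_sum_left, Finset.sum_eq_single j]
    · rw [hf_smul_left]
    · intro i _ hi
      rw [hf_smul_left, ho i j hi, mul_zero]
    · intro hj
      exact absurd (Finset.mem_univ j) hj
  have hu : LinearIndependent ℂ u := by
    rw [Fintype.linearIndependent_iff]
    intro a ha j
    have h1 := hcoef a j
    rw [ha, hf_zero_left] at h1
    exact (mul_eq_zero.1 h1.symm).resolve_right (h j)
  by_cases hw : cr u ∈ Submodule.span ℂ (Set.range u)
  · exfalso
    obtain ⟨a, ha⟩ := (Submodule.mem_span_range_iff_exists_fun ℂ).1 hw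
    have ha0 : ∀ j, a j = 0 := by
      intro j
      have h1 := hcoef a j
      rw [ha, ← hf_conj, cr_orth, map_zero] at h1
      exact (mul_eq_zero.1 h1.symm).resolve_right (h j)
    have hcr : cr u = 0 := by
      rw [← ha]
      simp [ha0]
    have hlt : Submodule.span ℂ (Set.range u) ≠ ⊤ := by
      intro htop
      have h1 := finrank_span_eq_card hu
      rw [htop, finrank_top, Module.finrank_fin_fun, Fintype.card_fin] at h1
      omega
    obtain ⟨x, hx⟩ : ∃ x, x ∉ Submodule.span ℂ (Set.range u) := by
      by_contra hcon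
      push Not at hcon
      exact hlt (Submodule.eq_top_iff'.2 hcon)
    apply det_ne hu hx
    rw [← cr_spec, hcr, hf_zero_right]
  · rw [cr_spec]
    exact det_ne hu hw

theorem cr_cont : Continuous (cr : (Fin n → V n) → V n) := by
  refine continuous_pi fun i => ?_
  refine continuous_const.mul (Complex.continuous_conj.comp (Continuous.matrix_det ?_))
  refine continuous_pi fun r => continuous_pi fun c => ?_
  induction c using Fin.cases with
  | zero => exact continuous_const
  | succ j => exact (continuous_apply r).comp (continuous_apply j)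

end Pool.Agent.Helper71.KH
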