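import Pool.Agent.Helper71.KH.SgF

/-!
# Project KH, piece SGD: from an orthogonal frame to an element of SU(n,1)

PROOF. The columns `c j` of `fm i0 b` satisfy `hf (c i) (c j) = J i j`, `J = diag (-1, 1, .., 1)` (column `0` is the
normalised `b i0`, all other `b i` are positive by `inertia`; `Equiv.swap` is a bijection), so
`hf (M x) (M y) = ∑ x i conj (y j) hf (c i) (c j) = hf x y` for
`M = fm i0 b`; hence `Mᴴ J M = J` (up to transposition) and `‖det M‖ = 1`; multiplying the first column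
by `conj (det M)` keeps the relations and gives determinant `det M * conj (det M) = 1`.
-/

set_option autoImplicit false

open MeasureTheory
open scoped Matrix ComplexConjugate

namespace Pool.Agent.Helper71.KH

variable {n : ℕ}

private noncomputable def SgD_jd (r : Fin (n + 1)) : ℂ := if r = 0 then -1 else 1

private theorem SgD_hf (u v : V n) :
    hf u v = star v ⬝ᵥ (Matrix.diagonal SgD_jd *ᵥ u) := by
  unfold hf
  rw [dotProduct, Fin.sum_univ_succ]
  simp only [Matrix.mulVec_diagonal, SgD_jd, Fin.succ_ne_zero, if_true, if_false, Pi.star_apply,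
    RCLike.star_def]
  congr 1
  · ring
  · refine Finset.sum_congr rfl fun i _ => ?_
    ring

private theorem SgD_iso {F : Matrix (Fin (n + 1)) (Fin (n + 1)) ℂ}
    (h : Fᴴ * Matrix.diagonal SgD_jd * F = Matrix.diagonal SgD_jd) (x y : V n) :
    hf (F *ᵥ x) (F *ᵥ y) = hf x y := by
  rw [SgD_hf, SgD_hf, Matrix.star_mulVec, ← Matrix.dotProduct_mulVec, Matrix.mulVec_mulVec,
    Matrix.mulVec_mulVec, h]

private theorem SgD_entry (M : Matrix (Fin (n + 1)) (Fin (n + 1)) ℂ) (i j : Fin (n + 1)) :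
    (Mᴴ * Matrix.diagonal (SgD_jd (n := n)) * M : Matrix (Fin (n + 1)) (Fin (n + 1)) ℂ) j i =
      hf (fun r => M r i) (fun r => M r j) := by
  rw [SgD_hf, Matrix.mul_apply, dotProduct]
  refine Finset.sum_congr rfl fun r _ => ?_
  rw [Matrix.mul_diagonal, Matrix.mulVec_diagonal, Matrix.conjTranspose_apply, Pi.star_apply]
  ring

private theorem SgD_fm (i0 : Fin (n + 1)) (b : Fin (n + 1) → V n) (h : ∀ i, hf (b i) (b i) ≠ 0)
    (ho : ∀ i j, i ≠ j → hf (b i) (b j) = 0) (hneg : (hf (b i0) (b i0)).re < 0) :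
    (fm i0 b)ᴴ * Matrix.diagonal SgD_jd * fm i0 b = Matrix.diagonal SgD_jd := by
  have hcol : ∀ i : Fin (n + 1), (fun r => fm i0 b r i) =
      (((Real.sqrt |(hf (b (Equiv.swap 0 i0 i)) (b (Equiv.swap 0 i0 i))).re|)⁻¹ : ℝ) : ℂ) •
        b (Equiv.swap 0 i0 i) := by
    intro i
    funext r
    rfl
  ext j i
  rw [SgD_entry, hcol i, hcol j, hf_smul_left, hf_smul_right, Complex.conj_ofReal]
  by_cases hij : j = i
  · subst hij
    rw [Matrix.diagonal_apply_eq, hf_self_eq (b (Equiv.swap 0 i0 j))]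
    set t := (hf (b (Equiv.swap 0 i0 j)) (b (Equiv.swap 0 i0 j))).re with ht
    have ht0 : t ≠ 0 := by
      intro h0
      apply h (Equiv.swap 0 i0 j)
      rw [hf_self_eq, ← ht, h0, Complex.ofReal_zero]
    have habs : 0 < |t| := abs_pos.2 ht0
    have hsq : (Real.sqrt |t|)⁻¹ * (Real.sqrt |t|)⁻¹ = |t|⁻¹ := by
      rw [← mul_inv, Real.mul_self_sqrt habs.le]
    have e1 : (((Real.sqrt |t|)⁻¹ : ℝ) : ℂ) * ((((Real.sqrt |t|)⁻¹ : ℝ) : ℂ) * (t : ℂ)) =
        ((|t|⁻¹ * t : ℝ) : ℂ) := by
      rw [← hsq]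
      push_cast
      ring
    rw [Complex.ofReal_re, e1]
    obtain ⟨k, hk, huniq⟩ := inertia b h ho
    have hk0 : i0 = k := huniq i0 hneg
    by_cases hj0 : j = 0
    · have hs : t < 0 := by
        rw [ht, hj0, Equiv.swap_apply_left]
        exact hneg
      rw [SgD_jd, if_pos hj0, abs_of_neg hs, inv_neg, neg_mul, inv_mul_cancel₀ hs.ne]
      push_cast
      rfl
    · have hs : 0 < t := by
        rcases lt_or_gt_of_ne ht0 with h1 | h1
        · exfalso
          have h2 := huniq (Equiv.swap 0 i0 j) h1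
          rw [← hk0] at h2
          apply hj0
          have h3 : Equiv.swap 0 i0 j = Equiv.swap 0 i0 0 := by rw [h2, Equiv.swap_apply_left]
          exact (Equiv.swap 0 i0).injective h3
        · exact h1
      rw [SgD_jd, if_neg hj0, abs_of_pos hs, inv_mul_cancel₀ hs.ne']
      push_cast
      rfl
  · rw [Matrix.diagonal_apply_ne _ hij, ho _ _ (fun h1 => hij ((Equiv.swap 0 i0).injective h1).symm),
      mul_zero, mul_zero]

theorem fr_mem (i0 : Fin (n + 1)) (b : Fin (n + 1) → V n) (h : ∀ i, hf (b i) (b i) ≠ 0)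
    (ho : ∀ i j, i ≠ j → hf (b i) (b j) = 0) (hneg : (hf (b i0) (b i0)).re < 0) :
    (fr i0 b).det = 1 ∧ ∀ x y : V n, hf (fr i0 b *ᵥ x) (fr i0 b *ᵥ y) = hf x y := by
  have hM := SgD_fm i0 b h ho hneg
  set M := fm i0 b with hMdef
  have hdJ : (Matrix.diagonal (SgD_jd (n := n))).det ≠ 0 := by
    rw [Matrix.det_diagonal]
    refine Finset.prod_ne_zero_iff.2 fun i _ => ?_
    unfold SgD_jd
    split_ifs <;> norm_num
  have hd : conj M.det * M.det = 1 := by
    have h1 := congrArg Matrix.det hM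
    rw [Matrix.det_mul, Matrix.det_mul, Matrix.det_conjTranspose, RCLike.star_def] at h1
    have h2 : (conj M.det * M.det) * (Matrix.diagonal (SgD_jd (n := n))).det =
        1 * (Matrix.diagonal (SgD_jd (n := n))).det := by
      rw [one_mul]
      linear_combination h1
    exact mul_right_cancel₀ hdJ h2
  set dg : Fin (n + 1) → ℂ := fun c => if c = 0 then conj M.det else 1 with hdg
  have hfr : fr i0 b = M * Matrix.diagonal dg := rfl
  have hprod : ∏ c, dg c = conj M.det := by
    rw [Fin.prod_univ_succ]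
    simp [hdg]
  refine ⟨?_, ?_⟩
  · rw [hfr, Matrix.det_mul, Matrix.det_diagonal, hprod, mul_comm, hd]
  · apply SgD_iso
    have h3 : (fr i0 b)ᴴ * Matrix.diagonal SgD_jd * fr i0 b =
        Matrix.diagonal (star dg) * (Mᴴ * Matrix.diagonal SgD_jd * M) * Matrix.diagonal dg := by
      rw [hfr, Matrix.conjTranspose_mul, Matrix.diagonal_conjTranspose]
      simp only [Matrix.mul_assoc]
    rw [h3, hM, Matrix.diagonal_mul_diagonal, Matrix.diagonal_mul_diagonal]
    congr 1
    funext c
    by_cases hc : c = 0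
    · simp only [hdg, Pi.star_apply, if_pos hc, RCLike.star_def, Complex.conj_conj, SgD_jd]
      linear_combination -hd
    · simp only [hdg, Pi.star_apply, if_neg hc, star_one, SgD_jd]
      norm_num

end Pool.Agent.Helper71.KH
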