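import Pool.Agent.Helper71.KH.SgB
import Pool.Agent.Helper71.KH.SgC
import Pool.Agent.Helper71.KH.SgD

/-!
# Project KH, piece SGE: the equivariant map to SU(n,1)

PROOF. Put `bb z = Fin.cons (cr (gs n z)) (gs n z) : Fin (n + 1) → V n`, measurable in `z`, `bb (g z) = g (bb z)`
(`gs_equiv`, `cr_equiv`).  For `i0` let `S i0` be the set of `z` such that `hf (bb z i) (bb z i) ≠ 0` for all `i`,
`hf (bb z i) (bb z j) = 0` for `i ≠ j`, and `(hf (bb z i0) (bb z i0)).re < 0`: a measurable set; the `S i0` are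
disjoint (`inertia`), invariant under `SU n`.  Let `σ z` be the element with matrix `fr i0 (bb z)` for `z ∈ S i0`
(`fr_mem`) and `1` if `z` is in no `S i0`.  Preimages of an open set `U`: `U` is the preimage of an
open set `U'` of matrices (induced topology), and `σ⁻¹ U` is the union of the `S i0 ∩ {z | fr i0 (bb z) ∈ U'}` and of the
complement of `⋃ S i0`, or `∅`.  Equivariance holds for `z ∈ ⋃ S i0` (`fr_equiv`), and almost all `z` are in it: `gs_ae`
(`k = n`), `gs_orth`, `cr_orth` (and its conjugate), `cr_ne`, `inertia`.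
-/

set_option autoImplicit false

open MeasureTheory
open scoped Matrix ComplexConjugate

namespace Pool.Agent.Helper71.KH

variable {n : ℕ}

/-- the orthogonal frame of `z` -/
private noncomputable def sbb (z : Fin n → V n) : Fin (n + 1) → V n :=
  Fin.cons (α := fun _ => V n) (cr (gs n z)) (gs n z)

private theorem sbb_meas : Measurable (sbb : (Fin n → V n) → Fin (n + 1) → V n) := by
  refine measurable_pi_iff.2 fun i => ?_
  refine Fin.cases ?_ (fun j => ?_) i
  · exact (cr_cont.measurable.comp (gs_meas n) : Measurable fun z : Fin n → V n => cr (gs n z))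
  · exact ((measurable_pi_apply j).comp (gs_meas n) : Measurable fun z : Fin n → V n => gs n z j)

private theorem sbb_equiv (g : SU n) (z : Fin n → V n) :
    sbb (fun i => g.1.1 *ᵥ z i) = fun i => g.1.1 *ᵥ sbb z i := by
  funext i
  refine Fin.cases ?_ (fun j => ?_) i
  · show cr (gs n fun i => g.1.1 *ᵥ z i) = g.1.1 *ᵥ cr (gs n z)
    rw [gs_equiv, cr_equiv]
  · show gs n (fun i => g.1.1 *ᵥ z i) j = g.1.1 *ᵥ gs n z j
    rw [gs_equiv]

/-- the values of the form on the frame -/
private noncomputable def shh (i j : Fin (n + 1)) (z : Fin n → V n) : ℂ := hf (sbb z i) (sbb z j)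

private theorem shh_meas (i j : Fin (n + 1)) :
    Measurable (shh i j : (Fin n → V n) → ℂ) := by
  have h1 : Measurable fun z : Fin n → V n => sbb z i := (measurable_pi_apply i).comp sbb_meas
  have h2 : Measurable fun z : Fin n → V n => sbb z j := (measurable_pi_apply j).comp sbb_meas
  exact (continuous_hf (n := n)).measurable.comp (h1.prodMk h2)

private theorem shh_equiv (g : SU n) (z : Fin n → V n) (i j : Fin (n + 1)) :
    shh i j (fun l => g.1.1 *ᵥ z l) = shh i j z := by
  unfold shh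
  rw [sbb_equiv]
  exact hf_mulVec g _ _

/-- the good set -/
private def sS (i0 : Fin (n + 1)) : Set (Fin n → V n) :=
  ((⋂ i, shh i i ⁻¹' {0}ᶜ) ∩ ⋂ i, ⋂ j, ⋂ _ : i ≠ j, shh i j ⁻¹' {0}) ∩
    (fun z => (shh i0 i0 z).re) ⁻¹' Set.Iio 0

private theorem mem_sS {i0 : Fin (n + 1)} {z : Fin n → V n} : z ∈ sS i0 ↔
    ((∀ i, shh i i z ≠ 0) ∧ ∀ i j, i ≠ j → shh i j z = 0) ∧ (shh i0 i0 z).re < 0 := by
  simp [sS]

private theorem sS_meas (i0 : Fin (n + 1)) : MeasurableSet (sS i0 : Set (Fin n → V n)) := by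
  refine MeasurableSet.inter (MeasurableSet.inter ?_ ?_) ?_
  · exact MeasurableSet.iInter fun i => shh_meas i i (measurableSet_singleton 0).compl
  · exact MeasurableSet.iInter fun i => MeasurableSet.iInter fun j => MeasurableSet.iInter fun _ =>
      shh_meas i j (measurableSet_singleton 0)
  · exact (Complex.measurable_re.comp (shh_meas i0 i0)) measurableSet_Iio

private theorem sS_uniq {i0 j0 : Fin (n + 1)} {z : Fin n → V n} (h : z ∈ sS i0) (h' : z ∈ sS j0) :
    i0 = j0 := by
  rw [mem_sS] at h h'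
  exact (inertia (sbb z) h.1.1 h.1.2).unique h.2 h'.2

private theorem sS_equiv (g : SU n) {i0 : Fin (n + 1)} {z : Fin n → V n} (h : z ∈ sS i0) :
    (fun l => g.1.1 *ᵥ z l) ∈ sS i0 := by
  rw [mem_sS] at h ⊢
  simp only [shh_equiv]
  exact h

/-- the element of the group attached to `z` -/
private noncomputable def sel (i0 : Fin (n + 1)) (z : Fin n → V n) (h : z ∈ sS i0) : SU n :=
  ⟨⟨fr i0 (sbb z), (fr_mem i0 (sbb z) (mem_sS.1 h).1.1 (mem_sS.1 h).1.2 (mem_sS.1 h).2).1⟩,
    (fr_mem i0 (sbb z) (mem_sS.1 h).1.1 (mem_sS.1 h).1.2 (mem_sS.1 h).2).2⟩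

open Classical in
private noncomputable def ssig (z : Fin n → V n) : SU n :=
  if h : ∃ i0, z ∈ sS i0 then sel h.choose z h.choose_spec else 1

private theorem ssig_eq {i0 : Fin (n + 1)} {z : Fin n → V n} (h : z ∈ sS i0) :
    (ssig z).1.1 = fr i0 (sbb z) := by
  have h1 : ∃ i0, z ∈ sS i0 := ⟨i0, h⟩
  unfold ssig
  rw [dif_pos h1]
  show fr h1.choose (sbb z) = _
  rw [sS_uniq h1.choose_spec h]

private theorem ssig_one {z : Fin n → V n} (h : ¬ ∃ i0, z ∈ sS i0) : ssig z = 1 := by
  unfold ssig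
  rw [dif_neg h]

private theorem sS_ae : ∀ᵐ z : Fin n → V n, ∃ i0, z ∈ sS i0 := by
  filter_upwards [gs_ae (n := n) n le_rfl] with z hz
  have ho := gs_orth n z hz
  have hc := cr_ne (gs n z) hz ho
  have h1 : ∀ i, shh i i z ≠ 0 := by
    intro i
    refine Fin.cases ?_ (fun j => ?_) i
    · exact hc
    · exact hz j
  have h2 : ∀ i j, i ≠ j → shh i j z = 0 := by
    intro i j
    refine Fin.cases ?_ (fun i' => ?_) i <;> refine Fin.cases ?_ (fun j' => ?_) j
    · intro h
      exact absurd rfl h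
    · intro _
      show hf (cr (gs n z)) (gs n z j') = 0
      rw [← hf_conj, cr_orth, map_zero]
    · intro _
      exact cr_orth (gs n z) i'
    · intro h
      exact ho i' j' fun h' => h (by rw [h'])
  obtain ⟨i0, hi0, -⟩ := inertia (sbb z) h1 h2
  exact ⟨i0, mem_sS.2 ⟨⟨h1, h2⟩, hi0⟩⟩

theorem exists_sigma (n : ℕ) : ∃ σ : (Fin n → V n) → SU n,
    (∀ U : Set (SU n), IsOpen U → MeasurableSet (σ ⁻¹' U)) ∧
      ∀ g : SU n, ∀ᵐ z : Fin n → V n, σ (fun i => g.1.1 *ᵥ z i) = g * σ z := by
  refine ⟨ssig, fun U hU => ?_, fun g => ?_⟩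
  · obtain ⟨U1, hU1, rfl⟩ := isOpen_induced_iff.1 hU
    obtain ⟨U2, hU2, rfl⟩ := isOpen_induced_iff.1 hU1
    have hm : ∀ i0 : Fin (n + 1), MeasurableSet {z : Fin n → V n | fr i0 (sbb z) ∈ U2} := by
      intro i0
      have h1 : Measurable fun z : Fin n → V n => (fun r c => fr i0 (sbb z) r c) :=
        (fr_meas i0).comp sbb_meas
      have h2 : @MeasurableSet (Fin (n + 1) → Fin (n + 1) → ℂ) _ U2 :=
        IsOpen.measurableSet (α := Fin (n + 1) → Fin (n + 1) → ℂ) hU2
      exact h1 h2
    have hA : MeasurableSet (⋃ i0 : Fin (n + 1), (sS i0 : Set (Fin n → V n))) :=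
      MeasurableSet.iUnion fun i0 => sS_meas i0
    have hB : MeasurableSet
        (⋃ i0 : Fin (n + 1), (sS i0 ∩ {z : Fin n → V n | fr i0 (sbb z) ∈ U2})) :=
      MeasurableSet.iUnion fun i0 => (sS_meas i0).inter (hm i0)
    by_cases h1 : (1 : SU n).1.1 ∈ U2
    · convert hB.union hA.compl using 1
      ext z
      by_cases hz : ∃ i0, z ∈ sS i0
      · obtain ⟨i0, hi0⟩ := hz
        constructor
        · intro h
          left
          refine Set.mem_iUnion.2 ⟨i0, hi0, ?_⟩
          show fr i0 (sbb z) ∈ U2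
          rw [← ssig_eq hi0]
          exact h
        · rintro (h | h)
          · obtain ⟨j0, hj0, hj⟩ := Set.mem_iUnion.1 h
            show (ssig z).1.1 ∈ U2
            rw [ssig_eq hj0]
            exact hj
          · exact absurd (Set.mem_iUnion.2 ⟨i0, hi0⟩) h
      · constructor
        · intro _
          right
          intro h
          exact hz (Set.mem_iUnion.1 h)
        · intro _
          show (ssig z).1.1 ∈ U2
          rw [ssig_one hz]
          exact h1
    · convert hB using 1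
      ext z
      constructor
      · intro h
        by_cases hz : ∃ i0, z ∈ sS i0
        · obtain ⟨i0, hi0⟩ := hz
          refine Set.mem_iUnion.2 ⟨i0, hi0, ?_⟩
          show fr i0 (sbb z) ∈ U2
          rw [← ssig_eq hi0]
          exact h
        · exfalso
          apply h1
          rw [← ssig_one hz]
          exact h
      · intro h
        obtain ⟨j0, hj0, hj⟩ := Set.mem_iUnion.1 h
        show (ssig z).1.1 ∈ U2
        rw [ssig_eq hj0]
        exact hj
  · filter_upwards [sS_ae (n := n)] with z hz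
    obtain ⟨i0, hi0⟩ := hz
    apply Subtype.ext
    apply Subtype.ext
    rw [ssig_eq (sS_equiv g hi0), sbb_equiv, fr_equiv]
    show g.1.1 * fr i0 (sbb z) = (g.1 * (ssig z).1).1
    rw [Matrix.SpecialLinearGroup.coe_mul, ← ssig_eq hi0]

end Pool.Agent.Helper71.KH
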