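import Pool.Agent.Helper71.KH.PrB
import Pool.Agent.Helper71.KH.Abs
import Pool.Agent.Helper71.KH.SgE

/-!
# Project KH: the main theorem
-/

set_option autoImplicit false

open MeasureTheory
open scoped Matrix ComplexConjugate

namespace Pool.Agent.Helper71.KH

instance (n : ℕ) : SecondCountableTopology (SU n) := by
  have h1 : SecondCountableTopology (Matrix (Fin (n + 1)) (Fin (n + 1)) ℂ) :=
    inferInstanceAs (SecondCountableTopology (Fin (n + 1) → Fin (n + 1) → ℂ))
  have h2 : SecondCountableTopology (Matrix.SpecialLinearGroup (Fin (n + 1)) ℂ) :=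
    Matrix.SpecialLinearGroup.isClosedEmbedding_val.isEmbedding.isInducing.secondCountableTopology
  exact Topology.IsInducing.subtypeVal.secondCountableTopology

theorem dd_smul {G E : Type*} [NormedAddCommGroup E] [NormedSpace ℝ E] {k : ℕ} (r : ℝ)
    (f : (Fin (k + 1) → G) → E) (x : Fin (k + 2) → G) :
    dd (fun y => r • f y) x = r • dd f x := by
  unfold dd
  rw [Finset.smul_sum]
  exact Finset.sum_congr rfl fun i _ => smul_comm _ _ _

theorem main (n : ℕ) (E : Type) [NormedAddCommGroup E] [NormedSpace ℝ E] [CompleteSpace E] :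
    Statement n E := by
  intro Γ ρ m v hv hdv
  obtain ⟨σ, hσ, hσe⟩ := exists_sigma n
  obtain ⟨C, hC⟩ := cc_bound n
  obtain ⟨B, hB, hdB⟩ := abs_main (volume : Measure (Fin n → V n)) Γ ρ (k := 2 * n) (m := m)
    (fun z x => cc z x) σ (fun γ z i => (γ : SU n).1.1 *ᵥ z i) C
    (fun z => cc_cocycle z) (fun x => (cc_meas x).aestronglyMeasurable)
    (fun x => cc_dom x) (fun x => cc_cont x) hC (fun γ => tau_mp (γ : SU n))
    (fun γ z x => cc_inv (γ : SU n) z x) hσ (fun γ => hσe (γ : SU n)) v hv hdv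
  have hF : ((Real.pi ^ n / 2) ^ n : ℝ) ≠ 0 := by positivity
  refine ⟨fun x => ((Real.pi ^ n / 2) ^ n : ℝ)⁻¹ • B x, ⟨?_, ?_, ?_⟩, ?_⟩
  · exact hB.cont.const_smul _
  · obtain ⟨K, hK⟩ := hB.bdd
    refine ⟨|((Real.pi ^ n / 2) ^ n : ℝ)⁻¹| * K, fun x => ?_⟩
    rw [norm_smul, Real.norm_eq_abs]
    exact mul_le_mul_of_nonneg_left (hK x) (abs_nonneg _)
  · intro γ x
    rw [hB.equiv γ x, map_smul]
  · intro x
    rw [dd_smul, hdB x]
    change _ • (∫ z : Fin n → V n, cc z (fun j => x ⟨m + 1 + j, by omega⟩)) • _ = _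
    rw [cc_value, smul_smul, ← mul_assoc, inv_mul_cancel₀ hF, one_mul]

end Pool.Agent.Helper71.KH
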