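import Pool.Agent.Helper71.KH.Alg
import Pool.Agent.Helper71.KH.Iso
import Pool.Agent.Helper71.KH.Dom
import Pool.Agent.Helper71.KH.GenC

/-!
# Project KH, piece PRA: the product cocycles

PROOFS. `cc_cocycle`: `dd_prod` with `a i x = W (z i) (pt (x 0)) (pt (x 1)) (pt (x 2))`; `dd (a i) = 0` is `kv_cocycle` times
the weight (`Fin.sum_univ_succ`, `Fin.succAbove`; `hf_pt`, `ng_of_eq`).
`cc_meas`: `W_meas`, finite product of measurable functions of the coordinates.
`cc_inv`: `pt_mul`, `hf_mulVec`: `W (g h) (g x) (g y) (g z) = W h x y z`.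
`tau_mp`: `volume_preserving_pi` and `iso_mp` for the linear equivalence with matrix `g`
(`Matrix.mulVec` by `g` and by `g⁻¹`).
`cc_value`: `MeasureTheory.integral_fintype_prod_volume_eq_prod`, `Good.value`, `kahPow`.
`cc_bound`: `|∏| = ∏ |·|`, the same product formula for `|W|`, each factor is in `[0, C]`, so the integral is at
most `C ^ n`.
-/

set_option autoImplicit false

open MeasureTheory
open scoped Matrix ComplexConjugate

namespace Pool.Agent.Helper71.KH

variable {n : ℕ}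

/-- The product of the cocycles of `n` vectors, of degree `2 n`. -/
noncomputable def cc (z : Fin n → V n) (x : Fin (2 * n + 1) → SU n) : ℝ :=
  ∏ i : Fin n, W (z i) (pt (x ⟨2 * i, by omega⟩)) (pt (x ⟨2 * i + 1, by omega⟩))
    (pt (x ⟨2 * i + 2, by omega⟩))

private theorem PrA_dd (h : V n) :
    dd (fun x : Fin 3 → SU n => W h (pt (x 0)) (pt (x 1)) (pt (x 2))) = 0 := by
  funext x
  have h0 := ng_of_eq (hf_pt (x 0))
  have h1 := ng_of_eq (hf_pt (x 1))
  have h2 := ng_of_eq (hf_pt (x 2))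
  have h3 := ng_of_eq (hf_pt (x 3))
  have key := kv_cocycle h0 h1 h2 h3 h
  unfold dd
  rw [Fin.sum_univ_succ, Fin.sum_univ_succ, Fin.sum_univ_succ, Fin.sum_univ_one]
  change (-1 : ℝ) ^ 0 • W h (pt (x 1)) (pt (x 2)) (pt (x 3)) +
    ((-1 : ℝ) ^ 1 • W h (pt (x 0)) (pt (x 2)) (pt (x 3)) +
      ((-1 : ℝ) ^ 2 • W h (pt (x 0)) (pt (x 1)) (pt (x 3)) +
        (-1 : ℝ) ^ 3 • W h (pt (x 0)) (pt (x 1)) (pt (x 2)))) = 0
  unfold W
  simp only [smul_eq_mul]
  linear_combination Real.exp (-(hf h h).re) * key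

theorem cc_cocycle (z : Fin n → V n) : dd (cc z) = 0 :=
  dd_prod n (fun i x => W (z i) (pt (x 0)) (pt (x 1)) (pt (x 2))) fun i => PrA_dd (z i)

theorem cc_meas (x : Fin (2 * n + 1) → SU n) :
    Measurable fun z : Fin n → V n => cc z x := by
  unfold cc
  refine Finset.measurable_prod _ fun i _ => ?_
  exact (W_meas _ _ _).comp (measurable_pi_apply i)

theorem cc_inv (g : SU n) (z : Fin n → V n) (x : Fin (2 * n + 1) → SU n) :
    cc (fun i => g.1.1 *ᵥ z i) (fun i => g * x i) = cc z x := by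
  unfold cc
  refine Finset.prod_congr rfl fun i _ => ?_
  rw [pt_mul, pt_mul, pt_mul]
  exact W_iso (fun y => g.1.1 *ᵥ y) (fun x y => hf_mulVec g x y) _ _ _ _

private theorem PrA_inv (g : SU n) (y : V n) : g.1.1 *ᵥ ((g⁻¹).1.1 *ᵥ y) = y := by
  rw [Matrix.mulVec_mulVec]
  have h : g.1.1 * (g⁻¹).1.1 = 1 := by
    have h1 : (g * g⁻¹ : SU n) = 1 := mul_inv_cancel g
    have h2 := congrArg (fun t : SU n => t.1.1) h1
    exact h2
  rw [h, Matrix.one_mulVec]

theorem tau_mp (g : SU n) :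
    MeasurePreserving (fun (z : Fin n → V n) (i : Fin n) => g.1.1 *ᵥ z i) volume volume := by
  let e : V n ≃ₗ[ℂ] V n :=
    { toFun := fun y => g.1.1 *ᵥ y
      map_add' := fun x y => Matrix.mulVec_add _ _ _
      map_smul' := fun c x => Matrix.mulVec_smul _ _ _
      invFun := fun y => (g⁻¹).1.1 *ᵥ y
      left_inv := fun y => by
        have := PrA_inv g⁻¹ y
        rwa [inv_inv] at this
      right_inv := fun y => PrA_inv g y }
  have h := iso_mp e (fun x y => hf_mulVec g x y)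
  exact volume_preserving_pi fun _ => h

theorem cc_value (x : Fin (2 * n + 1) → SU n) :
    ∫ z : Fin n → V n, cc z x = (Real.pi ^ n / 2) ^ n * kahPow n x := by
  obtain ⟨C, _, hC⟩ := all_good n
  unfold cc
  rw [integral_fintype_prod_volume_eq_prod (fun (i : Fin n) (h : V n) =>
    W h (pt (x ⟨2 * i, by omega⟩)) (pt (x ⟨2 * i + 1, by omega⟩)) (pt (x ⟨2 * i + 2, by omega⟩)))]
  have h1 : ∀ i : Fin n, ∫ h : V n, W h (pt (x ⟨2 * i, by omega⟩))
      (pt (x ⟨2 * i + 1, by omega⟩)) (pt (x ⟨2 * i + 2, by omega⟩)) = (Real.pi ^ n / 2) *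
        kah ![x ⟨2 * i, by omega⟩, x ⟨2 * i + 1, by omega⟩, x ⟨2 * i + 2, by omega⟩] := by
    intro i
    exact (hC _ _ _ (ng_of_eq (hf_pt _)) (ng_of_eq (hf_pt _)) (ng_of_eq (hf_pt _))).value
  rw [Finset.prod_congr rfl fun i _ => h1 i, Finset.prod_mul_distrib, Finset.prod_const,
    Finset.card_univ, Fintype.card_fin]
  rfl

theorem cc_bound (n : ℕ) : ∃ C : ℝ, ∀ x : Fin (2 * n + 1) → SU n,
    ∫ z : Fin n → V n, |cc z x| ≤ C := by
  obtain ⟨C, _, hC⟩ := all_good n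
  refine ⟨C ^ n, fun x => ?_⟩
  have h0 : ∀ z : Fin n → V n, |cc z x| = ∏ i : Fin n, |W (z i) (pt (x ⟨2 * i, by omega⟩))
      (pt (x ⟨2 * i + 1, by omega⟩)) (pt (x ⟨2 * i + 2, by omega⟩))| := by
    intro z
    unfold cc
    rw [Finset.abs_prod]
  simp only [h0]
  rw [integral_fintype_prod_volume_eq_prod (fun (i : Fin n) (h : V n) =>
    |W h (pt (x ⟨2 * i, by omega⟩)) (pt (x ⟨2 * i + 1, by omega⟩)) (pt (x ⟨2 * i + 2, by omega⟩))|)]
  calc ∏ i : Fin n, ∫ h : V n, |W h (pt (x ⟨2 * i, by omega⟩))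
        (pt (x ⟨2 * i + 1, by omega⟩)) (pt (x ⟨2 * i + 2, by omega⟩))|
      ≤ ∏ _i : Fin n, C := by
        refine Finset.prod_le_prod (fun i _ => integral_nonneg fun h => abs_nonneg _)
          fun i _ => ?_
        exact (hC _ _ _ (ng_of_eq (hf_pt _)) (ng_of_eq (hf_pt _)) (ng_of_eq (hf_pt _))).bound
    _ = C ^ n := by rw [Finset.prod_const, Finset.card_univ, Fintype.card_fin]

end Pool.Agent.Helper71.KH
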