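import Pool.Agent.Helper71.KH.PrA

/-!
# Project KH, piece PRB: domination and continuity of the product cocycles

PROOFS. `cc_dom`: fix `x`.  The finitely many functions `x' ↦ ‖pt (x' i) 0‖` and
`x' ↦ ‖hf (pt (x' i)) (pt (x' j))‖` are continuous (`continuous_pt`, `continuous_hf`), so there are `M ≥ 1` and a
neighbourhood of `x` where all of them are `≤ M`; there `W_dom` bounds every factor by
`2 exp (-(∑ ‖z i l‖²) / K)`, and the product of these bounds is integrable
(`Integrable.fintype_prod`, `gauss_integrable`).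
`cc_cont`: for fixed `x` and `i`, for almost all `h` the three numbers `tt (pt (x j)) (pt (x l)) h` are in the slit plane
(`tt_slit_ae`), and the product in `al` is always in it (`al_slit`, positive real part), so
`x' ↦ W h (pt (x' ..)) ..` is continuous at `x` (`Complex.continuousAt_arg`, `continuous_pt`, `continuous_hf`).  This holds
for the coordinate `h = z i` for almost all `z` (`Measure.ae_eval..`,
`(MeasureTheory.quasiMeasurePreserving_eval _ i).ae` or `Measure.tendsto_eval_ae_ae`), for all `i` (finitely many,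
`ae_all_iff`); finite products of functions continuous at `x` (`tendsto_finset_prod`).
-/

set_option autoImplicit false

open MeasureTheory
open scoped Matrix ComplexConjugate

namespace Pool.Agent.Helper71.KH

variable {n : ℕ}

private theorem PrB_hf {α : Type*} [TopologicalSpace α] {f g : α → V n} (h1 : Continuous f)
    (h2 : Continuous g) : Continuous fun a => hf (f a) (g a) :=
  continuous_hf.comp (h1.prodMk h2)

private theorem PrB_pt {m : ℕ} (j : Fin m) : Continuous fun x' : Fin m → SU n => pt (x' j) :=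
  continuous_pt.comp (continuous_apply j)

private theorem PrB_pt0 {m : ℕ} (j : Fin m) :
    Continuous fun x' : Fin m → SU n => ‖pt (x' j) 0‖ :=
  ((continuous_apply (0 : Fin (n + 1))).comp (PrB_pt j)).norm

private theorem PrB_hfn {m : ℕ} (j l : Fin m) :
    Continuous fun x' : Fin m → SU n => ‖hf (pt (x' j)) (pt (x' l))‖ :=
  (PrB_hf (PrB_pt j) (PrB_pt l)).norm

theorem cc_dom (x : Fin (2 * n + 1) → SU n) : ∃ bound : (Fin n → V n) → ℝ,
    Integrable bound ∧ ∀ᶠ x' in nhds x, ∀ᵐ z : Fin n → V n, |cc z x'| ≤ bound z := by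
  set F : (Fin (2 * n + 1) → SU n) → ℝ := fun x' =>
    ∑ j : Fin (2 * n + 1), ‖pt (x' j) 0‖ +
      ∑ j : Fin (2 * n + 1), ∑ l : Fin (2 * n + 1), ‖hf (pt (x' j)) (pt (x' l))‖ with hF
  have hFc : Continuous F := by
    refine (continuous_finset_sum _ fun j _ => PrB_pt0 j).add
      (continuous_finset_sum _ fun j _ => continuous_finset_sum _ fun l _ => PrB_hfn j l)
  have hF0 : 0 ≤ F x := by positivity
  set M : ℝ := F x + 1 with hM
  have hM1 : 1 ≤ M := by linarith
  have hKpos : 0 < 4 * M ^ 2 * (1 + 2 * M ^ 2) := by positivity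
  refine ⟨fun z => ∏ i : Fin n,
    2 * Real.exp (-(∑ l, ‖z i l‖ ^ 2) / (4 * M ^ 2 * (1 + 2 * M ^ 2))), ?_, ?_⟩
  · exact Integrable.fintype_prod (f := fun (_ : Fin n) (h : V n) =>
      2 * Real.exp (-(∑ l, ‖h l‖ ^ 2) / (4 * M ^ 2 * (1 + 2 * M ^ 2))))
      fun _ => (gauss_integrable hKpos).const_mul 2
  · have hev : ∀ᶠ x' in nhds x, F x' < M :=
      hFc.continuousAt.eventually_lt continuousAt_const (by linarith)
    filter_upwards [hev] with x' hx'
    refine Filter.Eventually.of_forall fun z => ?_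
    have hn1 : ∀ j, ‖pt (x' j) 0‖ ≤ M := by
      intro j
      refine le_trans ?_ hx'.le
      have h1 : ‖pt (x' j) 0‖ ≤ ∑ j : Fin (2 * n + 1), ‖pt (x' j) 0‖ :=
        Finset.single_le_sum (f := fun j => ‖pt (x' j) 0‖) (fun _ _ => norm_nonneg _)
          (Finset.mem_univ j)
      have h2 : 0 ≤ ∑ j : Fin (2 * n + 1), ∑ l : Fin (2 * n + 1),
        ‖hf (pt (x' j)) (pt (x' l))‖ := by positivity
      simp only [hF]
      linarith
    have hn2 : ∀ j l, ‖hf (pt (x' j)) (pt (x' l))‖ ≤ M := by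
      intro j l
      refine le_trans ?_ hx'.le
      have h1 : ‖hf (pt (x' j)) (pt (x' l))‖ ≤ ∑ l : Fin (2 * n + 1),
          ‖hf (pt (x' j)) (pt (x' l))‖ :=
        Finset.single_le_sum (f := fun l => ‖hf (pt (x' j)) (pt (x' l))‖)
          (fun _ _ => norm_nonneg _) (Finset.mem_univ l)
      have h3 : ∑ l : Fin (2 * n + 1), ‖hf (pt (x' j)) (pt (x' l))‖ ≤
          ∑ j : Fin (2 * n + 1), ∑ l : Fin (2 * n + 1), ‖hf (pt (x' j)) (pt (x' l))‖ :=
        Finset.single_le_sum
          (f := fun j => ∑ l : Fin (2 * n + 1), ‖hf (pt (x' j)) (pt (x' l))‖)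
          (fun _ _ => Finset.sum_nonneg fun _ _ => norm_nonneg _) (Finset.mem_univ j)
      have h2 : 0 ≤ ∑ j : Fin (2 * n + 1), ‖pt (x' j) 0‖ := by positivity
      simp only [hF]
      linarith
    unfold cc
    rw [Finset.abs_prod]
    refine Finset.prod_le_prod (fun _ _ => abs_nonneg _) fun i _ => ?_
    exact W_dom (hf_pt _) (hf_pt _) (hf_pt _) hM1 (hn1 _) (hn1 _) (hn1 _) (hn2 _ _) (hn2 _ _)
      (hn2 _ _) _

private theorem PrB_W {m : ℕ} (x : Fin m → SU n) (a b c : Fin m) (h : V n)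
    (h1 : tt (pt (x b)) (pt (x c)) h ∈ Complex.slitPlane)
    (h2 : tt (pt (x a)) (pt (x c)) h ∈ Complex.slitPlane)
    (h3 : tt (pt (x a)) (pt (x b)) h ∈ Complex.slitPlane) :
    ContinuousAt (fun x' : Fin m → SU n => W h (pt (x' a)) (pt (x' b)) (pt (x' c))) x := by
  have htt : ∀ j l : Fin m, Continuous fun x' : Fin m → SU n => tt (pt (x' j)) (pt (x' l)) h := by
    intro j l
    unfold tt
    exact (((PrB_hf (PrB_pt l) continuous_const).mul
      (PrB_hf continuous_const (PrB_pt j))).mul (PrB_hf (PrB_pt j) (PrB_pt l))).neg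
  have harg : ∀ j l : Fin m, tt (pt (x j)) (pt (x l)) h ∈ Complex.slitPlane →
      ContinuousAt (fun x' : Fin m → SU n => Complex.arg (tt (pt (x' j)) (pt (x' l)) h)) x := by
    intro j l hs
    exact ContinuousAt.comp (f := fun x' : Fin m → SU n => tt (pt (x' j)) (pt (x' l)) h)
      (Complex.continuousAt_arg hs) (htt j l).continuousAt
  have hal : ContinuousAt (fun x' : Fin m → SU n => al (pt (x' a)) (pt (x' b)) (pt (x' c))) x := by
    unfold al
    have hc : Continuous fun x' : Fin m → SU n =>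
        -(hf (pt (x' a)) (pt (x' b)) * hf (pt (x' b)) (pt (x' c)) * hf (pt (x' c)) (pt (x' a))) :=
      (((PrB_hf (PrB_pt a) (PrB_pt b)).mul (PrB_hf (PrB_pt b) (PrB_pt c))).mul
        (PrB_hf (PrB_pt c) (PrB_pt a))).neg
    have hs := al_slit (ng_of_eq (hf_pt (x a))) (ng_of_eq (hf_pt (x b))) (ng_of_eq (hf_pt (x c)))
    exact ContinuousAt.comp (f := fun x' : Fin m → SU n =>
        -(hf (pt (x' a)) (pt (x' b)) * hf (pt (x' b)) (pt (x' c)) * hf (pt (x' c)) (pt (x' a))))
      (Complex.continuousAt_arg (Or.inl hs)) hc.continuousAt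
  unfold W kv
  exact continuousAt_const.mul
    (((((harg b c h1).sub (harg a c h2)).add (harg a b h3)).sub hal).div_const _)

theorem cc_cont (x : Fin (2 * n + 1) → SU n) :
    ∀ᵐ z : Fin n → V n, ContinuousAt (fun x' => cc z x') x := by
  have key : ∀ i : Fin n, ∀ᵐ z : Fin n → V n,
      ContinuousAt (fun x' : Fin (2 * n + 1) → SU n => W (z i) (pt (x' ⟨2 * i, by omega⟩))
        (pt (x' ⟨2 * i + 1, by omega⟩)) (pt (x' ⟨2 * i + 2, by omega⟩))) x := by
    intro i
    have hng : ∀ j, Ng (pt (x j)) := fun j => ng_of_eq (hf_pt (x j))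
    have h : ∀ᵐ h : V n, ContinuousAt (fun x' : Fin (2 * n + 1) → SU n =>
        W h (pt (x' ⟨2 * i, by omega⟩)) (pt (x' ⟨2 * i + 1, by omega⟩))
          (pt (x' ⟨2 * i + 2, by omega⟩))) x := by
      filter_upwards [tt_slit_ae (hng ⟨2 * i + 1, by omega⟩) (hng ⟨2 * i + 2, by omega⟩),
        tt_slit_ae (hng ⟨2 * i, by omega⟩) (hng ⟨2 * i + 2, by omega⟩),
        tt_slit_ae (hng ⟨2 * i, by omega⟩) (hng ⟨2 * i + 1, by omega⟩)] with h h1 h2 h3
      exact PrB_W x _ _ _ h h1 h2 h3
    exact (Measure.quasiMeasurePreserving_eval (fun _ : Fin n => (volume : Measure (V n))) i).ae h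
  have hall := ae_all_iff.2 key
  filter_upwards [hall] with z hz
  unfold cc
  exact tendsto_finset_prod _ fun i _ => hz i

end Pool.Agent.Helper71.KH
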