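import Pool.Agent.Helper71.KH.KvL

/-!
# Project KH, piece RTA: the cocycle on a real right triangle

PROOF. Put `a = h 0`, `b = h 0 - s * h 1`, `c = h 0 - t * h 2`.  For `x = e0 + s • e1`,
`y = e0 + t • e2`, `z = e0` (`hf_e0`, `hf_e1`, `hf_e2`, `hf_add_left`, `hf_smul_left`):
`hf x y = -1`, `hf y z = -1`, `hf x z = -1`, `hf z h = -conj a`, `hf x h = -conj b`, `hf y h = -conj c`,
`tt y z h = conj a * c`, `tt x z h = conj a * b`, `tt x y h = conj c * b`, `al x y z = arg 1 = 0`.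
So `2 π kv h x y z = arg (c * conj a) - arg (b * conj a) + arg (b * conj c)`, which is `0` if `a, b, c`
are in an open half plane (`arg_tri` with `(b, c, a)` for `(a, b, c)`).  By `halfplane_or` otherwise
`α a + β b + γ c = 0`, i.e. `h 0 = (β s) h 1 + (γ t) h 2`; take `l = β s`, `m' = γ t`.
-/

set_option autoImplicit false

open MeasureTheory
open scoped Matrix ComplexConjugate

namespace Pool.Agent.Helper71.KH

private theorem rta_x (m : ℕ) (s : ℝ) (h : V (m + 2)) :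
    hf (e0 (m + 2) + (s : ℂ) • e1 (m + 1)) h = -conj (h 0 - (s : ℂ) * h 1) := by
  rw [hf_add_left, hf_smul_left, hf_e0, hf_e1, map_sub, map_mul, Complex.conj_ofReal]
  ring

private theorem rta_y (m : ℕ) (t : ℝ) (h : V (m + 2)) :
    hf (e0 (m + 2) + (t : ℂ) • e2 m) h = -conj (h 0 - (t : ℂ) * h 2) := by
  rw [hf_add_left, hf_smul_left, hf_e0, hf_e2, map_sub, map_mul, Complex.conj_ofReal]
  ring

private theorem rta_y0 (m : ℕ) (t : ℝ) : (e0 (m + 2) + (t : ℂ) • e2 m) 0 = 1 := by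
  rw [Pi.add_apply, Pi.smul_apply, e0_zero]
  have : e2 m 0 = 0 :=
    Pi.single_eq_of_ne (M := fun _ : Fin (m + 2 + 1) => ℂ)
      (Fin.succ_ne_zero (1 : Fin (m + 2))).symm 1
  rw [this]
  simp

private theorem rta_y1 (m : ℕ) (t : ℝ) : (e0 (m + 2) + (t : ℂ) • e2 m) 1 = 0 := by
  rw [Pi.add_apply, Pi.smul_apply]
  have h0 : e0 (m + 2) 1 = 0 := e0_succ (m + 2) 0
  have : e2 m 1 = 0 :=
    Pi.single_eq_of_ne (M := fun _ : Fin (m + 2 + 1) => ℂ)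
      (fun h : (0 : Fin (m + 2)).succ = (1 : Fin (m + 2)).succ =>
        (Fin.zero_ne_one (n := m)) (Fin.succ_injective _ h)) 1
  rw [this, h0]
  simp

private theorem rta_xy (m : ℕ) (s t : ℝ) :
    hf (e0 (m + 2) + (s : ℂ) • e1 (m + 1)) (e0 (m + 2) + (t : ℂ) • e2 m) = -1 := by
  rw [rta_x, rta_y0, rta_y1]
  simp

private theorem rta_xz (m : ℕ) (s : ℝ) :
    hf (e0 (m + 2) + (s : ℂ) • e1 (m + 1)) (e0 (m + 2)) = -1 := by
  have h0 : e0 (m + 2) 1 = 0 := e0_succ (m + 2) 0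
  rw [rta_x, h0, e0_zero]
  simp

private theorem rta_yz (m : ℕ) (t : ℝ) :
    hf (e0 (m + 2) + (t : ℂ) • e2 m) (e0 (m + 2)) = -1 := by
  have h0 : e0 (m + 2) 2 = 0 := e0_succ (m + 2) 1
  rw [rta_y, h0, e0_zero]
  simp

private theorem rta_al (m : ℕ) (s t : ℝ) :
    al (e0 (m + 2) + (s : ℂ) • e1 (m + 1)) (e0 (m + 2) + (t : ℂ) • e2 m) (e0 (m + 2)) = 0 := by
  unfold al
  rw [rta_xy, rta_yz, ← hf_conj (e0 (m + 2) + (s : ℂ) • e1 (m + 1)) (e0 (m + 2)), rta_xz]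
  simp

theorem kv_real (m : ℕ) {s t : ℝ} (hs : 0 ≤ s) (hs' : s ≤ 1) (ht : 0 ≤ t) (ht' : t ≤ 1)
    (h : V (m + 2))
    (hne : kv h (e0 (m + 2) + (s : ℂ) • e1 (m + 1)) (e0 (m + 2) + (t : ℂ) • e2 m)
      (e0 (m + 2)) ≠ 0) :
    ∃ l l' : ℝ, 0 ≤ l ∧ 0 ≤ l' ∧ l + l' ≤ 1 ∧ h 0 = l * h 1 + l' * h 2 := by
  have hyz : tt (e0 (m + 2) + (t : ℂ) • e2 m) (e0 (m + 2)) h =
      (h 0 - (t : ℂ) * h 2) * conj (h 0) := by
    unfold tt
    rw [rta_yz, ← hf_conj (e0 (m + 2) + (t : ℂ) • e2 m) h, rta_y, hf_e0, map_neg,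
      Complex.conj_conj]
    ring
  have hxz : tt (e0 (m + 2) + (s : ℂ) • e1 (m + 1)) (e0 (m + 2)) h =
      (h 0 - (s : ℂ) * h 1) * conj (h 0) := by
    unfold tt
    rw [rta_xz, ← hf_conj (e0 (m + 2) + (s : ℂ) • e1 (m + 1)) h, rta_x, hf_e0, map_neg,
      Complex.conj_conj]
    ring
  have hxy : tt (e0 (m + 2) + (s : ℂ) • e1 (m + 1)) (e0 (m + 2) + (t : ℂ) • e2 m) h =
      (h 0 - (s : ℂ) * h 1) * conj (h 0 - (t : ℂ) * h 2) := by
    unfold tt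
    rw [rta_xy, ← hf_conj (e0 (m + 2) + (s : ℂ) • e1 (m + 1)) h, rta_x, rta_y, map_neg,
      Complex.conj_conj]
    ring
  rcases halfplane_or (h 0) (h 0 - (s : ℂ) * h 1) (h 0 - (t : ℂ) * h 2) with
    ⟨u, h1, h2, h3⟩ | ⟨α, β, γ, hα, hβ, hγ, hsum, hz⟩
  · exfalso
    apply hne
    unfold kv
    rw [hyz, hxz, hxy, rta_al, arg_tri h2 h3 h1]
    simp
  · refine ⟨β * s, γ * t, mul_nonneg hβ hs, mul_nonneg hγ ht, ?_, ?_⟩
    · have e1 : β * s ≤ β := mul_le_of_le_one_right hβ hs'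
      have e2 : γ * t ≤ γ := mul_le_of_le_one_right hγ ht'
      linarith
    · have hsum' : (α : ℂ) + β + γ = 1 := by
        rw [← Complex.ofReal_add, ← Complex.ofReal_add, hsum, Complex.ofReal_one]
      push_cast
      linear_combination hz - h 0 * hsum'

theorem al_real (m : ℕ) (s t : ℝ) :
    al (e0 (m + 2) + (s : ℂ) • e1 (m + 1)) (e0 (m + 2) + (t : ℂ) • e2 m) (e0 (m + 2)) = 0 :=
  rta_al m s t

end Pool.Agent.Helper71.KH
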