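import Pool.Agent.Helper71.KH.Hf

/-!
# Project KH, piece SGA: Gram-Schmidt for the form of signature (n, 1)

PROOFS. All by induction on `k`.  `gs_meas`: `Fin.snoc` of measurable functions; `hf` is continuous,
quotients of measurable functions are measurable.  `gs_equiv`: `hf` is invariant (`hf_mulVec`), `*ᵥ` is linear
(`Matrix.mulVec_sub`, `mulVec_sum`, `mulVec_smul`), `Fin.init`/`Fin.snoc` commute with the action.
`gs_orth`: for `i < j = last`: `hf (u i) (z - ∑ pr (u l) z) = hf (u i) z - hf (u i) (pr (u i) z) = 0`
(`hf (pr u h) u = hf h u` if `hf u u ≠ 0`; `hf_conj`); symmetric for `i > j`.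
`gs_inv`: the isometries leave the values `hf (gs i) (gs i)` unchanged (from `gs_equiv`).
-/

set_option autoImplicit false

open MeasureTheory
open scoped Matrix ComplexConjugate

namespace Pool.Agent.Helper71.KH

variable {n : ℕ}

/-- The component of `h` in the direction of `u`. -/
noncomputable def pr (u h : V n) : V n := (hf h u / hf u u) • u

/-- The Gram-Schmidt process. -/
noncomputable def gs {n : ℕ} : (k : ℕ) → (Fin k → V n) → (Fin k → V n)
  | 0, z => z
  | k + 1, z => Fin.snoc (α := fun _ => V n) (gs k (Fin.init (α := fun _ => V n) z))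
      (z (Fin.last k) - ∑ i, pr (gs k (Fin.init (α := fun _ => V n) z) i) (z (Fin.last k)))

private theorem gs_last (k : ℕ) (z : Fin (k + 1) → V n) :
    gs (k + 1) z (Fin.last k) = z (Fin.last k) -
      ∑ i, pr (gs k (fun j => z j.castSucc) i) (z (Fin.last k)) := by
  rw [gs, Fin.snoc_last]
  rfl

private theorem gs_castSucc (k : ℕ) (z : Fin (k + 1) → V n) (i : Fin k) :
    gs (k + 1) z i.castSucc = gs k (fun j => z j.castSucc) i := by
  rw [gs, Fin.snoc_castSucc]
  rfl

private theorem meas_pr {T : Type*} [MeasurableSpace T] {a b : T → V n} (ha : Measurable a)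
    (hb : Measurable b) : Measurable fun t => pr (a t) (b t) := by
  unfold pr
  have h1 : Measurable fun t => hf (b t) (a t) := continuous_hf.measurable.comp (hb.prodMk ha)
  have h2 : Measurable fun t => hf (a t) (a t) := continuous_hf.measurable.comp (ha.prodMk ha)
  exact (h1.div h2).smul ha

theorem gs_meas (k : ℕ) : Measurable (gs k : (Fin k → V n) → (Fin k → V n)) := by
  induction k with
  | zero => exact measurable_id
  | succ k ih =>
    have h1 : Measurable fun z : Fin (k + 1) → V n => gs k fun j => z j.castSucc :=
      ih.comp (measurable_pi_lambda _ fun j => measurable_pi_apply _)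
    refine measurable_pi_lambda _ fun i => ?_
    induction i using Fin.lastCases with
    | last =>
      simp only [gs_last]
      refine (measurable_pi_apply _).sub (Finset.measurable_sum _ fun i _ => ?_)
      exact meas_pr ((measurable_pi_apply i).comp h1) (measurable_pi_apply _)
    | cast i =>
      simp only [gs_castSucc]
      exact (measurable_pi_apply i).comp h1

private theorem pr_equiv (g : SU n) (u h : V n) :
    pr (g.1.1 *ᵥ u) (g.1.1 *ᵥ h) = g.1.1 *ᵥ pr u h := by
  unfold pr
  rw [hf_mulVec, hf_mulVec, Matrix.mulVec_smul]

theorem gs_equiv (k : ℕ) (g : SU n) (z : Fin k → V n) :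
    gs k (fun i => g.1.1 *ᵥ z i) = fun i => g.1.1 *ᵥ gs k z i := by
  induction k with
  | zero => funext i; exact i.elim0
  | succ k ih =>
    have h1 := ih fun j => z j.castSucc
    funext i
    induction i using Fin.lastCases with
    | last =>
      rw [gs_last, gs_last, Matrix.mulVec_sub, h1]
      congr 1
      simp only [pr_equiv]
      rw [← Matrix.mulVecLin_apply, map_sum]
      rfl
    | cast i =>
      rw [gs_castSucc, gs_castSucc, h1]

private theorem hf_pr {u : V n} (hu : hf u u ≠ 0) (h : V n) : hf u (pr u h) = hf u h := by
  unfold pr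
  rw [hf_smul_right, map_div₀, hf_conj, hf_conj, div_mul_cancel₀ _ hu]

theorem gs_orth (k : ℕ) (z : Fin k → V n) (h : ∀ i, hf (gs k z i) (gs k z i) ≠ 0) :
    ∀ i j, i ≠ j → hf (gs k z i) (gs k z j) = 0 := by
  induction k with
  | zero => intro i; exact i.elim0
  | succ k ih =>
    have hn : ∀ i, hf (gs k (fun j => z j.castSucc) i) (gs k (fun j => z j.castSucc) i) ≠ 0 := by
      intro i
      have := h i.castSucc
      rwa [gs_castSucc] at this
    have hI := ih (fun j => z j.castSucc) hn
    have key : ∀ i : Fin k, hf (gs (k + 1) z i.castSucc) (gs (k + 1) z (Fin.last k)) = 0 := by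
      intro i
      rw [gs_castSucc, gs_last, hf_sub_right, hf_sum_right, Finset.sum_eq_single i]
      · rw [hf_pr (hn i), sub_self]
      · intro j _ hj
        unfold pr
        rw [hf_smul_right, hI i j hj.symm, mul_zero]
      · intro hi
        exact absurd (Finset.mem_univ _) hi
    intro i j hij
    induction i using Fin.lastCases with
    | last =>
      induction j using Fin.lastCases with
      | last => exact absurd rfl hij
      | cast j => rw [← hf_conj, key j, map_zero]
    | cast i =>
      induction j using Fin.lastCases with
      | last => exact key i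
      | cast j =>
        rw [gs_castSucc, gs_castSucc]
        exact hI i j fun h => hij (by rw [h])

end Pool.Agent.Helper71.KH
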