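import Pool.Agent.Helper71.KH.SgA
import Pool.Agent.Helper71.KH.Kdef

/-!
# Project KH, piece SGB: Gram-Schmidt works for almost all tuples

PROOF. Induction on `k`.  Step `k → k + 1 ≤ n`: the set of the good `z` is measurable (`gs_meas`), and
`(Fin (k + 1) → V n) ≃ᵐ V n × (Fin k → V n)` by `MeasurableEquiv.piFinSuccAbove (fun _ => V n) (Fin.last k)`,
measure preserving (`volume_preserving_piFinSuccAbove`), so by Tonelli
(`Measure.measure_prod_null`, `ae_prod..`) it is enough: for
orthogonal `u : Fin k → V n` with `hf (u i) (u i) ≠ 0` and `P h = h - ∑ i, pr (u i) h`, `hf (P h) (P h) ≠ 0` for almost all `h`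
(`gs_aux`).
`gs_aux`: `P` is linear and `hf (P h) (u i) = 0`.  There is `y` with `hf (P y) (P y) ≠ 0`: otherwise, by
polarisation, `hf (P y) (P y') = 0` for all `y, y'`, and `hf (P y) y' = hf (P y) (P y') = 0`
(`y' - P y'` is in the span of the `u i`), so `P y = 0` for all `y` (`hf` is non-degenerate) and the `u i`
span `V n`, impossible for `k < n + 1 = dim`.  Put `e = P y`, so `P e = e`, `a = hf e e` real and `≠ 0`.  For every `h` and
real `s`, `hf (P (h + s • e)) (P (h + s • e)) = hf (P h) (P h) + 2 s (hf (P h) e).re + s² a` is a quadratic polynomial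
in `s`, with at most two zeros, so it is `≠ 0` for almost all real `s`;
`MeasureTheory.ae_mem_of_ae_add_linearMap_mem` with the linear map `s ↦ s • e`, `ℝ → V n`.
-/

set_option autoImplicit false

open MeasureTheory
open scoped Matrix ComplexConjugate

namespace Pool.Agent.Helper71.KH

variable {n : ℕ}

private theorem SgB_proj {k : ℕ} (u : Fin k → V n) (h0 : ∀ i, hf (u i) (u i) ≠ 0)
    (ho : ∀ i j, i ≠ j → hf (u i) (u j) = 0) (h : V n) (j : Fin k) :
    hf (h - ∑ i, pr (u i) h) (u j) = 0 := by
  rw [hf_sub_left, hf_sum_left, Finset.sum_eq_single j]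
  · unfold pr
    rw [hf_smul_left, div_mul_cancel₀ _ (h0 j), sub_self]
  · intro i _ hij
    unfold pr
    rw [hf_smul_left, ho i j hij, mul_zero]
  · intro hj
    exact absurd (Finset.mem_univ _) hj

private theorem SgB_nondeg {x : V n} (h : ∀ y : V n, hf x y = 0) : x = 0 := by
  funext i
  refine Fin.cases ?_ (fun j => ?_) i
  · have h1 := h (e0 n)
    rw [← hf_conj, hf_e0] at h1
    simpa using h1
  · have h1 := h (Pi.single j.succ 1 : V n)
    rw [← hf_conj, hf_single_succ] at h1
    simpa using h1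

private theorem SgB_polar {S : V n → V n} (hadd : ∀ y y', S (y + y') = S y + S y')
    (hsm : ∀ (c : ℂ) y, S (c • y) = c • S y) (h : ∀ y, hf (S y) (S y) = 0) (y y' : V n) :
    hf (S y) (S y') = 0 := by
  have h1 := h (y + y')
  rw [hadd, hf_add_left, hf_add_right, hf_add_right, h y, h y', zero_add, add_zero] at h1
  have h2 := h (y + Complex.I • y')
  rw [hadd, hsm, hf_add_left, hf_add_right, hf_add_right, hf_smul_left, hf_smul_right,
    hf_smul_left, hf_smul_right, h y, h y', Complex.conj_I] at h2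
  have h3 : Complex.I * (hf (S y') (S y) - hf (S y) (S y')) = 0 := by
    rw [← h2]
    ring
  have h4 : hf (S y') (S y) - hf (S y) (S y') = 0 := by
    rcases mul_eq_zero.mp h3 with h5 | h5
    · exact absurd h5 Complex.I_ne_zero
    · exact h5
  have h5 : (2 : ℂ) * hf (S y) (S y') = 0 := by
    linear_combination h1 - h4
  rcases mul_eq_zero.mp h5 with h6 | h6
  · norm_num at h6
  · exact h6

private theorem SgB_add {k : ℕ} (u : Fin k → V n) (y y' : V n) :
    (y + y') - ∑ i, pr (u i) (y + y') = (y - ∑ i, pr (u i) y) + (y' - ∑ i, pr (u i) y') := by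
  have h1 : ∑ i, pr (u i) (y + y') = ∑ i, pr (u i) y + ∑ i, pr (u i) y' := by
    rw [← Finset.sum_add_distrib]
    refine Finset.sum_congr rfl fun i _ => ?_
    unfold pr
    rw [hf_add_left, add_div, add_smul]
  rw [h1]
  abel

private theorem SgB_smul {k : ℕ} (u : Fin k → V n) (c : ℂ) (y : V n) :
    (c • y) - ∑ i, pr (u i) (c • y) = c • (y - ∑ i, pr (u i) y) := by
  have h1 : ∑ i, pr (u i) (c • y) = c • ∑ i, pr (u i) y := by
    rw [Finset.smul_sum]
    refine Finset.sum_congr rfl fun i _ => ?_
    unfold pr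
    rw [hf_smul_left, mul_div_assoc, mul_smul]
  rw [h1, smul_sub]

private theorem SgB_exists {k : ℕ} (hk : k < n + 1) (u : Fin k → V n)
    (h0 : ∀ i, hf (u i) (u i) ≠ 0) (ho : ∀ i j, i ≠ j → hf (u i) (u j) = 0) :
    ∃ y : V n, hf (y - ∑ i, pr (u i) y) (y - ∑ i, pr (u i) y) ≠ 0 := by
  by_contra hcon
  push Not at hcon
  have h1 := SgB_polar (S := fun y => y - ∑ i, pr (u i) y) (SgB_add u) (SgB_smul u) hcon
  have h2 : ∀ y y' : V n, hf (y - ∑ i, pr (u i) y) y' = 0 := by
    intro y y'
    have e1 : y' = (y' - ∑ i, pr (u i) y') + ∑ i, pr (u i) y' := by abel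
    rw [e1, hf_add_right]
    have e2 : hf (y - ∑ i, pr (u i) y) (y' - ∑ i, pr (u i) y') = 0 := h1 y y'
    rw [e2, zero_add, hf_sum_right]
    refine Finset.sum_eq_zero fun i _ => ?_
    unfold pr
    rw [hf_smul_right]
    have e3 := SgB_proj u h0 ho y i
    unfold pr at e3
    rw [e3, mul_zero]
  have h3 : ∀ y : V n, y ∈ Submodule.span ℂ (Set.range u) := by
    intro y
    have h4 := SgB_nondeg (h2 y)
    rw [sub_eq_zero] at h4
    rw [h4]
    refine Submodule.sum_mem _ fun i _ => ?_
    unfold pr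
    exact Submodule.smul_mem _ _ (Submodule.subset_span ⟨i, rfl⟩)
  have h4 : Submodule.span ℂ (Set.range u) = ⊤ := by
    rw [Submodule.eq_top_iff']
    exact h3
  have h5 := finrank_range_le_card (R := ℂ) u
  unfold Set.finrank at h5
  rw [h4, finrank_top, Module.finrank_fintype_fun_eq_card, Fintype.card_fin,
    Fintype.card_fin] at h5
  omega

theorem gs_aux {k : ℕ} (hk : k < n + 1) (u : Fin k → V n) (h0 : ∀ i, hf (u i) (u i) ≠ 0)
    (ho : ∀ i j, i ≠ j → hf (u i) (u j) = 0) :
    ∀ᵐ h : V n, hf (h - ∑ i, pr (u i) h) (h - ∑ i, pr (u i) h) ≠ 0 := by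
  obtain ⟨y, hy⟩ := SgB_exists hk u h0 ho
  set e : V n := y - ∑ i, pr (u i) y with he
  have hPe : e - ∑ i, pr (u i) e = e := by
    have : ∑ i, pr (u i) e = 0 := by
      refine Finset.sum_eq_zero fun i _ => ?_
      unfold pr
      rw [he, SgB_proj u h0 ho y i, zero_div, zero_smul]
    rw [this, sub_zero]
  have hcont : Continuous fun h : V n => h - ∑ i, pr (u i) h := by
    refine continuous_id.sub (continuous_finsetSum _ fun i _ => ?_)
    unfold pr
    exact ((continuous_hf.comp (continuous_id.prodMk continuous_const)).div_const _).smul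
      continuous_const
  have hmeas : MeasurableSet {h : V n | hf (h - ∑ i, pr (u i) h) (h - ∑ i, pr (u i) h) ≠ 0} := by
    have h1 : Continuous fun h : V n => hf (h - ∑ i, pr (u i) h) (h - ∑ i, pr (u i) h) :=
      continuous_hf.comp (hcont.prodMk hcont)
    exact (h1.measurable (measurableSet_singleton 0)).compl
  have hre : (hf e e).re ≠ 0 := by
    intro h
    apply hy
    rw [hf_self_eq, h, Complex.ofReal_zero]
  refine ae_mem_of_ae_add_linearMap_mem (LinearMap.toSpanSingleton ℝ (V n) e)
    (volume : Measure ℝ) (volume : Measure (V n)) hmeas ?_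
  intro h
  set P : V n := h - ∑ i, pr (u i) h with hP
  have hval : ∀ s : ℝ, h + LinearMap.toSpanSingleton ℝ (V n) e s ∈
      {h : V n | hf (h - ∑ i, pr (u i) h) (h - ∑ i, pr (u i) h) ≠ 0} ↔
      hf (P + (s : ℂ) • e) (P + (s : ℂ) • e) ≠ 0 := by
    intro s
    have e1 : LinearMap.toSpanSingleton ℝ (V n) e s = (s : ℂ) • e := by
      rw [LinearMap.toSpanSingleton_apply]
      funext i
      simp
    rw [e1]
    show hf (_ - _) (_ - _) ≠ 0 ↔ _
    rw [SgB_add, SgB_smul, hPe]
  have hpoly : ∀ s : ℝ, (hf (P + (s : ℂ) • e) (P + (s : ℂ) • e)).re =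
      (hf P P).re + 2 * s * (hf P e).re + s ^ 2 * (hf e e).re := by
    intro s
    rw [hf_add_left, hf_add_right, hf_add_right, hf_smul_left, hf_smul_right, hf_smul_left,
      hf_smul_right, Complex.conj_ofReal, ← hf_conj P e]
    simp only [Complex.add_re, Complex.re_ofReal_mul, Complex.conj_re]
    ring
  have hfin : {s : ℝ | (hf P P).re + 2 * s * (hf P e).re + s ^ 2 * (hf e e).re = 0}.Finite := by
    set q : Polynomial ℝ := Polynomial.C (hf P P).re + Polynomial.C (2 * (hf P e).re) *
      Polynomial.X + Polynomial.C (hf e e).re * Polynomial.X ^ 2 with hq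
    have hq0 : q ≠ 0 := by
      intro h
      have h1 : q.coeff 2 = 0 := by rw [h]; simp
      rw [hq] at h1
      simp at h1
      exact hre h1
    refine (q.rootSet_finite ℝ).subset ?_
    intro s hs
    rw [Polynomial.mem_rootSet]
    refine ⟨hq0, ?_⟩
    have hs' : (hf P P).re + 2 * s * (hf P e).re + s ^ 2 * (hf e e).re = 0 := hs
    rw [hq]
    simp only [map_add, map_mul, Polynomial.aeval_X, map_pow, Polynomial.aeval_C,
      Algebra.algebraMap_self, RingHom.id_apply]
    linear_combination hs'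
  have hnull : ∀ᵐ s : ℝ, s ∉ {s : ℝ | (hf P P).re + 2 * s * (hf P e).re +
      s ^ 2 * (hf e e).re = 0} := by
    rw [ae_iff]
    simp only [not_not]
    exact hfin.measure_zero _
  filter_upwards [hnull] with s hs
  refine (hval s).mpr ?_
  intro h1
  apply hs
  show (hf P P).re + 2 * s * (hf P e).re + s ^ 2 * (hf e e).re = 0
  rw [← hpoly, h1, Complex.zero_re]

private theorem SgB_meas (k : ℕ) :
    MeasurableSet {z : Fin k → V n | ∀ i, hf (gs k z i) (gs k z i) ≠ 0} := by
  have h1 : {z : Fin k → V n | ∀ i, hf (gs k z i) (gs k z i) ≠ 0} =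
      ⋂ i, {z : Fin k → V n | hf (gs k z i) (gs k z i) = 0}ᶜ := by
    ext z
    simp
  rw [h1]
  refine MeasurableSet.iInter fun i => MeasurableSet.compl ?_
  have h2 : Measurable fun z : Fin k → V n => gs k z i := (measurable_pi_apply i).comp (gs_meas k)
  have h3 : Measurable fun z : Fin k → V n => hf (gs k z i) (gs k z i) :=
    continuous_hf.measurable.comp (h2.prodMk h2)
  exact h3 (measurableSet_singleton 0)

theorem gs_ae (k : ℕ) (hk : k ≤ n) :
    ∀ᵐ z : Fin k → V n, ∀ i, hf (gs k z i) (gs k z i) ≠ 0 := by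
  induction k with
  | zero => exact Filter.Eventually.of_forall fun z i => i.elim0
  | succ k ih =>
    have hk' : k ≤ n := by omega
    have ih' := ih hk'
    set S : Set (Fin (k + 1) → V n) :=
      {z | ∀ i, hf (gs (k + 1) z i) (gs (k + 1) z i) ≠ 0} with hS
    have hSm : MeasurableSet S := SgB_meas (k + 1)
    set e := MeasurableEquiv.piFinSuccAbove (fun _ : Fin (k + 1) => V n) (Fin.last k) with he
    have hmp : MeasurePreserving e volume volume :=
      volume_preserving_piFinSuccAbove (fun _ : Fin (k + 1) => V n) (Fin.last k)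
    have hSm' : MeasurableSet (e.symm ⁻¹' S) := e.symm.measurable hSm
    have hmem : ∀ (w : Fin k → V n) (h : V n), (∀ i, hf (gs k w i) (gs k w i) ≠ 0) →
        hf (h - ∑ i, pr (gs k w i) h) (h - ∑ i, pr (gs k w i) h) ≠ 0 →
        (h, w) ∈ e.symm ⁻¹' S := by
      intro w h hw hh
      have h1 : Fin.init (α := fun _ => V n) (e.symm (h, w)) = w := by
        funext j
        show (Fin.insertNth (Fin.last k) h w : Fin (k + 1) → V n) j.castSucc = w j
        rw [Fin.insertNth_last']
        simp
      have h2 : (e.symm (h, w)) (Fin.last k) = h := by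
        show (Fin.insertNth (Fin.last k) h w : Fin (k + 1) → V n) (Fin.last k) = h
        simp
      show ∀ i, hf (gs (k + 1) (e.symm (h, w)) i) (gs (k + 1) (e.symm (h, w)) i) ≠ 0
      intro i
      refine Fin.lastCases ?_ (fun j => ?_) i
      · have h3 : gs (k + 1) (e.symm (h, w)) (Fin.last k) = h - ∑ i, pr (gs k w i) h := by
          rw [gs, Fin.snoc_last, h1, h2]
        rw [h3]
        exact hh
      · have h3 : gs (k + 1) (e.symm (h, w)) j.castSucc = gs k w j := by
          rw [gs, Fin.snoc_castSucc, h1]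
        rw [h3]
        exact hw j
    have hae : ∀ᵐ p : V n × (Fin k → V n), p ∈ e.symm ⁻¹' S := by
      have h1 : (∀ᵐ w : Fin k → V n, ∀ᵐ h : V n, (h, w) ∈ e.symm ⁻¹' S) := by
        filter_upwards [ih'] with w hw
        filter_upwards [gs_aux (by omega) (gs k w) hw (gs_orth k w hw)] with h hh
        exact hmem w h hw hh
      have h2 := (Measure.ae_ae_comm (μ := (volume : Measure (V n)))
        (ν := (volume : Measure (Fin k → V n))) (p := fun h w => (h, w) ∈ e.symm ⁻¹' S)
        hSm').mpr h1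
      exact (Measure.ae_prod_mem_iff_ae_ae_mem hSm').mpr h2
    have h3 := hmp.quasiMeasurePreserving.ae hae
    filter_upwards [h3] with z hz
    have h4 : e.symm (e z) ∈ S := hz
    rw [e.symm_apply_apply] at h4
    exact h4

end Pool.Agent.Helper71.KH
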