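import Pool.Agent.Helper71.KH.Gram

/-!
# Project KH, piece SGF: normalised frames

PROOFS. `inertia`: the `b i` are linearly independent, so a basis of `V n` (`n + 1` vectors).
Existence: write `e0 = ∑ c i • b i`; `-1 = hf e0 e0 = ∑ ‖c i‖² hf (b i) (b i)`, so some value is negative.
Uniqueness: if `b i` and `b j`, `i ≠ j`, are both negative then `psd` for the scaled `b i`
(`exists_unit`) and `y = b j` gives `0 ≤ (hf (b j) (b j)).re`, a contradiction.
`fr_equiv`: `hf (g b) (g b) = hf b b` (`hf_mulVec`), so `fm i0 (g b) = g * fm i0 b`, of the same determinant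
(`det g = 1`).  `fr_meas`: continuous operations, the square root of a measurable function, inverse.
-/

set_option autoImplicit false

open MeasureTheory
open scoped Matrix ComplexConjugate

namespace Pool.Agent.Helper71.KH

variable {n : ℕ}

theorem inertia (b : Fin (n + 1) → V n) (h : ∀ i, hf (b i) (b i) ≠ 0)
    (ho : ∀ i j, i ≠ j → hf (b i) (b j) = 0) : ∃! i, (hf (b i) (b i)).re < 0 := by
  classical
  have hlin : LinearIndependent ℂ b := by
    rw [Fintype.linearIndependent_iff]
    intro c hc j
    have h1 : hf (∑ i, c i • b i) (b j) = c j * hf (b j) (b j) := by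
      rw [hf_sum_left, Finset.sum_eq_single j]
      · rw [hf_smul_left]
      · intro i _ hij
        rw [hf_smul_left, ho i j hij, mul_zero]
      · intro hj
        exact absurd (Finset.mem_univ _) hj
    rw [hc, hf_zero_left] at h1
    rcases mul_eq_zero.1 h1.symm with h2 | h2
    · exact h2
    · exact absurd h2 (h j)
  have hspan : Submodule.span ℂ (Set.range b) = ⊤ :=
    hlin.span_eq_top_of_card_eq_finrank' (by simp)
  have hex : ∃ i, (hf (b i) (b i)).re < 0 := by
    by_contra hcon
    push Not at hcon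
    obtain ⟨c, hc⟩ := (Submodule.mem_span_range_iff_exists_fun ℂ).1
      (show e0 n ∈ Submodule.span ℂ (Set.range b) by rw [hspan]; trivial)
    have h2 : hf (e0 n) (e0 n) = ∑ i, ((‖c i‖ ^ 2 : ℝ) : ℂ) * hf (b i) (b i) := by
      conv_lhs => rw [← hc]
      rw [hf_sum_left]
      refine Finset.sum_congr rfl fun i _ => ?_
      rw [hf_sum_right, Finset.sum_eq_single i]
      · rw [hf_smul_left, hf_smul_right, ← mul_assoc, Complex.mul_conj, Complex.normSq_eq_norm_sq]
      · intro j _ hij
        rw [hf_smul_left, hf_smul_right, ho i j hij.symm, mul_zero, mul_zero]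
      · intro hj
        exact absurd (Finset.mem_univ _) hj
    have h3 : (hf (e0 n) (e0 n)).re = -1 := by
      rw [hf_e0, e0_zero]
      simp
    rw [h2, Complex.re_sum] at h3
    have h4 : 0 ≤ ∑ i, (((‖c i‖ ^ 2 : ℝ) : ℂ) * hf (b i) (b i)).re := by
      refine Finset.sum_nonneg fun i _ => ?_
      rw [Complex.re_ofReal_mul]
      exact mul_nonneg (sq_nonneg _) (hcon i)
    linarith
  obtain ⟨i, hi⟩ := hex
  refine ⟨i, hi, fun j hj => ?_⟩
  by_contra hij
  obtain ⟨a, ha, hu⟩ := exists_unit (x := b i) hi
  have h5 : hf (b j) (a • b i) = 0 := by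
    rw [hf_smul_right, ho j i hij, mul_zero]
  exact absurd (psd hu h5) (not_le.2 hj)

/-- The matrix of the normalised vectors, `b i0` first. -/
noncomputable def fm (i0 : Fin (n + 1)) (b : Fin (n + 1) → V n) :
    Matrix (Fin (n + 1)) (Fin (n + 1)) ℂ :=
  Matrix.of fun r c =>
    (((Real.sqrt |(hf (b (Equiv.swap 0 i0 c)) (b (Equiv.swap 0 i0 c))).re|)⁻¹ : ℝ) : ℂ) *
      b (Equiv.swap 0 i0 c) r

/-- The same with determinant one. -/
noncomputable def fr (i0 : Fin (n + 1)) (b : Fin (n + 1) → V n) :
    Matrix (Fin (n + 1)) (Fin (n + 1)) ℂ :=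
  fm i0 b * Matrix.diagonal fun c => if c = 0 then conj (fm i0 b).det else 1

private theorem fm_equiv (g : SU n) (i0 : Fin (n + 1)) (b : Fin (n + 1) → V n) :
    fm i0 (fun i => g.1.1 *ᵥ b i) = g.1.1 * fm i0 b := by
  ext r c
  rw [Matrix.mul_apply]
  unfold fm
  simp only [Matrix.of_apply, hf_mulVec]
  rw [Matrix.mulVec, dotProduct, Finset.mul_sum]
  refine Finset.sum_congr rfl fun k _ => ?_
  ring

theorem fr_equiv (g : SU n) (i0 : Fin (n + 1)) (b : Fin (n + 1) → V n) :
    fr i0 (fun i => g.1.1 *ᵥ b i) = g.1.1 * fr i0 b := by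
  unfold fr
  rw [fm_equiv, Matrix.det_mul, g.1.2, one_mul, Matrix.mul_assoc]

private theorem fm_meas (i0 : Fin (n + 1)) (r c : Fin (n + 1)) :
    Measurable fun b : Fin (n + 1) → V n => fm i0 b r c := by
  unfold fm
  simp only [Matrix.of_apply]
  have h1 : Measurable fun b : Fin (n + 1) → V n => b (Equiv.swap 0 i0 c) r :=
    (measurable_pi_apply r).comp (measurable_pi_apply _)
  have h2 : Measurable fun b : Fin (n + 1) → V n =>
      hf (b (Equiv.swap 0 i0 c)) (b (Equiv.swap 0 i0 c)) := by
    have h3 : Continuous fun b : Fin (n + 1) → V n =>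
        (b (Equiv.swap 0 i0 c), b (Equiv.swap 0 i0 c)) := by fun_prop
    exact (continuous_hf.comp h3).measurable
  have h4 : Measurable fun b : Fin (n + 1) → V n =>
      (Real.sqrt |(hf (b (Equiv.swap 0 i0 c)) (b (Equiv.swap 0 i0 c))).re|)⁻¹ := by
    have h5 : Measurable fun t : ℂ => (Real.sqrt |t.re|)⁻¹ :=
      (Real.continuous_sqrt.measurable.comp
        (continuous_abs.measurable.comp Complex.measurable_re)).inv
    exact h5.comp h2
  exact (Complex.measurable_ofReal.comp h4).mul h1

theorem fr_meas (i0 : Fin (n + 1)) :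
    Measurable fun b : Fin (n + 1) → V n => fun r c => fr i0 b r c := by
  have hdet : Measurable fun b : Fin (n + 1) → V n => conj (fm i0 b).det := by
    have : Measurable fun b : Fin (n + 1) → V n => (fm i0 b).det := by
      simp only [Matrix.det_apply']
      refine Finset.measurable_sum _ fun σ _ => Measurable.const_mul ?_ _
      exact Finset.measurable_prod _ fun i _ => fm_meas i0 _ _
    exact Complex.continuous_conj.measurable.comp this
  refine measurable_pi_iff.2 fun r => measurable_pi_iff.2 fun c => ?_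
  unfold fr
  simp only [Matrix.mul_diagonal]
  refine (fm_meas i0 r c).mul ?_
  by_cases hc : c = 0
  · simp only [hc, if_true]
    exact hdet
  · simp only [hc, if_false]
    exact measurable_const

end Pool.Agent.Helper71.KH
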